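import Pool.Agent.H225R3.Smooth

/-! The explicit global coordinates on `Ω/PGL₁(ℍ)`. -/

set_option linter.unusedVariables false

open Quaternion Topology
open scoped ContDiff

namespace Pool.Agent.H225R3.CV

/-- The Zariski open set `Ω` of representations of the genus two surface group. -/
def Om : Set (Rep 2 PH) := {ρ | Good ρ}

lemma zariskiOpen_Om : IsZariskiOpen coordPH Om := by
  refine ⟨{bigF}, ?_, ?_⟩
  · rintro f hf
    rw [Set.mem_singleton_iff] at hf
    subst hf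
    exact bigF_mem
  · refine Set.ext fun ρ => ?_
    constructor
    · intro h; exact ⟨bigF, rfl, (bigF_ne_iff ρ).2 h⟩
    · rintro ⟨f, hf, h⟩
      rw [Set.mem_singleton_iff] at hf
      subst hf
      exact (bigF_ne_iff ρ).1 h

/-- the Gibbs vectors of the octagon generators -/
noncomputable def vg (ρ : Rep 2 PH) (i : Fin 4) : ℍ[ℝ] := gib (ρ (Y i))

lemma vg_re (ρ : Rep 2 PH) (i : Fin 4) : (vg ρ i).re = 0 := rfl

lemma vg_conj (h : HU) (ρ : Rep 2 PH) (i : Fin 4) :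
    vg (conjRep (QuotientGroup.mk h) ρ) i = cj h (vg ρ i) := by
  rw [vg, conjRep_apply, gib_conj, vg]

lemma good_conj (h : HU) (ρ : Rep 2 PH) (hρ : Good ρ) :
    Good (conjRep (QuotientGroup.mk h) ρ) := by
  have h0 : (h : ℍ[ℝ]) ≠ 0 := h.ne_zero
  obtain ⟨h1, h2, h3, h4⟩ := hρ
  have e : ∀ i, gib ((conjRep (QuotientGroup.mk h) ρ) (Y i)) = cj h (gib (ρ (Y i))) :=
    fun i => vg_conj h ρ i
  refine ⟨fun i => ?_, ?_, ?_, ?_⟩
  · rw [conjRep_apply, coord_conj]; exact h1 i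
  · rw [e, e, cr_cj h0]; exact cj_ne_zero h0 h2
  · rw [e, e, e, wp_cj h0]; exact cj_ne_zero h0 h3
  · rw [e, e, e, wm_cj h0]; exact cj_ne_zero h0 h4

lemma conjInvariant_Om : ConjInvariant Om := by
  intro k ρ hρ
  obtain ⟨h, rfl⟩ := QuotientGroup.mk_surjective k
  exact good_conj h ρ hρ

/-- the word `Y₀Y₁Y₂Y₃` on Gibbs vectors -/
noncomputable def wd (v : Fin 4 → ℍ[ℝ]) : ℍ[ℝ] := (1 + v 0) * (1 + v 1) * (1 + v 2) * (1 + v 3)
/-- the word `Y₃Y₂Y₁Y₀` on Gibbs vectors -/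
noncomputable def wd' (v : Fin 4 → ℍ[ℝ]) : ℍ[ℝ] := (1 + v 3) * (1 + v 2) * (1 + v 1) * (1 + v 0)

lemma one_add_ne {v : ℍ[ℝ]} (hv : v.re = 0) : (1 : ℍ[ℝ]) + v ≠ 0 := by
  intro h
  have := congrArg (fun q : ℍ[ℝ] => q.re) h
  simp [hv] at this

lemma wd_ne {v : Fin 4 → ℍ[ℝ]} (hv : ∀ i, (v i).re = 0) : wd v ≠ 0 :=
  mul_ne_zero (mul_ne_zero (mul_ne_zero (one_add_ne (hv 0)) (one_add_ne (hv 1)))
    (one_add_ne (hv 2))) (one_add_ne (hv 3))
lemma wd'_ne {v : Fin 4 → ℍ[ℝ]} (hv : ∀ i, (v i).re = 0) : wd' v ≠ 0 :=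
  mul_ne_zero (mul_ne_zero (mul_ne_zero (one_add_ne (hv 3)) (one_add_ne (hv 2)))
    (one_add_ne (hv 1))) (one_add_ne (hv 0))

lemma normSq_wd (v : Fin 4 → ℍ[ℝ]) : normSq (wd v) = normSq (wd' v) := by
  simp only [wd, wd', map_mul]; ring

/-- the product of four rotations -/
lemma rot_prod {v : Fin 4 → ℍ[ℝ]} (hv : ∀ i, (v i).re = 0) :
    rot (v 0) * rot (v 1) * rot (v 2) * rot (v 3) =
      QuotientGroup.mk (Units.mk0 (wd v) (wd_ne hv)) := by
  simp only [rot, ← QuotientGroup.mk_mul]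
  congr 1
  ext : 1
  simp only [Units.val_mul, onePlus_val (hv _), Units.val_mk0, wd]

lemma rot_prod' {v : Fin 4 → ℍ[ℝ]} (hv : ∀ i, (v i).re = 0) :
    rot (v 3) * rot (v 2) * rot (v 1) * rot (v 0) =
      QuotientGroup.mk (Units.mk0 (wd' v) (wd'_ne hv)) := by
  simp only [rot, ← QuotientGroup.mk_mul]
  congr 1
  ext : 1
  simp only [Units.val_mul, onePlus_val (hv _), Units.val_mk0, wd']

lemma rot_rel_iff {v : Fin 4 → ℍ[ℝ]} (hv : ∀ i, (v i).re = 0) :
    rot (v 0) * rot (v 1) * rot (v 2) * rot (v 3) = rot (v 3) * rot (v 2) * rot (v 1) * rot (v 0) ↔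
      ∃ r : ℝ, (r = 1 ∨ r = -1) ∧ wd v = r • wd' v := by
  rw [rot_prod hv, rot_prod' hv]
  constructor
  · intro h
    obtain ⟨r, hr, h1⟩ := mk_eq_mk.1 h.symm
    simp only [Units.val_mk0] at h1
    refine ⟨r, ?_, h1⟩
    have h2 := normSq_wd v
    rw [h1, Quaternion.normSq_smul] at h2
    have h3 : normSq (wd' v) ≠ 0 := by rw [Ne, Quaternion.normSq_eq_zero]; exact wd'_ne hv
    have h4 : r ^ 2 = 1 := by
      have : (r ^ 2 - 1) * normSq (wd' v) = 0 := by linarith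
      rcases mul_eq_zero.1 this with h | h
      · linarith
      · exact absurd h h3
    have h5 : (r - 1) * (r + 1) = 0 := by nlinarith
    rcases mul_eq_zero.1 h5 with h | h
    · left; linarith
    · right; linarith
  · rintro ⟨r, hr, h1⟩
    refine (mk_eq_mk.2 ⟨r, ?_, h1⟩).symm
    rcases hr with rfl | rfl <;> norm_num

/-- the sign of a representation -/
noncomputable def sgn (v : Fin 4 → ℍ[ℝ]) : ℝ := (wd v * (wd' v)⁻¹).re

lemma sgn_eq {v : Fin 4 → ℍ[ℝ]} (hv : ∀ i, (v i).re = 0) {r : ℝ} (h : wd v = r • wd' v) :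
    sgn v = r := by
  rw [sgn, h, smul_mul_assoc, mul_inv_cancel₀ (wd'_ne hv)]
  simp

lemma Y_app_rel (ρ : Rep 2 PH) : ρ (Y 0) * ρ (Y 1) * ρ (Y 2) * ρ (Y 3) =
    ρ (Y 3) * ρ (Y 2) * ρ (Y 1) * ρ (Y 0) := by
  simp only [← map_mul, Y_rel]

lemma good_rel {ρ : Rep 2 PH} (hρ : Good ρ) :
    (sgn (vg ρ) = 1 ∨ sgn (vg ρ) = -1) ∧ wd (vg ρ) = sgn (vg ρ) • wd' (vg ρ) := by
  have h := Y_app_rel ρ
  have e : ∀ i, ρ (Y i) = rot (vg ρ i) := fun i => (rot_gib (hρ.1 i)).symm
  rw [e 0, e 1, e 2, e 3, rot_rel_iff (vg_re ρ)] at h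
  obtain ⟨r, hr, h1⟩ := h
  rw [sgn_eq (vg_re ρ) h1]
  exact ⟨hr, h1⟩

/-- the six coordinates of four Gibbs vectors -/
noncomputable def six (v : Fin 4 → ℍ[ℝ]) : E6 :=
  ![sgn v * dot (v 0) (v 0), dot (v 0) (v 1), dot (v 1) (v 1), dot (v 2) (v 0),
    (1 + sgn v) / 2 * dot (v 2) (v 1) + (1 - sgn v) / 2 * dt (v 0) (v 1) (v 2),
    dot (v 3) (wr (sgn v) (v 0) (v 1) (v 2)) /
      dot (wr (sgn v) (v 0) (v 1) (v 2)) (wr (sgn v) (v 0) (v 1) (v 2))]

/-- The coordinates `Φ` of a representation. -/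
noncomputable def Phi (ρ : Rep 2 PH) : E6 := six (vg ρ)

/-- conjugation of the word -/
lemma wd_cj {h : ℍ[ℝ]} (hh : h ≠ 0) (v : Fin 4 → ℍ[ℝ]) : wd (fun i => cj h (v i)) = cj h (wd v) := by
  have : ∀ x, 1 + cj h x = cj h (1 + x) := fun x => by rw [cj_add, cj_one hh]
  simp only [wd, this, ← cj_mul hh]
lemma wd'_cj {h : ℍ[ℝ]} (hh : h ≠ 0) (v : Fin 4 → ℍ[ℝ]) :
    wd' (fun i => cj h (v i)) = cj h (wd' v) := by
  have : ∀ x, 1 + cj h x = cj h (1 + x) := fun x => by rw [cj_add, cj_one hh]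
  simp only [wd', this, ← cj_mul hh]

lemma sgn_cj {h : ℍ[ℝ]} (hh : h ≠ 0) (v : Fin 4 → ℍ[ℝ]) : sgn (fun i => cj h (v i)) = sgn v := by
  rw [sgn, wd_cj hh, wd'_cj hh]
  have h2 : (cj h (wd' v))⁻¹ = cj h (wd' v)⁻¹ := by
    simp [cj, mul_inv_rev, mul_assoc]
  rw [h2, ← cj_mul hh, cj_re hh, sgn]

lemma six_cj {h : ℍ[ℝ]} (hh : h ≠ 0) (v : Fin 4 → ℍ[ℝ]) : six (fun i => cj h (v i)) = six v := by
  simp only [six, sgn_cj hh, dot_cj hh, dt_cj hh, wr_cj hh]

/-- The normal form of a good representation. -/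
lemma normal_form {ρ : Rep 2 PH} (hρ : Good ρ) :
    Phi ρ ∈ UU ∧ ∃ h : HU, ∀ i, vv (Phi ρ) i = cj h (vg ρ i) := by
  obtain ⟨hs, hrel⟩ := good_rel hρ
  obtain ⟨h1, h2, h3, h4⟩ := hρ
  set v := vg ρ with hv
  have hre : ∀ i, (v i).re = 0 := vg_re ρ
  have h2' : cr (v 0) (v 1) ≠ 0 := h2
  have h3' : wp (v 0) (v 1) (v 2) ≠ 0 := h3
  have h4' : wm (v 0) (v 1) (v 2) ≠ 0 := h4
  have hrel' := (octagon_iff (hre 0) (hre 1) (hre 2) (hre 3) hs).1 hrel
  obtain ⟨r1, r2, r3, r4⟩ := hrel'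
  set u := Phi ρ with hu
  have u0 : u 0 = sgn v * dot (v 0) (v 0) := rfl
  have u1 : u 1 = dot (v 0) (v 1) := rfl
  have u2 : u 2 = dot (v 1) (v 1) := rfl
  have u3 : u 3 = dot (v 2) (v 0) := rfl
  have u4 : u 4 = (1 + sgn v) / 2 * dot (v 2) (v 1) + (1 - sgn v) / 2 * dt (v 0) (v 1) (v 2) := rfl
  have u5 : u 5 = dot (v 3) (wr (sgn v) (v 0) (v 1) (v 2)) /
      dot (wr (sgn v) (v 0) (v 1) (v 2)) (wr (sgn v) (v 0) (v 1) (v 2)) := rfl
  have a0 : v 0 ≠ 0 := by intro h; apply h2'; rw [h]; simp [cr]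
  have apos := dot_self_pos (hre 0) a0
  have habs : |u 0| = dot (v 0) (v 0) := by
    rw [u0, abs_mul, abs_of_pos apos]
    rcases hs with h | h <;> rw [h] <;> simp
  have hr : rr u = sgn v := by
    rw [rr, habs, u0]; field_simp
  have hne : u 0 ≠ 0 := by
    rw [u0]; refine mul_ne_zero ?_ apos.ne'
    rcases hs with h | h <;> rw [h] <;> norm_num
  have hU0 : u ∈ U0 := by
    refine ⟨hne, ?_⟩
    have := dot_self_pos (cr_re (v 0) (v 1)) h2'
    rw [dot_cr_cr (hre 0) (hre 1)] at this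
    rw [habs, u1, u2]; linarith
  obtain ⟨h, hh, ha, hb⟩ := exists_rot (hre 0) (hre 1) (va_re u) (vb_re u)
    (by rw [gram_aa, habs]) (by rw [gram_ab hne, u1]) (by rw [gram_bb hU0, u2]) h2'
  have hc : cj h (v 2) = vc u := by
    refine eq_of_dots (va_re u) (vb_re u) (by rw [cj_re hh, hre]) (vc_re u) (gram_cr hU0) ?_ ?_ ?_
    · rw [← ha, dot_cj hh, ha, gram_ca hne, u3]
    · rw [← hb, dot_cj hh, hb, gram_cb hU0, kap, hr, u4, u1, u3]
      rcases hs with h | h
      · rw [h]; ring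
      · rw [h]
        have := r2 h
        rw [ee, dot_comm' (v 1) (v 2)] at this
        linarith
    · rw [gram_dt hU0, hr, u4, ← ha, ← hb, dt_cj hh]
      rcases hs with h | h
      · rw [h, r1 h]; ring
      · rw [h]; ring
  have hd : cj h (v 3) = vd u := by
    have hw : wr (sgn v) (v 0) (v 1) (v 2) ≠ 0 := by
      rcases hs with h | h <;> rw [h]
      · rw [wr_one]; exact h3'
      · rw [wr_neg_one]; exact h4'
    have h5 := eq_dvec (hre 0) (hre 1) (hre 2) (hre 3) hw r3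
    rw [vd, ← ha, ← hb, ← hc, hr, dvec_cj hh, u5, ← h5]
  refine ⟨⟨hU0, ?_, ?_⟩, Units.mk0 h hh, ?_⟩
  · rw [← ha, ← hb, ← hc, wp_cj hh]; exact cj_ne_zero hh h3'
  · rw [← ha, ← hb, ← hc, wm_cj hh]; exact cj_ne_zero hh h4'
  · intro i
    rw [Units.val_mk0]
    fin_cases i
    · exact ha.symm
    · exact hb.symm
    · exact hc.symm
    · exact hd.symm

/-- The coordinates of the normal form. -/
lemma six_vv {u : E6} (hu : u ∈ UU) : six (vv u) = u := by
  have hsg : sgn (vv u) = rr u := sgn_eq (vv_re u) (vv_rel hu)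
  have hs := dvec_spec (va_re u) (vb_re u) (vc_re u) (rr_cases hu.1.1) (sign_dt hu.1)
    (sign_ee hu.1) (wr_ne_zero hu) (u 5)
  have hpos : |u 0| ≠ 0 := (abs_pos.2 hu.1.1).ne'
  ext i
  fin_cases i
  · show sgn (vv u) * dot (va u) (va u) = u 0
    rw [hsg, gram_aa, rr]; field_simp
  · exact gram_ab hu.1.1
  · exact gram_bb hu.1
  · exact gram_ca hu.1.1
  · show (1 + sgn (vv u)) / 2 * dot (vc u) (vb u) + (1 - sgn (vv u)) / 2 *
      dt (va u) (vb u) (vc u) = u 4
    rw [hsg, gram_cb hu.1, gram_dt hu.1, kap]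
    rcases rr_cases hu.1.1 with h | h <;> rw [h] <;> ring
  · show dot (vd u) (wr (sgn (vv u)) (va u) (vb u) (vc u)) /
      dot (wr (sgn (vv u)) (va u) (vb u) (vc u)) (wr (sgn (vv u)) (va u) (vb u) (vc u)) = u 5
    rw [hsg]; exact hs.2.2

/-- The representation with coordinates `u`. -/
noncomputable def sec (u : UU) : Rep 2 PH :=
  mkRep (fun i => rot (vv u i)) ((rot_rel_iff (vv_re u)).2
    ⟨rr u, rr_cases u.2.1.1, vv_rel u.2⟩)

lemma sec_Y (u : UU) (i : Fin 4) : sec u (Y i) = rot (vv u i) := mkRep_Y _ _ i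

lemma vg_sec (u : UU) : vg (sec u) = vv u := by
  ext i : 1
  rw [vg, sec_Y, gib_rot (vv_re _ i)]

lemma good_sec (u : UU) : Good (sec u) := by
  have h := vg_sec u
  have e : ∀ i, gib (sec u (Y i)) = vv u i := fun i => congrFun h i
  refine ⟨fun i => ?_, ?_, ?_, ?_⟩
  · rw [sec_Y]; exact coord_rot_ne (vv_re _ i)
  · rw [e, e]; exact gram_cr u.2.1
  · rw [e, e, e]; exact u.2.2.1
  · rw [e, e, e]; exact u.2.2.2

lemma Phi_sec (u : UU) : Phi (sec u) = u := by
  rw [Phi, vg_sec, six_vv u.2]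

lemma Phi_conj (k : PH) (ρ : Rep 2 PH) : Phi (conjRep k ρ) = Phi ρ := by
  obtain ⟨h, rfl⟩ := QuotientGroup.mk_surjective k
  have : vg (conjRep (QuotientGroup.mk h) ρ) = fun i => cj h (vg ρ i) := by
    ext i : 1; exact vg_conj h ρ i
  rw [Phi, this, six_cj h.ne_zero, Phi]

/-- Two good representations with the same coordinates are conjugate. -/
lemma conj_of_Phi_eq {ρ ρ' : Rep 2 PH} (h1 : Good ρ) (h2 : Good ρ') (h : Phi ρ = Phi ρ') :
    ∃ k : PH, ρ' = conjRep k ρ := by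
  obtain ⟨-, k1, hk1⟩ := normal_form h1
  obtain ⟨-, k2, hk2⟩ := normal_form h2
  refine ⟨(QuotientGroup.mk k2 : PH)⁻¹ * QuotientGroup.mk k1, ?_⟩
  have e : ∀ i, conjRep (QuotientGroup.mk k2) ρ' (Y i) = conjRep (QuotientGroup.mk k1) ρ (Y i) := by
    intro i
    have f1 : conjRep (QuotientGroup.mk k1) ρ (Y i) = rot (cj k1 (vg ρ i)) := by
      rw [conjRep_apply, ← rot_gib (h1.1 i), conj_rot k1 (gib_re _), ← vg]
    have f2 : conjRep (QuotientGroup.mk k2) ρ' (Y i) = rot (cj k2 (vg ρ' i)) := by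
      rw [conjRep_apply, ← rot_gib (h2.1 i), conj_rot k2 (gib_re _), ← vg]
    rw [f1, f2, ← hk1, ← hk2, h]
  refine Rep.ext_Y fun i => ?_
  have h3 := e i
  rw [conjRep_apply, conjRep_apply] at h3
  rw [conjRep_apply]
  calc ρ' (Y i) = (QuotientGroup.mk k2 : PH)⁻¹ *
        ((QuotientGroup.mk k2 : PH) * ρ' (Y i) * (QuotientGroup.mk k2 : PH)⁻¹) *
          (QuotientGroup.mk k2 : PH) := by group
    _ = _ := by rw [h3]; group

/-! ### continuity -/

lemma continuous_mkQ {X : Type*} [TopologicalSpace X] {f0 f1 f2 f3 : X → ℝ} (h0 : Continuous f0)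
    (h1 : Continuous f1) (h2 : Continuous f2) (h3 : Continuous f3) :
    Continuous fun x => mkQ (f0 x) (f1 x) (f2 x) (f3 x) := by
  have : (fun x => mkQ (f0 x) (f1 x) (f2 x) (f3 x)) = fun x => f0 x • mkQ 1 0 0 0 +
      f1 x • mkQ 0 1 0 0 + f2 x • mkQ 0 0 1 0 + f3 x • mkQ 0 0 0 1 := by
    ext x <;> simp
  rw [this]
  fun_prop

lemma continuous_dot {X : Type*} [TopologicalSpace X] {f g : X → ℍ[ℝ]} (hf : Continuous f)
    (hg : Continuous g) : Continuous fun x => dot (f x) (g x) :=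
  (Quaternion.continuous_re.comp (hf.mul hg)).neg
lemma continuous_cr {X : Type*} [TopologicalSpace X] {f g : X → ℍ[ℝ]} (hf : Continuous f)
    (hg : Continuous g) : Continuous fun x => cr (f x) (g x) :=
  Quaternion.continuous_im.comp (hf.mul hg)

lemma continuous_vg (i : Fin 4) : Continuous fun ρ : Om => vg ρ.1 i := by
  have h : ∀ a b : Fin 4, Continuous fun ρ : Om => coord a b (ρ.1 (Y i)) := fun a b =>
    (continuous_coord a b).comp ((continuous_app (Y i)).comp continuous_subtype_val)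
  have h0 : ∀ ρ : Om, coord 0 0 (ρ.1 (Y i)) ≠ 0 := fun ρ => ρ.2.1 i
  exact continuous_mkQ continuous_const ((h 0 1).div (h 0 0) h0) ((h 0 2).div (h 0 0) h0)
    ((h 0 3).div (h 0 0) h0)

lemma continuous_sgn : Continuous fun ρ : Om => sgn (vg ρ.1) := by
  have h := continuous_vg
  have h1 : Continuous fun ρ : Om => wd (vg ρ.1) := by
    unfold wd
    exact (((continuous_const.add (h 0)).mul (continuous_const.add (h 1))).mul
      (continuous_const.add (h 2))).mul (continuous_const.add (h 3))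
  have h2 : Continuous fun ρ : Om => wd' (vg ρ.1) := by
    unfold wd'
    exact (((continuous_const.add (h 3)).mul (continuous_const.add (h 2))).mul
      (continuous_const.add (h 1))).mul (continuous_const.add (h 0))
  exact Quaternion.continuous_re.comp (h1.mul (h2.inv₀ fun ρ => wd'_ne (vg_re ρ.1)))

lemma continuous_Phi : Continuous fun ρ : Om => Phi ρ.1 := by
  have h := continuous_vg
  have hs := continuous_sgn
  have hwp : Continuous fun ρ : Om => wp (vg ρ.1 0) (vg ρ.1 1) (vg ρ.1 2) := by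
    unfold wp
    exact (((continuous_const.sub (continuous_dot (h 1) (h 2))).smul (h 0)).add
      ((continuous_const.add (continuous_dot (h 0) (h 2))).smul (h 1))).add
      ((continuous_const.sub (continuous_dot (h 0) (h 1))).smul (h 2))
  have hwm : Continuous fun ρ : Om => wm (vg ρ.1 0) (vg ρ.1 1) (vg ρ.1 2) := by
    unfold wm
    exact ((continuous_cr (h 0) (h 1)).add (continuous_cr (h 1) (h 2))).add
      (continuous_cr (h 0) (h 2))
  have hw : Continuous fun ρ : Om => wr (sgn (vg ρ.1)) (vg ρ.1 0) (vg ρ.1 1) (vg ρ.1 2) := by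
    unfold wr
    exact (((continuous_const.add hs).div_const 2).smul hwp).add
      (((continuous_const.sub hs).div_const 2).smul hwm)
  have hne : ∀ ρ : Om, dot (wr (sgn (vg ρ.1)) (vg ρ.1 0) (vg ρ.1 1) (vg ρ.1 2))
      (wr (sgn (vg ρ.1)) (vg ρ.1 0) (vg ρ.1 1) (vg ρ.1 2)) ≠ 0 := by
    intro ρ
    refine ((dot_self_eq_zero (wr_re (vg_re _ 0) (vg_re _ 1) (vg_re _ 2))).not).2 ?_
    rcases (good_rel ρ.2).1 with h | h <;> rw [h]
    · rw [wr_one]; exact ρ.2.2.2.1
    · rw [wr_neg_one]; exact ρ.2.2.2.2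
  refine continuous_pi fun i => ?_
  fin_cases i
  · exact hs.mul (continuous_dot (h 0) (h 0))
  · exact continuous_dot (h 0) (h 1)
  · exact continuous_dot (h 1) (h 1)
  · exact continuous_dot (h 2) (h 0)
  · exact (((continuous_const.add hs).div_const 2).mul (continuous_dot (h 2) (h 1))).add
      (((continuous_const.sub hs).div_const 2).mul (continuous_dot (h 0) (continuous_cr (h 1) (h 2))))
  · exact (continuous_dot (h 3) hw).div (continuous_dot hw hw) hne

lemma continuous_sec : Continuous sec := by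
  refine continuous_induced_rng.2 ?_
  refine continuous_pi fun x => ?_
  have h : ∀ i, Continuous fun u : UU => rot (vv u i) := fun i =>
    continuous_rot_of (continuousOn_iff_continuous_domRestrict.1 (cd_vv i).continuousOn)
  have e : ((fun (ρ : SurfaceGroup 2 →* PH) (x : Fin 2 ⊕ Fin 2) => ρ (gen x)) ∘ sec) =
      fun (u : UU) (x : Fin 2 ⊕ Fin 2) => (sec u) (gen x) := rfl
  rw [e]
  have e2 : (fun u : UU => (fun (x : Fin 2 ⊕ Fin 2) => (sec u) (gen x)) x) = fun u : UU =>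
    Sum.elim ![rot (vv u 0) * (rot (vv u 2) * rot (vv u 3))⁻¹, rot (vv u 2) * rot (vv u 3)]
    ![rot (vv u 2) * rot (vv u 3) * rot (vv u 1), rot (vv u 3)] x := by
    ext u : 1
    exact mkRep_gen _ _ x
  rw [e2]
  rcases x with x | x <;> fin_cases x
  · exact (h 0).mul ((h 2).mul (h 3)).inv
  · exact (h 2).mul (h 3)
  · exact ((h 2).mul (h 3)).mul (h 1)
  · exact h 3

/-- General lemma: an invariant separating the classes, with open image and a continuous section,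
gives an open embedding of the quotient. -/
lemma quotient_isOpenEmbedding {X E : Type*} [TopologicalSpace X] [TopologicalSpace E]
    (s : Setoid X) (F : X → E) (hF : Continuous F) (hs : ∀ x y, s x y ↔ F x = F y)
    (U : Set E) (hU : IsOpen U) (hmem : ∀ x, F x ∈ U) (σ : U → X) (hσ : Continuous σ)
    (hσF : ∀ u : U, F (σ u) = u) :
    IsOpenEmbedding (Quotient.lift F (fun x y h => (hs x y).1 h) : Quotient s → E) := by
  set G : Quotient s → E := Quotient.lift F (fun x y h => (hs x y).1 h) with hG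
  refine IsOpenEmbedding.of_continuous_injective_isOpenMap ?_ ?_ ?_
  · exact hF.quotient_lift _
  · intro a b
    induction a using Quotient.inductionOn with | _ x => ?_
    induction b using Quotient.inductionOn with | _ y => ?_
    intro h
    exact Quotient.sound ((hs x y).2 h)
  · intro V hV
    have h1 : G '' V = Subtype.val '' ((fun u : U => (Quotient.mk s (σ u))) ⁻¹' V) := by
      refine Set.ext fun e => ?_
      constructor
      · rintro ⟨a, ha, rfl⟩
        induction a using Quotient.inductionOn with | _ x => ?_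
        refine ⟨⟨F x, hmem x⟩, ?_, rfl⟩
        have : Quotient.mk s (σ ⟨F x, hmem x⟩) = Quotient.mk s x :=
          Quotient.sound ((hs _ _).2 (hσF ⟨F x, hmem x⟩))
        show Quotient.mk s (σ ⟨F x, hmem x⟩) ∈ V
        rw [this]; exact ha
      · rintro ⟨u, hu, rfl⟩
        exact ⟨_, hu, hσF u⟩
    rw [h1]
    exact hU.isOpenMap_subtype_val _ (hV.preimage (continuous_quot_mk.comp hσ))

end Pool.Agent.H225R3.CV
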