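import Mathlib

/-! Definitions: CAT(0) cube complexes, piecewise `ℓᵖ` metrics, compactifications. -/

open scoped ENNReal NNReal

namespace Pool.Agent.H225R3.Cube

variable {H : Type}

/-- `V ⊆ {0,1}^H` is the vertex set of a CAT(0) cube complex (with hyperplanes in `H`): any two
vertices differ in finitely many coordinates, `V` is closed under the median (coordinatewise
majority), and `V` is isometrically embedded in the cube: from a vertex one can move towards any
other vertex by changing one coordinate. (The cube complexes of median graphs.) -/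
structure IsCAT0 (V : Set (H → Bool)) : Prop where
  nonempty : V.Nonempty
  finite_diff : ∀ v ∈ V, ∀ w ∈ V, {h | v h ≠ w h}.Finite
  median : ∀ u ∈ V, ∀ v ∈ V, ∀ w ∈ V, (fun h => (u h && v h) || (v h && w h) || (w h && u h)) ∈ V
  connected : ∀ v ∈ V, ∀ w ∈ V, v ≠ w → ∃ h, v h ≠ w h ∧ ∃ v' ∈ V, v' h = w h ∧ ∀ k ≠ h, v' k = v k

/-- The subset `A` of the coordinates spans a cube at the vertex `v`: all vertices obtained from `v`
by changing coordinates in `A` are in `V`. -/
def IsCube (V : Set (H → Bool)) (v : H → Bool) (A : Finset H) : Prop :=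
  ∀ w : H → Bool, (∀ h, h ∉ A → w h = v h) → w ∈ V

/-- The closed cube spanned by `A` at `v`, as a subset of `ℝ^H`. -/
def cube (v : H → Bool) (A : Finset H) : Set (H → ℝ) :=
  {x | (∀ h ∈ A, 0 ≤ x h ∧ x h ≤ 1) ∧ ∀ h, h ∉ A → x h = if v h then 1 else 0}

/-- `x` and `y` lie in a common cube. -/
def SameCube (V : Set (H → Bool)) (x y : H → ℝ) : Prop :=
  ∃ v A, IsCube V v A ∧ x ∈ cube v A ∧ y ∈ cube v A

/-- The cube complex (its geometric realization), the union of its closed cubes. -/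
def Space (V : Set (H → Bool)) : Set (H → ℝ) := {x | ∃ v A, IsCube V v A ∧ x ∈ cube v A}

/-- The `ℓᵖ` distance of two points of a cube. -/
noncomputable def lpDist (p : ℝ) (x y : H → ℝ) : ℝ := (∑ᶠ h, |x h - y h| ^ p) ^ (1 / p)

/-- There is a chain of points of `ℓᵖ` length `ℓ` from `x` to `y` in which consecutive points lie in
a common cube. -/
inductive Chain (V : Set (H → Bool)) (p : ℝ) : (H → ℝ) → (H → ℝ) → ℝ → Prop
  | nil (x : H → ℝ) : Chain V p x x 0
  | cons (x y z : H → ℝ) (ℓ : ℝ) : SameCube V x y → Chain V p y z ℓ →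
      Chain V p x z (lpDist p x y + ℓ)

/-- The piecewise `ℓᵖ` metric: the infimum of the lengths of the chains. -/
noncomputable def pdist (V : Set (H → Bool)) (p : ℝ) (x y : H → ℝ) : ℝ≥0∞ :=
  ⨅ (ℓ : ℝ) (_ : Chain V p x y ℓ), ENNReal.ofReal ℓ

/-- `c` is a geodesic ray issuing from `o`. -/
def IsRay (V : Set (H → Bool)) (p : ℝ) (o : H → ℝ) (c : ℝ≥0 → Space V) : Prop :=
  (c 0 : H → ℝ) = o ∧ ∀ s t, s ≤ t → pdist V p (c s) (c t) = ENNReal.ofReal (t - s)

/-- The compactification: the points and the geodesic rays issuing from `o`. -/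
inductive Cpt (V : Set (H → Bool)) (p : ℝ) (o : H → ℝ) : Type
  | pt (x : Space V) : Cpt V p o
  | ray (c : ℝ≥0 → Space V) (hc : IsRay V p o c) : Cpt V p o

/-- The open ball. -/
def ball (V : Set (H → Bool)) (p : ℝ) (o : H → ℝ) (x : Space V) (ε : ℝ) : Set (Cpt V p o) :=
  {z | ∃ y : Space V, z = Cpt.pt y ∧ pdist V p x y < ENNReal.ofReal ε}

/-- The neighbourhood `U(c,R,ε)` of the ray `c`: the points and rays whose geodesic from `o` passes,
at distance `R` from `o`, within `ε` of `c(R)`. -/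
def nbhd (V : Set (H → Bool)) (p : ℝ) (o : H → ℝ) (c : ℝ≥0 → Space V) (R : ℝ≥0) (ε : ℝ) :
    Set (Cpt V p o) :=
  {z | (∃ x : Space V, z = Cpt.pt x ∧ ENNReal.ofReal R < pdist V p o x ∧
      ∃ y : Space V, pdist V p o y = ENNReal.ofReal R ∧
        pdist V p o y + pdist V p y x = pdist V p o x ∧ pdist V p y (c R) < ENNReal.ofReal ε) ∨
    ∃ c' hc', z = Cpt.ray c' hc' ∧ pdist V p (c' R) (c R) < ENNReal.ofReal ε}

/-- The cone topology, generated by the open balls and the sets `U(c,R,ε)`. -/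
instance (V : Set (H → Bool)) (p : ℝ) (o : H → ℝ) : TopologicalSpace (Cpt V p o) :=
  TopologicalSpace.generateFrom
    ({s | ∃ x ε, 0 < ε ∧ s = ball V p o x ε} ∪
      {s | ∃ c R ε, IsRay V p o c ∧ 0 < ε ∧ s = nbhd V p o c R ε})

/-- A group `G` of permutations of the hyperplanes acts on the complex by automorphisms, and the
action is cocompact: the translates of finitely many cubes cover the complex. -/
def IsCocompact (V : Set (H → Bool)) : Prop :=
  ∃ G : Subgroup (Equiv.Perm H), (∀ π ∈ G, ∀ v ∈ V, v ∘ π ∈ V) ∧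
    ∃ K : Set ((H → Bool) × Finset H), K.Finite ∧ (∀ C ∈ K, IsCube V C.1 C.2) ∧
      ∀ x ∈ Space V, ∃ π ∈ G, ∃ C ∈ K, x ∘ π ∈ cube C.1 C.2

/-- Every vertex has finitely many neighbours. -/
def IsLocallyFinite (V : Set (H → Bool)) : Prop :=
  ∀ v ∈ V, {h | ∃ v' ∈ V, v' h ≠ v h ∧ ∀ k ≠ h, v' k = v k}.Finite

/-- The identity of the complex extends to a homeomorphism of the compactifications for `p`, `r`. -/
def IdExtends (V : Set (H → Bool)) (o : H → ℝ) (p r : ℝ) : Prop :=
  ∃ Φ : Cpt V p o ≃ₜ Cpt V r o, ∀ x : Space V, Φ (Cpt.pt x) = Cpt.pt x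

end Pool.Agent.H225R3.Cube
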