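import Pool.Agent.H225R3.CubeMain

/-! The main theorem on compactifications of cube complexes. -/

namespace Pool.Agent.H225R3.Cube

theorem cube_main : ∃ (H : Type) (V : Set (H → Bool)) (o : H → ℝ), IsCAT0 V ∧ IsLocallyFinite V ∧
    (∀ v A, IsCube V v A → A.card ≤ 3) ∧ IsCocompact V ∧ o ∈ Space V ∧
    ∀ p : ℝ, 1 < p → p ≠ 2 → ¬ IdExtends V o p 2 :=
  ⟨HX, VX, oo, isCAT0_VX, isLocallyFinite_VX, fun _ _ h => dim_VX h, isCocompact_VX,
    PP_real (by norm_num) le_rfl 0, fun _ h1 h2 => not_extends h1 h2⟩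

end Pool.Agent.H225R3.Cube
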