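import Pool.Agent.H225R3.CubeRay

/-! The identity does not extend. -/

set_option linter.unusedVariables false

open scoped ENNReal NNReal Topology
open Filter

namespace Pool.Agent.H225R3.Cube

lemma fN_PP (q : ℝ) {lam : ℝ} (h : 0 ≤ lam) (s : ℝ) (n : ℕ) :
    fN q n (PP q lam s) = min lam (LL q n) := by
  have h0 := sum_cl (ln q) (ln_pos q) lam h n
  rw [LL, ← h0, fN]
  refine Finset.sum_congr rfl fun j _ => ?_
  rw [PP_gg, PP_gg]
  simp only [if_true, Bool.false_eq_true, if_false]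
  change _ = ln q j * cl ((lam - LL q j) / ln q j)
  set c := cl ((lam - LL q j) / ln q j) with hc
  split_ifs with hd
  · have ht : t j = true ∧ t (j + 1) = true := by simpa [dg] using hd
    rw [ht.1, ht.2]
    have e : ln q j = 2 ^ (1 / q) := by rw [ln, if_pos hd]
    rw [e, Real.rpow_sub (by norm_num), Real.rpow_one]
    simp [bv]; ring
  · have e : ln q j = 1 := by rw [ln, if_neg hd]
    rw [e, one_mul]

lemma sM_PP (q lam : ℝ) {s : ℝ} (h : 0 ≤ s) (m : ℕ) : sM m (PP q lam s) = min s m := by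
  have h1 := sum_cl (fun _ => 1) (fun _ => one_pos) s h m
  simp only [Finset.sum_const, Finset.card_range, nsmul_eq_mul, mul_one, one_mul, div_one] at h1
  rw [← h1, sM]
  refine Finset.sum_congr rfl fun j _ => ?_
  rw [PP_inr]; push_cast; rfl

/-- the point at the end of the step `i` does not depend on `q` -/
lemma PP_LL (q q' : ℝ) (i : ℕ) (s : ℝ) : PP q (LL q i) s = PP q' (LL q' i) s := by
  have h : ∀ (q : ℝ) (j : ℕ), cl ((LL q i - LL q j) / ln q j) = if j < i then 1 else 0 := by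
    intro q j
    split_ifs with h
    · have : LL q (j + 1) ≤ LL q i := LL_mono q h
      rw [LL_succ] at this
      exact cl_one ((one_le_div (ln_pos q j)).2 (by linarith))
    · have : LL q i ≤ LL q j := LL_mono q (not_lt.1 h)
      exact cl_zero (div_nonpos_of_nonpos_of_nonneg (by linarith) (ln_pos q j).le)
  simp only [PP, h]

/-- upper bound on lines -/
lemma line_ub {q : ℝ} (hq : 1 ≤ q) {κ : ℝ} (hκ : 0 < κ) {x y : ℝ} (hx : 0 ≤ x) (hxy : x ≤ y) :
    pdist VX q (PP q x (κ * x)) (PP q y (κ * y)) ≤ ENNReal.ofReal ((y - x) * N q 1 κ) := by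
  set D : ℝ → ℝ → ℝ≥0∞ := fun x y => pdist VX q (PP q x (κ * x)) (PP q y (κ * y)) with hD
  have tri : ∀ x y z, D x z ≤ D x y + D y z := fun x y z => pdist_tri _ _ _
  have hC := N_nonneg q 1 κ
  have step1 : ∀ (i : ℕ) (x y : ℝ), LL q i ≤ x → x ≤ y → y ≤ LL q (i + 1) →
      D x y ≤ ENNReal.ofReal ((y - x) * N q 1 κ) := by
    intro i x y h1 h2 h3
    obtain ⟨n, hn⟩ := exists_nat_ge (κ * y)
    have hmono : Monotone fun n : ℕ => (n : ℝ) / κ := by
      intro a b hab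
      exact div_le_div_of_nonneg_right (by exact_mod_cast hab) hκ.le
    refine slab hC tri (J := Set.Icc (LL q i) (LL q (i + 1))) Set.ordConnected_Icc
      (fun n : ℕ => (n : ℝ) / κ) hmono ?_ n x y ⟨h1, h2.trans h3⟩ ⟨h1.trans h2, h3⟩ ?_ h2 ?_
    · intro n x y hx hy h4 h5 h6
      have h4' : (n : ℝ) ≤ κ * x := by rw [div_le_iff₀ hκ] at h4; linarith
      have h6' : κ * y ≤ (n : ℝ) + 1 := by
        rw [le_div_iff₀ hκ] at h6; push_cast at h6; linarith
      have h7 : κ * x ≤ κ * y := mul_le_mul_of_nonneg_left h5 hκ.le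
      have hs : SameCube VX (PP q x (κ * x)) (PP q y (κ * y)) :=
        ⟨_, _, isCube_cell i n, PP_cell hx.1 hx.2 (by push_cast; linarith) (by push_cast; linarith),
          PP_cell hy.1 hy.2 (by push_cast; linarith) (by push_cast; linarith)⟩
      refine (pdist_le_of_same hs).trans (ENNReal.ofReal_le_ofReal ?_)
      rw [lpDist_PP hq (n := n) hx.1 hx.2 (by push_cast; linarith) (by push_cast; linarith) hy.1 hy.2
        (by push_cast; linarith) (by push_cast; linarith), ← N_smul hq (by linarith), mul_one,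
        mul_comm (y - x) κ, mul_sub]
    · simp only [Nat.cast_zero, zero_div]
      exact (LL_nonneg q i).trans h1
    · rw [le_div_iff₀ hκ]; linarith
  obtain ⟨n, hn⟩ := exists_nat_ge y
  exact slab hC tri (J := Set.univ) Set.ordConnected_univ (LL q) (LL_mono q)
    (fun n x y _ _ h4 h5 h6 => step1 n x y h4 h5 h6) n x y trivial trivial hx hxy
    (hn.trans (LL_ge hq n))

lemma line_eq {q : ℝ} (hq : 1 ≤ q) {κ : ℝ} (hκ : 0 < κ) {x y : ℝ} (hx : 0 ≤ x) (hxy : x ≤ y) :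
    pdist VX q (PP q x (κ * x)) (PP q y (κ * y)) = ENNReal.ofReal ((y - x) * N q 1 κ) := by
  refine le_antisymm (line_ub hq hκ hx hxy) ?_
  obtain ⟨n, hn⟩ := exists_nat_ge y
  obtain ⟨m, hm⟩ := exists_nat_ge (κ * y)
  have h := pdist_lb hq n m (PP q x (κ * x)) (PP q y (κ * y))
  have hy : 0 ≤ y := hx.trans hxy
  have h1 : κ * x ≤ κ * y := mul_le_mul_of_nonneg_left hxy hκ.le
  have h2 : y ≤ LL q n := hn.trans (LL_ge hq n)
  rw [fN_PP q hx, fN_PP q hy, sM_PP q _ (by positivity), sM_PP q _ (by positivity),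
    min_eq_left h2, min_eq_left (hxy.trans h2), min_eq_left hm, min_eq_left (h1.trans hm)] at h
  have e1 : x - y = -((y - x) * 1) := by ring
  have e2 : κ * x - κ * y = -((y - x) * κ) := by ring
  rwa [e1, e2, N_neg, N_smul hq (by linarith)] at h

/-- the base point -/
noncomputable def oo : HX → ℝ := PP 2 0 0

lemma PP_zero (q : ℝ) : PP q 0 0 = oo := by
  have := PP_LL q 2 0 0
  rwa [LL_zero, LL_zero] at this

/-- the points `x_n` -/
noncomputable def xs (p : ℝ) (n : ℕ) : HX → ℝ := PP p (LL p n) (LL p n)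

lemma xs_eq (p : ℝ) (n : ℕ) : xs p n = PP 2 (LL 2 n) (LL p n) := PP_LL p 2 n _

lemma xs_real {p : ℝ} (hp : 1 ≤ p) (n : ℕ) : xs p n ∈ Space VX := PP_real hp (LL_nonneg p n) _

/-- the ray -/
noncomputable def cc (p : ℝ) (hp : 1 ≤ p) (r : ℝ≥0) : Space VX :=
  ⟨PP p (r / N p 1 1) (r / N p 1 1), PP_real hp (div_nonneg r.2 (N_nonneg _ _ _)) _⟩

lemma N_pos {p : ℝ} (hp : 1 ≤ p) : 0 < N p 1 1 :=
  lt_of_lt_of_le (by norm_num) (N_left hp 1 1)

lemma isRay_cc (p : ℝ) (hp : 1 ≤ p) : IsRay VX p oo (cc p hp) := by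
  have h0 := N_pos hp
  constructor
  · show PP p ((0 : ℝ≥0) / N p 1 1) ((0 : ℝ≥0) / N p 1 1) = oo
    rw [NNReal.coe_zero, zero_div, PP_zero]
  · intro s t hst
    have hst' : (s : ℝ) ≤ t := hst
    have h := line_eq hp one_pos (x := s / N p 1 1) (y := t / N p 1 1) (div_nonneg s.2 h0.le)
      (div_le_div_of_nonneg_right hst' h0.le)
    rw [one_mul, one_mul] at h
    show pdist VX p (PP p (s / N p 1 1) (s / N p 1 1)) (PP p (t / N p 1 1) (t / N p 1 1)) = _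
    rw [h]
    congr 1
    field_simp

lemma cc_xs (p : ℝ) (hp : 1 ≤ p) (n : ℕ) :
    (cc p hp ⟨LL p n * N p 1 1, mul_nonneg (LL_nonneg _ _) (N_nonneg _ _ _)⟩ : HX → ℝ) = xs p n := by
  have h0 := N_pos hp
  show PP p (LL p n * N p 1 1 / N p 1 1) (LL p n * N p 1 1 / N p 1 1) = _
  rw [mul_div_cancel_right₀ _ h0.ne']; rfl

lemma isOpen_ball {p : ℝ} {o : HX → ℝ} (x : Space VX) {ε : ℝ} (h : 0 < ε) :
    IsOpen (ball VX p o x ε) :=
  TopologicalSpace.isOpen_generateFrom_of_mem (Or.inl ⟨x, ε, h, rfl⟩)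

lemma isOpen_nbhd {p : ℝ} {o : HX → ℝ} {c : ℝ≥0 → Space VX} (hc : IsRay VX p o c) (R : ℝ≥0) {ε : ℝ}
    (h : 0 < ε) : IsOpen (nbhd VX p o c R ε) :=
  TopologicalSpace.isOpen_generateFrom_of_mem (Or.inr ⟨c, R, ε, hc, h, rfl⟩)

lemma tendsto_xs (p : ℝ) (hp : 1 ≤ p) :
    Tendsto (fun n => (Cpt.pt ⟨xs p n, xs_real hp n⟩ : Cpt VX p oo)) atTop
      (𝓝 (Cpt.ray (cc p hp) (isRay_cc p hp))) := by
  refine TopologicalSpace.tendsto_nhds_generateFrom_iff.2 ?_
  rintro s (⟨x, ε, hε, rfl⟩ | ⟨c, R, ε, hc, hε, rfl⟩) hmem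
  · obtain ⟨y, hy, -⟩ := hmem
    cases hy
  · rcases hmem with ⟨x, hx, -⟩ | ⟨c', hc', h, hd⟩
    · cases hx
    cases h
    obtain ⟨n0, hn0⟩ := exists_nat_gt (R : ℝ)
    filter_upwards [eventually_ge_atTop n0] with n hn
    have h1 : (1 : ℝ) ≤ N p 1 1 := by simpa using N_left hp 1 1
    have h2 : (n : ℝ) ≤ LL p n := LL_ge hp n
    have h3 : (n0 : ℝ) ≤ n := by exact_mod_cast hn
    set r : ℝ≥0 := ⟨LL p n * N p 1 1, mul_nonneg (LL_nonneg _ _) (N_nonneg _ _ _)⟩ with hr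
    have hrR : (R : ℝ) < r := by
      show (R : ℝ) < LL p n * N p 1 1
      nlinarith
    have hray := isRay_cc p hp
    have e1 : pdist VX p oo (xs p n) = ENNReal.ofReal r := by
      rw [← cc_xs p hp n, ← hr, ← hray.1, hray.2 0 r zero_le]; simp
    have e2 : pdist VX p oo (cc p hp R) = ENNReal.ofReal R := by
      rw [← hray.1, hray.2 0 R zero_le]; simp
    have e3 : pdist VX p (cc p hp R) (xs p n) = ENNReal.ofReal (r - R) := by
      rw [← cc_xs p hp n, ← hr, hray.2 R r (by exact_mod_cast hrR.le)]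
    refine Or.inl ⟨⟨xs p n, xs_real hp n⟩, rfl, ?_, cc p hp R, e2, ?_, hd⟩
    · show _ < pdist VX p oo (xs p n)
      rw [e1]
      exact (ENNReal.ofReal_lt_ofReal_iff (lt_of_le_of_lt R.2 hrR)).2 hrR
    · show pdist VX p oo (cc p hp R) + pdist VX p (cc p hp R) (xs p n) = pdist VX p oo (xs p n)
      rw [e1, e2, e3, ← ENNReal.ofReal_add (NNReal.coe_nonneg R) (sub_nonneg.2 hrR.le)]
      congr 1; ring

/-! ### counting -/

/-- number of diagonals -/
noncomputable def DD (i : ℕ) : ℝ := ∑ j ∈ Finset.range i, if dg j then 1 else 0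

lemma LL_eq (q : ℝ) (i : ℕ) : LL q i = i + (2 ^ (1 / q) - 1) * DD i := by
  induction i with
  | zero => simp [LL_zero, DD]
  | succ i ih =>
    rw [LL_succ, ih, DD, DD, Finset.sum_range_succ, ln]
    split_ifs <;> push_cast <;> ring

lemma DD_nonneg (i : ℕ) : 0 ≤ DD i := Finset.sum_nonneg fun j _ => by split_ifs <;> norm_num
lemma DD_le (i : ℕ) : DD i ≤ i := by
  calc DD i ≤ ∑ j ∈ Finset.range i, (1 : ℝ) := Finset.sum_le_sum fun j _ => by split_ifs <;> norm_num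
    _ = i := by simp

lemma dg_even {k j : ℕ} (h1 : 4 ^ (2 * k) ≤ j) (h2 : j < 4 ^ (2 * k + 1)) : dg j = true := by
  have hj : j ≠ 0 := by have : 0 < 4 ^ (2 * k) := by positivity
                        omega
  have e1 : Nat.log 4 j = 2 * k := (Nat.log_eq_iff (Or.inr ⟨by norm_num, hj⟩)).2 ⟨h1, h2⟩
  have t1 : t j = true := by simp [t, e1]
  have t2 : t (j + 1) = true := by
    rcases Nat.lt_or_ge (j + 1) (4 ^ (2 * k + 1)) with h | h
    · have e2 : Nat.log 4 (j + 1) = 2 * k :=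
        (Nat.log_eq_iff (Or.inr ⟨by norm_num, by omega⟩)).2 ⟨by omega, h⟩
      simp [t, e2]
    · have e3 : j + 1 = 4 ^ (2 * k + 1) := by omega
      have : Even (j + 1) := by
        rw [e3, pow_succ]; exact Even.mul_left (by decide) _
      simp [t, this]
  simp [dg, t1, t2]

lemma dg_odd {k j : ℕ} (h1 : 4 ^ (2 * k + 1) ≤ j) (h2 : j < 4 ^ (2 * k + 2)) : dg j = false := by
  have hpos : 0 < 4 ^ (2 * k + 1) := by positivity
  have e1 : Nat.log 4 j = 2 * k + 1 :=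
    (Nat.log_eq_iff (Or.inr ⟨by norm_num, by omega⟩)).2 ⟨h1, h2⟩
  have ho : ¬ Even (2 * k + 1) := by rw [Nat.not_even_iff_odd]; exact ⟨k, rfl⟩
  rcases Nat.even_or_odd j with h | h
  · have hE : Even (4 ^ (2 * k + 2)) := by rw [pow_succ]; exact Even.mul_left (by decide) _
    have h3 : j + 1 < 4 ^ (2 * k + 2) := by
      rcases h with ⟨a, ha⟩
      rcases hE with ⟨b, hb⟩
      omega
    have e2 : Nat.log 4 (j + 1) = 2 * k + 1 :=
      (Nat.log_eq_iff (Or.inr ⟨by norm_num, by omega⟩)).2 ⟨by omega, h3⟩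
    have h4 : ¬ Even (j + 1) := by rw [Nat.not_even_iff_odd]; exact h.add_one
    have t2 : t (j + 1) = false := by simp [t, e2, h4]
    simp [dg, t2]
  · have h4 : ¬ Even j := by rw [Nat.not_even_iff_odd]; exact h
    have t1 : t j = false := by simp [t, e1, h4]
    simp [dg, t1]

lemma DD_big (k : ℕ) : 3 / 4 * ((4 ^ (2 * k + 1) : ℕ) : ℝ) ≤ DD (4 ^ (2 * k + 1)) := by
  have hle : 4 ^ (2 * k) ≤ 4 ^ (2 * k + 1) := Nat.pow_le_pow_right (by norm_num) (by omega)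
  have h1 : ∑ j ∈ Finset.Ico (4 ^ (2 * k)) (4 ^ (2 * k + 1)), (1 : ℝ) ≤ DD (4 ^ (2 * k + 1)) := by
    rw [DD, ← Finset.sum_range_add_sum_Ico _ hle]
    have h2 : 0 ≤ ∑ j ∈ Finset.range (4 ^ (2 * k)), (if dg j then (1 : ℝ) else 0) := DD_nonneg _
    have h3 : ∑ j ∈ Finset.Ico (4 ^ (2 * k)) (4 ^ (2 * k + 1)), (1 : ℝ) =
        ∑ j ∈ Finset.Ico (4 ^ (2 * k)) (4 ^ (2 * k + 1)), (if dg j then (1 : ℝ) else 0) := by
      refine Finset.sum_congr rfl fun j hj => ?_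
      rw [Finset.mem_Ico] at hj
      rw [dg_even hj.1 hj.2]; simp
    rw [h3]; linarith
  refine le_trans (le_of_eq ?_) h1
  rw [Finset.sum_const, Nat.card_Ico, nsmul_eq_mul, mul_one, Nat.cast_sub hle]
  push_cast
  ring

lemma DD_small (k : ℕ) : DD (4 ^ (2 * k + 2)) ≤ 1 / 4 * ((4 ^ (2 * k + 2) : ℕ) : ℝ) := by
  have hle : 4 ^ (2 * k + 1) ≤ 4 ^ (2 * k + 2) := Nat.pow_le_pow_right (by norm_num) (by omega)
  rw [DD, ← Finset.sum_range_add_sum_Ico _ hle]
  have h3 : ∑ j ∈ Finset.Ico (4 ^ (2 * k + 1)) (4 ^ (2 * k + 2)), (if dg j then (1 : ℝ) else 0) =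
      0 := by
    refine Finset.sum_eq_zero fun j hj => ?_
    rw [Finset.mem_Ico] at hj
    rw [dg_odd hj.1 hj.2]; simp
  rw [h3, add_zero]
  refine (DD_le _).trans (le_of_eq ?_)
  push_cast
  ring

/-! ### the argument -/

lemma strict {a b L s ℓ : ℝ} (hL : L ^ 2 + s ^ 2 = ℓ ^ 2) (hℓ : 1 ≤ ℓ) (h1 : a ^ 2 + b ^ 2 ≤ 1)
    (h2 : (L - a) ^ 2 + (s - b) ^ 2 ≤ (ℓ - 1) ^ 2) : ℓ * a = L ∧ ℓ * b = s := by
  have h3 : (ℓ * a - L) ^ 2 + (ℓ * b - s) ^ 2 ≤ 0 := by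
    have h4 : 2 * ℓ - 1 + (a ^ 2 + b ^ 2) ≤ 2 * (a * L + b * s) := by nlinarith
    have h5 : 0 ≤ (ℓ ^ 2 - ℓ) * (1 - (a ^ 2 + b ^ 2)) :=
      mul_nonneg (by nlinarith) (by linarith)
    nlinarith [mul_le_mul_of_nonneg_left h4 (show (0 : ℝ) ≤ ℓ by linarith)]
  have h6 := sq_nonneg (ℓ * a - L)
  have h7 := sq_nonneg (ℓ * b - s)
  constructor
  · have : (ℓ * a - L) ^ 2 = 0 := by linarith
    nlinarith [pow_eq_zero_iff (two_ne_zero) |>.1 this]
  · have : (ℓ * b - s) ^ 2 = 0 := by linarith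
    nlinarith [pow_eq_zero_iff (two_ne_zero) |>.1 this]

/-- the length of `x_n` -/
noncomputable def ell (p : ℝ) (n : ℕ) : ℝ := N 2 (LL 2 n) (LL p n)

lemma ell_sq (p : ℝ) (n : ℕ) : LL 2 n ^ 2 + LL p n ^ 2 = ell p n ^ 2 := by
  rw [ell, N_two, Real.sq_sqrt (by positivity)]

lemma pdist_xs {p : ℝ} (hp : 1 ≤ p) {n : ℕ} (hn : 1 ≤ n) :
    pdist VX 2 oo (xs p n) = ENNReal.ofReal (ell p n) := by
  have h1 : (1 : ℝ) ≤ LL 2 n := le_trans (by exact_mod_cast hn) (LL_ge (by norm_num) n)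
  have h2 : (1 : ℝ) ≤ LL p n := le_trans (by exact_mod_cast hn) (LL_ge hp n)
  have h3 : 0 < LL p n / LL 2 n := by positivity
  have h := line_eq (q := 2) (by norm_num) h3 (x := 0) (y := LL 2 n) le_rfl (by linarith)
  rw [mul_zero, PP_zero, div_mul_cancel₀ _ (by positivity), ← xs_eq, sub_zero,
    ← N_smul (by norm_num) (by linarith), mul_one, mul_div_cancel₀ _ (by positivity)] at h
  exact h

lemma oo_fN (n : ℕ) : fN 2 n oo = 0 := by
  rw [oo, fN_PP 2 le_rfl, min_eq_left (LL_nonneg 2 n)]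
lemma oo_sM (m : ℕ) : sM m oo = 0 := by
  rw [oo, sM_PP 2 0 le_rfl, min_eq_left (Nat.cast_nonneg m)]

lemma xs_fN {p : ℝ} {n k : ℕ} (h : n ≤ k) : fN 2 k (xs p n) = LL 2 n := by
  rw [xs_eq, fN_PP 2 (LL_nonneg 2 n), min_eq_left (LL_mono 2 h)]
lemma xs_sM {p : ℝ} {n m : ℕ} (h : LL p n ≤ m) : sM m (xs p n) = LL p n := by
  rw [xs_eq, sM_PP 2 _ (LL_nonneg p n), min_eq_left h]

lemma N_two_sq {a b c : ℝ} (hc : 0 ≤ c) (h : N 2 a b ≤ c) : a ^ 2 + b ^ 2 ≤ c ^ 2 := by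
  rw [N_two] at h
  have := Real.sqrt_le_iff.1 h
  exact this.2

/-- the position of a point at distance one on the geodesic to `x_n` -/
lemma passing {p : ℝ} (hp : 1 ≤ p) {n k m : ℕ} (hn : 1 ≤ n) (hk : n ≤ k) (hm : LL p n ≤ m)
    {y : HX → ℝ} (h1 : pdist VX 2 oo y = ENNReal.ofReal 1)
    (h2 : pdist VX 2 oo y + pdist VX 2 y (xs p n) = pdist VX 2 oo (xs p n)) :
    ell p n * fN 2 k y = LL 2 n ∧ ell p n * sM m y = LL p n := by
  have hL : (1 : ℝ) ≤ LL 2 n := le_trans (by exact_mod_cast hn) (LL_ge (by norm_num) n)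
  have hℓ : 1 ≤ ell p n := by
    have := N_left (q := 2) (by norm_num) (LL 2 n) (LL p n)
    rw [abs_of_nonneg (by linarith)] at this
    exact hL.trans this
  have b1 := pdist_lb (q := 2) (by norm_num) k m oo y
  have b2 := pdist_lb (q := 2) (by norm_num) k m y (xs p n)
  rw [oo_fN, oo_sM, zero_sub, zero_sub, N_neg, h1, ENNReal.ofReal_le_ofReal_iff (by norm_num)] at b1
  rw [xs_fN hk, xs_sM hm] at b2
  have b3 : 1 + N 2 (fN 2 k y - LL 2 n) (sM m y - LL p n) ≤ ell p n := by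
    rw [pdist_xs hp hn, h1] at h2
    have : ENNReal.ofReal (1 + N 2 (fN 2 k y - LL 2 n) (sM m y - LL p n)) ≤
        ENNReal.ofReal (ell p n) := by
      rw [ENNReal.ofReal_add (by norm_num) (N_nonneg _ _ _), ← h2]
      exact add_le_add le_rfl b2
    exact (ENNReal.ofReal_le_ofReal_iff (by linarith)).1 this
  have c1 := N_two_sq (by norm_num) b1
  have c2 := N_two_sq (c := ell p n - 1) (by linarith) (by linarith)
  exact strict (ell_sq p n) hℓ (by linarith) (by nlinarith)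

lemma final_ineq {A B i j Di Dj Li Mi Lj Mj ℓi ℓj f s f1 s1 f2 s2 ε : ℝ}
    (hi : 0 < i) (hj : 0 < j) (hA : 1 ≤ A) (hA2 : A ≤ 2) (hB : 1 ≤ B) (hB2 : B ≤ 2)
    (hDi : 3 / 4 * i ≤ Di) (hDi' : Di ≤ i) (hDj : Dj ≤ 1 / 4 * j) (hDj' : 0 ≤ Dj)
    (hLi : Li = i + (B - 1) * Di) (hMi : Mi = i + (A - 1) * Di)
    (hLj : Lj = j + (B - 1) * Dj) (hMj : Mj = j + (A - 1) * Dj)
    (e1 : ℓi * f1 = Li) (e2 : ℓi * s1 = Mi) (e3 : ℓj * f2 = Lj) (e4 : ℓj * s2 = Mj)
    (q1 : Li ^ 2 + Mi ^ 2 = ℓi ^ 2) (q2 : Lj ^ 2 + Mj ^ 2 = ℓj ^ 2) (p1 : 0 < ℓi) (p2 : 0 < ℓj)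
    (a1 : |f1 - f| ≤ ε) (a2 : |s1 - s| ≤ ε) (a3 : |f2 - f| ≤ ε) (a4 : |s2 - s| ≤ ε)
    (hε : ε = |A - B| / 100) (hAB : A ≠ B) : False := by
  have cross : Mi * Lj - Mj * Li = (A - B) * (Di * j - Dj * i) := by
    rw [hLi, hMi, hLj, hMj]; ring
  have hD : i * j / 2 ≤ Di * j - Dj * i := by nlinarith
  have habs : 0 < |A - B| := abs_pos.2 (sub_ne_zero.2 hAB)
  have hcross : |A - B| * (i * j / 2) ≤ |Mi * Lj - Mj * Li| := by
    rw [cross, abs_mul]
    refine mul_le_mul_of_nonneg_left ?_ (abs_nonneg _)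
    exact hD.trans (le_abs_self _)
  have hLi2 : 0 ≤ Li ∧ Li ≤ 2 * i := by rw [hLi]; constructor <;> nlinarith
  have hMi2 : 0 ≤ Mi ∧ Mi ≤ 2 * i := by rw [hMi]; constructor <;> nlinarith
  have hLj2 : 0 ≤ Lj ∧ Lj ≤ 2 * j := by
    rw [hLj]; constructor
    · nlinarith
    · nlinarith
  have hMj2 : 0 ≤ Mj ∧ Mj ≤ 2 * j := by
    rw [hMj]; constructor
    · nlinarith
    · nlinarith
  have hℓi : ℓi ≤ 3 * i := by
    have : ℓi ^ 2 ≤ (3 * i) ^ 2 := by
      rw [← q1]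
      nlinarith [mul_self_nonneg Li, mul_self_nonneg Mi,
        mul_le_mul hLi2.2 hLi2.2 hLi2.1 (by linarith), mul_le_mul hMi2.2 hMi2.2 hMi2.1 (by linarith)]
    exact le_of_sq_le_sq this (by linarith)
  have hℓj : ℓj ≤ 3 * j := by
    have : ℓj ^ 2 ≤ (3 * j) ^ 2 := by
      rw [← q2]
      nlinarith [mul_self_nonneg Lj, mul_self_nonneg Mj,
        mul_le_mul hLj2.2 hLj2.2 hLj2.1 (by linarith), mul_le_mul hMj2.2 hMj2.2 hMj2.1 (by linarith)]
    exact le_of_sq_le_sq this (by linarith)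
  have hf1 : |f1| ≤ 1 := by
    have : (ℓi * f1) ^ 2 ≤ ℓi ^ 2 := by rw [e1]; nlinarith
    rw [abs_le_one_iff_mul_self_le_one]
    have h3 : ℓi ^ 2 * (f1 * f1) ≤ ℓi ^ 2 * 1 := by nlinarith
    exact le_of_mul_le_mul_left h3 (by positivity)
  have hs1 : |s1| ≤ 1 := by
    have : (ℓi * s1) ^ 2 ≤ ℓi ^ 2 := by rw [e2]; nlinarith
    rw [abs_le_one_iff_mul_self_le_one]
    have h3 : ℓi ^ 2 * (s1 * s1) ≤ ℓi ^ 2 * 1 := by nlinarith
    exact le_of_mul_le_mul_left h3 (by positivity)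
  have hfd : |f2 - f1| ≤ 2 * ε := by
    rw [abs_le] at a1 a3 ⊢; constructor <;> linarith [a1.1, a1.2, a3.1, a3.2]
  have hsd : |s1 - s2| ≤ 2 * ε := by
    rw [abs_le] at a2 a4 ⊢; constructor <;> linarith [a2.1, a2.2, a4.1, a4.2]
  have e5 : Mi * Lj - Mj * Li = ℓi * ℓj * (s1 * (f2 - f1) + f1 * (s1 - s2)) := by
    rw [← e1, ← e2, ← e3, ← e4]; ring
  have hε0 : 0 < ε := by rw [hε]; positivity
  have h6 : |s1 * (f2 - f1) + f1 * (s1 - s2)| ≤ 4 * ε := by
    refine (abs_add_le _ _).trans ?_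
    rw [abs_mul, abs_mul]
    have := mul_le_mul hs1 hfd (abs_nonneg _) (by norm_num)
    have := mul_le_mul hf1 hsd (abs_nonneg _) (by norm_num)
    linarith
  have h7 : |Mi * Lj - Mj * Li| ≤ (3 * i) * (3 * j) * (4 * ε) := by
    rw [e5, abs_mul, abs_of_pos (by positivity)]
    have h8 : ℓi * ℓj ≤ 3 * i * (3 * j) := mul_le_mul hℓi hℓj p2.le (by linarith)
    exact mul_le_mul h8 h6 (abs_nonneg _) (by positivity)
  have h9 := hcross.trans h7
  rw [hε] at h9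
  have h10 : 0 < |A - B| * (i * j) := by positivity
  nlinarith

theorem not_extends {p : ℝ} (hp : 1 < p) (hp2 : p ≠ 2) : ¬ IdExtends VX oo p 2 := by
  rintro ⟨Φ, hΦ⟩
  have hp1 : 1 ≤ p := hp.le
  have T1 := tendsto_xs p hp1
  have T2 : Tendsto (fun n => (Cpt.pt ⟨xs p n, xs_real hp1 n⟩ : Cpt VX 2 oo)) atTop
      (𝓝 (Φ (Cpt.ray (cc p hp1) (isRay_cc p hp1)))) := by
    have h := (Φ.continuous.tendsto _).comp T1
    refine h.congr fun n => ?_
    exact hΦ _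
  rcases hz : Φ (Cpt.ray (cc p hp1) (isRay_cc p hp1)) with x | ⟨c', hc'⟩
  · rw [hz] at T2
    have hmem : (Cpt.pt x : Cpt VX 2 oo) ∈ ball VX 2 oo x 1 :=
      ⟨x, rfl, by rw [pdist_self]; simp⟩
    obtain ⟨n, hn⟩ := eventually_atTop.1 (T2.eventually_mem
      ((isOpen_ball x one_pos).mem_nhds hmem))
    have key : ∀ k, n ≤ k → ∀ m : ℕ, LL p k ≤ m → |sM m x - LL p k| ≤ 1 := by
      intro k hk m hm
      obtain ⟨y, hy, hd⟩ := hn k hk
      cases hy
      have h1 := (pdist_lb (q := 2) (by norm_num) 0 m x (xs p k)).trans hd.le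
      rw [ENNReal.ofReal_le_ofReal_iff (by norm_num), xs_sM hm] at h1
      exact (N_right (by norm_num) _ _).trans h1
    obtain ⟨m, hm⟩ := exists_nat_ge (LL p (n + 5))
    have k1 := key n le_rfl m ((LL_mono p (by omega)).trans hm)
    have k2 := key (n + 5) (by omega) m hm
    have h5 : LL p n + 5 ≤ LL p (n + 5) := by
      have h := fun j => one_le_ln hp1 j
      rw [LL_succ, LL_succ, LL_succ, LL_succ, LL_succ]
      linarith [h n, h (n + 1), h (n + 2), h (n + 3), h (n + 4)]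
    rw [abs_le] at k1 k2
    linarith [k1.1, k1.2, k2.1, k2.2]
  · rw [hz] at T2
    set A : ℝ := 2 ^ (1 / p) with hA
    set B : ℝ := 2 ^ (1 / (2 : ℝ)) with hB
    have hAB : A ≠ B := by
      intro h
      have h1 := (Real.rpow_right_inj (by norm_num : (0 : ℝ) < 2) (by norm_num)).1 h
      apply hp2
      field_simp at h1
      linarith
    have hε : 0 < |A - B| / 100 := by
      have := abs_pos.2 (sub_ne_zero.2 hAB)
      positivity
    have hmem : (Cpt.ray c' hc' : Cpt VX 2 oo) ∈ nbhd VX 2 oo c' 1 (|A - B| / 100) :=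
      Or.inr ⟨c', hc', rfl, by rw [pdist_self]; exact ENNReal.ofReal_pos.2 hε⟩
    obtain ⟨n, hn⟩ := eventually_atTop.1 (T2.eventually_mem
      ((isOpen_nbhd hc' 1 hε).mem_nhds hmem))
    have key : ∀ k, n ≤ k → 1 ≤ k → ∀ N m : ℕ, k ≤ N → LL p k ≤ m →
        ∃ f s : ℝ, ell p k * f = LL 2 k ∧ ell p k * s = LL p k ∧
          |f - fN 2 N (c' 1)| ≤ |A - B| / 100 ∧ |s - sM m (c' 1)| ≤ |A - B| / 100 := by
      intro k hk hk1 N m hN hm
      rcases hn k hk with ⟨x, hx, -, y, h1, h2, h3⟩ | ⟨c'', hc'', h, -⟩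
      · cases hx
        have h1' : pdist VX 2 oo y = ENNReal.ofReal 1 := by rw [h1]; simp
        obtain ⟨e1, e2⟩ := passing hp1 hk1 hN hm h1' h2
        have h4 := (pdist_lb (q := 2) (by norm_num) N m y (c' 1)).trans h3.le
        rw [ENNReal.ofReal_le_ofReal_iff hε.le] at h4
        exact ⟨_, _, e1, e2, (N_left (by norm_num) _ _).trans h4,
          (N_right (by norm_num) _ _).trans h4⟩
      · cases h
    -- the two indices
    set i := 4 ^ (2 * n + 1) with hi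
    set j := 4 ^ (2 * n + 2) with hj
    have hni : n ≤ i := (Nat.lt_pow_self (by norm_num : 1 < 4)).le.trans
      (Nat.pow_le_pow_right (by norm_num) (by omega))
    have hij : i ≤ j := Nat.pow_le_pow_right (by norm_num) (by omega)
    have hi1 : 1 ≤ i := Nat.one_le_pow _ _ (by norm_num)
    obtain ⟨m, hm⟩ := exists_nat_ge (LL p j)
    obtain ⟨f1, s1, e1, e2, a1, a2⟩ := key i hni hi1 j m hij ((LL_mono p hij).trans hm)
    obtain ⟨f2, s2, e3, e4, a3, a4⟩ := key j (hni.trans hij) (hi1.trans hij) j m le_rfl hm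
    have hpos : ∀ k, 1 ≤ k → 0 < ell p k := by
      intro k hk
      have h1 := N_left (q := 2) (by norm_num) (LL 2 k) (LL p k)
      have h2 : (1 : ℝ) ≤ LL 2 k := le_trans (by exact_mod_cast hk) (LL_ge (by norm_num) k)
      rw [abs_of_nonneg (by linarith)] at h1
      exact lt_of_lt_of_le (by linarith) h1
    have hi0 : (0 : ℝ) < i := by exact_mod_cast hi1
    have hj0 : (0 : ℝ) < j := by exact_mod_cast hi1.trans hij
    have hA1 : 1 ≤ A := Real.one_le_rpow (by norm_num) (by positivity)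
    have hA2 : A ≤ 2 := by
      have : (2 : ℝ) ^ (1 / p) ≤ 2 ^ (1 : ℝ) :=
        Real.rpow_le_rpow_of_exponent_le (by norm_num) (by
          rw [div_le_one (by linarith)]; exact hp1)
      rwa [Real.rpow_one] at this
    have hB1 : 1 ≤ B := Real.one_le_rpow (by norm_num) (by positivity)
    have hB2 : B ≤ 2 := by
      have : (2 : ℝ) ^ (1 / (2 : ℝ)) ≤ 2 ^ (1 : ℝ) :=
        Real.rpow_le_rpow_of_exponent_le (by norm_num) (by norm_num)
      rwa [Real.rpow_one] at this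
    exact final_ineq hi0 hj0 hA1 hA2 hB1 hB2 (DD_big n) (DD_le _) (DD_small n) (DD_nonneg _)
      (LL_eq 2 i) (LL_eq p i) (LL_eq 2 j) (LL_eq p j) e1 e2 e3 e4 (ell_sq p i) (ell_sq p j)
      (hpos i hi1) (hpos j (hi1.trans hij)) a1 a2 a3 a4 rfl hAB

end Pool.Agent.H225R3.Cube
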