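import Mathlib

/-! Auxiliary inequalities. -/

open scoped ENNReal NNReal

namespace Pool.Agent.H225R3.Cube

/-- the plane `ℓᵠ` norm -/
noncomputable def N (q a b : ℝ) : ℝ := (|a| ^ q + |b| ^ q) ^ (1 / q)

lemma N_nonneg (q a b : ℝ) : 0 ≤ N q a b := by
  unfold N; positivity

lemma N_add {q : ℝ} (hq : 1 ≤ q) (a b c d : ℝ) : N q (a + c) (b + d) ≤ N q a b + N q c d := by
  have h := Real.Lp_add_le (Finset.univ : Finset (Fin 2)) ![a, b] ![c, d] hq
  simpa [N, Fin.sum_univ_two] using h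

lemma N_smul {q : ℝ} (hq : 1 ≤ q) {t : ℝ} (ht : 0 ≤ t) (a b : ℝ) : N q (t * a) (t * b) = t * N q a b := by
  have hq0 : q ≠ 0 := by linarith
  unfold N
  rw [abs_mul, abs_mul, abs_of_nonneg ht, Real.mul_rpow ht (abs_nonneg _),
    Real.mul_rpow ht (abs_nonneg _), ← mul_add, Real.mul_rpow (by positivity) (by positivity),
    ← Real.rpow_mul ht, mul_one_div, div_self hq0, Real.rpow_one]

lemma N_zero {q : ℝ} (hq : 1 ≤ q) : N q 0 0 = 0 := by
  have hq0 : q ≠ 0 := by linarith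
  have : (1 / q) ≠ 0 := by positivity
  rw [N, abs_zero, Real.zero_rpow hq0, add_zero, Real.zero_rpow this]

lemma N_neg (q a b : ℝ) : N q (-a) (-b) = N q a b := by
  unfold N; rw [abs_neg, abs_neg]

lemma N_mono {q : ℝ} (hq : 1 ≤ q) {a b : ℝ} {S : ℝ} (h : |a| ^ q + |b| ^ q ≤ S) :
    N q a b ≤ S ^ (1 / q) := by
  unfold N
  exact Real.rpow_le_rpow (by positivity) h (by positivity)

lemma N_left {q : ℝ} (hq : 1 ≤ q) (a b : ℝ) : |a| ≤ N q a b := by
  have hq0 : 0 < q := by linarith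
  unfold N
  calc |a| = (|a| ^ q) ^ (1 / q) := by
        rw [← Real.rpow_mul (abs_nonneg _), mul_one_div, div_self hq0.ne', Real.rpow_one]
    _ ≤ _ := by
        refine Real.rpow_le_rpow (by positivity) ?_ (by positivity)
        have : 0 ≤ |b| ^ q := by positivity
        linarith

lemma N_right {q : ℝ} (hq : 1 ≤ q) (a b : ℝ) : |b| ≤ N q a b := by
  have : N q a b = N q b a := by unfold N; rw [add_comm]
  rw [this]; exact N_left hq b a

lemma N_two (a b : ℝ) : N 2 a b = √(a ^ 2 + b ^ 2) := by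
  unfold N
  rw [Real.sqrt_eq_rpow, Real.rpow_two, Real.rpow_two, sq_abs, sq_abs]

/-- power mean inequality -/
lemma mean_ineq {q : ℝ} (hq : 1 ≤ q) (a b : ℝ) :
    |(2 : ℝ) ^ (1 / q - 1) * (a + b)| ^ q ≤ |a| ^ q + |b| ^ q := by
  have hq0 : 0 < q := by linarith
  have h1 : (|a| + |b|) ^ q ≤ 2 ^ (q - 1) * (|a| ^ q + |b| ^ q) := by
    have := NNReal.rpow_add_le_mul_rpow_add_rpow ⟨|a|, abs_nonneg a⟩ ⟨|b|, abs_nonneg b⟩ hq
    exact_mod_cast this
  have h2 : |(2 : ℝ) ^ (1 / q - 1) * (a + b)| ≤ 2 ^ (1 / q - 1) * (|a| + |b|) := by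
    rw [abs_mul, abs_of_pos (by positivity)]
    exact mul_le_mul_of_nonneg_left (abs_add_le a b) (by positivity)
  calc _ ≤ (2 ^ (1 / q - 1) * (|a| + |b|)) ^ q := Real.rpow_le_rpow (abs_nonneg _) h2 hq0.le
    _ = (2 : ℝ) ^ (1 - q) * (|a| + |b|) ^ q := by
        rw [Real.mul_rpow (by positivity) (by positivity), ← Real.rpow_mul (by norm_num)]
        congr 2
        field_simp
    _ ≤ (2 : ℝ) ^ (1 - q) * (2 ^ (q - 1) * (|a| ^ q + |b| ^ q)) :=
        mul_le_mul_of_nonneg_left h1 (by positivity)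
    _ = |a| ^ q + |b| ^ q := by
        rw [← mul_assoc, ← Real.rpow_add (by norm_num)]; norm_num

/-- clamp -/
noncomputable def cl (x : ℝ) : ℝ := max 0 (min 1 x)
lemma cl_nonneg (x : ℝ) : 0 ≤ cl x := le_max_left _ _
lemma cl_le (x : ℝ) : cl x ≤ 1 := max_le zero_le_one (min_le_left _ _)
lemma cl_one {x : ℝ} (h : 1 ≤ x) : cl x = 1 := by rw [cl, min_eq_left h]; norm_num
lemma cl_zero {x : ℝ} (h : x ≤ 0) : cl x = 0 := by
  rw [cl, min_eq_right (by linarith), max_eq_left h]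
lemma cl_id {x : ℝ} (h0 : 0 ≤ x) (h : x ≤ 1) : cl x = x := by
  rw [cl, min_eq_right h, max_eq_right h0]

/-- telescoping of clamps -/
lemma sum_cl (l : ℕ → ℝ) (hl : ∀ j, 0 < l j) (x : ℝ) (hx : 0 ≤ x) (n : ℕ) :
    ∑ j ∈ Finset.range n, l j * cl ((x - ∑ i ∈ Finset.range j, l i) / l j) =
      min x (∑ i ∈ Finset.range n, l i) := by
  induction n with
  | zero => simp [hx]
  | succ n ih =>
    rw [Finset.sum_range_succ, ih, Finset.sum_range_succ]
    set S := ∑ i ∈ Finset.range n, l i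
    have h := hl n
    rcases le_total x S with h1 | h1
    · rw [cl_zero (div_nonpos_of_nonpos_of_nonneg (by linarith) h.le), min_eq_left h1,
        min_eq_left (by linarith)]; ring
    · rw [min_eq_right h1]
      rcases le_total (x - S) (l n) with h2 | h2
      · rw [cl_id (div_nonneg (by linarith) h.le) ((div_le_one h).2 h2), min_eq_left (by linarith)]
        field_simp; ring
      · rw [cl_one ((one_le_div h).2 h2), min_eq_right (by linarith)]; ring

/-- subdivision -/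
lemma slab {D : ℝ → ℝ → ℝ≥0∞} {C : ℝ} (hC : 0 ≤ C) (tri : ∀ x y z, D x z ≤ D x y + D y z)
    {J : Set ℝ} (hJ : J.OrdConnected) (b : ℕ → ℝ) (hb : Monotone b)
    (h : ∀ n x y, x ∈ J → y ∈ J → b n ≤ x → x ≤ y → y ≤ b (n + 1) →
      D x y ≤ ENNReal.ofReal ((y - x) * C)) :
    ∀ n x y, x ∈ J → y ∈ J → b 0 ≤ x → x ≤ y → y ≤ b n → D x y ≤ ENNReal.ofReal ((y - x) * C) := by
  intro n
  induction n with
  | zero =>
    intro x y hx hy h1 h2 h3
    exact h 0 x y hx hy h1 h2 (h3.trans (hb (by omega)))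
  | succ n ih =>
    intro x y hx hy h1 h2 h3
    rcases le_total y (b n) with h4 | h4
    · exact ih x y hx hy h1 h2 h4
    · rcases le_total (b n) x with h5 | h5
      · exact h n x y hx hy h5 h2 h3
      · have hm : b n ∈ J := hJ.out hx hy ⟨h5, h4⟩
        refine (tri x (b n) y).trans ?_
        refine (add_le_add (ih x (b n) hx hm h1 h5 le_rfl)
          (h n (b n) y hm hy le_rfl h4 h3)).trans ?_
        rw [← ENNReal.ofReal_add (mul_nonneg (by linarith) hC) (mul_nonneg (by linarith) hC)]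
        refine ENNReal.ofReal_le_ofReal (le_of_eq ?_)
        ring

end Pool.Agent.H225R3.Cube
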