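import Pool.Agent.H225R3.CubeX
import Pool.Agent.H225R3.CubeNorm

/-! The ray in the tree of squares, and the half plane in `X`. -/

set_option linter.unusedVariables false

open scoped ENNReal NNReal

namespace Pool.Agent.H225R3.Cube

/-- the sequence of turns -/
def t (j : ℕ) : Bool := decide (Even j) || decide (Even (Nat.log 4 j))

lemma t_zero : t 0 = true := by simp [t]
lemma t_no (j : ℕ) : t j = true ∨ t (j + 1) = true := by
  rcases Nat.even_or_odd j with h | h
  · left; simp [t, h]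
  · right
    have : Even (j + 1) := h.add_one
    simp [t, this]

/-- the letters -/
def wl (j : ℕ) : Le := (!t j, true)

/-- the nodes of the ray -/
def gg : ℕ → F
  | 0 => 1
  | j + 1 => gg j * el (wl j)

/-- the height -/
def ht : F →* Multiplicative ℤ := FreeGroup.lift fun _ => Multiplicative.ofAdd 1

lemma ht_gg (j : ℕ) : ht (gg j) = Multiplicative.ofAdd (j : ℤ) := by
  induction j with
  | zero => simp [gg]
  | succ j ih =>
    have h : ht (el (wl j)) = Multiplicative.ofAdd 1 := by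
      simp [ht, el, wl]
    rw [gg, map_mul, ih, h, ← ofAdd_add]; push_cast; rfl

lemma gg_inj {i j : ℕ} (h : gg i = gg j) : i = j := by
  have := congrArg ht h
  rw [ht_gg, ht_gg] at this
  exact_mod_cast Multiplicative.ofAdd.injective this

lemma one_ne_gg (j : ℕ) : (1 : F) ≠ gg (j + 1) := fun h => by
  have := gg_inj (i := 0) (j := j + 1) h
  omega

lemma la_gg (j : ℕ) : la (gg (j + 1)) = some (wl j) := by
  induction j with
  | zero => exact la_mul_el (by rw [gg, la_one]; simp)
  | succ j ih => exact la_mul_el (by rw [ih]; simp [wl, iv])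

open Classical in
/-- a function of the position -/
noncomputable def pos {α : Type} (z : ℕ → Bool → α) (d : F × Bool → α) : F × Bool → α := fun h =>
  if H : ∃ j, h.1 = gg (j + 1) then z (Classical.choose H) h.2 else d h

lemma pos_gg {α : Type} (z : ℕ → Bool → α) (d : F × Bool → α) (j : ℕ) (b : Bool) :
    pos z d (gg (j + 1), b) = z j b := by
  have H : ∃ i, (gg (j + 1), b).1 = gg (i + 1) := ⟨j, rfl⟩
  rw [pos, dif_pos H]
  have := gg_inj (Classical.choose_spec H)
  rw [show Classical.choose H = j by omega]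

lemma pos_ne {α : Type} (z : ℕ → Bool → α) (d : F × Bool → α) {g : F} (h : ∀ j, g ≠ gg (j + 1))
    (b : Bool) : pos z d (g, b) = d (g, b) := by
  rw [pos, dif_neg]
  rintro ⟨j, hj⟩
  exact h j hj

/-- the vertices of the ray -/
noncomputable def uu (i : ℕ) : F × Bool → Bool :=
  pos (fun j b => if j < i then (if b then t (j + 1) else true) else (if b then !t j else false)) v0

lemma uu_gg (i j : ℕ) (b : Bool) : uu i (gg (j + 1), b) =
    if j < i then (if b then t (j + 1) else true) else (if b then !t j else false) := pos_gg _ _ j b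

lemma uu_ne (i : ℕ) {g : F} (h : ∀ j, g ≠ gg (j + 1)) (b : Bool) : uu i (g, b) = v0 (g, b) :=
  pos_ne _ _ h b

lemma v0_gg (j : ℕ) (b : Bool) : v0 (gg (j + 1), b) = if b then !t j else false := by
  simp only [v0, la_gg, wl]
  cases b <;> cases t j <;> rfl

lemma uu_zero : uu 0 = v0 := by
  funext ⟨g, b⟩
  by_cases h : ∃ j, g = gg (j + 1)
  · obtain ⟨j, rfl⟩ := h
    rw [uu_gg, v0_gg]; simp
  · push Not at h
    rw [uu_ne 0 h]

lemma lt_uu_lt {i j : ℕ} (h : j < i) : lt (uu i) (gg (j + 1)) = wl (j + 1) := by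
  rw [lt, uu_gg, uu_gg]; simp [h, ps, wl]

lemma lt_uu_ge {i j : ℕ} (h : i ≤ j) : lt (uu i) (gg (j + 1)) = iv (wl j) := by
  rw [lt, uu_gg, uu_gg]; simp [not_lt.2 h, ps, wl, iv]

lemma loc_uu (i : ℕ) : Loc (uu i) (gg (i + 1)) := by
  rw [Loc, lt_uu_ge le_rfl, iv_iv, gg, mul_el_iv]
  rcases i with _ | i
  · rw [gg, uu_zero, lt_v0_none la_one, wl, t_zero]; rfl
  · exact lt_uu_lt (by omega)

lemma uu_succ {i : ℕ} {h : F × Bool} (hh : h.1 ≠ gg (i + 1)) : uu (i + 1) h = uu i h := by
  obtain ⟨g, b⟩ := h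
  by_cases h : ∃ j, g = gg (j + 1)
  · obtain ⟨j, rfl⟩ := h
    have hne : j ≠ i := fun e => hh (by rw [e])
    rw [uu_gg, uu_gg]
    have : j < i + 1 ↔ j < i := by omega
    simp only [this]
  · push Not at h
    rw [uu_ne _ h, uu_ne _ h]

lemma uu_mem (i : ℕ) : uu i ∈ VY := by
  induction i with
  | zero => rw [uu_zero]; exact v0_mem
  | succ i ih => exact upd_mem ih (loc_uu i) fun h hh => uu_succ hh

/-! ### lengths -/

/-- is the step `j` a diagonal? -/
def dg (j : ℕ) : Bool := t j && t (j + 1)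

/-- the length of the step `j` -/
noncomputable def ln (q : ℝ) (j : ℕ) : ℝ := if dg j then 2 ^ (1 / q) else 1

lemma ln_pos (q : ℝ) (j : ℕ) : 0 < ln q j := by unfold ln; split_ifs <;> positivity
lemma one_le_ln {q : ℝ} (hq : 1 ≤ q) (j : ℕ) : 1 ≤ ln q j := by
  unfold ln; split_ifs
  · exact Real.one_le_rpow (by norm_num) (by positivity)
  · exact le_rfl

/-- the length of the first `i` steps -/
noncomputable def LL (q : ℝ) (i : ℕ) : ℝ := ∑ j ∈ Finset.range i, ln q j

lemma LL_succ (q : ℝ) (i : ℕ) : LL q (i + 1) = LL q i + ln q i := Finset.sum_range_succ _ _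
lemma LL_zero (q : ℝ) : LL q 0 = 0 := rfl
lemma LL_mono (q : ℝ) : Monotone (LL q) :=
  monotone_nat_of_le_succ fun i => by rw [LL_succ]; linarith [ln_pos q i]
lemma LL_ge {q : ℝ} (hq : 1 ≤ q) (i : ℕ) : (i : ℝ) ≤ LL q i := by
  induction i with
  | zero => simp [LL_zero]
  | succ i ih => rw [LL_succ]; push_cast; linarith [one_le_ln hq i]
lemma LL_nonneg (q : ℝ) (i : ℕ) : 0 ≤ LL q i := by
  rw [← LL_zero q]; exact LL_mono q (Nat.zero_le i)

/-- 0/1 value -/
def bv (b : Bool) : ℝ := if b then 1 else 0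

/-- the real coordinates -/
noncomputable def yv (z : ℕ → ℝ) : F × Bool → ℝ :=
  pos (fun j b => if b then (1 - z j) * bv (!t j) + z j * bv (t (j + 1)) else z j)
    (fun h => bv (v0 h))

/-- the points of the half plane -/
noncomputable def PP (q lam s : ℝ) : HX → ℝ :=
  Sum.elim (yv fun j => cl ((lam - LL q j) / ln q j)) fun m => cl (s - m)

lemma PP_inr (q lam s : ℝ) (m : ℤ) : PP q lam s (Sum.inr m) = cl (s - m) := rfl
lemma PP_gg (q lam s : ℝ) (j : ℕ) (b : Bool) : PP q lam s (Sum.inl (gg (j + 1), b)) =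
    if b then (1 - cl ((lam - LL q j) / ln q j)) * bv (!t j) +
      cl ((lam - LL q j) / ln q j) * bv (t (j + 1)) else cl ((lam - LL q j) / ln q j) := by
  rw [PP, Sum.elim_inl, yv, pos_gg]
lemma PP_ne (q lam s : ℝ) {g : F} (h : ∀ j, g ≠ gg (j + 1)) (b : Bool) :
    PP q lam s (Sum.inl (g, b)) = bv (v0 (g, b)) := by
  rw [PP, Sum.elim_inl, yv, pos_ne _ _ h]

lemma bv_nonneg (b : Bool) : 0 ≤ bv b := by cases b <;> simp [bv]
lemma bv_le (b : Bool) : bv b ≤ 1 := by cases b <;> simp [bv]

lemma PP_bounds (q lam s : ℝ) (h : HX) : 0 ≤ PP q lam s h ∧ PP q lam s h ≤ 1 := by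
  rcases h with ⟨g, b⟩ | m
  · by_cases h : ∃ j, g = gg (j + 1)
    · obtain ⟨j, rfl⟩ := h
      rw [PP_gg]
      have h1 := cl_nonneg ((lam - LL q j) / ln q j)
      have h2 := cl_le ((lam - LL q j) / ln q j)
      have h3 := bv_nonneg (!t j)
      have h4 := bv_le (!t j)
      have h5 := bv_nonneg (t (j + 1))
      have h6 := bv_le (t (j + 1))
      split_ifs
      · constructor <;> nlinarith
      · exact ⟨h1, h2⟩
    · push Not at h
      rw [PP_ne _ _ _ h]
      exact ⟨bv_nonneg _, bv_le _⟩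
  · rw [PP_inr]; exact ⟨cl_nonneg _, cl_le _⟩

lemma PP_cell {q : ℝ} {lam s : ℝ} {i : ℕ} {n : ℤ} (h1 : LL q i ≤ lam) (h2 : lam ≤ LL q (i + 1))
    (h3 : n ≤ s) (h4 : s ≤ n + 1) :
    PP q lam s ∈ cube (mk2 (uu i) (th n)) (S3 (gg (i + 1)) n) := by
  refine ⟨fun h _ => PP_bounds q lam s h, fun h hh => ?_⟩
  rw [mem_S3] at hh
  push Not at hh
  rcases h with ⟨g, b⟩ | m
  · show _ = bv (uu i (g, b))
    by_cases h : ∃ j, g = gg (j + 1)
    · obtain ⟨j, rfl⟩ := h
      have hji : j ≠ i := by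
        rintro rfl
        cases b
        · exact hh.1 rfl
        · exact hh.2.1 rfl
      rw [PP_gg, uu_gg]
      rcases lt_or_gt_of_ne hji with h5 | h5
      · have h6 : LL q (j + 1) ≤ LL q i := LL_mono q h5
        rw [LL_succ] at h6
        have h7 : cl ((lam - LL q j) / ln q j) = 1 :=
          cl_one ((one_le_div (ln_pos q j)).2 (by linarith))
        rw [h7, if_pos h5]
        cases b <;> simp [bv]
      · have h6 : LL q (i + 1) ≤ LL q j := LL_mono q h5
        have h7 : cl ((lam - LL q j) / ln q j) = 0 :=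
          cl_zero (div_nonpos_of_nonpos_of_nonneg (by linarith) (ln_pos q j).le)
        rw [h7, if_neg (not_lt.2 h5.le)]
        cases b <;> simp [bv]
    · push Not at h
      rw [PP_ne _ _ _ h, uu_ne _ h]
  · show _ = bv (th n m)
    rw [PP_inr]
    have hm : m ≠ n := fun e => hh.2.2 (by rw [e])
    rcases lt_or_gt_of_ne hm with h5 | h5
    · have : (m : ℝ) + 1 ≤ n := by exact_mod_cast h5
      rw [cl_one (by linarith)]; simp [bv, th, h5]
    · have : (n : ℝ) + 1 ≤ m := by exact_mod_cast h5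
      rw [cl_zero (by linarith)]; simp [bv, th, h5.le]

lemma isCube_cell (i : ℕ) (n : ℤ) : IsCube VX (mk2 (uu i) (th n)) (S3 (gg (i + 1)) n) :=
  isCube_loc (uu_mem i) (loc_uu i) n

lemma exists_cell {q : ℝ} (hq : 1 ≤ q) {lam : ℝ} (h : 0 ≤ lam) :
    ∃ i, LL q i ≤ lam ∧ lam ≤ LL q (i + 1) := by
  classical
  have hex : ∃ i, lam ≤ LL q (i + 1) := by
    obtain ⟨n, hn⟩ := exists_nat_ge lam
    exact ⟨n, hn.trans ((LL_ge hq n).trans (LL_mono q (Nat.le_succ n)))⟩
  refine ⟨Nat.find hex, ?_, Nat.find_spec hex⟩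
  rcases hf : Nat.find hex with _ | k
  · rw [LL_zero]; exact h
  · have := Nat.find_min hex (m := k) (by omega)
    exact (not_le.1 this).le

lemma PP_real {q : ℝ} (hq : 1 ≤ q) {lam : ℝ} (h : 0 ≤ lam) (s : ℝ) : PP q lam s ∈ Space VX := by
  obtain ⟨i, h1, h2⟩ := exists_cell hq h
  exact ⟨_, _, isCube_cell i ⌊s⌋, PP_cell h1 h2 (Int.floor_le s) (Int.lt_floor_add_one s).le⟩

/-- distance in terms of three coordinates -/
lemma lpDist_S3 {q : ℝ} (hq : 1 ≤ q) {x y : HX → ℝ} {g : F} {n : ℤ}
    (h : ∀ k, k ∉ S3 g n → x k = y k) :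
    lpDist q x y = (|x (Sum.inl (g, false)) - y (Sum.inl (g, false))| ^ q +
      (|x (Sum.inl (g, true)) - y (Sum.inl (g, true))| ^ q +
        |x (Sum.inr n) - y (Sum.inr n)| ^ q)) ^ (1 / q) := by
  rw [lpDist]
  congr 1
  rw [finsum_eq_sum_of_support_subset (s := S3 g n), sum_S3]
  intro k hk
  by_contra hcon
  apply hk
  have hk' : k ∉ S3 g n := hcon
  show |x k - y k| ^ q = 0
  rw [h k hk', sub_self, abs_zero, Real.zero_rpow (by linarith)]

lemma lpDist_PP {q : ℝ} (hq : 1 ≤ q) {lam lam' s s' : ℝ} {i : ℕ} {n : ℤ} (h1 : LL q i ≤ lam)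
    (h2 : lam ≤ LL q (i + 1)) (h3 : n ≤ s) (h4 : s ≤ n + 1) (h1' : LL q i ≤ lam')
    (h2' : lam' ≤ LL q (i + 1)) (h3' : n ≤ s') (h4' : s' ≤ n + 1) :
    lpDist q (PP q lam s) (PP q lam' s') = N q (lam' - lam) (s' - s) := by
  have hc := PP_cell (q := q) h1 h2 h3 h4
  have hc' := PP_cell (q := q) h1' h2' h3' h4'
  rw [lpDist_S3 hq (g := gg (i + 1)) (n := n) fun k hk => by rw [hc.2 k hk, hc'.2 k hk]]
  have hl := ln_pos q i
  have hq0 : q ≠ 0 := by linarith
  rw [LL_succ] at h2 h2'
  have e1 : cl ((lam - LL q i) / ln q i) = (lam - LL q i) / ln q i :=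
    cl_id (div_nonneg (by linarith) hl.le) ((div_le_one hl).2 (by linarith))
  have e2 : cl ((lam' - LL q i) / ln q i) = (lam' - LL q i) / ln q i :=
    cl_id (div_nonneg (by linarith) hl.le) ((div_le_one hl).2 (by linarith))
  rw [PP_gg, PP_gg, PP_gg, PP_gg, PP_inr, PP_inr, e1, e2, cl_id (by linarith) (by linarith),
    cl_id (by linarith) (by linarith)]
  simp only [if_true, Bool.false_eq_true, if_false]
  have e3 : (lam - LL q i) / ln q i - (lam' - LL q i) / ln q i = -((lam' - lam) / ln q i) := by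
    field_simp; ring
  have e4 : s - n - (s' - n) = -(s' - s) := by ring
  rw [e3, e4, abs_neg, abs_neg, N]
  congr 1
  rw [← add_assoc]
  congr 1
  by_cases hd : dg i = true
  · have ht : t i = true ∧ t (i + 1) = true := by simpa [dg] using hd
    have e5 : (1 - (lam - LL q i) / ln q i) * bv (!t i) + (lam - LL q i) / ln q i * bv (t (i + 1)) -
        ((1 - (lam' - LL q i) / ln q i) * bv (!t i) + (lam' - LL q i) / ln q i * bv (t (i + 1))) =
        -((lam' - lam) / ln q i) := by
      rw [ht.1, ht.2]; simp only [bv]; norm_num; field_simp; ring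
    rw [e5, abs_neg, abs_div, abs_of_pos hl, Real.div_rpow (abs_nonneg _) hl.le]
    have e6 : ln q i ^ q = 2 := by
      rw [ln, if_pos hd, ← Real.rpow_mul (by norm_num), one_div_mul_cancel hq0, Real.rpow_one]
    rw [e6]; ring
  · have e6 : ln q i = 1 := by rw [ln, if_neg hd]
    have e5 : (1 - (lam - LL q i) / ln q i) * bv (!t i) + (lam - LL q i) / ln q i * bv (t (i + 1)) -
        ((1 - (lam' - LL q i) / ln q i) * bv (!t i) + (lam' - LL q i) / ln q i * bv (t (i + 1))) =
        0 := by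
      rcases t_no i with h | h
      · have h' : t (i + 1) = false := by
          by_contra hcon
          apply hd
          rw [dg, h]; simpa using hcon
        rw [h, h']; simp [bv]
      · have h' : t i = false := by
          by_contra hcon
          apply hd
          rw [dg, h]; simpa using hcon
        rw [h, h']; simp [bv]
    rw [e5, abs_zero, Real.zero_rpow hq0, e6, div_one, add_zero]

/-! ### Lipschitz functions -/

/-- progress along the ray -/
noncomputable def fN (q : ℝ) (n : ℕ) (x : HX → ℝ) : ℝ :=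
  ∑ j ∈ Finset.range n, if dg j then
    2 ^ (1 / q - 1) * (x (Sum.inl (gg (j + 1), false)) + x (Sum.inl (gg (j + 1), true)))
    else x (Sum.inl (gg (j + 1), false))

/-- progress in the second factor -/
noncomputable def sM (m : ℕ) (x : HX → ℝ) : ℝ := ∑ j ∈ Finset.range m, x (Sum.inr (j : ℤ))

lemma lip {q : ℝ} (hq : 1 ≤ q) (n m : ℕ) {x y : HX → ℝ} (h : SameCube VX x y) :
    N q (fN q n x - fN q n y) (sM m x - sM m y) ≤ lpDist q x y := by
  obtain ⟨v, A, hC, hx, hy⟩ := h
  obtain ⟨g, k, hA, -, -⟩ := cube_shape hC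
  have hq0 : q ≠ 0 := by linarith
  have he : ∀ h, h ∉ S3 g k → x h = y h := fun h hh => by
    have : h ∉ A := fun h' => hh (hA h')
    rw [hx.2 h this, hy.2 h this]
  rw [lpDist_S3 hq he]
  refine N_mono hq ?_
  rw [← add_assoc]
  have hne : ∀ g', g' ≠ g → ∀ b, x (Sum.inl (g', b)) = y (Sum.inl (g', b)) := by
    intro g' hg b
    refine he _ ?_
    rw [mem_S3]
    rintro (h | h | h)
    · exact hg (congrArg Prod.fst (Sum.inl_injective h))
    · exact hg (congrArg Prod.fst (Sum.inl_injective h))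
    · exact absurd h (by simp)
  refine add_le_add ?_ ?_
  · by_cases h : ∃ j, j < n ∧ g = gg (j + 1)
    · obtain ⟨j, hj, rfl⟩ := h
      have e : fN q n x - fN q n y = (if dg j then
          2 ^ (1 / q - 1) * (x (Sum.inl (gg (j + 1), false)) + x (Sum.inl (gg (j + 1), true)))
          else x (Sum.inl (gg (j + 1), false))) - (if dg j then
          2 ^ (1 / q - 1) * (y (Sum.inl (gg (j + 1), false)) + y (Sum.inl (gg (j + 1), true)))
          else y (Sum.inl (gg (j + 1), false))) := by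
        rw [fN, fN, ← Finset.sum_sub_distrib]
        refine Finset.sum_eq_single_of_mem j (Finset.mem_range.2 hj) fun i _ hi => ?_
        have hg : gg (i + 1) ≠ gg (j + 1) := fun h => hi (by have := gg_inj h; omega)
        rw [hne _ hg, hne _ hg, sub_self]
      rw [e]
      split_ifs
      · have e2 : (2 : ℝ) ^ (1 / q - 1) * (x (Sum.inl (gg (j + 1), false)) +
            x (Sum.inl (gg (j + 1), true))) - 2 ^ (1 / q - 1) *
            (y (Sum.inl (gg (j + 1), false)) + y (Sum.inl (gg (j + 1), true))) =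
            2 ^ (1 / q - 1) * ((x (Sum.inl (gg (j + 1), false)) - y (Sum.inl (gg (j + 1), false))) +
              (x (Sum.inl (gg (j + 1), true)) - y (Sum.inl (gg (j + 1), true)))) := by ring
        rw [e2]
        exact mean_ineq hq _ _
      · have : 0 ≤ |x (Sum.inl (gg (j + 1), true)) - y (Sum.inl (gg (j + 1), true))| ^ q := by
          positivity
        linarith
    · push Not at h
      have e : fN q n x - fN q n y = 0 := by
        rw [fN, fN, ← Finset.sum_sub_distrib]
        refine Finset.sum_eq_zero fun i hi => ?_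
        have hg : gg (i + 1) ≠ g := fun h' => h i (Finset.mem_range.1 hi) h'.symm
        rw [hne _ hg, hne _ hg, sub_self]
      rw [e, abs_zero, Real.zero_rpow hq0]
      positivity
  · have hne2 : ∀ i : ℤ, i ≠ k → x (Sum.inr i) = y (Sum.inr i) := by
      intro i hi
      refine he _ ?_
      rw [mem_S3]
      rintro (h | h | h)
      · exact absurd h (by simp)
      · exact absurd h (by simp)
      · exact hi (Sum.inr_injective h)
    by_cases h : ∃ j : ℕ, j < m ∧ (j : ℤ) = k
    · obtain ⟨j, hj, rfl⟩ := h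
      have e : sM m x - sM m y = x (Sum.inr (j : ℤ)) - y (Sum.inr (j : ℤ)) := by
        rw [sM, sM, ← Finset.sum_sub_distrib]
        refine Finset.sum_eq_single_of_mem j (Finset.mem_range.2 hj) fun i _ hi => ?_
        rw [hne2 i (by exact_mod_cast hi), sub_self]
      rw [e]
    · push Not at h
      have e : sM m x - sM m y = 0 := by
        rw [sM, sM, ← Finset.sum_sub_distrib]
        refine Finset.sum_eq_zero fun i hi => ?_
        rw [hne2 i (h i (Finset.mem_range.1 hi)), sub_self]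
      rw [e, abs_zero, Real.zero_rpow hq0]
      positivity

lemma chain_lb {q : ℝ} (hq : 1 ≤ q) (n m : ℕ) {x y : HX → ℝ} {ℓ : ℝ} (h : Chain VX q x y ℓ) :
    N q (fN q n x - fN q n y) (sM m x - sM m y) ≤ ℓ := by
  induction h with
  | nil x => rw [sub_self, sub_self, N_zero hq]
  | cons x y z ℓ h1 h2 ih =>
    have h3 := N_add hq (fN q n x - fN q n y) (sM m x - sM m y) (fN q n y - fN q n z)
      (sM m y - sM m z)
    rw [sub_add_sub_cancel, sub_add_sub_cancel] at h3
    exact h3.trans (add_le_add (lip hq n m h1) ih)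

lemma pdist_lb {q : ℝ} (hq : 1 ≤ q) (n m : ℕ) (x y : HX → ℝ) :
    ENNReal.ofReal (N q (fN q n x - fN q n y) (sM m x - sM m y)) ≤ pdist VX q x y :=
  le_iInf fun ℓ => le_iInf fun h => ENNReal.ofReal_le_ofReal (chain_lb hq n m h)

section general
variable {H : Type} {V : Set (H → Bool)} {q : ℝ}

lemma lpDist_nonneg (q : ℝ) (x y : H → ℝ) : 0 ≤ lpDist q x y := by
  unfold lpDist
  exact Real.rpow_nonneg (finsum_nonneg fun h => by positivity) _

lemma Chain.nonneg {x y : H → ℝ} {ℓ : ℝ} (h : Chain V q x y ℓ) : 0 ≤ ℓ := by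
  induction h with
  | nil x => exact le_rfl
  | cons x y z ℓ h1 h2 ih => exact add_nonneg (lpDist_nonneg _ _ _) ih

lemma Chain.append {x y z : H → ℝ} {ℓ ℓ' : ℝ} (h : Chain V q x y ℓ) (h' : Chain V q y z ℓ') :
    Chain V q x z (ℓ + ℓ') := by
  induction h with
  | nil x => rwa [zero_add]
  | cons x y w ℓ h1 h2 ih => rw [add_assoc]; exact Chain.cons _ _ _ _ h1 (ih h')

lemma pdist_self (x : H → ℝ) : pdist V q x x = 0 := by
  refine le_antisymm ?_ (zero_le)
  exact (iInf₂_le (0 : ℝ) (Chain.nil x)).trans (by simp)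

lemma pdist_le_of_same {x y : H → ℝ} (h : SameCube V x y) :
    pdist V q x y ≤ ENNReal.ofReal (lpDist q x y) := by
  refine (iInf₂_le (lpDist q x y + 0) (Chain.cons _ _ _ _ h (Chain.nil y))).trans ?_
  rw [add_zero]

lemma pdist_tri (x y z : H → ℝ) : pdist V q x z ≤ pdist V q x y + pdist V q y z := by
  unfold pdist
  simp only [ENNReal.iInf_add, ENNReal.add_iInf]
  refine le_iInf fun ℓ => le_iInf fun h => le_iInf fun ℓ' => le_iInf fun h' => ?_
  refine (iInf₂_le (ℓ' + ℓ) (Chain.append h' h)).trans ?_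
  rw [ENNReal.ofReal_add h'.nonneg h.nonneg]
end general

end Pool.Agent.H225R3.Cube
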