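import Pool.Agent.H225R3.CubeDefs

/-! The tree of squares `Y` over the Cayley tree of the free group of rank two. -/

set_option linter.unusedVariables false

namespace Pool.Agent.H225R3.Cube

/-- the free group of rank two -/
abbrev F : Type := FreeGroup Bool
/-- letters -/
abbrev Le : Type := Bool × Bool

/-- inverse letter -/
def iv (x : Le) : Le := (x.1, !x.2)
@[simp] lemma iv_iv (x : Le) : iv (iv x) = x := by rcases x with ⟨a, b⟩; simp [iv]
lemma iv_ne (x : Le) : iv x ≠ x := by rcases x with ⟨a, b⟩; cases b <;> simp [iv]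
lemma iv_inj {x y : Le} : iv x = iv y ↔ x = y :=
  ⟨fun h => by rw [← iv_iv x, h, iv_iv], fun h => by rw [h]⟩
lemma eq_iv {x y : Le} : x = iv y ↔ iv x = y :=
  ⟨fun h => by rw [h, iv_iv], fun h => by rw [← h, iv_iv]⟩

/-- the group element of a letter -/
def el (x : Le) : F := FreeGroup.mk [x]
lemma el_iv (x : Le) : el (iv x) = (el x)⁻¹ := by simp [el, iv, FreeGroup.inv_mk, FreeGroup.invRev]
@[simp] lemma mul_el_iv (g : F) (x : Le) : g * el x * el (iv x) = g := by rw [el_iv]; group
@[simp] lemma mul_el_iv' (g : F) (x : Le) : g * el (iv x) * el x = g := by rw [el_iv]; group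
lemma toWord_el (x : Le) : (el x).toWord = [x] := by simp [el, FreeGroup.toWord_mk]

/-- the letter with corner coordinates `a, b` -/
def ps (a b : Bool) : Le := (xor a b, a)
lemma ps_inj {a b c d : Bool} : ps a b = ps c d ↔ a = c ∧ b = d := by
  cases a <;> cases b <;> cases c <;> cases d <;> simp [ps]
lemma ps_surj (x : Le) : ps x.2 (xor x.1 x.2) = x := by
  rcases x with ⟨a, b⟩; cases a <;> cases b <;> simp [ps]

/-- the letter at the node `g` -/
def lt (v : F × Bool → Bool) (g : F) : Le := ps (v (g, false)) (v (g, true))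

lemma lt_eq {v w : F × Bool → Bool} {g : F} : lt v g = lt w g ↔ ∀ b, v (g, b) = w (g, b) := by
  rw [lt, lt, ps_inj]
  constructor
  · rintro ⟨h1, h2⟩ b; cases b <;> assumption
  · intro h; exact ⟨h _, h _⟩

/-- consistency -/
def Cons (v : F × Bool → Bool) : Prop := ∀ g x, lt v g = x ∨ lt v (g * el x) = iv x

/-- the last letter -/
def la (g : F) : Option Le := g.toWord.getLast?

/-- the base vertex -/
def v0 : F × Bool → Bool := fun h =>
  match la h.1 with
  | none => true
  | some y => if h.2 then xor y.1 (!y.2) else !y.2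

lemma lt_v0_some {g : F} {y : Le} (h : la g = some y) : lt v0 g = iv y := by
  rw [lt, v0, v0]
  simp only [h]
  rcases y with ⟨a, b⟩; cases a <;> cases b <;> simp [ps, iv]
lemma lt_v0_none {g : F} (h : la g = none) : lt v0 g = (false, true) := by
  rw [lt, v0, v0]
  simp only [h, ps]; rfl

lemma la_one : la 1 = none := rfl
lemma la_eq_none {g : F} : la g = none ↔ g = 1 := by
  rw [la, List.getLast?_eq_none_iff, FreeGroup.toWord_eq_nil_iff]

/-- appending a letter -/
lemma toWord_mul_el {g : F} {x : Le} (h : la g ≠ some (iv x)) : (g * el x).toWord = g.toWord ++ [x] := by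
  rw [FreeGroup.toWord_mul, toWord_el]
  refine FreeGroup.IsReduced.reduce_eq ?_
  rw [FreeGroup.IsReduced, List.isChain_append]
  refine ⟨FreeGroup.isReduced_toWord, List.isChain_singleton _, ?_⟩
  intro a ha b hb
  simp only [List.head?_cons, Option.mem_def, Option.some.injEq] at hb
  subst hb
  intro h1
  by_contra h2
  apply h
  rw [la]
  rw [Option.mem_def] at ha
  rw [ha]
  congr 1
  rcases a with ⟨a1, a2⟩
  rcases x with ⟨x1, x2⟩
  simp only at h1 h2
  simp only [iv, h1, Prod.mk.injEq, true_and]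
  cases a2 <;> cases x2 <;> simp_all

lemma la_mul_el {g : F} {x : Le} (h : la g ≠ some (iv x)) : la (g * el x) = some x := by
  rw [la, toWord_mul_el h, List.getLast?_append]; simp

lemma cons_v0 : Cons v0 := by
  intro g x
  by_cases h : la g = some (iv x)
  · left; rw [lt_v0_some h, iv_iv]
  · right; rw [lt_v0_some (la_mul_el h)]

/-- vertices of `Y` -/
def VY : Set (F × Bool → Bool) := {v | Cons v ∧ {h | v h ≠ v0 h}.Finite}

lemma v0_mem : v0 ∈ VY := ⟨cons_v0, by simp⟩

lemma VY_diff {v w : F × Bool → Bool} (hv : v ∈ VY) (hw : w ∈ VY) : {h | v h ≠ w h}.Finite := by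
  refine (hv.2.union hw.2).subset fun h hh => ?_
  by_contra hcon
  simp only [Set.mem_union, Set.mem_setOf_eq, not_or, not_not] at hcon
  exact hh (hcon.1.trans hcon.2.symm)

/-- majority -/
def mj (a b c : Bool) : Bool := (a && b) || (b && c) || (c && a)
lemma mj1 (a b : Bool) : mj a a b = a := by cases a <;> cases b <;> rfl
lemma mj2 (a b : Bool) : mj a b a = a := by cases a <;> cases b <;> rfl
lemma mj3 (a b : Bool) : mj b a a = a := by cases a <;> cases b <;> rfl

lemma VY_median {u v w : F × Bool → Bool} (hu : u ∈ VY) (hv : v ∈ VY) (hw : w ∈ VY) :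
    (fun h => mj (u h) (v h) (w h)) ∈ VY := by
  constructor
  · have key : ∀ g y, (lt u g = y ∧ lt v g = y) ∨ (lt v g = y ∧ lt w g = y) ∨
        (lt u g = y ∧ lt w g = y) → lt (fun h => mj (u h) (v h) (w h)) g = y := by
      intro g y h
      rcases h with ⟨h1, h2⟩ | ⟨h1, h2⟩ | ⟨h1, h2⟩
      · have := lt_eq.1 (h1.trans h2.symm)
        rw [← h1, lt_eq]; intro b; show mj _ _ _ = _; rw [← this b, mj1]
      · have := lt_eq.1 (h1.trans h2.symm)
        rw [← h1, lt_eq]; intro b; show mj _ _ _ = _; rw [← this b, mj3]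
      · have := lt_eq.1 (h1.trans h2.symm)
        rw [← h1, lt_eq]; intro b; show mj _ _ _ = _; rw [← this b, mj2]
    intro g x
    rcases hu.1 g x with h1 | h1 <;> rcases hv.1 g x with h2 | h2 <;>
      rcases hw.1 g x with h3 | h3
    · exact Or.inl (key _ _ (Or.inl ⟨h1, h2⟩))
    · exact Or.inl (key _ _ (Or.inl ⟨h1, h2⟩))
    · exact Or.inl (key _ _ (Or.inr (Or.inr ⟨h1, h3⟩)))
    · exact Or.inr (key _ _ (Or.inr (Or.inl ⟨h2, h3⟩)))
    · exact Or.inl (key _ _ (Or.inr (Or.inl ⟨h2, h3⟩)))
    · exact Or.inr (key _ _ (Or.inr (Or.inr ⟨h1, h3⟩)))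
    · exact Or.inr (key _ _ (Or.inl ⟨h1, h2⟩))
    · exact Or.inr (key _ _ (Or.inl ⟨h1, h2⟩))
  · refine ((hu.2.union hv.2).union hw.2).subset fun h hh => ?_
    by_contra hcon
    simp only [Set.mem_union, Set.mem_setOf_eq, not_or, not_not] at hcon
    obtain ⟨⟨e1, e2⟩, e3⟩ := hcon
    apply hh
    show mj _ _ _ = _
    rw [e1, e2, mj1]

/-- propagation along a reduced word -/
lemma prop_list {v : F × Bool → Bool} (hv : Cons v) : ∀ (l : List Le) (x : Le) (g : F),
    FreeGroup.IsReduced (x :: l) → lt v g ≠ x →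
    ∃ y, (x :: l).getLast? = some y ∧ lt v (g * FreeGroup.mk (x :: l)) = iv y := by
  intro l
  induction l with
  | nil =>
    intro x g _ h
    exact ⟨x, rfl, (hv g x).resolve_left h⟩
  | cons y l ih =>
    intro x g hr h
    have h1 := (hv g x).resolve_left h
    have hr2 := FreeGroup.isReduced_cons_cons.1 hr
    have h2 : lt v (g * el x) ≠ y := by
      rw [h1]
      rintro rfl
      have := hr2.1 rfl
      simp [iv] at this
    obtain ⟨z, h3, h4⟩ := ih y (g * el x) hr2.2 h2
    have e : g * el x * FreeGroup.mk (y :: l) = g * FreeGroup.mk (x :: y :: l) := by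
      rw [el, mul_assoc, FreeGroup.mul_mk]; rfl
    rw [e] at h4
    exact ⟨z, by rw [List.getLast?_cons_cons]; exact h3, h4⟩

/-- the first letter -/
def fi (g : F) : Option Le := g.toWord.head?

lemma prop_gen {v : F × Bool → Bool} (hv : Cons v) {g g' : F} {x : Le}
    (h1 : fi (g⁻¹ * g') = some x) (h2 : lt v g ≠ x) :
    ∃ y, la (g⁻¹ * g') = some y ∧ lt v g' = iv y := by
  obtain ⟨l, hl⟩ : ∃ l, (g⁻¹ * g').toWord = x :: l := by
    rw [fi] at h1
    rcases hw : (g⁻¹ * g').toWord with _ | ⟨a, l⟩
    · rw [hw] at h1; simp at h1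
    · rw [hw] at h1; simp at h1; exact ⟨l, by rw [h1]⟩
  obtain ⟨y, h3, h4⟩ := prop_list hv l x g (by rw [← hl]; exact FreeGroup.isReduced_toWord) h2
  rw [← hl, FreeGroup.mk_toWord, mul_inv_cancel_left] at h4
  exact ⟨y, by rw [la, hl]; exact h3, h4⟩

/-- first letters exist -/
lemma exists_fi {g : F} (h : g ≠ 1) : ∃ x, fi g = some x := by
  rw [fi]
  rcases hw : g.toWord with _ | ⟨a, l⟩
  · exact absurd (FreeGroup.toWord_eq_nil_iff.1 hw) h
  · exact ⟨a, rfl⟩

/-- `g` is an end of the edge of `v`. -/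
def Loc (v : F × Bool → Bool) (g : F) : Prop := lt v (g * el (lt v g)) = iv (lt v g)

/-- changing `v` at an end of its edge -/
lemma upd_mem {v w : F × Bool → Bool} (hv : v ∈ VY) {g : F} (hg : Loc v g)
    (hw : ∀ h : F × Bool, h.1 ≠ g → w h = v h) : w ∈ VY := by
  have e : ∀ g', g' ≠ g → lt w g' = lt v g' := fun g' h => lt_eq.2 fun b => hw _ h
  constructor
  · intro g' x
    by_cases h1 : g' = g
    · subst h1
      right
      have hne : g' * el x ≠ g' := by
        intro h
        have h2 : el x = 1 := by simpa using h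
        have := congrArg FreeGroup.toWord h2
        rw [toWord_el] at this; simp at this
      rw [e _ hne]
      by_cases h2 : lt v g' = x
      · rw [← h2]; exact hg
      · exact (hv.1 g' x).resolve_left h2
    · by_cases h2 : g' * el x = g
      · left
        rw [e _ h1]
        by_cases h3 : lt v g = iv x
        · have := hg
          rw [Loc, h3, ← h2, mul_el_iv, iv_iv] at this
          exact this
        · rw [← h2] at h3
          exact (hv.1 g' x).resolve_right h3
      · rw [e _ h1, e _ h2]; exact hv.1 g' x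
  · refine (hv.2.union (Set.toFinite {(g, false), (g, true)})).subset fun h hh => ?_
    by_cases h1 : h.1 = g
    · right
      rcases h with ⟨a, b⟩
      simp only at h1
      subst h1
      cases b <;> simp
    · left
      rw [Set.mem_setOf_eq] at hh ⊢
      rwa [hw h h1] at hh

/-- The key lemma for connectivity. -/
lemma exists_loc {v w : F × Bool → Bool} (hv : v ∈ VY) (hw : w ∈ VY) (hne : v ≠ w) :
    ∃ g, lt v g ≠ lt w g ∧ Loc v g := by
  by_contra hcon
  push Not at hcon
  have hfin : {g | lt v g ≠ lt w g}.Finite := by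
    refine ((VY_diff hv hw).image Prod.fst).subset fun g hg => ?_
    by_contra h2
    apply hg
    refine lt_eq.2 fun b => ?_
    by_contra h3
    exact h2 ⟨(g, b), h3, rfl⟩
  obtain ⟨g0, hg0⟩ : ∃ g, lt v g ≠ lt w g := by
    by_contra h
    push Not at h
    exact hne (funext fun ⟨g, b⟩ => lt_eq.1 (h g) b)
  have step : ∀ g, lt v g ≠ lt w g → lt v (g * el (lt v g)) ≠ lt w (g * el (lt v g)) := by
    intro g hg h
    have h1 := (hw.1 g (lt v g)).resolve_left hg.symm
    rw [← h] at h1
    exact hcon g hg h1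
  -- the path
  let s : ℕ → F := fun n => Nat.rec g0 (fun _ g => g * el (lt v g)) n
  have hs1 : ∀ n, s (n + 1) = s n * el (lt v (s n)) := fun n => rfl
  have hD : ∀ n, lt v (s n) ≠ lt w (s n) := by
    intro n
    induction n with
    | zero => exact hg0
    | succ n ih => rw [hs1]; exact step _ ih
  have hlen : ∀ n, (g0⁻¹ * s (n + 1)).toWord.length = n + 1 ∧
      la (g0⁻¹ * s (n + 1)) = some (lt v (s n)) := by
    intro n
    induction n with
    | zero =>
      have e : g0⁻¹ * s (0 + 1) = el (lt v g0) := by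
        rw [hs1]; show g0⁻¹ * (g0 * _) = _; rw [inv_mul_cancel_left]; rfl
      rw [e, la, toWord_el]
      exact ⟨rfl, rfl⟩
    | succ n ih =>
      have hne : la (g0⁻¹ * s (n + 1)) ≠ some (iv (lt v (s (n + 1)))) := by
        rw [ih.2]
        intro h
        rw [Option.some.injEq, eq_iv] at h
        refine hcon (s n) (hD n) ?_
        rw [Loc, ← hs1]; exact h.symm
      have e : g0⁻¹ * s (n + 1 + 1) = g0⁻¹ * s (n + 1) * el (lt v (s (n + 1))) :=
        (mul_assoc _ _ _).symm
      rw [e]
      refine ⟨?_, la_mul_el hne⟩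
      rw [toWord_mul_el hne, List.length_append, ih.1]; rfl
  have hinj : Function.Injective fun n => s (n + 1) := by
    intro m n h
    have h1 : s (m + 1) = s (n + 1) := h
    have h2 := (hlen m).1
    rw [h1, (hlen n).1] at h2
    omega
  exact Set.infinite_of_injective_forall_mem hinj (fun n => hD (n + 1)) hfin

lemma VY_connected {v w : F × Bool → Bool} (hv : v ∈ VY) (hw : w ∈ VY) (hne : v ≠ w) :
    ∃ h, v h ≠ w h ∧ ∃ v' ∈ VY, v' h = w h ∧ ∀ k ≠ h, v' k = v k := by
  classical
  obtain ⟨g, h1, h2⟩ := exists_loc hv hw hne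
  rw [Ne, lt_eq, not_forall] at h1
  obtain ⟨b, hb⟩ := h1
  refine ⟨(g, b), hb, Function.update v (g, b) (w (g, b)), ?_, by simp, ?_⟩
  · refine upd_mem hv h2 fun h hh => ?_
    rw [Function.update_of_ne]
    rintro rfl
    exact hh rfl
  · intro k hk
    rw [Function.update_of_ne hk]

/-- every vertex has an edge -/
lemma loc_v0 : Loc v0 1 := by
  rw [Loc, lt_v0_none la_one]
  have h : la (1 * el (false, true)) = some (false, true) := by
    refine la_mul_el ?_
    rw [la_one]; simp
  rw [lt_v0_some h]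

lemma exists_loc' {v : F × Bool → Bool} (hv : v ∈ VY) : ∃ g, Loc v g := by
  by_cases h : v = v0
  · exact ⟨1, by rw [h]; exact loc_v0⟩
  · obtain ⟨g, -, hg⟩ := exists_loc hv v0_mem h
    exact ⟨g, hg⟩

/-- away from `g`, `v` points towards `g` -/
lemma lt_of_loc {v : F × Bool → Bool} (hv : Cons v) {g : F} (hg : Loc v g) {g' : F} (hne : g' ≠ g) :
    ∃ y, la (g⁻¹ * g') = some y ∧ lt v g' = iv y := by
  have h1 : g⁻¹ * g' ≠ 1 := fun h => hne (by rw [inv_mul_eq_one] at h; exact h.symm)
  obtain ⟨x, hx⟩ := exists_fi h1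
  by_cases h2 : lt v g = x
  · -- go through the other end
    obtain ⟨l, hl⟩ : ∃ l, (g⁻¹ * g').toWord = x :: l := by
      rw [fi] at hx
      rcases hw : (g⁻¹ * g').toWord with _ | ⟨a, l⟩
      · rw [hw] at hx; simp at hx
      · rw [hw] at hx; simp at hx; exact ⟨l, by rw [hx]⟩
    have hr : FreeGroup.IsReduced (x :: l) := by rw [← hl]; exact FreeGroup.isReduced_toWord
    have e0 : g' = g * FreeGroup.mk (x :: l) := by
      rw [← hl, FreeGroup.mk_toWord, mul_inv_cancel_left]
    have e1 : lt v (g * el x) = iv x := by rw [← h2]; exact hg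
    rcases l with _ | ⟨y, l⟩
    · refine ⟨x, by rw [la, hl]; rfl, ?_⟩
      rw [e0]; exact e1
    · have hr2 := FreeGroup.isReduced_cons_cons.1 hr
      have h3 : lt v (g * el x) ≠ y := by
        rw [e1]
        rintro rfl
        have := hr2.1 rfl
        simp [iv] at this
      obtain ⟨z, h5, h4⟩ := prop_list hv l y (g * el x) hr2.2 h3
      have e : g * el x * FreeGroup.mk (y :: l) = g' := by
        rw [e0, el, mul_assoc, FreeGroup.mul_mk]; rfl
      rw [e] at h4
      exact ⟨z, by rw [la, hl, List.getLast?_cons_cons]; exact h5, h4⟩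
  · exact prop_gen hv hx h2

/-! ### translations -/

lemma la_el_mul {g : F} {x : Le} (h1 : g ≠ 1) (h2 : g ≠ el (iv x)) : la (el x * g) = la g := by
  rcases hw : g.toWord with _ | ⟨y, l⟩
  · exact absurd (FreeGroup.toWord_eq_nil_iff.1 hw) h1
  · have hr : FreeGroup.reduce (y :: l) = y :: l := by rw [← hw]; exact FreeGroup.reduce_toWord g
    have e : (el x * g).toWord = if x.1 = y.1 ∧ x.2 = !y.2 then l else x :: y :: l := by
      rw [FreeGroup.toWord_mul, toWord_el, hw, List.singleton_append, FreeGroup.reduce.cons, hr]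
    rw [la, la, e, hw]
    split_ifs with h
    · rcases l with _ | ⟨z, l⟩
      · exfalso
        apply h2
        rw [← FreeGroup.mk_toWord (x := g), hw, el]
        congr 2
        rcases x with ⟨x1, x2⟩
        rcases y with ⟨y1, y2⟩
        simp only at h
        simp [iv, h.1, h.2]
      · rw [List.getLast?_cons_cons]
    · rw [List.getLast?_cons_cons]

/-- left translation -/
def tr (g : F) (h : F × Bool) : F × Bool := (g * h.1, h.2)

lemma tr_inj (g : F) : Function.Injective (tr g) := by
  rintro ⟨a, b⟩ ⟨c, d⟩ h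
  simp only [tr, Prod.mk.injEq, mul_right_inj] at h
  rw [h.1, h.2]

lemma v0_congr {g g' : F} (h : la g = la g') (b : Bool) : v0 (g, b) = v0 (g', b) := by
  simp only [v0, h]

lemma tr_diff (g : F) : {h | v0 (tr g h) ≠ v0 h}.Finite := by
  have hel : ∀ x : Le, {h | v0 (tr (el x) h) ≠ v0 h}.Finite := by
    intro x
    refine (Set.toFinite ({(1, false), (1, true), (el (iv x), false), (el (iv x), true)} :
      Set (F × Bool))).subset fun h hh => ?_
    rcases h with ⟨g, b⟩
    by_cases h1 : g = 1
    · subst h1; cases b <;> simp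
    · by_cases h2 : g = el (iv x)
      · subst h2; cases b <;> simp
      · exact absurd (v0_congr (la_el_mul h1 h2) b) hh
  have hmul : ∀ g g' : F, {h | v0 (tr g h) ≠ v0 h}.Finite → {h | v0 (tr g' h) ≠ v0 h}.Finite →
      {h | v0 (tr (g * g') h) ≠ v0 h}.Finite := by
    intro g g' h1 h2
    refine ((h1.preimage ((tr_inj g').injOn)).union h2).subset fun h hh => ?_
    by_contra hcon
    simp only [Set.mem_union, Set.mem_preimage, Set.mem_setOf_eq, not_or, not_not] at hcon
    apply hh
    rw [← hcon.2, ← hcon.1]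
    simp only [tr, mul_assoc]
  induction g using FreeGroup.induction_on with
  | C1 => simp [tr]
  | of x => exact hel (x, true)
  | inv_of x h =>
    have : (FreeGroup.of x)⁻¹ = el (x, false) := rfl
    rw [this]; exact hel (x, false)
  | mul x y hx hy => exact hmul x y hx hy

lemma lt_tr (v : F × Bool → Bool) (g g' : F) : lt (v ∘ tr g) g' = lt v (g * g') := rfl

lemma tr_mem {v : F × Bool → Bool} (hv : v ∈ VY) (g : F) : v ∘ tr g ∈ VY := by
  constructor
  · intro g' x
    rw [lt_tr, lt_tr, ← mul_assoc]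
    exact hv.1 (g * g') x
  · refine ((hv.2.preimage ((tr_inj g).injOn)).union (tr_diff g)).subset fun h hh => ?_
    by_contra hcon
    simp only [Set.mem_union, Set.mem_preimage, Set.mem_setOf_eq, not_or, not_not] at hcon
    apply hh
    rw [← hcon.2, ← hcon.1]; rfl

lemma tr_mem_iff {v : F × Bool → Bool} (g : F) : v ∘ tr g ∈ VY ↔ v ∈ VY := by
  refine ⟨fun h => ?_, fun h => tr_mem h g⟩
  have := tr_mem h g⁻¹
  have e : (v ∘ tr g) ∘ tr g⁻¹ = v := by
    funext h
    simp [tr]
  rwa [e] at this

end Pool.Agent.H225R3.Cube
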