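import Pool.Agent.H225R3.CubeTree

/-! The cube complex `X = Y × ℝ`. -/

set_option linter.unusedVariables false

namespace Pool.Agent.H225R3.Cube

/-- hyperplanes -/
abbrev HX : Type := (F × Bool) ⊕ ℤ

/-- thresholds -/
def th (k : ℤ) (n : ℤ) : Bool := decide (n < k)

lemma th_inj {k l : ℤ} (h : th k = th l) : k = l := by
  rcases lt_trichotomy k l with h1 | h1 | h1
  · have := congrFun h k; simp [th, h1] at this
  · exact h1
  · have := congrFun h l; simp [th, h1] at this

/-- vertices of `X` -/
def VX : Set (HX → Bool) := {v | (fun h => v (Sum.inl h)) ∈ VY ∧ ∃ k, ∀ n, v (Sum.inr n) = th k n}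

lemma th_median (a b c : ℤ) : ∃ k, ∀ n, mj (th a n) (th b n) (th c n) = th k n := by
  rcases le_total a b with h1 | h1 <;> rcases le_total b c with h2 | h2 <;>
    rcases le_total a c with h3 | h3
  · refine ⟨b, fun n => ?_⟩; simp only [mj, th]; by_cases x : n < a <;> by_cases y : n < b <;>
      by_cases z : n < c <;> simp [x, y, z] <;> omega
  · refine ⟨b, fun n => ?_⟩; simp only [mj, th]; by_cases x : n < a <;> by_cases y : n < b <;>
      by_cases z : n < c <;> simp [x, y, z] <;> omega
  · refine ⟨c, fun n => ?_⟩; simp only [mj, th]; by_cases x : n < a <;> by_cases y : n < b <;>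
      by_cases z : n < c <;> simp [x, y, z] <;> omega
  · refine ⟨a, fun n => ?_⟩; simp only [mj, th]; by_cases x : n < a <;> by_cases y : n < b <;>
      by_cases z : n < c <;> simp [x, y, z] <;> omega
  · refine ⟨a, fun n => ?_⟩; simp only [mj, th]; by_cases x : n < a <;> by_cases y : n < b <;>
      by_cases z : n < c <;> simp [x, y, z] <;> omega
  · refine ⟨c, fun n => ?_⟩; simp only [mj, th]; by_cases x : n < a <;> by_cases y : n < b <;>
      by_cases z : n < c <;> simp [x, y, z] <;> omega
  · refine ⟨b, fun n => ?_⟩; simp only [mj, th]; by_cases x : n < a <;> by_cases y : n < b <;>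
      by_cases z : n < c <;> simp [x, y, z] <;> omega
  · refine ⟨b, fun n => ?_⟩; simp only [mj, th]; by_cases x : n < a <;> by_cases y : n < b <;>
      by_cases z : n < c <;> simp [x, y, z] <;> omega

/-- combination of the two factors -/
def mk2 (v : F × Bool → Bool) (w : ℤ → Bool) : HX → Bool := Sum.elim v w

lemma mk2_mem {v : F × Bool → Bool} (hv : v ∈ VY) (k : ℤ) : mk2 v (th k) ∈ VX :=
  ⟨hv, k, fun n => rfl⟩

lemma isCAT0_VX : IsCAT0 VX where
  nonempty := ⟨_, mk2_mem v0_mem 0⟩
  finite_diff := by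
    rintro v ⟨hv, k, hk⟩ w ⟨hw, l, hl⟩
    have h1 := (VY_diff hv hw).image (Sum.inl : F × Bool → HX)
    have h2 : {n : ℤ | th k n ≠ th l n}.Finite := by
      refine (Set.finite_Icc (min k l) (max k l)).subset fun n hn => ?_
      by_contra hcon
      apply hn
      simp only [th, decide_eq_decide]
      simp only [Set.mem_Icc, not_and_or, not_le, min_def, max_def] at hcon
      split_ifs at hcon <;> omega
    refine (h1.union (h2.image Sum.inr)).subset fun h hh => ?_
    rcases h with h | n
    · exact Or.inl ⟨h, hh, rfl⟩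
    · refine Or.inr ⟨n, ?_, rfl⟩
      rw [Set.mem_setOf_eq, ← hk, ← hl]; exact hh
  median := by
    rintro u ⟨hu, a, ha⟩ v ⟨hv, b, hb⟩ w ⟨hw, c, hc⟩
    refine ⟨VY_median hu hv hw, ?_⟩
    obtain ⟨k, hk⟩ := th_median a b c
    refine ⟨k, fun n => ?_⟩
    rw [← hk, ← ha, ← hb, ← hc]; rfl
  connected := by
    rintro v ⟨hv, k, hk⟩ w ⟨hw, l, hl⟩ hne
    by_cases h1 : (fun h => v (Sum.inl h)) = fun h => w (Sum.inl h)
    · have hkl : k ≠ l := by
        rintro rfl
        apply hne
        funext h
        rcases h with h | n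
        · exact congrFun h1 h
        · rw [hk, hl]
      rcases lt_or_gt_of_ne hkl with h2 | h2
      · refine ⟨Sum.inr k, ?_, mk2 (fun h => v (Sum.inl h)) (th (k + 1)), mk2_mem hv _, ?_, ?_⟩
        · rw [hk, hl]; simp [th, h2]
        · show th (k + 1) k = _
          rw [hl]; simp [th, h2]
        · rintro (h | n) hh
          · rfl
          · show th (k + 1) n = _
            rw [hk]
            have : n ≠ k := fun h => hh (by rw [h])
            simp only [th, decide_eq_decide]; omega
      · refine ⟨Sum.inr (k - 1), ?_, mk2 (fun h => v (Sum.inl h)) (th (k - 1)), mk2_mem hv _, ?_, ?_⟩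
        · rw [hk, hl]; simp only [th, ne_eq, decide_eq_decide]; omega
        · show th (k - 1) (k - 1) = _
          rw [hl]; simp only [th, decide_eq_decide]; omega
        · rintro (h | n) hh
          · rfl
          · show th (k - 1) n = _
            rw [hk]
            have : n ≠ k - 1 := fun h => hh (by rw [h])
            simp only [th, decide_eq_decide]; omega
    · obtain ⟨h, h2, v', h3, h4, h5⟩ := VY_connected hv hw h1
      refine ⟨Sum.inl h, h2, mk2 v' (th k), mk2_mem h3 k, h4, ?_⟩
      rintro (h' | n) hh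
      · exact h5 h' fun h6 => hh (by rw [h6])
      · exact (hk n).symm

/-! ### cubes -/

lemma IsCube.upd {H : Type} [DecidableEq H] {V : Set (H → Bool)} {v : H → Bool} {A : Finset H} (hC : IsCube V v A)
    {w : H → Bool} (hw : ∀ h, h ∉ A → w h = v h) {k : H} (hk : k ∈ A) (b : Bool) :
    ∀ h, h ∉ A → Function.update w k b h = v h := by
  intro h hh
  rw [Function.update_of_ne (fun e => hh (by rw [e]; exact hk))]
  exact hw h hh

/-- `v` points towards `g` outside `g`. -/
def Pt (v : HX → Bool) (g : F) : Prop := ∀ g', g' ≠ g → ∀ b, v (Sum.inl (g', b)) = v0 (g⁻¹ * g', b)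

lemma pt_of {v : HX → Bool} {g : F}
    (h : ∀ g', g' ≠ g → ∃ y, la (g⁻¹ * g') = some y ∧ lt (fun h => v (Sum.inl h)) g' = iv y) :
    Pt v g := by
  intro g' hne b
  obtain ⟨y, h1, h2⟩ := h g' hne
  have h3 := lt_v0_some h1
  have h4 := ps_inj.1 (h2.trans h3.symm)
  cases b
  · exact h4.1
  · exact h4.2

lemma cube_point {v : HX → Bool} {A : Finset HX} (hC : IsCube VX v A) {g : F} {b : Bool}
    (hA : Sum.inl (g, b) ∈ A) : Pt v g := by
  refine pt_of fun g' hne => ?_
  have h1 : g⁻¹ * g' ≠ 1 := fun h => hne (by rw [inv_mul_eq_one] at h; exact h.symm)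
  obtain ⟨x, hx⟩ := exists_fi h1
  have hv : v ∈ VX := hC v fun _ _ => rfl
  by_cases h2 : lt (fun h => v (Sum.inl h)) g = x
  · set w := Function.update v (Sum.inl (g, b)) (!v (Sum.inl (g, b))) with hw
    have hwm : w ∈ VX := hC w (hC.upd (fun _ _ => rfl) hA _)
    have h3 : lt (fun h => w (Sum.inl h)) g ≠ x := by
      rw [← h2, Ne, lt_eq, not_forall]
      refine ⟨b, ?_⟩
      simp [hw]
    obtain ⟨y, h4, h5⟩ := prop_gen hwm.1.1 hx h3
    refine ⟨y, h4, ?_⟩
    rw [← h5, lt_eq]
    intro b'
    rw [hw]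
    show _ = Function.update v (Sum.inl (g, b)) (!v (Sum.inl (g, b))) (Sum.inl (g', b'))
    rw [Function.update_of_ne]
    intro h6
    simp only [Sum.inl.injEq, Prod.mk.injEq] at h6
    exact hne h6.1
  · exact prop_gen hv.1.1 hx h2

lemma cube_same {v : HX → Bool} {A : Finset HX} (hC : IsCube VX v A) {g g' : F} {b b' : Bool}
    (hA : Sum.inl (g, b) ∈ A) (hA' : Sum.inl (g', b') ∈ A) : g' = g := by
  by_contra hne
  have h1 := cube_point hC hA g' hne b'
  have hC2 : IsCube VX (Function.update v (Sum.inl (g', b')) (!v (Sum.inl (g', b')))) A := by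
    intro w hw
    refine hC w fun h hh => ?_
    rw [hw h hh]
    exact hC.upd (fun _ _ => rfl) hA' _ h hh
  have h2 := cube_point hC2 hA g' hne b'
  rw [Function.update_self, ← h1] at h2
  cases h : v (Sum.inl (g', b')) <;> simp [h] at h2

lemma cube_int {v : HX → Bool} {A : Finset HX} (hC : IsCube VX v A) {n : ℤ}
    (hA : Sum.inr n ∈ A) : ∀ m, m ≠ n → v (Sum.inr m) = th n m := by
  intro m hm
  have e : ∀ b, Function.update v (Sum.inr n) b (Sum.inr m) = v (Sum.inr m) := fun b => by
    rw [Function.update_of_ne]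
    intro h; exact hm (Sum.inr_injective h)
  obtain ⟨-, k, hk⟩ := hC _ (hC.upd (fun _ _ => rfl) hA true)
  obtain ⟨-, l, hl⟩ := hC _ (hC.upd (fun _ _ => rfl) hA false)
  have h1 := hk n
  have h2 := hl n
  rw [Function.update_self] at h1 h2
  have h3 := hk m
  have h4 := hl m
  rw [e] at h3 h4
  simp only [th] at h1 h2 h3 h4 ⊢
  have h5 : n < k := by simpa using h1.symm
  have h6 : l ≤ n := by simpa using h2.symm
  rcases lt_or_gt_of_ne hm with h7 | h7
  · rw [h3]; simp only [decide_eq_decide]; omega
  · rw [h4]; simp only [decide_eq_decide]; omega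

lemma cube_int_same {v : HX → Bool} {A : Finset HX} (hC : IsCube VX v A) {n m : ℤ}
    (hA : Sum.inr n ∈ A) (hA' : Sum.inr m ∈ A) : m = n := by
  by_contra hne
  have h1 := cube_int hC hA m hne
  have hC2 : IsCube VX (Function.update v (Sum.inr m) (!v (Sum.inr m))) A := by
    intro w hw
    refine hC w fun h hh => ?_
    rw [hw h hh]
    exact hC.upd (fun _ _ => rfl) hA' _ h hh
  have h2 := cube_int hC2 hA m hne
  rw [Function.update_self, ← h1] at h2
  cases h : v (Sum.inr m) <;> simp [h] at h2

/-- the coordinates of a maximal cube -/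
def S3 (g : F) (n : ℤ) : Finset HX :=
  Finset.cons (Sum.inl (g, false)) (Finset.cons (Sum.inl (g, true)) {Sum.inr n} (by simp)) (by simp)

lemma mem_S3 {g : F} {n : ℤ} {h : HX} :
    h ∈ S3 g n ↔ h = Sum.inl (g, false) ∨ h = Sum.inl (g, true) ∨ h = Sum.inr n := by
  simp [S3]

lemma sum_S3 (φ : HX → ℝ) (g : F) (n : ℤ) :
    ∑ h ∈ S3 g n, φ h = φ (Sum.inl (g, false)) + (φ (Sum.inl (g, true)) + φ (Sum.inr n)) := by
  simp [S3]

/-- every cube is contained in a maximal one -/
lemma cube_shape {v : HX → Bool} {A : Finset HX} (hC : IsCube VX v A) :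
    ∃ g n, A ⊆ S3 g n ∧ Pt v g ∧ ∀ m, m ≠ n → v (Sum.inr m) = th n m := by
  have hv : v ∈ VX := hC v fun _ _ => rfl
  have h1 : ∃ g, Pt v g ∧ ∀ g' b, Sum.inl (g', b) ∈ A → g' = g := by
    by_cases h : ∃ g b, (Sum.inl (g, b) : HX) ∈ A
    · obtain ⟨g, b, hA⟩ := h
      exact ⟨g, cube_point hC hA, fun g' b' h' => cube_same hC hA h'⟩
    · push Not at h
      obtain ⟨g, hg⟩ := exists_loc' hv.1
      exact ⟨g, pt_of fun g' hne => lt_of_loc hv.1.1 hg hne, fun g' b h' => absurd h' (h g' b)⟩
  have h2 : ∃ n, (∀ m, m ≠ n → v (Sum.inr m) = th n m) ∧ ∀ m, Sum.inr m ∈ A → m = n := by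
    by_cases h : ∃ n, (Sum.inr n : HX) ∈ A
    · obtain ⟨n, hA⟩ := h
      exact ⟨n, cube_int hC hA, fun m h' => cube_int_same hC hA h'⟩
    · push Not at h
      obtain ⟨k, hk⟩ := hv.2
      exact ⟨k, fun m _ => hk m, fun m h' => absurd h' (h m)⟩
  obtain ⟨g, hg, hg2⟩ := h1
  obtain ⟨n, hn, hn2⟩ := h2
  refine ⟨g, n, fun h hh => ?_, hg, hn⟩
  rw [mem_S3]
  rcases h with ⟨g', b⟩ | m
  · have := hg2 g' b hh
    subst this
    cases b <;> simp
  · have := hn2 m hh
    subst this
    simp

/-- changing the coordinates at a node at an end of the edge -/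
lemma isCube_loc {v : F × Bool → Bool} (hv : v ∈ VY) {g : F} (hg : Loc v g) (n : ℤ) :
    IsCube VX (mk2 v (th n)) (S3 g n) := by
  intro w hw
  constructor
  · refine upd_mem hv hg fun h hh => ?_
    refine hw (Sum.inl h) ?_
    rw [mem_S3]
    rintro (h1 | h1 | h1)
    · exact hh (congrArg Prod.fst (Sum.inl_injective h1))
    · exact hh (congrArg Prod.fst (Sum.inl_injective h1))
    · exact absurd h1 (by simp)
  · by_cases h1 : w (Sum.inr n) = true
    · refine ⟨n + 1, fun m => ?_⟩
      by_cases h2 : m = n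
      · subst h2; rw [h1]; simp [th]
      · rw [hw (Sum.inr m) (by rw [mem_S3]; simpa using h2)]
        show th n m = th (n + 1) m
        simp only [th, decide_eq_decide]; omega
    · refine ⟨n, fun m => ?_⟩
      by_cases h2 : m = n
      · subst h2
        have h3 : w (Sum.inr m) = false := by simpa using h1
        rw [h3]; simp [th]
      · rw [hw (Sum.inr m) (by rw [mem_S3]; simpa using h2)]
        rfl

/-- translation as a permutation -/
def trP (g : F) (n : ℤ) : Equiv.Perm HX where
  toFun := Sum.map (tr g) (· + n)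
  invFun := Sum.map (tr g⁻¹) (· + -n)
  left_inv := by rintro (⟨a, b⟩ | m) <;> simp [tr]
  right_inv := by rintro (⟨a, b⟩ | m) <;> simp [tr]

lemma trP_mem (g : F) (n : ℤ) (v : HX → Bool) : v ∘ trP g n ∈ VX ↔ v ∈ VX := by
  have h1 : (fun h => (v ∘ trP g n) (Sum.inl h)) = (fun h => v (Sum.inl h)) ∘ tr g := rfl
  constructor
  · rintro ⟨h2, k, hk⟩
    refine ⟨(tr_mem_iff g).1 h2, k + n, fun m => ?_⟩
    have h3 := hk (m - n)
    have h4 : (v ∘ trP g n) (Sum.inr (m - n)) = v (Sum.inr m) := by
      show v (Sum.inr (m - n + n)) = _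
      rw [sub_add_cancel]
    rw [← h4, h3]
    simp only [th, decide_eq_decide]; omega
  · rintro ⟨h2, k, hk⟩
    refine ⟨(tr_mem_iff g).2 h2, k - n, fun m => ?_⟩
    show v (Sum.inr (m + n)) = _
    rw [hk]
    simp only [th, decide_eq_decide]; omega

/-- the automorphisms -/
def AutG {H : Type} (V : Set (H → Bool)) : Subgroup (Equiv.Perm H) where
  carrier := {π | ∀ v, v ∘ π ∈ V ↔ v ∈ V}
  one_mem' := fun v => Iff.rfl
  mul_mem' := by
    intro π π' h h' v
    have e : v ∘ (π * π' : Equiv.Perm H) = (v ∘ π) ∘ π' := rfl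
    rw [e, h', h]
  inv_mem' := by
    intro π h v
    have e : (v ∘ (π⁻¹ : Equiv.Perm H)) ∘ π = v := by funext k; simp
    rw [← h, e]

lemma isCocompact_VX : IsCocompact VX := by
  refine ⟨AutG VX, fun π hπ v hv => (hπ v).2 hv, {(mk2 v0 (th 0), S3 1 0)},
    Set.finite_singleton _, ?_, ?_⟩
  · rintro C hC
    rw [Set.mem_singleton_iff] at hC
    subst hC
    exact isCube_loc v0_mem loc_v0 0
  · rintro x ⟨v, A, hC, hx1, hx2⟩
    obtain ⟨g, n, hA, hg, hn⟩ := cube_shape hC
    refine ⟨trP g n, fun v => trP_mem g n v, _, rfl, ?_, ?_⟩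
    · intro h _
      have hb : ∀ h, 0 ≤ x h ∧ x h ≤ 1 := by
        intro h
        by_cases hh : h ∈ A
        · exact hx1 h hh
        · rw [hx2 h hh]; split_ifs <;> norm_num
      exact hb _
    · intro h hh
      have hh' : h ∉ S3 1 0 := hh
      rw [mem_S3] at hh'
      push Not at hh'
      have h3 : trP g n h ∉ A := by
        intro h4
        have h5 := hA h4
        rw [mem_S3] at h5
        rcases h with ⟨g', b⟩ | m
        · rcases h5 with h5 | h5 | h5
          · have h6 := Sum.inl_injective h5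
            simp only [tr, Prod.mk.injEq, mul_eq_left] at h6
            exact hh'.1 (by rw [h6.1, h6.2])
          · have h6 := Sum.inl_injective h5
            simp only [tr, Prod.mk.injEq, mul_eq_left] at h6
            exact hh'.2.1 (by rw [h6.1, h6.2])
          · exact absurd h5 (by simp [trP])
        · rcases h5 with h5 | h5 | h5
          · exact absurd h5 (by simp [trP])
          · exact absurd h5 (by simp [trP])
          · have h6 : m + n = n := Sum.inr_injective h5
            exact hh'.2.2 (by rw [show m = 0 by omega])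
      show x (trP g n h) = if mk2 v0 (th 0) h then 1 else 0
      rw [hx2 _ h3]
      congr 1
      rw [eq_iff_iff, ← Bool.eq_iff_iff]
      rcases h with ⟨g', b⟩ | m
      · have hne : g' ≠ 1 := by
          rintro rfl
          cases b
          · exact hh'.1 rfl
          · exact hh'.2.1 rfl
        have := hg (g * g') (by simpa using hne) b
        rw [inv_mul_cancel_left] at this
        exact this
      · have hne : m ≠ 0 := by rintro rfl; exact hh'.2.2 rfl
        have := hn (m + n) (by simpa using hne)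
        show v (Sum.inr (m + n)) = th 0 m
        rw [this]
        simp only [th, decide_eq_decide]; omega

lemma dim_VX {v : HX → Bool} {A : Finset HX} (hC : IsCube VX v A) : A.card ≤ 3 := by
  obtain ⟨g, n, hA, -, -⟩ := cube_shape hC
  refine (Finset.card_le_card hA).trans ?_
  simp [S3]

/-! ### local finiteness -/

lemma la_cancel {h : F} {y : Le} (hy : la h = some y) : la (h * el (iv y)) ≠ some (iv y) := by
  obtain ⟨l, hl⟩ := List.getLast?_eq_some_iff.1 hy
  have hr : FreeGroup.IsReduced (l ++ [y]) := by rw [← hl]; exact FreeGroup.isReduced_toWord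
  have hr2 := (List.isChain_append.1 hr)
  have e : h * el (iv y) = FreeGroup.mk l := by
    have e1 : h = FreeGroup.mk l * el y := by
      rw [← FreeGroup.mk_toWord (x := h), hl, el, FreeGroup.mul_mk]
    rw [e1, mul_el_iv]
  have e2 : (FreeGroup.mk l).toWord = l := by
    rw [FreeGroup.toWord_mk]; exact FreeGroup.IsReduced.reduce_eq hr2.1
  rw [e, la, e2]
  intro h3
  have := hr2.2.2 (iv y) (by rw [Option.mem_def]; exact h3) y (by simp) rfl
  simp [iv] at this

lemma loc_unique {v : F × Bool → Bool} (hv : Cons v) {g g' : F} (h : Loc v g) (h' : Loc v g')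
    (hne : g' ≠ g) : g' = g * el (lt v g) := by
  obtain ⟨y, h1, h2⟩ := lt_of_loc hv h hne
  rw [Loc, h2, iv_iv] at h'
  by_cases h3 : g' * el (iv y) = g
  · rw [h3] at h'
    rw [h', ← h3, mul_el_iv']
  · obtain ⟨z, h4, h5⟩ := lt_of_loc hv h h3
    rw [h'] at h5
    exfalso
    rw [← mul_assoc] at h4
    refine la_cancel h1 ?_
    rw [h4, h5, iv_iv]

lemma isLocallyFinite_VX : IsLocallyFinite VX := by
  rintro v ⟨hv, k, hk⟩
  set w : F × Bool → Bool := fun h => v (Sum.inl h) with hw
  obtain ⟨g, hg⟩ := exists_loc' hv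
  refine (Set.toFinite ({Sum.inl (g, false), Sum.inl (g, true), Sum.inl (g * el (lt w g), false),
    Sum.inl (g * el (lt w g), true), Sum.inr k, Sum.inr (k - 1)} : Set HX)).subset ?_
  rintro (⟨g', b⟩ | n) ⟨v', hv', h1, h2⟩
  · have hloc : Loc w g' := by
      set w' : F × Bool → Bool := fun h => v' (Sum.inl h) with hw'
      have h3 : lt w' g' ≠ lt w g' := by
        rw [Ne, lt_eq, not_forall]; exact ⟨b, h1⟩
      have h4 := (hv'.1.1 g' (lt w g')).resolve_left h3
      have hne : g' * el (lt w g') ≠ g' := by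
        intro h
        have h2 : el (lt w g') = 1 := by simpa using h
        have := congrArg FreeGroup.toWord h2
        rw [toWord_el] at this; simp at this
      have h5 : lt w' (g' * el (lt w g')) = lt w (g' * el (lt w g')) := by
        rw [lt_eq]
        intro b'
        refine h2 _ ?_
        intro h
        exact hne (congrArg Prod.fst (Sum.inl_injective h))
      rw [Loc, ← h5]; exact h4
    by_cases h6 : g' = g
    · subst h6; cases b <;> simp
    · have := loc_unique hv.1 hg hloc h6
      rw [this]; cases b <;> simp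
  · by_contra hcon
    simp only [Set.mem_insert_iff, Set.mem_singleton_iff, reduceCtorEq, false_or, not_or,
      Sum.inr.injEq] at hcon
    obtain ⟨-, l, hl⟩ := hv'
    have e1 := h2 (Sum.inr k) (fun h => hcon.1 (Sum.inr_injective h).symm)
    have e2 := h2 (Sum.inr (k - 1)) (fun h => hcon.2 (Sum.inr_injective h).symm)
    rw [hl, hk] at e1 e2 h1
    simp only [th, decide_eq_decide] at e1 e2
    have : l = k := by omega
    exact h1 (by rw [this])

end Pool.Agent.H225R3.Cube
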