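import Mathlib

/-! Definitions: the group `PGL₁(ℍ)(ℝ) = ℍˣ/ℝˣ ≅ SO(3)` and its regular functions, surface groups,
representation spaces, Zariski open sets, quotients by conjugation, smooth manifolds. -/

open Quaternion Topology

namespace Pool.Agent.H225R3.CV

/-- The multiplicative group of the Hamilton quaternions. -/
abbrev HU : Type := (ℍ[ℝ])ˣ

/-- The real scalars in `ℍˣ`. -/
def scalars : Subgroup HU where
  carrier := {h | ∃ r : ℝ, (h : ℍ[ℝ]) = (r : ℍ[ℝ])}
  one_mem' := ⟨1, by simp⟩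
  mul_mem' := by
    rintro a b ⟨r, hr⟩ ⟨s, hs⟩
    exact ⟨r * s, by simp [hr, hs]⟩
  inv_mem' := by
    rintro a ⟨r, hr⟩
    refine ⟨r⁻¹, ?_⟩
    simp [hr]

instance : scalars.Normal where
  conj_mem := by
    rintro n ⟨r, hr⟩ g
    refine ⟨r, ?_⟩
    have h0 : (g : ℍ[ℝ]) ≠ 0 := g.ne_zero
    simp only [Units.val_mul, Units.val_inv_eq_inv_val, hr]
    rw [← Quaternion.coe_commutes r (g : ℍ[ℝ]), mul_assoc, mul_inv_cancel₀ h0, mul_one]

/-- `PGL₁(ℍ)(ℝ) = ℍˣ/ℝˣ`, the group of rotations of Euclidean 3-space. -/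
abbrev PH : Type := HU ⧸ scalars

/-- The components of a quaternion. -/
def comp (q : ℍ[ℝ]) : Fin 4 → ℝ := ![q.re, q.imI, q.imJ, q.imK]

/-- The regular functions `h ↦ h_i h_j / N(h)` on `PGL₁(ℍ)`; they generate its coordinate ring. -/
noncomputable def coord (i j : Fin 4) : PH → ℝ :=
  Quotient.lift (fun h : HU => comp h i * comp h j / normSq (h : ℍ[ℝ])) (by
    intro h h' hh
    obtain ⟨r, hr⟩ : h⁻¹ * h' ∈ scalars := QuotientGroup.leftRel_apply.1 hh
    have h2 : (h' : ℍ[ℝ]) = r • (h : ℍ[ℝ]) := by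
      have : (h : ℍ[ℝ]) * ((h⁻¹ * h' : HU) : ℍ[ℝ]) = h * (r : ℍ[ℝ]) := by rw [hr]
      rw [← Units.val_mul, mul_inv_cancel_left] at this
      rw [this, ← Quaternion.coe_commutes, Quaternion.coe_mul_eq_smul]
    have h0 : r ≠ 0 := by
      rintro rfl
      exact h'.ne_zero (by rw [h2, zero_smul])
    have h3 : ∀ i, comp (h' : ℍ[ℝ]) i = r * comp (h : ℍ[ℝ]) i := by
      intro i
      rw [h2]
      fin_cases i <;> simp [comp]
    have h4 : normSq (h' : ℍ[ℝ]) = r ^ 2 * normSq (h : ℍ[ℝ]) := by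
      rw [h2, Quaternion.normSq_smul]
    have h5 : normSq (h : ℍ[ℝ]) ≠ 0 := by
      rw [Ne, Quaternion.normSq_eq_zero]; exact h.ne_zero
    rw [h3, h3, h4]
    field_simp)

/-- The relator `[a₁,b₁]⋯[a_g,b_g]`; the generators are `a_i = Sum.inl i` and `b_i = Sum.inr i`. -/
def surfaceRel (g : ℕ) : FreeGroup (Fin g ⊕ Fin g) :=
  (List.ofFn fun i : Fin g => FreeGroup.of (Sum.inl i) * FreeGroup.of (Sum.inr i) *
    (FreeGroup.of (Sum.inl i))⁻¹ * (FreeGroup.of (Sum.inr i))⁻¹).prod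

/-- The fundamental group of the closed orientable surface of genus `g`,
`⟨a₁,b₁,…,a_g,b_g | [a₁,b₁]⋯[a_g,b_g]⟩`. -/
abbrev SurfaceGroup (g : ℕ) : Type :=
  PresentedGroup ({surfaceRel g} : Set (FreeGroup (Fin g ⊕ Fin g)))

/-- The standard generators of the surface group. -/
def gen {g : ℕ} (x : Fin g ⊕ Fin g) : SurfaceGroup g := PresentedGroup.of x

/-- `Hom(π₁(S_g), G)`. -/
abbrev Rep (g : ℕ) (G : Type) [Group G] : Type := SurfaceGroup g →* G

/-- `Hom(π₁(S_g), G)` is topologised as a subset of `G^{2g}` via the images of the standard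
generators. -/
instance (g : ℕ) (G : Type) [Group G] [TopologicalSpace G] : TopologicalSpace (Rep g G) :=
  TopologicalSpace.induced (fun (ρ : SurfaceGroup g →* G) (x : Fin g ⊕ Fin g) => ρ (gen x))
    inferInstance

/-- The action of `G` on `Hom(π₁(S_g), G)` by conjugation. -/
def conjRep {g : ℕ} {G : Type} [Group G] (k : G) (ρ : Rep g G) : Rep g G :=
  (MulAut.conj k).toMonoidHom.comp ρ

/-- `Ω` is invariant under conjugation. -/
def ConjInvariant {g : ℕ} {G : Type} [Group G] (Ω : Set (Rep g G)) : Prop :=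
  ∀ (k : G) (ρ : Rep g G), ρ ∈ Ω → conjRep k ρ ∈ Ω

/-- The algebra of regular functions on `Hom(π₁(S_g), G)`, generated by the regular functions
`c i` of `G` applied to the images of the generators. -/
def regularFunctions {G ι : Type} [Group G] (g : ℕ) (c : ι → G → ℝ) :
    Subalgebra ℝ (Rep g G → ℝ) :=
  Algebra.adjoin ℝ {f | ∃ (x : Fin g ⊕ Fin g) (i : ι), f = fun ρ => c i (ρ (gen x))}

/-- `Ω` is Zariski open in `Hom(π₁(S_g), G)`: its complement is the set of common zeros of a set of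
regular functions. -/
def IsZariskiOpen {G ι : Type} [Group G] {g : ℕ} (c : ι → G → ℝ) (Ω : Set (Rep g G)) : Prop :=
  ∃ S : Set (Rep g G → ℝ), S ⊆ (regularFunctions g c : Set (Rep g G → ℝ)) ∧
    Ω = {ρ | ∃ f ∈ S, f ρ ≠ 0}

/-- Two elements of `Ω` are equivalent when they are conjugate by an element of `G`. -/
def orbitSetoid {g : ℕ} {G : Type} [Group G] (Ω : Set (Rep g G)) : Setoid Ω where
  r ρ ρ' := ∃ k : G, ρ'.1 = conjRep k ρ.1
  iseqv := by
    refine ⟨fun ρ => ⟨1, ?_⟩, ?_, ?_⟩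
    · ext x
      simp [conjRep]
    · rintro ρ ρ' ⟨k, hk⟩
      refine ⟨k⁻¹, ?_⟩
      rw [hk]
      refine MonoidHom.ext fun γ => ?_
      simp [conjRep, mul_assoc]
    · rintro ρ ρ' ρ'' ⟨k, hk⟩ ⟨l, hl⟩
      refine ⟨l * k, ?_⟩
      rw [hl, hk]
      refine MonoidHom.ext fun γ => ?_
      simp [conjRep, mul_assoc]

/-- The quotient `Ω/G`, with the quotient topology. -/
abbrev Quo {g : ℕ} {G : Type} [Group G] (Ω : Set (Rep g G)) : Type := Quotient (orbitSetoid Ω)

/-- The topological space `Y` is a smooth manifold (Hausdorff, second countable, with a smooth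
atlas modelled on some `ℝⁿ`). -/
def IsSmoothManifold (Y : Type) [TopologicalSpace Y] : Prop :=
  T2Space Y ∧ SecondCountableTopology Y ∧
    ∃ (n : ℕ) (cs : ChartedSpace (EuclideanSpace ℝ (Fin n)) Y),
      @IsManifold ℝ _ (EuclideanSpace ℝ (Fin n)) _ _ (EuclideanSpace ℝ (Fin n)) _
        (modelWithCornersSelf ℝ (EuclideanSpace ℝ (Fin n))) ((⊤ : ℕ∞) : WithTop ℕ∞) Y _ cs

end Pool.Agent.H225R3.CV
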