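import Mathlib

/-! Quasi-isometric embeddings and Lipschitz graphs in `X × ℝ`, for `X = ℍ² × Z`. -/

open UpperHalfPlane

namespace Pool.Agent.H225R3.Fold

/-- The product metric on `ℍ² × Z`, with the hyperbolic metric of curvature `-1` on the upper half
plane `ℍ`. -/
noncomputable def dX (Z : Type) [MetricSpace Z] (x y : ℍ × Z) : ℝ :=
  √(dist x.1 y.1 ^ 2 + dist x.2 y.2 ^ 2)

/-- The product metric on `X × ℝ`, for a metric `d` on `X`. -/
noncomputable def dR {X : Type} (d : X → X → ℝ) (p q : X × ℝ) : ℝ :=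
  √(d p.1 q.1 ^ 2 + (p.2 - q.2) ^ 2)

/-- `f` is a quasi-isometric embedding. -/
def IsQI {A B : Type} (dA : A → A → ℝ) (dB : B → B → ℝ) (f : A → B) : Prop :=
  ∃ L C : ℝ, 1 ≤ L ∧ 0 ≤ C ∧ ∀ a a' : A, L⁻¹ * dA a a' - C ≤ dB (f a) (f a') ∧
    dB (f a) (f a') ≤ L * dA a a' + C

/-- The sets `S` and `T` are at finite Hausdorff distance. -/
def FiniteHausdorff {B : Type} (dB : B → B → ℝ) (S T : Set B) : Prop :=
  ∃ R : ℝ, (∀ s ∈ S, ∃ t ∈ T, dB s t ≤ R) ∧ ∀ t ∈ T, ∃ s ∈ S, dB t s ≤ R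

/-- The map `f : X → X × ℝ` is a Lipschitz graph in the coarse sense. -/
def IsLipschitzGraph {X : Type} (d : X → X → ℝ) (f : X → X × ℝ) : Prop :=
  ∃ h : X → ℝ, (∃ K : ℝ, ∀ x y, |h x - h y| ≤ K * d x y) ∧
    FiniteHausdorff (dR d) (Set.range f) {p | p.2 = h p.1}

end Pool.Agent.H225R3.Fold
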