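import Pool.Agent.H225R3.FoldDefs

/-! Folding the hyperbolic plane along a geodesic. -/

open UpperHalfPlane

namespace Pool.Agent.H225R3.Fold

/-- the reflection in the imaginary axis -/
noncomputable def sg (z : ℍ) : ℍ := ⟨⟨-z.re, z.im⟩, z.im_pos⟩

@[simp] lemma sg_re (z : ℍ) : (sg z).re = -z.re := rfl
@[simp] lemma sg_im (z : ℍ) : (sg z).im = z.im := rfl

lemma dist_le_of {z w z' w' : ℍ} (h1 : z.im = z'.im) (h2 : w.im = w'.im)
    (h : (z.re - w.re) ^ 2 ≤ (z'.re - w'.re) ^ 2) : dist z w ≤ dist z' w' := by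
  rw [UpperHalfPlane.dist_eq, UpperHalfPlane.dist_eq, h1, h2]
  have h3 : dist (z : ℂ) w ≤ dist (z' : ℂ) w' := by
    rw [Complex.dist_eq_re_im, Complex.dist_eq_re_im]
    refine Real.sqrt_le_sqrt ?_
    simp only [coe_re, coe_im, h1, h2]
    linarith
  have h4 : dist (z : ℂ) w / (2 * √(z'.im * w'.im)) ≤ dist (z' : ℂ) w' / (2 * √(z'.im * w'.im)) :=
    div_le_div_of_nonneg_right h3 (by positivity)
  linarith [Real.arsinh_le_arsinh.2 h4]

lemma dist_eq_of {z w z' w' : ℍ} (h1 : z.im = z'.im) (h2 : w.im = w'.im)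
    (h : (z.re - w.re) ^ 2 = (z'.re - w'.re) ^ 2) : dist z w = dist z' w' :=
  le_antisymm (dist_le_of h1 h2 h.le) (dist_le_of h1.symm h2.symm h.ge)

open Classical in
/-- the folding -/
noncomputable def fo (z : ℍ) : ℍ := if 0 ≤ z.re then z else sg z
open Classical in
/-- the height -/
noncomputable def he (z : ℍ) : ℝ := if 0 ≤ z.re then 0 else dist z (sg z)

lemma he_nonneg (z : ℍ) : 0 ≤ he z := by unfold he; split_ifs <;> positivity
lemma fo_re (z : ℍ) : 0 ≤ (fo z).re := by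
  unfold fo; split_ifs with h
  · exact h
  · rw [sg_re]; linarith [not_le.1 h]

lemma dist_sg_sg (z w : ℍ) : dist (sg z) (sg w) = dist z w :=
  dist_eq_of rfl rfl (by simp only [sg_re]; ring)

lemma fo_lip (z w : ℍ) : dist (fo z) (fo w) ≤ dist z w := by
  unfold fo
  split_ifs with h1 h2 h2
  · exact le_rfl
  · exact dist_le_of rfl rfl (by simp only [sg_re]; nlinarith [not_le.1 h2])
  · exact dist_le_of rfl rfl (by simp only [sg_re]; nlinarith [not_le.1 h1])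
  · exact (dist_sg_sg z w).le

lemma he_lip (z w : ℍ) : |he z - he w| ≤ 2 * dist z w := by
  unfold he
  split_ifs with h1 h2 h2
  · simp
  · rw [zero_sub, abs_neg, abs_of_nonneg dist_nonneg]
    have a : dist z (sg w) ≤ dist z w :=
      dist_le_of rfl rfl (by simp only [sg_re]; nlinarith [not_le.1 h2])
    have b := dist_triangle w z (sg w)
    rw [dist_comm w z] at b
    linarith
  · rw [sub_zero, abs_of_nonneg dist_nonneg]
    have a : dist (sg z) w ≤ dist z w :=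
      dist_le_of rfl rfl (by simp only [sg_re]; nlinarith [not_le.1 h1])
    have b := dist_triangle z w (sg z)
    rw [dist_comm w (sg z)] at b
    linarith
  · rw [abs_le]
    have a := dist_triangle z w (sg z)
    have b := dist_triangle w (sg w) (sg z)
    have c := dist_triangle w z (sg w)
    have d := dist_triangle z (sg z) (sg w)
    rw [dist_comm (sg w) (sg z), dist_sg_sg] at b
    rw [dist_sg_sg] at d
    rw [dist_comm w z] at c
    constructor <;> linarith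

lemma lower (z w : ℍ) : dist z w ≤ dist (fo z) (fo w) + |he z - he w| := by
  unfold fo he
  split_ifs with h1 h2 h2
  · simp
  · rw [zero_sub, abs_neg, abs_of_nonneg dist_nonneg]
    have b := dist_triangle z (sg w) w
    rw [dist_comm (sg w) w] at b
    exact b
  · rw [sub_zero, abs_of_nonneg dist_nonneg]
    have b := dist_triangle z (sg z) w
    linarith
  · rw [dist_sg_sg]; linarith [abs_nonneg (dist z (sg z) - dist w (sg w))]

lemma far {z w : ℍ} (hz : z.re ≤ 0) (hw : 0 ≤ w.re) : dist z (sg z) ≤ 2 * dist z w := by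
  have a : dist (sg z) w ≤ dist z w :=
    dist_le_of rfl rfl (by simp only [sg_re]; nlinarith)
  have b := dist_triangle z w (sg z)
  rw [dist_comm w (sg z)] at b
  linarith

/-- the point `-n + i` -/
noncomputable def pn (n : ℕ) : ℍ := ⟨⟨-n, 1⟩, one_pos⟩

lemma dist_pn (n : ℕ) : dist (pn n) (sg (pn n)) = 2 * Real.arsinh n := by
  rw [UpperHalfPlane.dist_eq, Complex.dist_eq_re_im]
  have h1 : ((pn n : ℍ) : ℂ).re = -n := rfl
  have h2 : ((pn n : ℍ) : ℂ).im = 1 := rfl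
  have h3 : ((sg (pn n) : ℍ) : ℂ).re = -(-n : ℝ) := rfl
  have h4 : ((sg (pn n) : ℍ) : ℂ).im = 1 := rfl
  have h5 : (pn n).im = 1 := rfl
  have h6 : (sg (pn n)).im = 1 := rfl
  rw [h1, h2, h3, h4, h5, h6]
  have h7 : √((-(n : ℝ) - -(-n : ℝ)) ^ 2 + (1 - 1) ^ 2) = 2 * n := by
    rw [show (-(n : ℝ) - -(-n : ℝ)) ^ 2 + (1 - 1) ^ 2 = (2 * n) ^ 2 by ring]
    exact Real.sqrt_sq (by positivity)
  rw [h7, mul_one, Real.sqrt_one, mul_one, mul_div_cancel_left₀ _ (two_ne_zero)]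

variable (Z : Type) [MetricSpace Z]

lemma dX_left (x y : ℍ × Z) : dist x.1 y.1 ≤ dX Z x y := by
  unfold dX
  exact Real.le_sqrt_of_sq_le (by nlinarith [sq_nonneg (dist x.2 y.2)])

lemma dX_nonneg (x y : ℍ × Z) : 0 ≤ dX Z x y := Real.sqrt_nonneg _

/-- the map -/
noncomputable def ff (x : ℍ × Z) : (ℍ × Z) × ℝ := ((fo x.1, x.2), he x.1)

lemma isQI_ff : IsQI (dX Z) (dR (dX Z)) (ff Z) := by
  refine ⟨3, 0, by norm_num, le_rfl, fun x y => ?_⟩
  have e : dR (dX Z) (ff Z x) (ff Z y) =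
      √(dist (fo x.1) (fo y.1) ^ 2 + dist x.2 y.2 ^ 2 + (he x.1 - he y.1) ^ 2) := by
    unfold dR ff dX
    rw [Real.sq_sqrt (by positivity)]
  rw [e, sub_zero, add_zero]
  have a := fo_lip x.1 y.1
  have b := he_lip x.1 y.1
  have c := lower x.1 y.1
  have d0 : 0 ≤ dist (fo x.1) (fo y.1) := dist_nonneg
  have e0 : 0 ≤ dist x.1 y.1 := dist_nonneg
  have b2 : (he x.1 - he y.1) ^ 2 ≤ (2 * dist x.1 y.1) ^ 2 := by
    rw [← sq_abs]; exact pow_le_pow_left₀ (abs_nonneg _) b 2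
  have c2 : dist x.1 y.1 ^ 2 ≤ 2 * (dist (fo x.1) (fo y.1) ^ 2 + (he x.1 - he y.1) ^ 2) := by
    have h1 := pow_le_pow_left₀ e0 c 2
    have h2 := sq_abs (he x.1 - he y.1)
    nlinarith [sq_nonneg (dist (fo x.1) (fo y.1) - |he x.1 - he y.1|)]
  constructor
  · have h : 3⁻¹ * dX Z x y = √((3⁻¹) ^ 2 * (dist x.1 y.1 ^ 2 + dist x.2 y.2 ^ 2)) := by
      rw [Real.sqrt_mul (by norm_num), Real.sqrt_sq (by norm_num)]; rfl
    rw [h]
    refine Real.sqrt_le_sqrt ?_
    nlinarith [sq_nonneg (dist x.2 y.2), sq_nonneg (dist (fo x.1) (fo y.1)),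
      sq_nonneg (he x.1 - he y.1)]
  · have h : 3 * dX Z x y = √(3 ^ 2 * (dist x.1 y.1 ^ 2 + dist x.2 y.2 ^ 2)) := by
      rw [Real.sqrt_mul (by norm_num), Real.sqrt_sq (by norm_num)]; rfl
    rw [h]
    refine Real.sqrt_le_sqrt ?_
    nlinarith [sq_nonneg (dist x.2 y.2), pow_le_pow_left₀ d0 a 2]

lemma not_graph [Nonempty Z] : ¬ IsLipschitzGraph (dX Z) (ff Z) := by
  rintro ⟨h, -, R, -, hR⟩
  obtain ⟨z0⟩ := ‹Nonempty Z›
  obtain ⟨n, hn⟩ := exists_nat_gt (Real.sinh R)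
  have hn' : R < Real.arsinh n := by
    rw [← Real.arsinh_sinh R]; exact Real.arsinh_lt_arsinh.2 hn
  obtain ⟨s, ⟨x, rfl⟩, hs⟩ := hR ((pn n, z0), h (pn n, z0)) rfl
  have h1 : dist (pn n) (fo x.1) ≤ R := by
    refine le_trans ?_ hs
    refine le_trans (dX_left Z (pn n, z0) (fo x.1, x.2)) ?_
    unfold dR
    refine Real.le_sqrt_of_sq_le ?_
    show _ ≤ dX Z (pn n, z0) (fo x.1, x.2) ^ 2 + _
    nlinarith [sq_nonneg (h (pn n, z0) - he x.1)]
  have h2 := far (z := pn n) (w := fo x.1) (by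
    show -(n : ℝ) ≤ 0
    have : (0 : ℝ) ≤ n := Nat.cast_nonneg n
    linarith) (fo_re _)
  rw [dist_pn] at h2
  linarith

theorem fold_main [Nonempty Z] : ∃ f : ℍ × Z → (ℍ × Z) × ℝ,
    IsQI (dX Z) (dR (dX Z)) f ∧ ¬ IsLipschitzGraph (dX Z) f :=
  ⟨ff Z, isQI_ff Z, not_graph Z⟩

end Pool.Agent.H225R3.Fold
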