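import Mathlib

set_option autoImplicit false

namespace Pool.Agent.H225R3.JRad

open MonoidAlgebra

section prim
variable {G : Type*} [Group G] {A K k : Type*} [CommRing A] [IsDomain A] [Field K] [Algebra A K]
  [IsFractionRing A K] [CommRing k]

omit [IsDomain A] [Group G] in
lemma mem_range_mapRingHom {R S : Type*} [CommRing R] [CommRing S] (f : R →+* S) (G : Type*)
    [Group G] (x : MonoidAlgebra S G) (h : ∀ g, x.coeff g ∈ Set.range f) :
    ∃ y : MonoidAlgebra R G, mapRingHom G f y = x := by
  have : x ∈ Set.range (MonoidAlgebra.map (M := G) (f : R →+ S)) := by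
    rw [MonoidAlgebra.range_map]
    intro i
    exact h i
  obtain ⟨y, hy⟩ := this
  exact ⟨y, by rw [MonoidAlgebra.coe_mapRingHom]; exact hy⟩

lemma prim_aux (φ : A →+* k) (π : A) (hφ : ∀ a, φ a = 0 → π ∣ a) (n : ℕ) :
    ∀ (y : MonoidAlgebra A G) (g : G), ¬ π ^ n ∣ y.coeff g →
      ∃ (m : ℕ) (y' : MonoidAlgebra A G), y = (single (1 : G) (π ^ m)) * y' ∧
        mapRingHom G φ y' ≠ 0 := by
  induction n with
  | zero => intro y g h; exact absurd (by simp) h
  | succ n ih =>
    intro y g h
    by_cases h0 : mapRingHom G φ y = 0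
    · have hdiv : ∀ i, π ∣ y.coeff i := by
        intro i
        apply hφ
        rw [← MonoidAlgebra.coeff_mapRingHom, h0]
        simp
      have : y ∈ Set.range (MonoidAlgebra.map (M := G) (AddMonoidHom.mulLeft π)) := by
        rw [MonoidAlgebra.range_map]
        intro i
        obtain ⟨c, hc⟩ := hdiv i
        exact ⟨c, by simp [hc]⟩
      obtain ⟨y1, hy1⟩ := this
      have hy : y = (single (1 : G) π) * y1 := by
        rw [← hy1]
        ext i
        simp [MonoidAlgebra.coeff_single_one_mul]
      have hg : ¬ π ^ n ∣ y1.coeff g := by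
        intro hd
        apply h
        rw [hy, MonoidAlgebra.coeff_single_one_mul, pow_succ']
        exact mul_dvd_mul_left _ hd
      obtain ⟨m, y', h1, h2⟩ := ih y1 g hg
      refine ⟨m + 1, y', ?_, h2⟩
      rw [hy, h1, ← mul_assoc, MonoidAlgebra.single_mul_single]
      simp [pow_succ']
    · exact ⟨0, y, by simp [← MonoidAlgebra.one_def], h0⟩

lemma exists_primitive (φ : A →+* k) (π : A) (hφ : ∀ a, φ a = 0 → π ∣ a)
    (hπ : ∀ a : A, a ≠ 0 → ∃ n, ¬ π ^ n ∣ a) (hπ0 : π ≠ 0) (x : MonoidAlgebra K G) (hx : x ≠ 0) :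
    ∃ (c : K) (y : MonoidAlgebra A G), c ≠ 0 ∧
      mapRingHom G (algebraMap A K) y = (single (1 : G) c) * x ∧ mapRingHom G φ y ≠ 0 := by
  classical
  obtain ⟨b, hb⟩ := IsLocalization.exist_integer_multiples_of_finset (nonZeroDivisors A)
    (x.coeff.support.image x.coeff)
  have hb0 : algebraMap A K (b : A) ≠ 0 := by
    intro h
    exact nonZeroDivisors.ne_zero b.2 ((IsFractionRing.injective A K) (by rw [h, map_zero]))
  obtain ⟨y0, hy0⟩ := mem_range_mapRingHom (algebraMap A K) G
    ((single (1 : G) (algebraMap A K (b : A))) * x) (by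
      intro g
      rw [MonoidAlgebra.coeff_single_one_mul]
      by_cases hg : x.coeff g = 0
      · exact ⟨0, by simp [hg]⟩
      · obtain ⟨a, ha⟩ := hb (x.coeff g) (Finset.mem_image_of_mem _ (Finsupp.mem_support_iff.2 hg))
        exact ⟨a, by rw [ha, Algebra.smul_def]⟩)
  obtain ⟨g, hg⟩ : ∃ g, x.coeff g ≠ 0 := by
    by_contra hcon
    push Not at hcon
    exact hx (by ext g; simp [hcon g])
  have hyg : y0.coeff g ≠ 0 := by
    intro h
    have := congrArg (fun w : MonoidAlgebra K G => w.coeff g) hy0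
    simp only [MonoidAlgebra.coeff_mapRingHom, h, map_zero, MonoidAlgebra.coeff_single_one_mul] at this
    exact (mul_ne_zero hb0 hg) this.symm
  obtain ⟨n, hn⟩ := hπ _ hyg
  obtain ⟨m, y', h1, h2⟩ := prim_aux φ π hφ n y0 g hn
  have hP : algebraMap A K π ≠ 0 := by
    intro h
    exact hπ0 ((IsFractionRing.injective A K) (by rw [h, map_zero]))
  refine ⟨((algebraMap A K π) ^ m)⁻¹ * algebraMap A K b, y', mul_ne_zero (inv_ne_zero (pow_ne_zero _ hP)) hb0,
    ?_, h2⟩
  have h3 : (single (1 : G) ((algebraMap A K π) ^ m)) * mapRingHom G (algebraMap A K) y' =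
      (single (1 : G) (algebraMap A K b)) * x := by
    rw [← hy0, h1, map_mul]
    simp
  have h4 : (single (1 : G) (((algebraMap A K π) ^ m)⁻¹)) * ((single (1 : G) ((algebraMap A K π) ^ m)) *
      mapRingHom G (algebraMap A K) y') = mapRingHom G (algebraMap A K) y' := by
    rw [← mul_assoc, MonoidAlgebra.single_mul_single, inv_mul_cancel₀ (pow_ne_zero _ hP)]
    simp [← MonoidAlgebra.one_def]
  rw [← h4, h3, ← mul_assoc, MonoidAlgebra.single_mul_single]
  simp

end prim

lemma mem_jac {R : Type*} [Ring R] {x : R} :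
    x ∈ Ideal.jacobson (⊥ : Ideal R) ↔ ∀ y, ∃ z, z * y * x + z = 1 := by
  rw [Ideal.mem_jacobson_iff]
  simp [sub_eq_zero]

section core
variable {G : Type*} [Group G] {A K k : Type*} [CommRing A] [IsDomain A] [Field K] [Algebra A K]
  [IsFractionRing A K] [CommRing k] [Nontrivial k]

omit [Nontrivial k] in
/-- Augmentation. -/
noncomputable def aug (k G : Type*) [CommRing k] [Group G] : MonoidAlgebra k G →+* k :=
  ((MonoidAlgebra.lift k k G (1 : G →* k)) : MonoidAlgebra k G →ₐ[k] k).toRingHom

omit [Nontrivial k] in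
lemma aug_single (g : G) (r : k) : aug k G (single g r) = r := by
  simp [aug]

lemma jac_of_subsingleton (K G : Type*) [Field K] [Group G] [Subsingleton G] :
    Ideal.jacobson (⊥ : Ideal (MonoidAlgebra K G)) = ⊥ := by
  rw [eq_bot_iff]
  intro x hx
  rw [Submodule.mem_bot]
  by_contra h0
  have hx1 : x = single (1 : G) (x.coeff 1) := by
    ext g
    rw [Subsingleton.elim g 1]
    simp
  have hc : x.coeff 1 ≠ 0 := by
    intro h
    apply h0
    rw [hx1, h]
    simp
  obtain ⟨z, hz⟩ := (mem_jac.1 hx) (-(single (1 : G) (x.coeff 1)⁻¹))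
  have h1 : (single (1 : G) (x.coeff 1)⁻¹ : MonoidAlgebra K G) * x = 1 := by
    conv_lhs => rw [hx1]
    rw [MonoidAlgebra.single_mul_single]
    simp [hc, MonoidAlgebra.one_def]
  have h2 : z * -(single (1 : G) (x.coeff 1)⁻¹) * x + z = 0 := by
    rw [mul_assoc, neg_mul, h1]
    simp
  rw [h2] at hz
  exact zero_ne_one hz

/-- The key step: if `J(K[G]) ≠ 0` then the reduction of `J(K[G]) ∩ A[G]`, intersected with the
augmentation ideal, is an ideal of `k[G]` consisting of zero divisors. -/
theorem core [Infinite G] (φ : A →+* k) (hsurj : Function.Surjective φ) (π : A)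
    (hφ : ∀ a, φ a = 0 ↔ π ∣ a)
    (hπ : ∀ a : A, a ≠ 0 → ∃ n, ¬ π ^ n ∣ a) (hπ0 : π ≠ 0)
    (H : ∀ I : Ideal (MonoidAlgebra k G), I.IsTwoSided → I ≠ ⊥ → ∃ b ∈ I, ∀ x, x * b = 0 → x = 0) :
    Ideal.jacobson (⊥ : Ideal (MonoidAlgebra K G)) = ⊥ := by
  classical
  by_contra hne
  obtain ⟨γ, hγ, hγ0⟩ := (Submodule.ne_bot_iff _).1 hne
  have hsurj' : Function.Surjective (mapRingHom G φ) := by
    intro w
    obtain ⟨y, hy⟩ := mem_range_mapRingHom φ G w (fun g => hsurj _)
    exact ⟨y, hy⟩
  obtain ⟨c, δ, hc, hδ, hδ0⟩ := exists_primitive φ π (fun a => (hφ a).1) hπ hπ0 γ hγ0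
  have hP : algebraMap A K π ≠ 0 := by
    intro h
    exact hπ0 ((IsFractionRing.injective A K) (by rw [h, map_zero]))
  let J : Ideal (MonoidAlgebra K G) := Ideal.jacobson (⊥ : Ideal (MonoidAlgebra K G))
  haveI hJ2 : J.IsTwoSided := inferInstance
  let I : Ideal (MonoidAlgebra k G) :=
    { carrier := {w | ∃ y, mapRingHom G φ y = w ∧ mapRingHom G (algebraMap A K) y ∈ J ∧ aug k G w = 0}
      add_mem' := by
        rintro a b ⟨y, rfl, h1, h2⟩ ⟨z, rfl, h3, h4⟩
        exact ⟨y + z, map_add _ _ _, by rw [map_add]; exact J.add_mem h1 h3, by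
          rw [map_add, h2, h4, add_zero]⟩
      zero_mem' := ⟨0, by simp, by rw [map_zero]; exact J.zero_mem, by simp⟩
      smul_mem' := by
        rintro c w ⟨y, rfl, h1, h2⟩
        obtain ⟨c', rfl⟩ := hsurj' c
        exact ⟨c' * y, map_mul _ _ _, by rw [map_mul]; exact J.mul_mem_left _ h1, by
          rw [smul_eq_mul, map_mul, h2, mul_zero]⟩ }
  have hI2 : I.IsTwoSided := ⟨by
    rintro a b ⟨y, rfl, h1, h2⟩
    obtain ⟨b', rfl⟩ := hsurj' b
    exact ⟨y * b', map_mul _ _ _, by rw [map_mul]; exact J.mul_mem_right _ h1, by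
      rw [map_mul, h2, zero_mul]⟩⟩
  have hI0 : I ≠ ⊥ := by
    -- some `(1 - g) δ` is nonzero mod `π`
    obtain ⟨u, hu⟩ : ∃ u, (mapRingHom G φ δ).coeff u ≠ 0 := by
      by_contra hcon
      push Not at hcon
      exact hδ0 (by ext g; simp [hcon g])
    obtain ⟨v, hv⟩ := Infinite.exists_notMem_finset (mapRingHom G φ δ).coeff.support
    have hv0 : (mapRingHom G φ δ).coeff v = 0 := by simpa using hv
    set g : G := v * u⁻¹ with hg
    have hw : (1 - single g 1 : MonoidAlgebra k G) * mapRingHom G φ δ ≠ 0 := by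
      intro h
      have h1 : mapRingHom G φ δ = single g 1 * mapRingHom G φ δ := by
        rw [sub_mul, one_mul, sub_eq_zero] at h
        exact h
      have h2 := congrArg (fun w : MonoidAlgebra k G => w.coeff v) h1
      have h3 : (single g (1 : k) * mapRingHom G φ δ).coeff v = (mapRingHom G φ δ).coeff u := by
        rw [(mapRingHom G φ δ).coeff_single_mul_eq_mul_coeff u (by
          intro m' _
          constructor
          · intro h'
            rw [hg, mul_assoc, mul_eq_left] at h'
            exact (inv_mul_eq_one.1 h').symm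
          · rintro rfl
            simp [hg])]
        simp
      rw [h3] at h2
      exact hu (h2.symm.trans hv0)
    intro hbot
    apply hw
    have : (1 - single g 1 : MonoidAlgebra k G) * mapRingHom G φ δ ∈ I :=
      ⟨(1 - single g 1) * δ, by simp, by
        rw [map_mul, hδ]
        exact J.mul_mem_left _ (J.mul_mem_left _ hγ), by
        rw [map_mul, map_sub, map_one, aug_single]
        simp⟩
    rw [hbot, Submodule.mem_bot] at this
    exact this
  obtain ⟨b, ⟨β, hβb, hβJ, hβaug⟩, hreg⟩ := H I hI2 hI0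
  obtain ⟨z, hz⟩ := (mem_jac.1 hβJ) (-(single (1 : G) ((algebraMap A K π)⁻¹)))
  have hz0 : z ≠ 0 := by
    intro h
    rw [h] at hz
    simp at hz
  obtain ⟨c1, γ', hc1, hγ', hγ'0⟩ := exists_primitive φ π (fun a => (hφ a).1) hπ hπ0 z hz0
  have hcomm : ∀ (a : K) (w : MonoidAlgebra K G), w * single (1 : G) a = single (1 : G) a * w := by
    intro a w
    ext i
    simp [MonoidAlgebra.coeff_single_one_mul, MonoidAlgebra.coeff_mul_single_one, mul_comm]
  have key : z * (single (1 : G) (algebraMap A K π) - mapRingHom G (algebraMap A K) β) =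
      single (1 : G) (algebraMap A K π) := by
    have h2 : (z * -(single (1 : G) ((algebraMap A K π)⁻¹)) * mapRingHom G (algebraMap A K) β + z) *
        single (1 : G) (algebraMap A K π) = single (1 : G) (algebraMap A K π) := by
      rw [hz, one_mul]
    have h3 : (single (1 : G) (algebraMap A K π) : MonoidAlgebra K G) * (z * -(single (1 : G) ((algebraMap A K π)⁻¹)) *
        mapRingHom G (algebraMap A K) β) = - (z * mapRingHom G (algebraMap A K) β) := by
      rw [mul_assoc z, ← mul_assoc, ← hcomm _ z, mul_assoc, neg_mul, mul_neg, ← mul_assoc (single (1:G) (algebraMap A K π)),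
        MonoidAlgebra.single_mul_single, mul_inv_cancel₀ hP]
      simp [← MonoidAlgebra.one_def]
    calc z * (single (1 : G) (algebraMap A K π) - mapRingHom G (algebraMap A K) β)
        = -(z * mapRingHom G (algebraMap A K) β) + z * single (1 : G) (algebraMap A K π) := by
          rw [mul_sub]; abel
      _ = single (1 : G) (algebraMap A K π) * (z * -(single (1 : G) ((algebraMap A K π)⁻¹)) *
            mapRingHom G (algebraMap A K) β) + z * single (1 : G) (algebraMap A K π) := by rw [h3]
      _ = (z * -(single (1 : G) ((algebraMap A K π)⁻¹)) *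
            mapRingHom G (algebraMap A K) β) * single (1 : G) (algebraMap A K π) +
            z * single (1 : G) (algebraMap A K π) := by
          rw [hcomm _ (z * -(single (1 : G) ((algebraMap A K π)⁻¹)) * mapRingHom G (algebraMap A K) β)]
      _ = (z * -(single (1 : G) ((algebraMap A K π)⁻¹)) * mapRingHom G (algebraMap A K) β + z) *
            single (1 : G) (algebraMap A K π) := (add_mul _ _ _).symm
      _ = single (1 : G) (algebraMap A K π) := h2
  set η : MonoidAlgebra A G := γ' * (single (1 : G) π - β) with hη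
  have hηK : mapRingHom G (algebraMap A K) η = single (1 : G) (c1 * algebraMap A K π) := by
    rw [hη, map_mul, hγ', mul_assoc, map_sub]
    have : mapRingHom G (algebraMap A K) (single (1 : G) π) = single (1 : G) (algebraMap A K π) := by simp
    rw [this, key, MonoidAlgebra.single_mul_single]
    simp
  have hη1 : η = single (1 : G) (η.coeff 1) := by
    ext i
    by_cases hi : i = 1
    · subst hi; simp
    · have h5 := congrArg (fun w : MonoidAlgebra K G => w.coeff i) hηK
      simp only [MonoidAlgebra.coeff_mapRingHom] at h5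
      have h6 : algebraMap A K (η.coeff i) = 0 := by
        rw [h5]
        simp [Ne.symm hi]
      have h7 : η.coeff i = 0 := (IsFractionRing.injective A K) (by rw [h6, map_zero])
      rw [h7]
      simp [Ne.symm hi]
  have hφπ : φ π = 0 := (hφ π).2 dvd_rfl
  have hηφ : mapRingHom G φ η = - (mapRingHom G φ γ' * b) := by
    rw [hη, map_mul, map_sub, hβb]
    have : mapRingHom G φ (single (1 : G) π) = 0 := by simp [hφπ]
    rw [this]
    simp
  have h8 : aug k G (mapRingHom G φ η) = 0 := by
    rw [hηφ, map_neg, map_mul, hβaug, mul_zero, neg_zero]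
  have h9 : mapRingHom G φ η = single (1 : G) (φ (η.coeff 1)) := by
    conv_lhs => rw [hη1]
    simp
  rw [h9, aug_single] at h8
  rw [h9, h8] at hηφ
  apply hγ'0
  apply hreg
  have : -(mapRingHom G φ γ' * b) = 0 := by rw [← hηφ]; simp
  exact neg_eq_zero.1 this

/-- Maschke: the finite case. -/
lemma finite_case (K G : Type*) [Field K] [CharZero K] [Group G] [Finite G] :
    Ideal.jacobson (⊥ : Ideal (MonoidAlgebra K G)) = ⊥ := by
  haveI : NeZero (Nat.card G : K) := ⟨by exact_mod_cast Nat.card_pos.ne'⟩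
  haveI : IsSemisimpleRing (MonoidAlgebra K G) := inferInstance
  rw [Ideal.jacobson_bot]
  exact IsSemisimpleRing.jacobson_eq_bot _

end core

end Pool.Agent.H225R3.JRad
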