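import Mathlib

set_option autoImplicit false

namespace Pool.Agent.H225R3.JRad

open MonoidAlgebra

section poly
variable (G : Type*) [Group G] (σ : Type*) (k : Type*) [CommRing k]

/-- constants of the outer ring -/
noncomputable def phiF : MvPolynomial σ k →+* AddMonoidAlgebra (MonoidAlgebra k G) (σ →₀ ℕ) :=
  AddMonoidAlgebra.mapRingHom (σ →₀ ℕ) (algebraMap k (MonoidAlgebra k G))

/-- group elements -/
noncomputable def phiG : G →* AddMonoidAlgebra (MonoidAlgebra k G) (σ →₀ ℕ) :=
  ((AddMonoidAlgebra.singleZeroRingHom :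
    MonoidAlgebra k G →+* AddMonoidAlgebra (MonoidAlgebra k G) (σ →₀ ℕ)) :
    MonoidAlgebra k G →* AddMonoidAlgebra (MonoidAlgebra k G) (σ →₀ ℕ)).comp (MonoidAlgebra.of k G)

lemma phiG_apply (g : G) : phiG G σ k g = AddMonoidAlgebra.single 0 (single g 1) := rfl

lemma phiF_coeff (q : MvPolynomial σ k) (m : σ →₀ ℕ) :
    (phiF G σ k q).coeff m = single 1 (MvPolynomial.coeff m q) := by
  simp [phiF, MvPolynomial.coeff]

lemma phi_comm (q : MvPolynomial σ k) (g : G) : Commute (phiF G σ k q) (phiG G σ k g) := by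
  unfold Commute SemiconjBy
  ext m : 2
  rw [phiG_apply, AddMonoidAlgebra.coeff_mul_single_zero, AddMonoidAlgebra.coeff_single_zero_mul,
    phiF_coeff, MonoidAlgebra.single_mul_single, MonoidAlgebra.single_mul_single]
  simp

/-- `k[σ][G] → k[G][σ]`. -/
noncomputable def phi : MonoidAlgebra (MvPolynomial σ k) G →+*
    AddMonoidAlgebra (MonoidAlgebra k G) (σ →₀ ℕ) :=
  MonoidAlgebra.liftNCRingHom (phiF G σ k) (phiG G σ k) (phi_comm G σ k)

lemma phi_coeff (x : MonoidAlgebra (MvPolynomial σ k) G) (m : σ →₀ ℕ) (g : G) :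
    ((phi G σ k x).coeff m).coeff g = MvPolynomial.coeff m (x.coeff g) := by
  classical
  induction x using MonoidAlgebra.induction_linear with
  | zero => simp
  | add x y hx hy => simp [hx, hy]
  | single h q =>
    have : phi G σ k (single h q) = phiF G σ k q * phiG G σ k h := by
      simp [phi, MonoidAlgebra.liftNCRingHom]
    rw [this, phiG_apply, AddMonoidAlgebra.coeff_mul_single_zero, phiF_coeff,
      MonoidAlgebra.single_mul_single]
    by_cases hg : h = g
    · subst hg; simp
    · simp [hg]

lemma noZeroDivisors_poly [NoZeroDivisors (MonoidAlgebra k G)] :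
    NoZeroDivisors (MonoidAlgebra (MvPolynomial σ k) G) := by
  have hinj : Function.Injective (phi G σ k) := by
    rw [injective_iff_map_eq_zero]
    intro x hx
    ext g m
    rw [← phi_coeff, hx]
    simp
  exact hinj.noZeroDivisors _ (map_zero _) (map_mul _)

end poly

end Pool.Agent.H225R3.JRad
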