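import Pool.Agent.H225R3.JRad1

set_option autoImplicit false

namespace Pool.Agent.H225R3.JRad

open MonoidAlgebra

section descent
variable {G : Type*} [Group G] {K L : Type*} [Field K] [Field L] [Algebra K L]

lemma map_retract_mul (r : L →ₗ[K] K) (z : MonoidAlgebra L G) (w : MonoidAlgebra K G) :
    MonoidAlgebra.map (r : L →+ K) (z * mapRingHom G (algebraMap K L) w) =
      MonoidAlgebra.map (r : L →+ K) z * w := by
  induction z using MonoidAlgebra.induction_linear with
  | zero => simp
  | add x y hx hy => simp [add_mul, MonoidAlgebra.map_add, hx, hy]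
  | single g a =>
    induction w using MonoidAlgebra.induction_linear with
    | zero => simp
    | add x y hx hy => simp [mul_add, MonoidAlgebra.map_add, hx, hy]
    | single h b =>
      simp only [MonoidAlgebra.coe_mapRingHom, MonoidAlgebra.map_single,
        MonoidAlgebra.single_mul_single]
      congr 1
      have : a * algebraMap K L b = b • a := by rw [Algebra.smul_def, mul_comm]
      simp [this, mul_comm]

lemma descent (x : MonoidAlgebra K G)
    (hx : mapRingHom G (algebraMap K L) x ∈ Ideal.jacobson (⊥ : Ideal (MonoidAlgebra L G))) :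
    x ∈ Ideal.jacobson (⊥ : Ideal (MonoidAlgebra K G)) := by
  obtain ⟨r, hr⟩ := LinearMap.exists_leftInverse_of_injective (Algebra.linearMap K L)
    (LinearMap.ker_eq_bot.2 (algebraMap K L).injective)
  have hr1 : r 1 = 1 := by
    have := LinearMap.congr_fun hr 1
    simpa using this
  rw [mem_jac] at hx ⊢
  intro y
  obtain ⟨z, hz⟩ := hx (mapRingHom G (algebraMap K L) y)
  refine ⟨MonoidAlgebra.map (r : L →+ K) z, ?_⟩
  have h1 := congrArg (MonoidAlgebra.map (r : L →+ K)) hz
  rw [MonoidAlgebra.map_add, mul_assoc, ← map_mul, map_retract_mul] at h1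
  rw [mul_assoc, h1, MonoidAlgebra.one_def, MonoidAlgebra.map_single, MonoidAlgebra.one_def]
  simp [hr1]

end descent

section goingup
variable {G : Type*} [Group G] {K L : Type*} [Field K] [Field L] [Algebra K L]

lemma decomp {ι : Type*} [Fintype ι] (b : Module.Basis ι K L) (u : MonoidAlgebra L G) :
    u = ∑ i, mapRingHom G (algebraMap K L) (MonoidAlgebra.map ((b.coord i : L →ₗ[K] K) : L →+ K) u) *
      single (1 : G) (b i) := by
  ext g
  have h1 : (∑ i, mapRingHom G (algebraMap K L) (MonoidAlgebra.map ((b.coord i : L →ₗ[K] K) : L →+ K) u) *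
      single (1 : G) (b i)).coeff g = ∑ i, algebraMap K L (b.coord i (u.coeff g)) * b i := by
    rw [MonoidAlgebra.coeff_sum, Finsupp.finsetSum_apply]
    apply Finset.sum_congr rfl
    intro i _
    rw [MonoidAlgebra.coeff_mul_single_one, MonoidAlgebra.coeff_mapRingHom]
    simp
  rw [h1]
  conv_lhs => rw [← b.sum_repr (u.coeff g)]
  apply Finset.sum_congr rfl
  intro i _
  rw [Algebra.smul_def]
  rfl

lemma goingup [FiniteDimensional K L] (x : MonoidAlgebra K G)
    (hx : x ∈ Ideal.jacobson (⊥ : Ideal (MonoidAlgebra K G))) :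
    mapRingHom G (algebraMap K L) x ∈ Ideal.jacobson (⊥ : Ideal (MonoidAlgebra L G)) := by
  classical
  rw [mem_jac]
  intro y
  set f : MonoidAlgebra K G →+* MonoidAlgebra L G := mapRingHom G (algebraMap K L) with hf
  letI : Module (MonoidAlgebra K G) (MonoidAlgebra L G) := Module.compHom _ f
  have hsmul : ∀ (a : MonoidAlgebra K G) (w : MonoidAlgebra L G), a • w = f a * w := fun a w => rfl
  let T : Submodule (MonoidAlgebra K G) (MonoidAlgebra L G) :=
    { carrier := {w | ∃ u, w = u * (y * f x + 1)}
      add_mem' := by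
        rintro a b ⟨u, rfl⟩ ⟨v, rfl⟩
        exact ⟨u + v, (add_mul _ _ _).symm⟩
      zero_mem' := ⟨0, by simp⟩
      smul_mem' := by
        rintro c w ⟨u, rfl⟩
        exact ⟨f c * u, by rw [hsmul, mul_assoc]⟩ }
  let b := Module.finBasis K L
  have hcomm : ∀ (a : L) (w : MonoidAlgebra L G), w * single (1 : G) a = single (1 : G) a * w := by
    intro a w
    ext i
    rw [MonoidAlgebra.coeff_single_one_mul, MonoidAlgebra.coeff_mul_single_one, mul_comm]
  have hFG : (⊤ : Submodule (MonoidAlgebra K G) (MonoidAlgebra L G ⧸ T)).FG := by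
    refine ⟨Finset.univ.image (fun i => T.mkQ (single (1 : G) (b i))), ?_⟩
    rw [eq_top_iff]
    rintro q -
    obtain ⟨w, rfl⟩ := T.mkQ_surjective q
    rw [decomp b w, map_sum]
    apply Submodule.sum_mem
    intro i _
    have : f (MonoidAlgebra.map ((b.coord i : L →ₗ[K] K) : L →+ K) w) * single (1 : G) (b i) =
      (MonoidAlgebra.map ((b.coord i : L →ₗ[K] K) : L →+ K) w) • (single (1 : G) (b i)) := rfl
    rw [this, map_smul]
    apply Submodule.smul_mem
    apply Submodule.subset_span
    simp
  have hle : (⊤ : Submodule (MonoidAlgebra K G) (MonoidAlgebra L G ⧸ T)) ≤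
      Ring.jacobson (MonoidAlgebra K G) • (⊤ : Submodule (MonoidAlgebra K G) (MonoidAlgebra L G ⧸ T)) := by
    rintro q -
    obtain ⟨w, rfl⟩ := T.mkQ_surjective q
    have h1 : T.mkQ w = T.mkQ (-(w * y * f x)) := by
      rw [← sub_eq_zero, ← map_sub, Submodule.mkQ_apply, Submodule.Quotient.mk_eq_zero]
      exact ⟨w, by rw [mul_add, mul_one, mul_assoc]; abel⟩
    rw [h1, map_neg]
    apply Submodule.neg_mem
    have h2 : w * y * f x = ∑ i, ((MonoidAlgebra.map ((b.coord i : L →ₗ[K] K) : L →+ K) (w * y)) * x) •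
        (single (1 : G) (b i)) := by
      conv_lhs => rw [decomp b (w * y)]
      rw [Finset.sum_mul]
      apply Finset.sum_congr rfl
      intro i _
      rw [hsmul, map_mul, mul_assoc, ← hcomm, ← mul_assoc]
    rw [h2, map_sum]
    apply Submodule.sum_mem
    intro i _
    rw [map_smul]
    apply Submodule.smul_mem_smul
    · rw [← Ideal.jacobson_bot]
      exact Ideal.mul_mem_left _ _ hx
    · trivial
  have hbot := Submodule.FG.eq_bot_of_le_jacobson_smul hFG hle
  have h1T : (1 : MonoidAlgebra L G) ∈ T := by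
    rw [← Submodule.Quotient.mk_eq_zero]
    have : (Submodule.Quotient.mk (1 : MonoidAlgebra L G) : MonoidAlgebra L G ⧸ T) ∈
      (⊤ : Submodule (MonoidAlgebra K G) (MonoidAlgebra L G ⧸ T)) := trivial
    rw [hbot, Submodule.mem_bot] at this
    exact this
  obtain ⟨z, hz⟩ := h1T
  refine ⟨z, ?_⟩
  rw [hz, mul_add, mul_one, mul_assoc]

end goingup

section galois
variable {G : Type*} [Group G] {K N : Type*} [Field K] [Field N] [Algebra K N]

lemma jac_aut (σ : N ≃ₐ[K] N) (x : MonoidAlgebra N G)
    (hx : x ∈ Ideal.jacobson (⊥ : Ideal (MonoidAlgebra N G))) :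
    mapRingHom G (σ : N →+* N) x ∈ Ideal.jacobson (⊥ : Ideal (MonoidAlgebra N G)) := by
  rw [mem_jac] at hx ⊢
  intro y
  obtain ⟨z, hz⟩ := hx (mapRingHom G (σ.symm : N →+* N) y)
  refine ⟨mapRingHom G (σ : N →+* N) z, ?_⟩
  have h1 := congrArg (mapRingHom G (σ : N →+* N)) hz
  rw [map_add, map_mul, map_mul, map_one] at h1
  have h2 : mapRingHom G (σ : N →+* N) (mapRingHom G (σ.symm : N →+* N) y) = y := by
    ext g
    rw [MonoidAlgebra.coeff_mapRingHom, MonoidAlgebra.coeff_mapRingHom]
    simp
  rw [h2] at h1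
  exact h1

lemma galois_descent [FiniteDimensional K N] [IsGalois K N] [CharZero K] (α : MonoidAlgebra N G)
    (h0 : α ≠ 0) (hα : α ∈ Ideal.jacobson (⊥ : Ideal (MonoidAlgebra N G))) :
    ∃ β : MonoidAlgebra K G, β ≠ 0 ∧
      mapRingHom G (algebraMap K N) β ∈ Ideal.jacobson (⊥ : Ideal (MonoidAlgebra N G)) := by
  classical
  obtain ⟨g, hg⟩ : ∃ g, α.coeff g ≠ 0 := by
    by_contra hcon
    push Not at hcon
    exact h0 (by ext g; simp [hcon g])
  set a := α.coeff g with ha
  let α' : MonoidAlgebra N G := single (1 : G) a⁻¹ * α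
  let β : MonoidAlgebra K G := MonoidAlgebra.map ((Algebra.trace K N : N →ₗ[K] K) : N →+ K) α'
  refine ⟨β, ?_, ?_⟩
  · intro h
    have h1 : β.coeff g = 0 := by rw [h]; simp
    have h2 : β.coeff g = Algebra.trace K N 1 := by
      simp [β, α', MonoidAlgebra.coeff_single_one_mul, ← ha, inv_mul_cancel₀ hg]
    have h3 : Algebra.trace K N 1 = (Module.finrank K N : K) := by
      have := Algebra.trace_algebraMap (R := K) (S := N) 1
      simpa using this
    rw [h2, h3] at h1
    have : (Module.finrank K N : K) ≠ 0 := by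
      exact_mod_cast (Module.finrank_pos (R := K) (M := N)).ne'
    exact this h1
  · have h1 : mapRingHom G (algebraMap K N) β = ∑ σ : N ≃ₐ[K] N, mapRingHom G (σ : N →+* N) α' := by
      ext i
      rw [MonoidAlgebra.coeff_sum, Finsupp.finsetSum_apply, MonoidAlgebra.coeff_mapRingHom]
      simp only [MonoidAlgebra.coeff_mapRingHom, β]
      rw [MonoidAlgebra.coeff_map, Finsupp.mapRange_apply]
      exact trace_eq_sum_automorphisms (K := K) (L := N) (α'.coeff i)
    rw [h1]
    apply Ideal.sum_mem
    intro σ _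
    apply jac_aut
    exact Ideal.mul_mem_left _ _ hα

end galois

theorem algebraic_ext {G : Type*} [Group G] {K F : Type*} [Field K] [Field F] [Algebra K F]
    [CharZero K] [Algebra.IsAlgebraic K F]
    (h : Ideal.jacobson (⊥ : Ideal (MonoidAlgebra K G)) = ⊥) :
    Ideal.jacobson (⊥ : Ideal (MonoidAlgebra F G)) = ⊥ := by
  classical
  by_contra hne
  obtain ⟨α, hα, hα0⟩ := (Submodule.ne_bot_iff _).1 hne
  let S : Set F := ↑(α.coeff.support.image α.coeff)
  let E : IntermediateField K F := IntermediateField.adjoin K S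
  haveI : FiniteDimensional K E := by
    apply IntermediateField.finiteDimensional_adjoin
    intro x _
    exact (Algebra.IsAlgebraic.isAlgebraic x).isIntegral
  obtain ⟨αE, hαE⟩ := mem_range_mapRingHom (algebraMap E F) G α (by
    intro g
    by_cases hg : α.coeff g = 0
    · exact ⟨0, by simp [hg]⟩
    · exact ⟨⟨α.coeff g, IntermediateField.subset_adjoin K S (by
        simp only [S, Finset.coe_image, Set.mem_image, Finset.mem_coe, Finsupp.mem_support_iff]
        exact ⟨g, hg, rfl⟩)⟩, rfl⟩)
  have hE0 : αE ≠ 0 := by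
    rintro rfl
    rw [map_zero] at hαE
    exact hα0 hαE.symm
  have hEJ := descent (K := E) (L := F) αE (by rw [hαE]; exact hα)
  let N := IntermediateField.normalClosure K E (AlgebraicClosure E)
  haveI : FiniteDimensional K N := inferInstance
  haveI : Normal K N := inferInstance
  haveI : IsGalois K N := ⟨⟩
  haveI : FiniteDimensional E N := Module.Finite.of_restrictScalars_finite K E N
  have hNJ := goingup (K := E) (L := N) αE hEJ
  have hN0 : mapRingHom G (algebraMap E N) αE ≠ 0 := by
    intro hz
    apply hE0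
    ext g
    have := congrArg (fun w : MonoidAlgebra N G => w.coeff g) hz
    simp only [MonoidAlgebra.coeff_mapRingHom] at this
    have h2 : algebraMap E N (αE.coeff g) = 0 := by rw [this]; simp
    have h3 : αE.coeff g = 0 := (algebraMap E N).injective (by rw [h2, map_zero])
    rw [h3]
    simp
  obtain ⟨β, hβ0, hβ⟩ := galois_descent (K := K) (N := N) _ hN0 hNJ
  have := descent (K := K) (L := N) β hβ
  rw [h, Submodule.mem_bot] at this
  exact hβ0 this

end Pool.Agent.H225R3.JRad
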