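import Pool.Agent.H225R3.JRad2
import Pool.Agent.H225R3.JRad3

set_option autoImplicit false

namespace Pool.Agent.H225R3.JRad

open MonoidAlgebra

/-- `F` algebraic over `ℚ`. -/
theorem alg_case {G : Type*} [Group G] (p : ℕ) [Fact p.Prime]
    (H : ∀ I : Ideal (MonoidAlgebra (ZMod p) G), I.IsTwoSided → I ≠ ⊥ →
      ∃ b ∈ I, ∀ x, x * b = 0 → x = 0)
    (F : Type*) [Field F] [CharZero F] [Algebra.IsAlgebraic ℚ F] :
    Ideal.jacobson (⊥ : Ideal (MonoidAlgebra F G)) = ⊥ := by
  rcases finite_or_infinite G with hG | hG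
  · exact finite_case F G
  apply algebraic_ext (K := ℚ)
  refine core (A := ℤ) (K := ℚ) (k := ZMod p) (Int.castRingHom (ZMod p))
    (ZMod.ringHom_surjective _) (p : ℤ) ?_ ?_ ?_ H
  · intro a
    simpa using ZMod.intCast_zmod_eq_zero_iff_dvd a p
  · intro a ha
    have hp : (p : ℤ) ≠ 1 := by
      intro h
      have : p = 1 := by exact_mod_cast h
      exact (Fact.out : p.Prime).one_lt.ne' this
    have hfin : FiniteMultiplicity (p : ℤ) a := by
      rw [Int.finiteMultiplicity_iff]
      exact ⟨by simpa using (Fact.out : p.Prime).one_lt.ne', ha⟩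
    obtain ⟨n, hn⟩ := hfin
    exact ⟨n + 1, hn⟩
  · exact_mod_cast (Fact.out : p.Prime).ne_zero

/-- Zero-divisor-free case, over the fraction field of a polynomial ring over `ℤ`. -/
theorem frac_case {G : Type*} [Group G] (p : ℕ) [Fact p.Prime]
    [NoZeroDivisors (MonoidAlgebra (ZMod p) G)] (σ : Type*) (K : Type*) [Field K]
    [CharZero K] [Algebra (MvPolynomial σ ℤ) K] [IsFractionRing (MvPolynomial σ ℤ) K] :
    Ideal.jacobson (⊥ : Ideal (MonoidAlgebra K G)) = ⊥ := by
  rcases finite_or_infinite G with hG | hG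
  · exact finite_case K G
  haveI := noZeroDivisors_poly G σ (ZMod p)
  have hker : ∀ a : MvPolynomial σ ℤ, MvPolynomial.map (Int.castRingHom (ZMod p)) a = 0 ↔
      MvPolynomial.C (p : ℤ) ∣ a := by
    intro a
    refine (MvPolynomial.C_dvd_iff_map_hom_eq_zero (Int.castRingHom (ZMod p)) (p : ℤ) ?_ a).symm
    intro r
    simpa using ZMod.intCast_zmod_eq_zero_iff_dvd r p
  have hC0 : (MvPolynomial.C (p : ℤ) : MvPolynomial σ ℤ) ≠ 0 := by
    simpa using (Fact.out : p.Prime).ne_zero
  refine core (A := MvPolynomial σ ℤ) (K := K) (k := MvPolynomial σ (ZMod p))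
    (MvPolynomial.map (Int.castRingHom (ZMod p)))
    (MvPolynomial.map_surjective _ (ZMod.ringHom_surjective _)) (MvPolynomial.C (p : ℤ)) hker ?_ hC0 ?_
  · intro a ha
    have hfin : FiniteMultiplicity (MvPolynomial.C (p : ℤ)) a := by
      apply FiniteMultiplicity.of_not_isUnit _ ha
      intro hu
      have h1 := hu.map (MvPolynomial.map (Int.castRingHom (ZMod p)))
      rw [(hker _).2 dvd_rfl] at h1
      exact not_isUnit_zero h1
    obtain ⟨n, hn⟩ := hfin
    exact ⟨n + 1, hn⟩
  · intro I _ hI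
    obtain ⟨b, hb, hb0⟩ := (Submodule.ne_bot_iff _).1 hI
    exact ⟨b, hb, fun x hx => (mul_eq_zero.1 hx).resolve_right hb0⟩

/-- Zero-divisor-free case, all fields of characteristic zero. -/
theorem domain_case {G : Type*} [Group G] (p : ℕ) [Fact p.Prime]
    [NoZeroDivisors (MonoidAlgebra (ZMod p) G)] (F : Type*) [Field F] [CharZero F] :
    Ideal.jacobson (⊥ : Ideal (MonoidAlgebra F G)) = ⊥ := by
  obtain ⟨s, hs⟩ := exists_isTranscendenceBasis ℤ F
  letI : Algebra (MvPolynomial s ℤ) F := (MvPolynomial.aeval (R := ℤ) (fun x : s => (x : F))).toAlgebra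
  have hinj : Function.Injective (algebraMap (MvPolynomial s ℤ) F) := hs.1
  haveI : FaithfulSMul (MvPolynomial s ℤ) F := (faithfulSMul_iff_algebraMap_injective _ _).2 hinj
  letI : Algebra (FractionRing (MvPolynomial s ℤ)) F := FractionRing.liftAlgebra _ _
  haveI : IsScalarTower (MvPolynomial s ℤ) (FractionRing (MvPolynomial s ℤ)) F :=
    FractionRing.isScalarTower_liftAlgebra _ _
  haveI : CharZero (FractionRing (MvPolynomial s ℤ)) :=
    charZero_of_injective_algebraMap (IsFractionRing.injective (MvPolynomial s ℤ) _)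
  haveI : Algebra.IsAlgebraic (MvPolynomial s ℤ) F := by
    haveI h1 := hs.isAlgebraic
    refine Algebra.IsAlgebraic.of_ringHom_of_comp_eq
      (S := Algebra.adjoin ℤ (Set.range (fun x : s => (x : F)))) (B := F)
      (hs.1.aevalEquiv : MvPolynomial s ℤ →+* Algebra.adjoin ℤ (Set.range (fun x : s => (x : F))))
      (RingHom.id F) hs.1.aevalEquiv.surjective Function.injective_id ?_
    ext x
    · simp
    · rename_i x
      change ((hs.1.aevalEquiv (MvPolynomial.X x) : Algebra.adjoin ℤ (Set.range (fun x : s => (x : F)))) : F) = _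
      rw [AlgebraicIndependent.aevalEquiv_apply_coe]
      rfl
  haveI : Algebra.IsAlgebraic (FractionRing (MvPolynomial s ℤ)) F :=
    (IsFractionRing.comap_isAlgebraic_iff (A := MvPolynomial s ℤ)
      (K := FractionRing (MvPolynomial s ℤ)) (C := F)).1 inferInstance
  exact algebraic_ext (K := FractionRing (MvPolynomial s ℤ)) (frac_case p s _)

end Pool.Agent.H225R3.JRad
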