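import Mathlib

/-!
# An auxiliary integer polynomial

For every `C > 1` there are `K ≥ 1` and a nonzero `F ∈ ℤ[X]` divisible by `X ^ K` with
`|F(y)| ≤ C ^ K` whenever `|1 + y| ≤ 1`.
-/

set_option autoImplicit false

namespace Pool.Agent.H225R3.Marg

open Polynomial Finset

/-- the sum of the powers `(X+1)^j` with `j ∈ S` -/
noncomputable def sp (S : Finset ℕ) : ℤ[X] := ∑ j ∈ S, (X + 1) ^ j

theorem sp_coeff (S : Finset ℕ) (i : ℕ) : (sp S).coeff i = ∑ j ∈ S, (j.choose i : ℤ) := by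
  rw [sp, finsetSum_coeff]
  exact Finset.sum_congr rfl fun j _ => coeff_X_add_one_pow ℤ j i

theorem sp_inj {S T : Finset ℕ} (h : sp S = sp T) : S = T := by
  have h1 : (sp S).comp (X - 1) = (sp T).comp (X - 1) := by rw [h]
  have h2 : ∀ S : Finset ℕ, (sp S).comp (X - 1) = ∑ j ∈ S, (X : ℤ[X]) ^ j := by
    intro S
    change (Polynomial.compRingHom (X - 1)) (sp S) = _
    rw [sp, map_sum]
    refine Finset.sum_congr rfl fun j _ => ?_
    simp
  rw [h2, h2] at h1
  ext i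
  have h3 := congrArg (fun p => coeff p i) h1
  simp only [finsetSum_coeff, coeff_X_pow] at h3
  simp only [Finset.sum_ite_eq] at h3
  by_cases hS : i ∈ S <;> by_cases hT : i ∈ T <;> simp_all

theorem sp_bound (S : Finset ℕ) (y : ℂ) (hy : ‖1 + y‖ ≤ 1) :
    ‖aeval y (sp S)‖ ≤ S.card := by
  rw [sp, map_sum]
  refine (norm_sum_le _ _).trans ?_
  have : ∀ j ∈ S, ‖aeval y ((X + 1 : ℤ[X]) ^ j)‖ ≤ 1 := by
    intro j _
    rw [map_pow, norm_pow]
    have : aeval y (X + 1 : ℤ[X]) = 1 + y := by simp [add_comm]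
    rw [this]
    exact pow_le_one₀ (norm_nonneg _) hy
  refine (Finset.sum_le_sum this).trans ?_
  simp

theorem pigeon (K : ℕ) (hK : 5 ≤ K) :
    ∃ S T : Finset ℕ, S ≠ T ∧ S.card ≤ K ^ 4 ∧ T.card ≤ K ^ 4 ∧
      ∀ i < K, (sp S).coeff i = (sp T).coeff i := by
  classical
  set D := K ^ 4 with hD
  -- values
  have hval : ∀ S : Finset ℕ, S ⊆ range D → ∀ i, i < K →
      ∑ j ∈ S, j.choose i < D ^ (K + 1) + 1 := by
    intro S hS i hi
    have hD1 : 1 ≤ D := Nat.one_le_pow _ _ (by omega)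
    have h1 : ∀ j ∈ S, j.choose i ≤ D ^ K := by
      intro j hj
      have hj' : j ≤ D := (Finset.mem_range.mp (hS hj)).le
      calc j.choose i ≤ j ^ i := Nat.choose_le_pow _ _
        _ ≤ D ^ i := Nat.pow_le_pow_left hj' _
        _ ≤ D ^ K := Nat.pow_le_pow_right hD1 hi.le
    have h2 : ∑ j ∈ S, j.choose i ≤ S.card * D ^ K := by
      simpa using Finset.sum_le_card_nsmul S _ _ h1
    have h3 : S.card ≤ D := by simpa using Finset.card_le_card hS
    have h4 : S.card * D ^ K ≤ D * D ^ K := Nat.mul_le_mul_right _ h3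
    have h5 : D * D ^ K = D ^ (K + 1) := by ring
    omega
  let f : (range D).powerset → (Fin K → Fin (D ^ (K + 1) + 1)) := fun S i =>
    ⟨∑ j ∈ S.1, j.choose i, hval S.1 (Finset.mem_powerset.mp S.2) i i.2⟩
  have hcard : Fintype.card (Fin K → Fin (D ^ (K + 1) + 1)) <
      Fintype.card (range D).powerset := by
    rw [Fintype.card_fun, Fintype.card_fin, Fintype.card_fin, Fintype.card_coe, card_powerset,
      card_range]
    have h1 : D < 2 ^ (4 * K) := by
      have : K < 2 ^ K := Nat.lt_two_pow_self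
      calc D = K ^ 4 := hD
        _ < (2 ^ K) ^ 4 := Nat.pow_lt_pow_left this (by norm_num)
        _ = 2 ^ (4 * K) := by rw [← pow_mul, mul_comm]
    have h2 : D ^ (K + 1) + 1 ≤ 2 ^ (4 * K * (K + 1)) := by
      rw [pow_mul]
      exact Nat.pow_lt_pow_left h1 (by omega)
    have h3 : 4 * K * (K + 1) * K < D := by
      have : D = K * K * (K * K) := by rw [hD]; ring
      rw [this]
      have h4 : 4 * K + 4 < K * K := by nlinarith
      have h5 : 4 * K * (K + 1) * K = K * K * (4 * K + 4) := by ring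
      rw [h5]
      exact Nat.mul_lt_mul_of_pos_left h4 (by positivity)
    calc (D ^ (K + 1) + 1) ^ K ≤ (2 ^ (4 * K * (K + 1))) ^ K := Nat.pow_le_pow_left h2 _
      _ = 2 ^ (4 * K * (K + 1) * K) := by rw [← pow_mul]
      _ < 2 ^ D := Nat.pow_lt_pow_right (by norm_num) h3
  obtain ⟨S, T, hne, hfe⟩ := Fintype.exists_ne_map_eq_of_card_lt f hcard
  refine ⟨S.1, T.1, fun h => hne (Subtype.ext h), ?_, ?_, ?_⟩
  · simpa using Finset.card_le_card (Finset.mem_powerset.mp S.2)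
  · simpa using Finset.card_le_card (Finset.mem_powerset.mp T.2)
  · intro i hi
    rw [sp_coeff, sp_coeff]
    have := congrArg (fun z => (z ⟨i, hi⟩ : Fin _).1) hfe
    simp only [f] at this
    exact_mod_cast this

theorem aux_poly (C : ℝ) (hC : 1 < C) :
    ∃ (K : ℕ) (H : ℤ[X]), 0 < K ∧ H ≠ 0 ∧
      ∀ y : ℂ, ‖1 + y‖ ≤ 1 → ‖aeval y (X ^ K * H)‖ ≤ C ^ K := by
  have hlim := tendsto_pow_const_div_const_pow_of_one_lt 4 hC
  have hev : ∀ᶠ n : ℕ in Filter.atTop, (n : ℝ) ^ 4 / C ^ n < 1 / 2 :=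
    hlim.eventually_lt_const (by norm_num)
  obtain ⟨N, hN⟩ := Filter.eventually_atTop.mp hev
  set K := max N 5 with hK
  have hK5 : 5 ≤ K := le_max_right _ _
  have hKN := hN K (le_max_left _ _)
  have hCK : 0 < C ^ K := by positivity
  have h2 : 2 * (K : ℝ) ^ 4 ≤ C ^ K := by
    rw [div_lt_iff₀ hCK] at hKN
    linarith
  obtain ⟨S, T, hne, hS, hT, hco⟩ := pigeon K hK5
  have hdvd : (X : ℤ[X]) ^ K ∣ sp S - sp T := by
    rw [X_pow_dvd_iff]
    intro d hd
    rw [coeff_sub, hco d hd, sub_self]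
  obtain ⟨H, hH⟩ := hdvd
  refine ⟨K, H, by omega, ?_, ?_⟩
  · rintro rfl
    rw [mul_zero, sub_eq_zero] at hH
    exact hne (sp_inj hH)
  · intro y hy
    rw [← hH, map_sub]
    have h3 := sp_bound S y hy
    have h4 := sp_bound T y hy
    have h5 : (S.card : ℝ) ≤ (K : ℝ) ^ 4 := by exact_mod_cast hS
    have h6 : (T.card : ℝ) ≤ (K : ℝ) ^ 4 := by exact_mod_cast hT
    have h7 := norm_sub_le (aeval y (sp S)) (aeval y (sp T))
    linarith

/-- near `0` the auxiliary polynomial is nonzero and small -/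
theorem near_zero (K : ℕ) (hK : 0 < K) (H : ℤ[X]) (hH : H ≠ 0) :
    ∃ ε : ℝ, 0 < ε ∧ ∀ y : ℂ, y ≠ 0 → ‖y‖ < ε →
      aeval y (X ^ K * H) ≠ 0 ∧ ‖aeval y (X ^ K * H)‖ < 1 := by
  set F : ℤ[X] := X ^ K * H with hF
  have hF0 : F ≠ 0 := mul_ne_zero (pow_ne_zero _ X_ne_zero) hH
  have hcont : Continuous fun y : ℂ => aeval y F := F.continuous_aeval
  have hz : aeval (0 : ℂ) F = 0 := by
    simp [hF, hK.ne']
  have h1 : ∀ᶠ y : ℂ in nhds 0, ‖aeval y F‖ < 1 := by
    have : Filter.Tendsto (fun y : ℂ => ‖aeval y F‖) (nhds 0) (nhds ‖aeval (0 : ℂ) F‖) :=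
      (hcont.norm).tendsto 0
    rw [hz, norm_zero] at this
    exact this.eventually_lt_const one_pos
  have hfin : {y : ℂ | aeval y F = 0}.Finite := by
    have hm : F.map (algebraMap ℤ ℂ) ≠ 0 := by
      rw [Ne, Polynomial.map_eq_zero_iff (by exact Int.cast_injective)]
      exact hF0
    refine ((F.map (algebraMap ℤ ℂ)).roots.toFinset.finite_toSet).subset ?_
    intro y hy
    simp only [Set.mem_ofPred_eq] at hy
    simp only [Finset.mem_coe, Multiset.mem_toFinset]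
    rw [mem_roots hm, IsRoot, eval_map_algebraMap]
    exact hy
  have h2 : ∀ᶠ y : ℂ in nhds 0, y ≠ 0 → aeval y F ≠ 0 := by
    have hfin' : ({y : ℂ | aeval y F = 0} \ {0}).Finite := hfin.subset Set.sdiff_subset
    have hopen : IsOpen ({y : ℂ | aeval y F = 0} \ {0})ᶜ := hfin'.isClosed.isOpen_compl
    have hmem : (0 : ℂ) ∈ ({y : ℂ | aeval y F = 0} \ {0})ᶜ := by simp
    filter_upwards [hopen.mem_nhds hmem] with y hy hy0 hyF
    exact hy ⟨hyF, hy0⟩
  obtain ⟨ε, hε, hball⟩ := Metric.eventually_nhds_iff.mp (h1.and h2)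
  refine ⟨ε, hε, fun y hy0 hy => ?_⟩
  have := hball (y := y) (by simpa using hy)
  exact ⟨this.2 hy0, this.1⟩

end Pool.Agent.H225R3.Marg
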