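import Pool.Agent.H225R3.MargDefs

/-!
# Two more families
-/

set_option autoImplicit false

namespace Pool.Agent.H225R3.Marg

open NumberField

/-- The torsion-free subgroups `Γ` with a realization (of any size, over any number field `k`, of
degree `d`) with at most `s` noncompact embeddings, an exponent `e ≤ E * d ^ (η / 4)`, and an ideal
`I` of the ring of integers of `k`, of norm at least `exp (b * d ^ (1 / 2 + η))`, such that
`(r γ) ^ e ≡ 1 mod I` for all `γ` in `Γ`. -/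
def GrowingLevelFamily (η b E : ℝ) (s : ℕ) {G : Type*} [Group G] {M : ℕ}
    (ρ : G →* Matrix (Fin M) (Fin M) ℂ) : Set (Subgroup G) :=
  {Γ | (∀ γ ∈ Γ, ∀ N : ℕ, 0 < N → γ ^ N = 1 → γ = 1) ∧
    ∃ (k : Type) (_ : Field k) (_ : NumberField k) (n : ℕ) (S : Finset (k →+* ℂ))
    (R : Realization ρ Γ k n S) (e : ℕ) (I : Ideal (𝓞 k)), S.card ≤ s ∧ 0 < e ∧
    (e : ℝ) ≤ E * (Module.finrank ℚ k : ℝ) ^ (η / 4) ∧
    Real.exp (b * (Module.finrank ℚ k : ℝ) ^ (1 / 2 + η)) ≤ (Ideal.absNorm I : ℝ) ∧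
    ∀ (γ : Γ) (i j : Fin n), (R.r γ ^ e - 1) i j ∈ I}

/-- The torsion-free subgroups `Γ` with a realization of size `n`, with at most `s` noncompact
embeddings, over a number field `k` of degree `d` that has at least `b * d ^ (1 / 2 + η)` prime
ideals of one and the same norm `q`, where `q ^ (n * n) ≤ E * d ^ (η / 4)`. There is no
congruence condition on `Γ`. -/
def GrowingPrimesFamily (η b E : ℝ) (s n : ℕ) {G : Type*} [Group G] {M : ℕ}
    (ρ : G →* Matrix (Fin M) (Fin M) ℂ) : Set (Subgroup G) :=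
  {Γ | (∀ γ ∈ Γ, ∀ N : ℕ, 0 < N → γ ^ N = 1 → γ = 1) ∧
    ∃ (k : Type) (_ : Field k) (_ : NumberField k) (S : Finset (k →+* ℂ))
    (_ : Realization ρ Γ k n S) (q : ℕ) (P : Finset (Ideal (𝓞 k))), S.card ≤ s ∧
    (∀ I ∈ P, I.IsPrime ∧ I ≠ ⊥ ∧ Ideal.absNorm I = q) ∧
    ((q : ℝ) ^ (n * n)) ≤ E * (Module.finrank ℚ k : ℝ) ^ (η / 4) ∧
    b * (Module.finrank ℚ k : ℝ) ^ (1 / 2 + η) ≤ P.card}

end Pool.Agent.H225R3.Marg
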