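import Pool.Agent.H225R3.Marg9
import Pool.Agent.H225R3.MargDefs2

/-!
# Growing exponents: uniform discreteness
-/

set_option autoImplicit false

namespace Pool.Agent.H225R3.Marg

open Polynomial Finset NumberField

theorem gapG (η b E : ℝ) (hη : 0 < η) (hη1 : η ≤ 1 / 2) (hb : 0 < b) (hE : 0 < E)
    (s : ℕ) (hs : 0 < s) :
    ∃ ε : ℝ, 0 < ε ∧
    ∀ (k : Type) [Field k] [NumberField k] (n : ℕ) (S : Finset (k →+* ℂ)) (I : Ideal (𝓞 k))
      (A : Matrix (Fin n) (Fin n) (𝓞 k)) (e : ℕ), S.Nonempty → S.card ≤ s → 0 < e →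
      (e : ℝ) ≤ E * (Module.finrank ℚ k : ℝ) ^ (η / 4) →
      Real.exp (b * (Module.finrank ℚ k : ℝ) ^ (1 / 2 + η)) ≤ (Ideal.absNorm I : ℝ) →
      (∀ i j, (A ^ e - 1) i j ∈ I) → IsUnit A →
      (∀ σ : k →+* ℂ, σ ∉ S → ∀ l : ℂ, ((emb σ).mapMatrix A).charpoly.IsRoot l → ‖l‖ ≤ 1) →
      (∀ N : ℕ, 0 < N → ¬ IsNilpotent (A ^ N - 1)) →
      ∃ σ ∈ S, ∃ l : ℂ, ((emb σ).mapMatrix A).charpoly.IsRoot l ∧ ε ≤ ‖l - 1‖ := by
  obtain ⟨d0, hd0⟩ := params' s hs b E hb hE η hη hη1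
  set d1 : ℕ := max d0 1 with hd1
  have hd1pos : (1 : ℝ) ≤ d1 := by exact_mod_cast le_max_right d0 1
  set C : ℝ := Real.exp (b * (d1 : ℝ) ^ (η - 1 / 2)) with hC
  have hC1 : 1 < C := by
    refine Real.one_lt_exp_iff.mpr ?_
    have := Real.rpow_pos_of_pos (show (0 : ℝ) < d1 by linarith) (η - 1 / 2)
    positivity
  set E0 : ℕ := ⌊E * (d1 : ℝ) ^ (η / 4)⌋₊ with hE0
  have hex : ∀ e : ℕ, ∃ ε : ℝ, 0 < ε ∧ (0 < e →
    ∀ (k : Type) [Field k] [NumberField k] (n : ℕ) (S : Finset (k →+* ℂ)) (I : Ideal (𝓞 k))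
      (A : Matrix (Fin n) (Fin n) (𝓞 k)), S.Nonempty →
      C ^ (Fintype.card (k →+* ℂ) - S.card) ≤ (Ideal.absNorm I : ℝ) →
      (∀ i j, (A ^ e - 1) i j ∈ I) →
      (∀ σ : k →+* ℂ, σ ∉ S → ∀ l : ℂ, ((emb σ).mapMatrix A).charpoly.IsRoot l → ‖l‖ ≤ 1) →
      ¬ IsNilpotent (A - 1) →
      ∃ σ ∈ S, ∃ l : ℂ, ((emb σ).mapMatrix A).charpoly.IsRoot l ∧ ε ≤ ‖l - 1‖) := by
    intro e
    by_cases he : 0 < e
    · obtain ⟨ε, h1, h2⟩ := gapE C hC1 e he
      exact ⟨ε, h1, fun _ => h2⟩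
    · exact ⟨1, one_pos, fun h => absurd h he⟩
  choose f hf0 hf using hex
  obtain ⟨e0, _, hmin⟩ := Finset.exists_min_image (range (E0 + 1)) f
    ⟨0, Finset.mem_range.mpr (Nat.succ_pos _)⟩
  refine ⟨min (f e0) 1, lt_min (hf0 e0) one_pos, ?_⟩
  intro k _ _ n S I A e hS hSs he heE hI hA hunit hout hnil
  have hdpos : 0 < Module.finrank ℚ k := Module.finrank_pos
  by_cases hd : d0 ≤ Module.finrank ℚ k
  · by_contra hcon
    push Not at hcon
    obtain ⟨K, D, S1, T1, hD0, hne, hS1, hT1, hco, hDs, hlt⟩ := hd0 _ hd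
    have key := main_ineq' S I (A ^ e) (hunit.pow e) hA
      (fun σ hσ l hl => by
        rw [map_pow] at hl
        obtain ⟨l', hl', rfl⟩ := eig_pow' _ e he l hl
        rw [norm_pow]
        exact pow_le_one₀ (norm_nonneg _) (hout σ hσ l' hl'))
      (2 ^ e) (one_le_pow₀ (by norm_num))
      (fun σ hσ l hl => by
        rw [map_pow] at hl
        obtain ⟨l', hl', rfl⟩ := eig_pow' _ e he l hl
        have h1 : ‖l' - 1‖ < 1 := (hcon σ hσ l' hl').trans_le (min_le_right _ _)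
        have h2 : ‖l'‖ ≤ ‖l' - 1‖ + ‖(1 : ℂ)‖ := by
          have := norm_add_le (l' - 1) 1
          rwa [sub_add_cancel] at this
        rw [norm_one] at h2
        rw [norm_pow]
        exact pow_le_pow_left₀ (norm_nonneg _) (by linarith) e)
      (fun N hN => by
        rw [← pow_mul]
        exact hnil (e * N) (Nat.mul_pos he hN))
      K D hD0 S1 T1 hne hS1 hT1 hco
      ((Nat.mul_le_mul_left D hSs).trans hDs)
    have h3 := pow_le_pow_left₀ (Real.exp_pos _).le hI K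
    exact absurd (h3.trans key) (not_le.mpr (hlt e heE))
  · push Not at hd
    have hle : (Module.finrank ℚ k : ℝ) ≤ d1 := by
      have : Module.finrank ℚ k ≤ d1 := hd.le.trans (le_max_left _ _)
      exact_mod_cast this
    have hdp : (0 : ℝ) < Module.finrank ℚ k := by exact_mod_cast hdpos
    have h1 : C ^ (Fintype.card (k →+* ℂ) - S.card) ≤ (Ideal.absNorm I : ℝ) := by
      refine le_trans ?_ hI
      calc C ^ (Fintype.card (k →+* ℂ) - S.card) ≤ C ^ (Fintype.card (k →+* ℂ)) :=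
            pow_le_pow_right₀ hC1.le (Nat.sub_le _ _)
        _ = Real.exp ((Module.finrank ℚ k : ℝ) * (b * (d1 : ℝ) ^ (η - 1 / 2))) := by
            rw [NumberField.Embeddings.card, hC, ← Real.exp_nat_mul]
        _ ≤ _ := by
            rw [Real.exp_le_exp]
            have h2 : (d1 : ℝ) ^ (η - 1 / 2) ≤ (Module.finrank ℚ k : ℝ) ^ (η - 1 / 2) :=
              Real.rpow_le_rpow_of_nonpos hdp hle (by linarith)
            have h4 : (Module.finrank ℚ k : ℝ) * (Module.finrank ℚ k : ℝ) ^ (η - 1 / 2) =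
                (Module.finrank ℚ k : ℝ) ^ (1 / 2 + η) := by
              nth_rewrite 1 [← Real.rpow_one (Module.finrank ℚ k : ℝ)]
              rw [← Real.rpow_add hdp]
              congr 1
              ring
            calc (Module.finrank ℚ k : ℝ) * (b * (d1 : ℝ) ^ (η - 1 / 2))
                = b * ((Module.finrank ℚ k : ℝ) * (d1 : ℝ) ^ (η - 1 / 2)) := by ring
              _ ≤ b * ((Module.finrank ℚ k : ℝ) * (Module.finrank ℚ k : ℝ) ^ (η - 1 / 2)) :=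
                  mul_le_mul_of_nonneg_left (mul_le_mul_of_nonneg_left h2 hdp.le) hb.le
              _ = b * (Module.finrank ℚ k : ℝ) ^ (1 / 2 + η) := by rw [h4]
    have heE0 : e ∈ range (E0 + 1) := by
      rw [Finset.mem_range, Nat.lt_succ_iff]
      refine Nat.le_floor (heE.trans ?_)
      exact mul_le_mul_of_nonneg_left (Real.rpow_le_rpow hdp.le hle (by linarith)) hE.le
    obtain ⟨σ, hσ, l, hl, hle'⟩ := hf e he k n S I A hS h1 hA hout (by
      have := hnil 1 one_pos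
      rwa [pow_one] at this)
    exact ⟨σ, hσ, l, hl, (min_le_left _ _).trans ((hmin e heE0).trans hle')⟩

/-- the power of a unit matrix is trivial modulo a prime of norm `q` -/
theorem pow_card_mem {R : Type*} [CommRing R] (I : Ideal R) [I.IsMaximal] [Finite (R ⧸ I)]
    (q n : ℕ) (hq : Nat.card (R ⧸ I) = q) (A : Matrix (Fin n) (Fin n) R) (hA : IsUnit A)
    (i j : Fin n) :
    (A ^ (∏ i : Fin n, (q ^ n - q ^ (i : ℕ))) - 1) i j ∈ I := by
  classical
  letI : Field (R ⧸ I) := Ideal.Quotient.field I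
  letI : Fintype (R ⧸ I) := Fintype.ofFinite _
  set φ := (Ideal.Quotient.mk I).mapMatrix (m := Fin n) with hφ
  obtain ⟨u, hu⟩ := hA.map φ
  have hcard : Nat.card (Matrix (Fin n) (Fin n) (R ⧸ I))ˣ =
      ∏ i : Fin n, (q ^ n - q ^ (i : ℕ)) := by
    have := Matrix.card_GL_field (𝔽 := R ⧸ I) n
    rw [Fintype.card_eq_nat_card, hq] at this
    exact this
  have h1 : u ^ (∏ i : Fin n, (q ^ n - q ^ (i : ℕ))) = 1 := by
    rw [← hcard, pow_card_eq_one']
  have h2 : φ (A ^ (∏ i : Fin n, (q ^ n - q ^ (i : ℕ))) - 1) = 0 := by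
    rw [map_sub, map_pow, map_one, ← hu, ← Units.val_pow_eq_pow_val, h1, Units.val_one, sub_self]
  have h3 : (Ideal.Quotient.mk I) ((A ^ (∏ i : Fin n, (q ^ n - q ^ (i : ℕ))) - 1) i j) = 0 := by
    have := congrFun (congrFun h2 i) j
    exact this
  exact Ideal.Quotient.eq_zero_iff_mem.mp h3

theorem uniform_glevel (η b E : ℝ) (hη : 0 < η) (hη1 : η ≤ 1 / 2) (hb : 0 < b) (hE : 0 < E)
    (s : ℕ) {G : Type*} [Group G]
    [TopologicalSpace G] {M : ℕ} (ρ : G →* Matrix (Fin M) (Fin M) ℂ) (hρ : Continuous ρ) :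
    UniformlyDiscrete (GrowingLevelFamily η b E s ρ) := by
  obtain ⟨ε, hε, h⟩ := gapG η b E hη hη1 hb hE (s + 1) (Nat.succ_pos s)
  refine ⟨_, nhd ρ hρ ε hε, ?_⟩
  rintro Γ ⟨htf, k, _, _, n, S, R, e, I, hSs, he, heE, hI, hcong⟩ g u hu hΓ
  refine final_step' R htf ε hε g u hu hΓ fun hnil => ?_
  have hunit : IsUnit (R.r ⟨g * u * g⁻¹, hΓ⟩) :=
    (Group.isUnit (⟨g * u * g⁻¹, hΓ⟩ : Γ)).map R.r
  exact h k n S I _ e R.nonempty (hSs.trans (Nat.le_succ s)) he heE hI (hcong _) hunit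
    (fun σ hσ l hl => R.comp' _ σ hσ l hl) hnil

theorem uniform_gprimes (η b E : ℝ) (hη : 0 < η) (hη1 : η ≤ 1 / 2) (hb : 0 < b) (hE : 0 < E)
    (s n : ℕ) {G : Type*} [Group G]
    [TopologicalSpace G] {M : ℕ} (ρ : G →* Matrix (Fin M) (Fin M) ℂ) (hρ : Continuous ρ) :
    UniformlyDiscrete (GrowingPrimesFamily η b E s n ρ) := by
  have hlog2 : 0 < Real.log 2 := Real.log_pos (by norm_num)
  obtain ⟨ε, hε, h⟩ := gapG η (b * Real.log 2) E hη hη1 (by positivity) hE (s + 1)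
    (Nat.succ_pos s)
  refine ⟨_, nhd ρ hρ ε hε, ?_⟩
  rintro Γ ⟨htf, k, _, _, S, R, q, P, hSs, hP, hq, hcard⟩ g u hu hΓ
  refine final_step' R htf ε hε g u hu hΓ fun hnil => ?_
  have hunit : IsUnit (R.r ⟨g * u * g⁻¹, hΓ⟩) :=
    (Group.isUnit (⟨g * u * g⁻¹, hΓ⟩ : Γ)).map R.r
  have hdp : (0 : ℝ) < Module.finrank ℚ k := by
    exact_mod_cast Module.finrank_pos (R := ℚ) (M := k)
  have hPne : P.Nonempty := by
    rw [← Finset.card_pos]
    have : (0 : ℝ) < P.card := lt_of_lt_of_le (by positivity) hcard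
    exact_mod_cast this
  have hq2 : 2 ≤ q := by
    obtain ⟨I, hI⟩ := hPne
    obtain ⟨h1, h2, h3⟩ := hP I hI
    rw [← h3]
    have hne0 : Ideal.absNorm I ≠ 0 := fun h => h2 (Ideal.absNorm_eq_zero_iff.mp h)
    have hne1 : Ideal.absNorm I ≠ 1 := fun h => h1.ne_top (Ideal.absNorm_eq_one_iff.mp h)
    omega
  have hle : ∏ i : Fin n, (q ^ n - q ^ (i : ℕ)) ≤ q ^ (n * n) := by
    calc ∏ i : Fin n, (q ^ n - q ^ (i : ℕ)) ≤ ∏ _i : Fin n, q ^ n :=
          Finset.prod_le_prod' fun i _ => Nat.sub_le _ _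
      _ = q ^ (n * n) := by rw [Finset.prod_const, Finset.card_univ, Fintype.card_fin, ← pow_mul]
  have hpos : 0 < ∏ i : Fin n, (q ^ n - q ^ (i : ℕ)) :=
    Finset.prod_pos fun i _ => Nat.sub_pos_of_lt (Nat.pow_lt_pow_right (by omega) i.2)
  refine h k n S (∏ I ∈ P, I) _ (∏ i : Fin n, (q ^ n - q ^ (i : ℕ))) R.nonempty
    (hSs.trans (Nat.le_succ s)) hpos ?_ ?_ ?_ hunit (fun σ hσ l hl => R.comp' _ σ hσ l hl) hnil
  · refine le_trans ?_ hq
    exact_mod_cast hle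
  · rw [map_prod, Finset.prod_congr rfl fun I hI => (hP I hI).2.2, Finset.prod_const]
    have h1 : b * Real.log 2 * (Module.finrank ℚ k : ℝ) ^ (1 / 2 + η) ≤
        P.card * Real.log 2 := by
      have := mul_le_mul_of_nonneg_right hcard hlog2.le
      linarith
    calc Real.exp (b * Real.log 2 * (Module.finrank ℚ k : ℝ) ^ (1 / 2 + η))
        ≤ Real.exp (P.card * Real.log 2) := Real.exp_le_exp.mpr h1
      _ = 2 ^ P.card := by
          rw [Real.exp_nat_mul, Real.exp_log (by norm_num)]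
      _ ≤ ((q ^ P.card : ℕ) : ℝ) := by
          push_cast
          exact pow_le_pow_left₀ (by norm_num) (by exact_mod_cast hq2) _
  · intro i j
    rw [← Ideal.span_singleton_le_iff_mem, ← Ideal.dvd_iff_le]
    refine Finset.prod_dvd_of_coprime ?_ ?_
    · intro I hI J hJ hne
      obtain ⟨hI1, hI2, _⟩ := hP I hI
      obtain ⟨hJ1, hJ2, _⟩ := hP J hJ
      have hIm : I.IsMaximal := hI1.isMaximal hI2
      have hJm : J.IsMaximal := hJ1.isMaximal hJ2
      exact Ideal.isCoprime_iff_sup_eq.mpr (hIm.coprime_of_ne hJm hne)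
    · intro I hI
      obtain ⟨hI1, hI2, hI3⟩ := hP I hI
      rw [Ideal.dvd_iff_le, Ideal.span_singleton_le_iff_mem]
      have : Finite (𝓞 k ⧸ I) := Ideal.finiteQuotientOfFreeOfNeBot I hI2
      have : I.IsMaximal := hI1.isMaximal hI2
      refine pow_card_mem I q n ?_ _ hunit i j
      rw [Ideal.absNorm_apply, Submodule.cardQuot_apply] at hI3
      exact hI3

end Pool.Agent.H225R3.Marg
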