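import Pool.Agent.H225R3.Marg1

/-!
# The product formula for congruence matrices
-/

set_option autoImplicit false

namespace Pool.Agent.H225R3.Marg

open Polynomial Finset NumberField

/-- the reduction of an integral element of a number field under a complex embedding -/
noncomputable def emb {k : Type} [Field k] (σ : k →+* ℂ) : 𝓞 k →+* ℂ :=
  σ.comp (algebraMap (𝓞 k) k)

theorem norm_int_eq {k : Type} [Field k] [NumberField k] (x : 𝓞 k) :
    ((Algebra.norm ℤ x).natAbs : ℝ) = ∏ σ : k →+* ℂ, ‖emb σ x‖ := by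
  classical
  have h1 : ((Algebra.norm ℤ x).natAbs : ℝ) = |(((Algebra.norm ℤ x : ℤ) : ℚ) : ℝ)| := by
    rw [Nat.cast_natAbs]
    push_cast
    rfl
  rw [h1, Algebra.coe_norm_int]
  have h2 := congr_arg (‖·‖) (Algebra.norm_eq_prod_embeddings ℚ ℂ (x : k))
  simp only [norm_prod] at h2
  rw [← Fintype.prod_equiv (RingHom.equivRatAlgHom k ℂ) (fun f => ‖f (x : k)‖)
      (fun φ => ‖φ (x : k)‖) fun _ => by simp [RingHom.equivRatAlgHom_apply]] at h2
  have h3 : ‖(algebraMap ℚ ℂ) (Algebra.norm ℚ (x : k))‖ = |((Algebra.norm ℚ (x : k) : ℚ) : ℝ)| := by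
    rw [eq_ratCast, ← Real.norm_eq_abs, ← Complex.norm_real, Complex.ofReal_ratCast]
  rw [h3] at h2
  exact h2

/-- resultant with `X ^ K * H` -/
theorem res_factor {R : Type*} [CommRing R] [IsDomain R] (q H : R[X]) (K : ℕ) (hH : H ≠ 0) :
    ∃ r' : R, resultant q (X ^ K * H) = (q.coeff 0) ^ K * r' := by
  have h1 : (X ^ K * H).natDegree = (X ^ K : R[X]).natDegree + H.natDegree :=
    natDegree_mul (pow_ne_zero _ X_ne_zero) hH
  rw [h1, resultant_mul_right q (X ^ K) H q.natDegree le_rfl, natDegree_X_pow,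
    resultant_X_pow_right q q.natDegree K le_rfl]
  exact ⟨(-1) ^ (q.natDegree * K) * resultant q H, by ring⟩

theorem res_emb {k : Type} [Field k] [NumberField k] (σ : k →+* ℂ) (q : (𝓞 k)[X])
    (hq : q.Monic) (F : ℤ[X]) :
    emb σ (resultant q (F.map (Int.castRingHom (𝓞 k)))) =
      ((q.map (emb σ)).roots.map fun β => aeval β F).prod := by
  rw [← resultant_map_map]
  have hq' : (q.map (emb σ)).Monic := hq.map _
  have hdeg : q.natDegree = (q.map (emb σ)).natDegree := (hq.natDegree_map _).symm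
  rw [hdeg, resultant_eq_prod_eval _ _ _ natDegree_map_le (IsAlgClosed.splits _),
    hq'.leadingCoeff, one_pow, one_mul]
  congr 1
  refine Multiset.map_congr rfl fun β _ => ?_
  rw [Polynomial.map_map, aeval_def, eval_map]
  congr 1
  exact RingHom.ext_int _ _

theorem norm_prod_le_pow (f : ℂ → ℂ) {c : ℝ} (hc : 0 ≤ c) (s : Multiset ℂ)
    (h : ∀ β ∈ s, ‖f β‖ ≤ c) : ‖(s.map f).prod‖ ≤ c ^ (Multiset.card s) := by
  induction s using Multiset.induction with
  | empty => simp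
  | cons a s ih =>
    rw [Multiset.map_cons, Multiset.prod_cons, norm_mul, Multiset.card_cons, pow_succ']
    exact mul_le_mul (h a (Multiset.mem_cons_self a s))
      (ih fun β hβ => h β (Multiset.mem_cons_of_mem hβ)) (norm_nonneg _) hc

/-- Theorem A -/
theorem gap (C : ℝ) (hC : 1 < C) : ∃ ε : ℝ, 0 < ε ∧
    ∀ (k : Type) [Field k] [NumberField k] (n : ℕ) (S : Finset (k →+* ℂ)) (I : Ideal (𝓞 k))
      (B : Matrix (Fin n) (Fin n) (𝓞 k)), S.Nonempty →
      C ^ (Fintype.card (k →+* ℂ) - S.card) ≤ (Ideal.absNorm I : ℝ) →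
      (∀ i j, B i j ∈ I) →
      (∀ σ : k →+* ℂ, σ ∉ S → ∀ β : ℂ, (B.charpoly.map (emb σ)).IsRoot β → ‖1 + β‖ ≤ 1) →
      ¬ IsNilpotent B →
      ∃ σ ∈ S, ∃ β : ℂ, (B.charpoly.map (emb σ)).IsRoot β ∧ ε ≤ ‖β‖ := by
  obtain ⟨K, H, hK, hH, hbound⟩ := aux_poly C hC
  obtain ⟨ε, hε, hnear⟩ := near_zero K hK H hH
  refine ⟨ε, hε, ?_⟩
  intro k _ _ n S I B hS hI hBI hcomp hnil
  classical
  by_contra hcon
  push Not at hcon
  set p := B.charpoly with hp
  have hpm : p.Monic := B.charpoly_monic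
  obtain ⟨q, hpq, hXq⟩ := exists_eq_pow_rootMultiplicity_mul_and_not_dvd p hpm.ne_zero 0
  set m := p.rootMultiplicity 0 with hm
  rw [C_0, sub_zero] at hpq hXq
  have hqm : q.Monic := (monic_X_pow m).of_mul_monic_left (hpq ▸ hpm)
  have hq0 : q.coeff 0 ≠ 0 := fun h => hXq (X_dvd_iff.mpr h)
  have hpdeg : p.natDegree = n := by rw [hp, Matrix.charpoly_natDegree_eq_dim, Fintype.card_fin]
  have hdeg : n = m + q.natDegree := by
    rw [← hpdeg, hpq, (monic_X_pow m).natDegree_mul hqm, natDegree_X_pow]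
  set t := q.natDegree with ht
  have htpos : 0 < t := by
    rcases Nat.eq_zero_or_pos t with h0 | h0
    · exfalso
      have hq1 : q = 1 := hqm.natDegree_eq_zero.mp h0
      apply hnil
      refine ⟨m, ?_⟩
      have := Matrix.aeval_self_charpoly B
      rw [← hp, hpq, hq1, mul_one, map_pow, aeval_X] at this
      exact this
    · exact h0
  have hc0 : q.coeff 0 ∈ I ^ t := by
    have h1 := Matrix.coeff_charpoly_mem_ideal_pow hBI m
    rw [← hp, hpq, Fintype.card_fin] at h1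
    have h2 : (X ^ m * q).coeff m = q.coeff 0 := by
      simpa using coeff_X_pow_mul q m 0
    rw [h2] at h1
    have h3 : n - m = t := by omega
    rwa [h3] at h1
  -- the roots of q
  have hrootsq : ∀ σ : k →+* ℂ, ∀ β ∈ (q.map (emb σ)).roots,
      β ≠ 0 ∧ (p.map (emb σ)).IsRoot β := by
    intro σ β hβ
    have hinj : Function.Injective (emb σ) :=
      σ.injective.comp (FaithfulSMul.algebraMap_injective (𝓞 k) k)
    have hr := (mem_roots'.mp hβ).2
    constructor
    · rintro rfl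
      rw [IsRoot, ← coeff_zero_eq_eval_zero, coeff_map] at hr
      exact hq0 (hinj (by rw [hr, map_zero]))
    · rw [hpq, Polynomial.map_mul, IsRoot, eval_mul, hr, mul_zero]
  set F : ℤ[X] := X ^ K * H with hF
  set r : 𝓞 k := resultant q (F.map (Int.castRingHom (𝓞 k))) with hr
  have hrσ : ∀ σ : k →+* ℂ, emb σ r = ((q.map (emb σ)).roots.map fun β => aeval β F).prod :=
    fun σ => res_emb σ q hqm F
  have hcard : ∀ σ : k →+* ℂ, Multiset.card (q.map (emb σ)).roots = t := by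
    intro σ
    rw [splits_iff_card_roots.mp (IsAlgClosed.splits _), hqm.natDegree_map]
  -- bounds
  have hout : ∀ σ : k →+* ℂ, σ ∉ S → ‖emb σ r‖ ≤ (C ^ K) ^ t := by
    intro σ hσ
    rw [hrσ, ← hcard σ]
    exact norm_prod_le_pow _ (by positivity) _
      fun β hβ => hbound β (hcomp σ hσ β (hrootsq σ β hβ).2)
  have hin : ∀ σ ∈ S, emb σ r ≠ 0 ∧ ‖emb σ r‖ < 1 := by
    intro σ hσ
    have hsmall : ∀ β ∈ (q.map (emb σ)).roots, aeval β F ≠ 0 ∧ ‖aeval β F‖ < 1 := by
      intro β hβ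
      obtain ⟨h1, h2⟩ := hrootsq σ β hβ
      exact hnear β h1 (hcon σ hσ β h2)
    have hc := hcard σ
    rw [hrσ]
    generalize (q.map (emb σ)).roots = s at hsmall hc
    have key : ∀ s : Multiset ℂ, (∀ β ∈ s, aeval β F ≠ 0 ∧ ‖aeval β F‖ < 1) →
        (s.map fun β => aeval β F).prod ≠ 0 ∧ ‖(s.map fun β => aeval β F).prod‖ ≤ 1 ∧
        (s ≠ 0 → ‖(s.map fun β => aeval β F).prod‖ < 1) := by
      intro s
      induction s using Multiset.induction with
      | empty => intro _; simp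
      | cons a s ih =>
        intro h
        obtain ⟨i1, i2, _⟩ := ih fun β hβ => h β (Multiset.mem_cons_of_mem hβ)
        obtain ⟨a1, a2⟩ := h a (Multiset.mem_cons_self a s)
        have h5 : ‖((a ::ₘ s).map fun β => aeval β F).prod‖ < 1 := by
          rw [Multiset.map_cons, Multiset.prod_cons, norm_mul]
          calc ‖aeval a F‖ * ‖(s.map fun β => aeval β F).prod‖ ≤ ‖aeval a F‖ * 1 :=
                mul_le_mul_of_nonneg_left i2 (norm_nonneg _)
            _ < 1 := by rw [mul_one]; exact a2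
        refine ⟨?_, h5.le, fun _ => h5⟩
        rw [Multiset.map_cons, Multiset.prod_cons]
        exact mul_ne_zero a1 i1
    obtain ⟨k1, _, k3⟩ := key s hsmall
    refine ⟨k1, k3 ?_⟩
    rintro rfl
    rw [Multiset.card_zero] at hc
    omega
  obtain ⟨σ0, hσ0⟩ := hS
  have hr0 : r ≠ 0 := by
    intro h
    apply (hin σ0 hσ0).1
    rw [h, map_zero]
  -- factorisation of r
  have hHR : H.map (Int.castRingHom (𝓞 k)) ≠ 0 := by
    rw [Ne, Polynomial.map_eq_zero_iff (by exact Int.cast_injective)]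
    exact hH
  obtain ⟨r', hr'⟩ := res_factor q (H.map (Int.castRingHom (𝓞 k))) K hHR
  have hrr : r = (q.coeff 0) ^ K * r' := by
    rw [← hr', hr, hF, Polynomial.map_mul, Polynomial.map_pow, Polynomial.map_X]
  have hr'0 : r' ≠ 0 := by
    rintro h
    rw [h, mul_zero] at hrr
    exact hr0 hrr
  -- lower bound
  have hlow : (Ideal.absNorm I : ℝ) ^ (t * K) ≤ ((Algebra.norm ℤ r).natAbs : ℝ) := by
    have h1 : Ideal.absNorm (I ^ t) ∣ Ideal.absNorm (Ideal.span {q.coeff 0}) :=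
      Ideal.absNorm_dvd_absNorm_of_le ((Ideal.span_singleton_le_iff_mem _).mpr hc0)
    rw [map_pow, Ideal.absNorm_span_singleton] at h1
    have h2 : Algebra.norm ℤ (q.coeff 0) ≠ 0 := Algebra.norm_ne_zero_iff.mpr hq0
    have h3 : Ideal.absNorm I ^ t ≤ (Algebra.norm ℤ (q.coeff 0)).natAbs :=
      Nat.le_of_dvd (Int.natAbs_pos.mpr h2) h1
    have h4 : 1 ≤ (Algebra.norm ℤ r').natAbs :=
      Int.natAbs_pos.mpr (Algebra.norm_ne_zero_iff.mpr hr'0)
    have h5 : Ideal.absNorm I ^ (t * K) ≤ (Algebra.norm ℤ r).natAbs := by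
      rw [hrr, map_mul, map_pow, Int.natAbs_mul, Int.natAbs_pow, pow_mul]
      calc (Ideal.absNorm I ^ t) ^ K ≤ (Algebra.norm ℤ (q.coeff 0)).natAbs ^ K :=
            Nat.pow_le_pow_left h3 _
        _ = (Algebra.norm ℤ (q.coeff 0)).natAbs ^ K * 1 := (mul_one _).symm
        _ ≤ _ := Nat.mul_le_mul_left _ h4
    exact_mod_cast h5
  -- upper bound
  have hup : ((Algebra.norm ℤ r).natAbs : ℝ) <
      ((C ^ K) ^ t) ^ (Fintype.card (k →+* ℂ) - S.card) := by
    rw [norm_int_eq, ← Finset.prod_mul_prod_compl S]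
    have h1 : ∏ σ ∈ S, ‖emb σ r‖ < 1 := by
      have h2 : ∏ σ ∈ S, ‖emb σ r‖ < ∏ _σ ∈ S, (1 : ℝ) :=
        Finset.prod_lt_prod_of_nonempty (fun σ hσ => norm_pos_iff.mpr (hin σ hσ).1)
          (fun σ hσ => (hin σ hσ).2) ⟨σ0, hσ0⟩
      simpa using h2
    have h3 : ∏ σ ∈ Sᶜ, ‖emb σ r‖ ≤ ((C ^ K) ^ t) ^ (Fintype.card (k →+* ℂ) - S.card) := by
      rw [← Finset.card_compl, ← Finset.prod_const]
      exact Finset.prod_le_prod (fun σ _ => norm_nonneg _)
        fun σ hσ => hout σ (Finset.mem_compl.mp hσ)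
    have hpos : 0 < ((C ^ K) ^ t) ^ (Fintype.card (k →+* ℂ) - S.card) := by positivity
    calc (∏ σ ∈ S, ‖emb σ r‖) * ∏ σ ∈ Sᶜ, ‖emb σ r‖
        ≤ (∏ σ ∈ S, ‖emb σ r‖) * ((C ^ K) ^ t) ^ (Fintype.card (k →+* ℂ) - S.card) :=
          mul_le_mul_of_nonneg_left h3 (Finset.prod_nonneg fun _ _ => norm_nonneg _)
      _ < 1 * ((C ^ K) ^ t) ^ (Fintype.card (k →+* ℂ) - S.card) :=
          mul_lt_mul_of_pos_right h1 hpos
      _ = _ := one_mul _
  have hfin : (C ^ (Fintype.card (k →+* ℂ) - S.card)) ^ (t * K) ≤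
      (Ideal.absNorm I : ℝ) ^ (t * K) := pow_le_pow_left₀ (by positivity) hI _
  have heq : ((C ^ K) ^ t) ^ (Fintype.card (k →+* ℂ) - S.card) =
      (C ^ (Fintype.card (k →+* ℂ) - S.card)) ^ (t * K) := by
    rw [← pow_mul, ← pow_mul, ← pow_mul]
    congr 1
    ring
  rw [heq] at hup
  exact absurd (hlow.trans_lt hup) (not_lt.mpr hfin)

end Pool.Agent.H225R3.Marg
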