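import Pool.Agent.H225R3.Marg2

/-!
# Powers, all matrices over fields with many small primes, uniform discreteness
-/

set_option autoImplicit false

namespace Pool.Agent.H225R3.Marg

open Polynomial Finset NumberField

/-- eigenvalues of `A ^ e - 1` -/
theorem eig_pow {n : ℕ} (A : Matrix (Fin n) (Fin n) ℂ) (e : ℕ) (he : 0 < e) (β : ℂ)
    (h : (A ^ e - 1).charpoly.IsRoot β) : ∃ l : ℂ, A.charpoly.IsRoot l ∧ β = l ^ e - 1 := by
  rw [← Matrix.mem_spectrum_iff_isRoot_charpoly] at h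
  have h1 : A ^ e - 1 = aeval A (X ^ e - 1 : ℂ[X]) := by simp
  have hdeg : 0 < (X ^ e - 1 : ℂ[X]).degree := by
    rw [show (1 : ℂ[X]) = C 1 from C_1.symm, degree_X_pow_sub_C he]
    exact_mod_cast he
  rw [h1, spectrum.map_polynomial_aeval_of_degree_pos _ _ hdeg] at h
  obtain ⟨l, hl, hl2⟩ := h
  refine ⟨l, Matrix.mem_spectrum_iff_isRoot_charpoly.mp hl, ?_⟩
  rw [← hl2]
  simp

theorem pow_near (e : ℕ) (ε : ℝ) (hε : 0 < ε) :
    ∃ δ : ℝ, 0 < δ ∧ ∀ l : ℂ, ‖l - 1‖ < δ → ‖l ^ e - 1‖ < ε := by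
  have h1 : ContinuousAt (fun l : ℂ => l ^ e - 1) 1 := by fun_prop
  obtain ⟨δ, hδ, h⟩ := Metric.continuousAt_iff.mp h1 ε hε
  refine ⟨δ, hδ, fun l hl => ?_⟩
  have := h (x := l) (by rwa [dist_eq_norm])
  simpa [dist_eq_norm] using this

theorem root_gap (e : ℕ) (he : 0 < e) :
    ∃ δ : ℝ, 0 < δ ∧ ∀ l : ℂ, l ^ e = 1 → l ≠ 1 → δ ≤ ‖l - 1‖ := by
  have hfin : {l : ℂ | l ^ e = 1}.Finite := by
    have : {l : ℂ | l ^ e = 1} ⊆ ((X ^ e - 1 : ℂ[X]).roots.toFinset : Set ℂ) := by
      intro l hl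
      have hne : (X ^ e - 1 : ℂ[X]) ≠ 0 := by
        rw [show (1 : ℂ[X]) = C 1 from C_1.symm]
        exact X_pow_sub_C_ne_zero he 1
      have hl' : l ^ e = 1 := hl
      simp only [Finset.mem_coe, Multiset.mem_toFinset, mem_roots hne, IsRoot, eval_sub, eval_pow,
        eval_X, eval_one, hl', sub_self]
    exact (Finset.finite_toSet _).subset this
  have hfin' : ({l : ℂ | l ^ e = 1} \ {1}).Finite := hfin.subset Set.sdiff_subset
  have hopen : IsOpen ({l : ℂ | l ^ e = 1} \ {1})ᶜ := hfin'.isClosed.isOpen_compl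
  have hmem : (1 : ℂ) ∈ ({l : ℂ | l ^ e = 1} \ {1})ᶜ := by simp
  obtain ⟨δ, hδ, h⟩ := Metric.isOpen_iff.mp hopen 1 hmem
  refine ⟨δ, hδ, fun l hl hl1 => ?_⟩
  by_contra hcon
  push Not at hcon
  exact h (by rwa [Metric.mem_ball, dist_eq_norm]) ⟨hl, hl1⟩

/-- gap theorem with exponents -/
theorem gapE (C : ℝ) (hC : 1 < C) (e : ℕ) (he : 0 < e) : ∃ ε : ℝ, 0 < ε ∧
    ∀ (k : Type) [Field k] [NumberField k] (n : ℕ) (S : Finset (k →+* ℂ)) (I : Ideal (𝓞 k))
      (A : Matrix (Fin n) (Fin n) (𝓞 k)), S.Nonempty →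
      C ^ (Fintype.card (k →+* ℂ) - S.card) ≤ (Ideal.absNorm I : ℝ) →
      (∀ i j, (A ^ e - 1) i j ∈ I) →
      (∀ σ : k →+* ℂ, σ ∉ S → ∀ l : ℂ, ((emb σ).mapMatrix A).charpoly.IsRoot l → ‖l‖ ≤ 1) →
      ¬ IsNilpotent (A - 1) →
      ∃ σ ∈ S, ∃ l : ℂ, ((emb σ).mapMatrix A).charpoly.IsRoot l ∧ ε ≤ ‖l - 1‖ := by
  obtain ⟨ε, hε, hgap⟩ := gap C hC
  obtain ⟨δ, hδ, hnear⟩ := pow_near e ε hε
  obtain ⟨δ', hδ', hroot⟩ := root_gap e he
  refine ⟨min δ δ', lt_min hδ hδ', ?_⟩
  intro k _ _ n S I A hS hI hA hcomp hnil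
  have hmap : ∀ σ : k →+* ℂ, (A ^ e - 1).charpoly.map (emb σ) =
      (((emb σ).mapMatrix A) ^ e - 1).charpoly := by
    intro σ
    rw [← Matrix.charpoly_map]
    congr 1
    have : (emb σ).mapMatrix (A ^ e - 1) = ((emb σ).mapMatrix A) ^ e - 1 := by
      rw [map_sub, map_pow, map_one]
    exact this
  by_cases hB : IsNilpotent (A ^ e - 1)
  · obtain ⟨σ0, hσ0⟩ := hS
    refine ⟨σ0, hσ0, ?_⟩
    by_contra hcon
    push Not at hcon
    apply hnil
    have hall : ∀ l : ℂ, ((emb σ0).mapMatrix A).charpoly.IsRoot l → l = 1 := by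
      intro l hl
      by_contra hl1
      have h1 := hcon l hl
      have h2 : l ^ e = 1 := by
        obtain ⟨N, hN⟩ := hB
        have hsp : l ∈ spectrum ℂ ((emb σ0).mapMatrix A) :=
          Matrix.mem_spectrum_iff_isRoot_charpoly.mpr hl
        have h3 : (((emb σ0).mapMatrix A) ^ e - 1) ^ N = 0 := by
          have := congrArg (emb σ0).mapMatrix hN
          rwa [map_pow, map_sub, map_pow, map_one, map_zero] at this
        have h4 : aeval ((emb σ0).mapMatrix A) ((X ^ e - 1 : ℂ[X]) ^ N) = 0 := by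
          simpa using h3
        have h5 := spectrum.subset_polynomial_aeval ((emb σ0).mapMatrix A)
          ((X ^ e - 1 : ℂ[X]) ^ N) ⟨l, hsp, rfl⟩
        rw [h4] at h5
        haveI : Nonempty (Fin n) := by
          by_contra hne
          rw [not_nonempty_iff] at hne
          have : spectrum ℂ ((emb σ0).mapMatrix A) = ∅ := by
            have hs : Subsingleton (Matrix (Fin n) (Fin n) ℂ) := by infer_instance
            exact spectrum.of_subsingleton _
          rw [this] at hsp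
          exact hsp
        rw [spectrum.zero_eq] at h5
        have h6 : (l ^ e - 1) ^ N = 0 := by simpa using h5
        by_contra hne
        exact pow_ne_zero N (sub_ne_zero.mpr hne) h6
      have h3 := hroot l h2 hl1
      exact absurd (lt_of_lt_of_le h1 (min_le_right _ _)) (not_lt.mpr h3)
    have hchar : ((emb σ0).mapMatrix A).charpoly = (X - Polynomial.C 1) ^ n := by
      have hsplit := IsAlgClosed.splits ((emb σ0).mapMatrix A).charpoly
      have hmon := ((emb σ0).mapMatrix A).charpoly_monic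
      have h1 := hsplit.eq_prod_roots_of_monic hmon
      have h2 : ((emb σ0).mapMatrix A).charpoly.roots = Multiset.replicate n 1 := by
        rw [Multiset.eq_replicate]
        constructor
        · rw [splits_iff_card_roots.mp hsplit, Matrix.charpoly_natDegree_eq_dim, Fintype.card_fin]
        · intro b hb
          exact hall b (mem_roots'.mp hb).2
      rw [h1, h2, Multiset.map_replicate, Multiset.prod_replicate]
    have hinj : Function.Injective (emb σ0) :=
      σ0.injective.comp (FaithfulSMul.algebraMap_injective (𝓞 k) k)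
    have hA1 : A.charpoly = (X - Polynomial.C 1) ^ n := by
      apply Polynomial.map_injective _ hinj
      have : A.charpoly.map (emb σ0) = ((emb σ0).mapMatrix A).charpoly := by
        rw [← Matrix.charpoly_map]; rfl
      rw [this, hchar]
      simp
    refine ⟨n, ?_⟩
    have h7 := Matrix.aeval_self_charpoly A
    rw [hA1] at h7
    simpa using h7
  · obtain ⟨σ, hσ, β, hβ, hle⟩ := hgap k n S I (A ^ e - 1) hS hI hA (by
      intro σ hσ β hβ
      rw [hmap] at hβ
      obtain ⟨l, hl, rfl⟩ := eig_pow _ e he β hβ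
      have := hcomp σ hσ l hl
      rw [add_sub_cancel, norm_pow]
      exact pow_le_one₀ (norm_nonneg _) this) hB
    rw [hmap] at hβ
    obtain ⟨l, hl, rfl⟩ := eig_pow _ e he β hβ
    refine ⟨σ, hσ, l, hl, ?_⟩
    by_contra hcon
    push Not at hcon
    exact absurd (hnear l (hcon.trans_le (min_le_left _ _))) (not_lt.mpr hle)

end Pool.Agent.H225R3.Marg
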