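import Mathlib

/-!
# Definitions for the uniform discreteness theorem
-/

set_option autoImplicit false

namespace Pool.Agent.H225R3.Marg

open NumberField

/-- `l` is an eigenvalue of the complex matrix `A`. -/
def IsEig {n : ℕ} (A : Matrix (Fin n) (Fin n) ℂ) (l : ℂ) : Prop := A.charpoly.IsRoot l

/-- The complex matrix obtained from a matrix over the ring of integers of `k` by applying the
embedding `σ` to the entries. -/
def conjMat {k : Type} [Field k] {n : ℕ} (σ : k →+* ℂ) (A : Matrix (Fin n) (Fin n) (𝓞 k)) :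
    Matrix (Fin n) (Fin n) ℂ :=
  A.map fun x => σ (x : k)

/-- An arithmetic realization of the subgroup `Γ` of `G` over the number field `k`, by integral
matrices of size `n`, with noncompact embeddings `S`: a homomorphism `r` to `n × n` matrices
over the ring of integers, such that
* under every embedding outside `S` the image is bounded (relatively compact),
* under the embeddings in `S` the eigenvalues of `r γ` are eigenvalues of `ρ γ`,
* only the identity of `Γ` is mapped to a unipotent matrix. -/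
structure Realization {G : Type*} [Group G] {M : ℕ} (ρ : G →* Matrix (Fin M) (Fin M) ℂ)
    (Γ : Subgroup G) (k : Type) [Field k] [NumberField k] (n : ℕ) (S : Finset (k →+* ℂ)) where
  r : Γ →* Matrix (Fin n) (Fin n) (𝓞 k)
  nonempty : S.Nonempty
  compact : ∀ σ : k →+* ℂ, σ ∉ S → ∃ B : ℝ, ∀ (γ : Γ) (i j : Fin n), ‖conjMat σ (r γ) i j‖ ≤ B
  eig : ∀ σ ∈ S, ∀ (γ : Γ) (l : ℂ), IsEig (conjMat σ (r γ)) l → IsEig (ρ γ) l
  unipotent : ∀ γ : Γ, IsNilpotent (r γ - 1) → γ = 1

/-- The subgroups `Γ` with a realization (of any size `n`, over any number field `k`) and an ideal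
`I` of the ring of integers, of norm at least `C ^ ([k : ℚ] - |S|)`, such that
`(r γ) ^ e ≡ 1 mod I` for all `γ` in `Γ`. For `e = 1` these are the groups of level `I`. -/
def CongruenceFamily (C : ℝ) (e : ℕ) {G : Type*} [Group G] {M : ℕ}
    (ρ : G →* Matrix (Fin M) (Fin M) ℂ) : Set (Subgroup G) :=
  {Γ | ∃ (k : Type) (_ : Field k) (_ : NumberField k) (n : ℕ) (S : Finset (k →+* ℂ))
    (R : Realization ρ Γ k n S) (I : Ideal (𝓞 k)),
    C ^ (Fintype.card (k →+* ℂ) - S.card) ≤ (Ideal.absNorm I : ℝ) ∧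
    ∀ (γ : Γ) (i j : Fin n), (R.r γ ^ e - 1) i j ∈ I}

/-- The subgroups `Γ` with a realization of size `n` over a number field `k` that has a finite set
of prime ideals, each of norm at most `Q`, whose norms have product at least
`C ^ ([k : ℚ] - |S|)`. There is no congruence condition on `Γ`. -/
def SmallPrimesFamily (C : ℝ) (Q n : ℕ) {G : Type*} [Group G] {M : ℕ}
    (ρ : G →* Matrix (Fin M) (Fin M) ℂ) : Set (Subgroup G) :=
  {Γ | ∃ (k : Type) (_ : Field k) (_ : NumberField k) (S : Finset (k →+* ℂ))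
    (_ : Realization ρ Γ k n S) (P : Finset (Ideal (𝓞 k))),
    (∀ I ∈ P, I.IsPrime ∧ I ≠ ⊥ ∧ Ideal.absNorm I ≤ Q) ∧
    C ^ (Fintype.card (k →+* ℂ) - S.card) ≤ ∏ I ∈ P, (Ideal.absNorm I : ℝ)}

/-- The torsion-free subgroups `Γ` with a realization (of any size `n`, over any number field `k`)
with at most `s` noncompact embeddings, and an ideal `I` of the ring of integers of `k`, of norm at
least `exp (d ^ (1 / 2 + η))` with `d = [k : ℚ]`, such that `(r γ) ^ e ≡ 1 mod I` for all `γ` in
`Γ`. -/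
def LevelFamily (η : ℝ) (s e : ℕ) {G : Type*} [Group G] {M : ℕ}
    (ρ : G →* Matrix (Fin M) (Fin M) ℂ) : Set (Subgroup G) :=
  {Γ | (∀ γ ∈ Γ, ∀ N : ℕ, 0 < N → γ ^ N = 1 → γ = 1) ∧
    ∃ (k : Type) (_ : Field k) (_ : NumberField k) (n : ℕ) (S : Finset (k →+* ℂ))
    (R : Realization ρ Γ k n S) (I : Ideal (𝓞 k)), S.card ≤ s ∧
    Real.exp ((Module.finrank ℚ k : ℝ) ^ (1 / 2 + η)) ≤ (Ideal.absNorm I : ℝ) ∧
    ∀ (γ : Γ) (i j : Fin n), (R.r γ ^ e - 1) i j ∈ I}

/-- The torsion-free subgroups `Γ` with a realization of size `n`, with at most `s` noncompact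
embeddings, over a number field `k` of degree `d` that has a finite set of prime ideals, each of
norm at most `Q`, whose norms have product at least `exp (d ^ (1 / 2 + η))`. There is no
congruence condition on `Γ`. -/
def PrimesFamily (η : ℝ) (s Q n : ℕ) {G : Type*} [Group G] {M : ℕ}
    (ρ : G →* Matrix (Fin M) (Fin M) ℂ) : Set (Subgroup G) :=
  {Γ | (∀ γ ∈ Γ, ∀ N : ℕ, 0 < N → γ ^ N = 1 → γ = 1) ∧
    ∃ (k : Type) (_ : Field k) (_ : NumberField k) (S : Finset (k →+* ℂ))
    (_ : Realization ρ Γ k n S) (P : Finset (Ideal (𝓞 k))), S.card ≤ s ∧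
    (∀ I ∈ P, I.IsPrime ∧ I ≠ ⊥ ∧ Ideal.absNorm I ≤ Q) ∧
    Real.exp ((Module.finrank ℚ k : ℝ) ^ (1 / 2 + η)) ≤ ∏ I ∈ P, (Ideal.absNorm I : ℝ)}

/-- A family of subgroups of a topological group is uniformly discrete if there is an identity
neighbourhood all of whose conjugates meet every group of the family in the identity only. -/
def UniformlyDiscrete {G : Type*} [Group G] [TopologicalSpace G] (F : Set (Subgroup G)) : Prop :=
  ∃ U ∈ nhds (1 : G), ∀ Γ ∈ F, ∀ g : G, ∀ u ∈ U, g * u * g⁻¹ ∈ Γ → g * u * g⁻¹ = 1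

end Pool.Agent.H225R3.Marg
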