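import Pool.Agent.H225R3.Marg3
import Pool.Agent.H225R3.MargDefs

/-!
# Small primes and uniform discreteness
-/

set_option autoImplicit false

namespace Pool.Agent.H225R3.Marg

open Polynomial Finset NumberField

theorem conj_eq {k : Type} [Field k] {n : ℕ} (σ : k →+* ℂ) (A : Matrix (Fin n) (Fin n) (𝓞 k)) :
    (emb σ).mapMatrix A = conjMat σ A := rfl

/-- the power of a unit matrix is trivial modulo a small prime -/
theorem pow_sub_one_mem {R : Type*} [CommRing R] (I : Ideal R) [Finite (R ⧸ I)] (Q n : ℕ)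
    (hQ : Nat.card (R ⧸ I) ≤ Q) (A : Matrix (Fin n) (Fin n) R) (hA : IsUnit A) (i j : Fin n) :
    (A ^ (Q ^ (n * n)).factorial - 1) i j ∈ I := by
  classical
  set φ := (Ideal.Quotient.mk I).mapMatrix (m := Fin n) with hφ
  obtain ⟨u, hu⟩ := hA.map φ
  have hcard : Nat.card (Matrix (Fin n) (Fin n) (R ⧸ I))ˣ ≤ Q ^ (n * n) := by
    calc Nat.card (Matrix (Fin n) (Fin n) (R ⧸ I))ˣ
        ≤ Nat.card (Matrix (Fin n) (Fin n) (R ⧸ I)) :=
          Nat.card_le_card_of_injective _ Units.val_injective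
      _ = Nat.card (Fin n → Fin n → R ⧸ I) := rfl
      _ = (Nat.card (R ⧸ I)) ^ (n * n) := by
          rw [Nat.card_fun, Nat.card_fun, Nat.card_fin, pow_mul]
      _ ≤ Q ^ (n * n) := Nat.pow_le_pow_left hQ _
  have hdvd : Nat.card (Matrix (Fin n) (Fin n) (R ⧸ I))ˣ ∣ (Q ^ (n * n)).factorial :=
    Nat.dvd_factorial Nat.card_pos hcard
  have h1 : u ^ (Q ^ (n * n)).factorial = 1 := by
    obtain ⟨c, hc⟩ := hdvd
    rw [hc, pow_mul, pow_card_eq_one', one_pow]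
  have h2 : φ (A ^ (Q ^ (n * n)).factorial - 1) = 0 := by
    rw [map_sub, map_pow, map_one, ← hu, ← Units.val_pow_eq_pow_val, h1, Units.val_one, sub_self]
  have h3 : (Ideal.Quotient.mk I) ((A ^ (Q ^ (n * n)).factorial - 1) i j) = 0 := by
    have := congrFun (congrFun h2 i) j
    exact this
  exact Ideal.Quotient.eq_zero_iff_mem.mp h3

theorem gapF (C : ℝ) (hC : 1 < C) (Q n : ℕ) : ∃ ε : ℝ, 0 < ε ∧
    ∀ (k : Type) [Field k] [NumberField k] (S : Finset (k →+* ℂ)) (P : Finset (Ideal (𝓞 k)))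
      (A : Matrix (Fin n) (Fin n) (𝓞 k)), S.Nonempty →
      (∀ I ∈ P, I.IsPrime ∧ I ≠ ⊥ ∧ Ideal.absNorm I ≤ Q) →
      C ^ (Fintype.card (k →+* ℂ) - S.card) ≤ ∏ I ∈ P, (Ideal.absNorm I : ℝ) →
      IsUnit A →
      (∀ σ : k →+* ℂ, σ ∉ S → ∀ l : ℂ, ((emb σ).mapMatrix A).charpoly.IsRoot l → ‖l‖ ≤ 1) →
      ¬ IsNilpotent (A - 1) →
      ∃ σ ∈ S, ∃ l : ℂ, ((emb σ).mapMatrix A).charpoly.IsRoot l ∧ ε ≤ ‖l - 1‖ := by
  obtain ⟨ε, hε, h⟩ := gapE C hC (Q ^ (n * n)).factorial (Nat.factorial_pos _)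
  refine ⟨ε, hε, ?_⟩
  intro k _ _ S P A hS hP hprod hA hcomp hnil
  refine h k n S (∏ I ∈ P, I) A hS ?_ ?_ hcomp hnil
  · rw [map_prod]
    exact_mod_cast hprod
  · intro i j
    rw [← Ideal.span_singleton_le_iff_mem, ← Ideal.dvd_iff_le]
    refine Finset.prod_dvd_of_coprime ?_ ?_
    · intro I hI J hJ hne
      obtain ⟨hI1, hI2, _⟩ := hP I hI
      obtain ⟨hJ1, hJ2, _⟩ := hP J hJ
      have hIm : I.IsMaximal := hI1.isMaximal hI2
      have hJm : J.IsMaximal := hJ1.isMaximal hJ2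
      exact Ideal.isCoprime_iff_sup_eq.mpr (hIm.coprime_of_ne hJm hne)
    · intro I hI
      obtain ⟨hI1, hI2, hI3⟩ := hP I hI
      rw [Ideal.dvd_iff_le, Ideal.span_singleton_le_iff_mem]
      have : Finite (𝓞 k ⧸ I) := Ideal.finiteQuotientOfFreeOfNeBot I hI2
      refine pow_sub_one_mem I Q n ?_ A hA i j
      rw [Ideal.absNorm_apply, Submodule.cardQuot_apply] at hI3
      exact hI3

/-- an eigenvector -/
theorem exists_eigvec {n : ℕ} (A : Matrix (Fin n) (Fin n) ℂ) (l : ℂ) (h : A.charpoly.IsRoot l) :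
    ∃ v : Fin n → ℂ, v ≠ 0 ∧ A.mulVec v = l • v := by
  rw [IsRoot, Matrix.eval_charpoly] at h
  obtain ⟨v, hv, hv2⟩ := Matrix.exists_mulVec_eq_zero_iff.mpr h
  refine ⟨v, hv, ?_⟩
  rw [Matrix.sub_mulVec, sub_eq_zero] at hv2
  rw [← hv2]
  ext i
  simp [Matrix.scalar_apply, Matrix.mulVec_diagonal]

theorem eig_le {n : ℕ} (A : Matrix (Fin n) (Fin n) ℂ) (l : ℂ) (b : ℝ)
    (v : Fin n → ℂ) (hv : v ≠ 0) (hAv : A.mulVec v = l • v) (hb : ∀ i j, ‖A i j‖ ≤ b) :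
    ‖l‖ ≤ n * b := by
  have hne : (Finset.univ : Finset (Fin n)).Nonempty := by
    by_contra h
    rw [Finset.not_nonempty_iff_eq_empty] at h
    apply hv
    ext i
    have := Finset.mem_univ i
    rw [h] at this
    exact absurd this (Finset.notMem_empty i)
  obtain ⟨i, _, hi⟩ := Finset.exists_max_image Finset.univ (fun i => ‖v i‖) hne
  have hvi : 0 < ‖v i‖ := by
    rw [norm_pos_iff]
    intro h0
    apply hv
    ext j
    have := hi j (Finset.mem_univ j)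
    rw [h0, norm_zero] at this
    simpa using le_antisymm this (norm_nonneg _)
  have h1 : l * v i = ∑ j, A i j * v j := by
    have := congrFun hAv i
    simpa [Matrix.mulVec, dotProduct] using this.symm
  have h2 : ‖l‖ * ‖v i‖ ≤ n * b * ‖v i‖ := by
    rw [← norm_mul, h1]
    refine (norm_sum_le _ _).trans ?_
    have : ∀ j ∈ (Finset.univ : Finset (Fin n)), ‖A i j * v j‖ ≤ b * ‖v i‖ := by
      intro j _
      rw [norm_mul]
      exact mul_le_mul (hb i j) (hi j (Finset.mem_univ j)) (norm_nonneg _)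
        ((norm_nonneg _).trans (hb i j))
    refine (Finset.sum_le_sum this).trans ?_
    simp [mul_assoc]
  exact le_of_mul_le_mul_right h2 hvi

theorem bounded_eig {n : ℕ} (A : Matrix (Fin n) (Fin n) ℂ) (b : ℝ)
    (hb : ∀ (m : ℕ) i j, ‖(A ^ m) i j‖ ≤ b) (l : ℂ) (h : A.charpoly.IsRoot l) : ‖l‖ ≤ 1 := by
  obtain ⟨v, hv, hAv⟩ := exists_eigvec A l h
  by_contra hcon
  push Not at hcon
  obtain ⟨m, hm⟩ := pow_unbounded_of_one_lt (n * b) hcon
  have hpow : ∀ m : ℕ, (A ^ m).mulVec v = (l ^ m) • v := by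
    intro m
    induction m with
    | zero => simp
    | succ m ih =>
      rw [pow_succ, ← Matrix.mulVec_mulVec, hAv, Matrix.mulVec_smul, ih, smul_smul, pow_succ,
        mul_comm]
  have := eig_le (A ^ m) (l ^ m) b v hv (hpow m) (hb m)
  rw [norm_pow] at this
  linarith

theorem close_eig {n : ℕ} (A : Matrix (Fin n) (Fin n) ℂ) (ε : ℝ) (hε : 0 < ε)
    (hb : ∀ i j, ‖(A - 1) i j‖ < ε / (n + 1)) (l : ℂ) (h : A.charpoly.IsRoot l) :
    ‖l - 1‖ < ε := by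
  obtain ⟨v, hv, hAv⟩ := exists_eigvec A l h
  have h1 : (A - 1).mulVec v = (l - 1) • v := by
    rw [Matrix.sub_mulVec, hAv, Matrix.one_mulVec, sub_smul, one_smul]
  have h2 := eig_le (A - 1) (l - 1) (ε / (n + 1)) v hv h1 fun i j => (hb i j).le
  have h3 : (n : ℝ) * (ε / (n + 1)) < ε := by
    have hn : (0 : ℝ) < n + 1 := by positivity
    rw [mul_div_assoc', div_lt_iff₀ hn]
    nlinarith
  linarith

theorem nhd {G : Type*} [Group G] [TopologicalSpace G] {M : ℕ}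
    (ρ : G →* Matrix (Fin M) (Fin M) ℂ) (hρ : Continuous ρ) (ε : ℝ) (hε : 0 < ε) :
    {g : G | ∀ i j, ‖(ρ g - 1) i j‖ < ε / (M + 1)} ∈ nhds (1 : G) := by
  have hpos : 0 < ε / ((M : ℝ) + 1) := by positivity
  have h1 : ∀ i j, ∀ᶠ g : G in nhds 1, ‖(ρ g - 1) i j‖ < ε / (M + 1) := by
    intro i j
    have hc : Continuous fun g : G => ‖(ρ g - 1) i j‖ := by
      have : Continuous fun g : G => ρ g i j := (continuous_apply_apply i j).comp hρ
      simp only [Matrix.sub_apply]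
      fun_prop
    have ht := hc.tendsto 1
    rw [map_one, sub_self, Matrix.zero_apply, norm_zero] at ht
    exact ht.eventually_lt_const hpos
  have h2 : ∀ᶠ g : G in nhds 1, ∀ i j, ‖(ρ g - 1) i j‖ < ε / (M + 1) := by
    rw [Filter.eventually_all]
    intro i
    rw [Filter.eventually_all]
    exact h1 i
  exact h2

theorem Realization.comp' {G : Type*} [Group G] {M : ℕ} {ρ : G →* Matrix (Fin M) (Fin M) ℂ}
    {Γ : Subgroup G} {k : Type} [Field k] [NumberField k] {n : ℕ} {S : Finset (k →+* ℂ)}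
    (R : Realization ρ Γ k n S) (γ : Γ) (σ : k →+* ℂ) (hσ : σ ∉ S) (l : ℂ)
    (h : ((emb σ).mapMatrix (R.r γ)).charpoly.IsRoot l) : ‖l‖ ≤ 1 := by
  obtain ⟨b, hb⟩ := R.compact σ hσ
  refine bounded_eig _ b (fun m i j => ?_) l h
  rw [← map_pow, ← map_pow]
  exact hb (γ ^ m) i j

theorem final_step {G : Type*} [Group G] {M : ℕ} {ρ : G →* Matrix (Fin M) (Fin M) ℂ}
    {Γ : Subgroup G} {k : Type} [Field k] [NumberField k] {n : ℕ} {S : Finset (k →+* ℂ)}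
    (R : Realization ρ Γ k n S) (ε : ℝ) (hε : 0 < ε) (g u : G)
    (hu : ∀ i j, ‖(ρ u - 1) i j‖ < ε / (M + 1)) (hΓ : g * u * g⁻¹ ∈ Γ)
    (hgap : ¬ IsNilpotent (R.r ⟨g * u * g⁻¹, hΓ⟩ - 1) → ∃ σ ∈ S, ∃ l : ℂ,
      ((emb σ).mapMatrix (R.r ⟨g * u * g⁻¹, hΓ⟩)).charpoly.IsRoot l ∧ ε ≤ ‖l - 1‖) :
    g * u * g⁻¹ = 1 := by
  by_contra hne
  have hnil : ¬ IsNilpotent (R.r ⟨g * u * g⁻¹, hΓ⟩ - 1) := by
    intro h
    have := R.unipotent _ h
    exact hne (congrArg Subtype.val this)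
  obtain ⟨σ, hσ, l, hl, hle⟩ := hgap hnil
  have h1 : IsEig (ρ (g * u * g⁻¹)) l := R.eig σ hσ ⟨g * u * g⁻¹, hΓ⟩ l hl
  have h2 : (ρ (g * u * g⁻¹)).charpoly = (ρ u).charpoly := by
    rw [map_mul, map_mul]
    have h4 : ρ g⁻¹ * ρ g = 1 := by rw [← map_mul, inv_mul_cancel, map_one]
    rw [Matrix.charpoly_mul_comm, ← mul_assoc, h4, one_mul]
  rw [IsEig, h2] at h1
  exact absurd (close_eig (ρ u) ε hε hu l h1) (not_lt.mpr hle)

theorem uniform_congruence (C : ℝ) (hC : 1 < C) (e : ℕ) (he : 0 < e) {G : Type*} [Group G]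
    [TopologicalSpace G] {M : ℕ} (ρ : G →* Matrix (Fin M) (Fin M) ℂ) (hρ : Continuous ρ) :
    UniformlyDiscrete (CongruenceFamily C e ρ) := by
  obtain ⟨ε, hε, h⟩ := gapE C hC e he
  refine ⟨_, nhd ρ hρ ε hε, ?_⟩
  rintro Γ ⟨k, _, _, n, S, R, I, hI, hcong⟩ g u hu hΓ
  refine final_step R ε hε g u hu hΓ fun hnil => ?_
  exact h k n S I _ R.nonempty hI (hcong _) (fun σ hσ l hl => R.comp' _ σ hσ l hl) hnil

theorem uniform_primes (C : ℝ) (hC : 1 < C) (Q n : ℕ) {G : Type*} [Group G]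
    [TopologicalSpace G] {M : ℕ} (ρ : G →* Matrix (Fin M) (Fin M) ℂ) (hρ : Continuous ρ) :
    UniformlyDiscrete (SmallPrimesFamily C Q n ρ) := by
  obtain ⟨ε, hε, h⟩ := gapF C hC Q n
  refine ⟨_, nhd ρ hρ ε hε, ?_⟩
  rintro Γ ⟨k, _, _, S, R, P, hP, hprod⟩ g u hu hΓ
  refine final_step R ε hε g u hu hΓ fun hnil => ?_
  have hunit : IsUnit (R.r ⟨g * u * g⁻¹, hΓ⟩) :=
    (Group.isUnit (⟨g * u * g⁻¹, hΓ⟩ : Γ)).map R.r
  exact h k S P _ R.nonempty hP hprod hunit (fun σ hσ l hl => R.comp' _ σ hσ l hl) hnil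

end Pool.Agent.H225R3.Marg
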