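import Pool.Agent.H225R3.Marg3

/-!
# Algebraic lemmas for the subexponential version
-/

set_option autoImplicit false

namespace Pool.Agent.H225R3.Marg

open Polynomial Finset NumberField

/-- eigenvalues of a matrix with entries in `I` lie in the ideal generated by `I` -/
theorem mem_map_of_root {R S : Type*} [CommRing R] [CommRing S] [IsDedekindDomain S]
    [Algebra R S] (I : Ideal R) (p : R[X]) (hp : p.Monic) (n : ℕ) (hn : p.natDegree = n)
    (hn0 : 0 < n) (hc : ∀ i, p.coeff i ∈ I ^ (n - i)) (y : S) (hy : aeval y p = 0) :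
    y ∈ I.map (algebraMap R S) := by
  set J := I.map (algebraMap R S) with hJ
  set M : Ideal S := Ideal.span {y} ⊔ J with hM
  have hyM : y ∈ M := Ideal.mem_sup_left (Ideal.mem_span_singleton_self y)
  have hJM : J ≤ M := le_sup_right
  have claim : ∀ m : ℕ, M ^ (m + 1) ≤ Ideal.span {y ^ (m + 1)} ⊔ J * M ^ m := by
    intro m
    induction m with
    | zero => simp [hM]
    | succ m ih =>
      calc M ^ (m + 1 + 1) = M * M ^ (m + 1) := pow_succ' _ _
        _ ≤ M * (Ideal.span {y ^ (m + 1)} ⊔ J * M ^ m) := Ideal.mul_mono_right ih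
        _ = M * Ideal.span {y ^ (m + 1)} ⊔ M * (J * M ^ m) := Ideal.mul_sup _ _ _
        _ ≤ Ideal.span {y ^ (m + 1 + 1)} ⊔ J * M ^ (m + 1) := by
          refine sup_le ?_ ?_
          · rw [hM, Ideal.sup_mul]
            refine sup_le ?_ ?_
            · rw [Ideal.span_singleton_mul_span_singleton, ← pow_succ']
              exact le_sup_left
            · refine le_trans ?_ le_sup_right
              refine Ideal.mul_mono_right ?_
              rw [Ideal.span_singleton_le_iff_mem]
              exact Ideal.pow_mem_pow hyM _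
          · refine le_trans (le_of_eq ?_) le_sup_right
            rw [pow_succ']
            ring
  obtain ⟨m, rfl⟩ : ∃ m, n = m + 1 := ⟨n - 1, by omega⟩
  have hyn : y ^ (m + 1) ∈ J * M ^ m := by
    have h1 := hp.as_sum
    rw [hn] at h1
    rw [h1, map_add, map_pow, aeval_X, map_sum] at hy
    have h2 : y ^ (m + 1) = - ∑ i ∈ range (m + 1), aeval y (Polynomial.C (p.coeff i) * X ^ i) :=
      eq_neg_of_add_eq_zero_left hy
    rw [h2]
    refine neg_mem (sum_mem fun i hi => ?_)
    rw [map_mul, aeval_C, map_pow, aeval_X]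
    have hi' : i < m + 1 := Finset.mem_range.mp hi
    have h3 : algebraMap R S (p.coeff i) ∈ J ^ (m + 1 - i) := by
      rw [hJ, ← Ideal.map_pow]
      exact Ideal.mem_map_of_mem _ (hc i)
    have h4 : y ^ i ∈ M ^ i := Ideal.pow_mem_pow hyM _
    have h5 : J ^ (m + 1 - i) * M ^ i ≤ J * M ^ m := by
      have : m + 1 - i = (m - i) + 1 := by omega
      rw [this, pow_succ', mul_assoc]
      refine Ideal.mul_mono_right ?_
      calc J ^ (m - i) * M ^ i ≤ M ^ (m - i) * M ^ i :=
            Ideal.mul_mono_left (Ideal.pow_right_mono hJM _)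
        _ = M ^ m := by rw [← pow_add]; congr 1; omega
    exact h5 (Ideal.mul_mem_mul h3 h4)
  have hle : M ^ (m + 1) ≤ J * M ^ m :=
    (claim m).trans (sup_le ((Ideal.span_singleton_le_iff_mem _).mpr hyn) le_rfl)
  by_cases hM0 : M = ⊥
  · rw [hM0] at hyM
    rw [Ideal.mem_bot.mp hyM]
    exact Ideal.zero_mem _
  · have hdvd : J * M ^ m ∣ M * M ^ m := by
      rw [← pow_succ']
      exact Ideal.dvd_iff_le.mpr hle
    have hMm : M ^ m ≠ 0 := pow_ne_zero _ hM0
    have := (mul_dvd_mul_iff_right hMm).mp hdvd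
    exact (Ideal.dvd_iff_le.mp this) hyM

theorem norm_lower {k L : Type} [Field k] [Field L] [NumberField k] [NumberField L] [Algebra k L]
    (I : Ideal (𝓞 k)) (y : 𝓞 L) (hy0 : y ≠ 0) (hy : y ∈ I.map (algebraMap (𝓞 k) (𝓞 L))) :
    Ideal.absNorm I ^ Module.finrank k L ≤ (Algebra.norm ℤ y).natAbs := by
  have h1 : Ideal.absNorm (I.map (algebraMap (𝓞 k) (𝓞 L))) ∣
      Ideal.absNorm (Ideal.span {y}) :=
    Ideal.absNorm_dvd_absNorm_of_le ((Ideal.span_singleton_le_iff_mem _).mpr hy)
  rw [Ideal.absNorm_span_singleton] at h1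
  have h2 : Algebra.norm ℤ y ≠ 0 := Algebra.norm_ne_zero_iff.mpr hy0
  have h3 := Nat.le_of_dvd (Int.natAbs_pos.mpr h2) h1
  have h4 : Ideal.absNorm (I.map (algebraMap (𝓞 k) (𝓞 L))) =
      Ideal.absNorm I ^ Module.finrank k L := by
    rw [Ideal.absNorm_algebraMap]
    congr 1
    exact (Algebra.IsAlgebraic.finrank_of_isFractionRing (𝓞 k) k (𝓞 L) L).symm
  rwa [h4] at h3

theorem natCard_ext (K L : Type) [Field K] [Field L] [NumberField K] [NumberField L] [Algebra K L]
    (σ : K →+* ℂ) :
    Nat.card {τ : L →+* ℂ // τ.comp (algebraMap K L) = σ} = Module.finrank K L := by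
  letI : Algebra K ℂ := σ.toAlgebra
  have e : {τ : L →+* ℂ // τ.comp (algebraMap K L) = σ} ≃ (L →ₐ[K] ℂ) :=
    { toFun := fun τ => { τ.1 with commutes' := fun x => RingHom.congr_fun τ.2 x }
      invFun := fun f => ⟨f.toRingHom, RingHom.ext fun x => f.commutes x⟩
      left_inv := fun τ => by ext; rfl
      right_inv := fun f => by ext; rfl }
  rw [Nat.card_congr e, Nat.card_eq_fintype_card, AlgHom.card]

theorem card_over {k L : Type} [Field k] [Field L] [NumberField k] [NumberField L] [Algebra k L]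
    (S : Finset (k →+* ℂ)) [DecidablePred fun τ : L →+* ℂ => τ.comp (algebraMap k L) ∈ S] :
    (univ.filter fun τ : L →+* ℂ => τ.comp (algebraMap k L) ∈ S).card =
      S.card * Module.finrank k L := by
  classical
  have hfib := Finset.card_eq_sum_card_fiberwise
    (s := univ.filter fun τ : L →+* ℂ => τ.comp (algebraMap k L) ∈ S)
    (f := fun τ : L →+* ℂ => τ.comp (algebraMap k L)) (t := S)
    (by
      intro τ hτ
      have hτ' := Finset.mem_coe.mp hτ
      exact Finset.mem_coe.mpr (Finset.mem_filter.mp hτ').2)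
  rw [hfib, ← smul_eq_mul, ← Finset.sum_const]
  refine Finset.sum_congr rfl fun σ hσ => ?_
  rw [← natCard_ext k L σ, Nat.card_eq_fintype_card, Fintype.card_subtype]
  congr 1
  ext τ
  simp only [Finset.mem_filter, Finset.mem_univ, true_and]
  exact ⟨fun h => h.2, fun h => ⟨h ▸ hσ, h⟩⟩

theorem deg_bound {k L : Type} [Field k] [Field L] [NumberField k] [NumberField L] [Algebra k L]
    (S : Finset (k →+* ℂ)) (x : L) (τ0 : L →+* ℂ)
    (h : ∀ τ : L →+* ℂ, τ x = τ0 x → τ.comp (algebraMap k L) ∈ S) :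
    Module.finrank ℚ k ≤ (minpoly ℚ x).natDegree * S.card := by
  classical
  set E := IntermediateField.adjoin ℚ {x} with hE
  have hxE : x ∈ E := IntermediateField.mem_adjoin_simple_self ℚ x
  have h1 : Module.finrank E L ≤ S.card * Module.finrank k L := by
    rw [← natCard_ext E L (τ0.comp (algebraMap E L)), Nat.card_eq_fintype_card,
      Fintype.card_subtype]
    have h2 : (univ.filter fun τ : L →+* ℂ => τ.comp (algebraMap E L) = τ0.comp (algebraMap E L)) ⊆
        univ.filter fun τ : L →+* ℂ => τ.comp (algebraMap k L) ∈ S := by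
      intro τ hτ
      rw [Finset.mem_filter] at hτ ⊢
      exact ⟨Finset.mem_univ _, h τ (RingHom.congr_fun hτ.2 ⟨x, hxE⟩)⟩
    exact (Finset.card_le_card h2).trans (le_of_eq (card_over S))
  have h3 : Module.finrank ℚ k * Module.finrank k L = Module.finrank ℚ L :=
    Module.finrank_mul_finrank ℚ k L
  have h4 : Module.finrank ℚ E * Module.finrank E L = Module.finrank ℚ L :=
    Module.finrank_mul_finrank ℚ E L
  have h5 : Module.finrank ℚ E = (minpoly ℚ x).natDegree :=
    IntermediateField.adjoin.finrank (Algebra.IsIntegral.isIntegral x)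
  have hm : 0 < Module.finrank k L := Module.finrank_pos
  have h6 : Module.finrank ℚ k * Module.finrank k L ≤
      ((minpoly ℚ x).natDegree * S.card) * Module.finrank k L := by
    rw [h3, ← h4, h5, mul_assoc]
    exact Nat.mul_le_mul_left _ h1
  exact Nat.le_of_mul_le_mul_right h6 hm

/-- if all eigenvalues are roots of unity then some power is unipotent -/
theorem nilp_of_roots {R E : Type*} [CommRing R] [Field E] [IsAlgClosed E] (f : R →+* E)
    (hf : Function.Injective f) {n : ℕ} (A : Matrix (Fin n) (Fin n) R)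
    (h : ∀ l : E, (A.charpoly.map f).IsRoot l → ∃ N : ℕ, 0 < N ∧ l ^ N = 1) :
    ∃ N : ℕ, 0 < N ∧ IsNilpotent (A ^ N - 1) := by
  classical
  have hne : A.charpoly.map f ≠ 0 := (A.charpoly_monic.map f).ne_zero
  choose! N hN using h
  set N' := ∏ l ∈ (A.charpoly.map f).roots.toFinset, N l with hN'
  have hmem : ∀ l, l ∈ (A.charpoly.map f).roots.toFinset ↔ (A.charpoly.map f).IsRoot l := by
    intro l
    rw [Multiset.mem_toFinset, mem_roots hne]
  have hpos : 0 < N' := Finset.prod_pos fun l hl => (hN l ((hmem l).mp hl)).1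
  refine ⟨N', hpos, n, ?_⟩
  set A' : Matrix (Fin n) (Fin n) E := f.mapMatrix A with hA'
  have hchar : A'.charpoly = A.charpoly.map f := by rw [← Matrix.charpoly_map]; rfl
  have hroots : ∀ b : E, (A' ^ N' - 1).charpoly.IsRoot b → b = 0 := by
    intro b hb
    rw [← Matrix.mem_spectrum_iff_isRoot_charpoly] at hb
    have h1 : A' ^ N' - 1 = aeval A' (X ^ N' - 1 : E[X]) := by simp
    have hdeg : 0 < (X ^ N' - 1 : E[X]).degree := by
      rw [show (1 : E[X]) = Polynomial.C 1 from C_1.symm, degree_X_pow_sub_C hpos]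
      exact_mod_cast hpos
    rw [h1, spectrum.map_polynomial_aeval_of_degree_pos _ _ hdeg] at hb
    obtain ⟨l, hl, rfl⟩ := hb
    have hl' : (A.charpoly.map f).IsRoot l := by
      rw [← hchar]; exact Matrix.mem_spectrum_iff_isRoot_charpoly.mp hl
    obtain ⟨c, hc⟩ := Finset.dvd_prod_of_mem N ((hmem l).mpr hl')
    have : l ^ N' = 1 := by rw [hN', hc, pow_mul, (hN l hl').2, one_pow]
    simp [this]
  have hchar0 : (A' ^ N' - 1).charpoly = X ^ n := by
    have hsplit := IsAlgClosed.splits (A' ^ N' - 1).charpoly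
    have hmon := (A' ^ N' - 1).charpoly_monic
    have h1 := hsplit.eq_prod_roots_of_monic hmon
    have h2 : (A' ^ N' - 1).charpoly.roots = Multiset.replicate n 0 := by
      rw [Multiset.eq_replicate]
      constructor
      · rw [splits_iff_card_roots.mp hsplit, Matrix.charpoly_natDegree_eq_dim, Fintype.card_fin]
      · intro b hb
        exact hroots b (mem_roots'.mp hb).2
    rw [h1, h2, Multiset.map_replicate, Multiset.prod_replicate, C_0, sub_zero]
  have h3 : (A' ^ N' - 1) ^ n = 0 := by
    have h7 := Matrix.aeval_self_charpoly (A' ^ N' - 1)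
    rw [hchar0] at h7
    simpa using h7
  have h4 : f.mapMatrix ((A ^ N' - 1) ^ n) = 0 := by
    rw [map_pow, map_sub, map_pow, map_one]
    exact h3
  ext i j
  have h5 : f (((A ^ N' - 1) ^ n) i j) = 0 := congrFun (congrFun h4 i) j
  exact hf (by rw [h5, Matrix.zero_apply, map_zero])

end Pool.Agent.H225R3.Marg
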