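import Pool.Agent.H225R3.Marg6

/-!
# Choice of parameters
-/

set_option autoImplicit false

namespace Pool.Agent.H225R3.Marg

open Polynomial Finset NumberField

theorem pigeon' (K D : ℕ) (hD1 : 1 ≤ D) (h : (D ^ (K + 1) + 1) ^ K < 2 ^ D) :
    ∃ S T : Finset ℕ, S ≠ T ∧ S ⊆ range D ∧ T ⊆ range D ∧
      ∀ i < K, (sp S).coeff i = (sp T).coeff i := by
  classical
  have hval : ∀ S : Finset ℕ, S ⊆ range D → ∀ i, i < K →
      ∑ j ∈ S, j.choose i < D ^ (K + 1) + 1 := by
    intro S hS i hi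
    have h1 : ∀ j ∈ S, j.choose i ≤ D ^ K := by
      intro j hj
      have hj' : j ≤ D := (Finset.mem_range.mp (hS hj)).le
      calc j.choose i ≤ j ^ i := Nat.choose_le_pow _ _
        _ ≤ D ^ i := Nat.pow_le_pow_left hj' _
        _ ≤ D ^ K := Nat.pow_le_pow_right hD1 hi.le
    have h2 : ∑ j ∈ S, j.choose i ≤ S.card * D ^ K := by
      simpa using Finset.sum_le_card_nsmul S _ _ h1
    have h3 : S.card ≤ D := by simpa using Finset.card_le_card hS
    have h4 : S.card * D ^ K ≤ D * D ^ K := Nat.mul_le_mul_right _ h3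
    have h5 : D * D ^ K = D ^ (K + 1) := by ring
    omega
  let f : (range D).powerset → (Fin K → Fin (D ^ (K + 1) + 1)) := fun S i =>
    ⟨∑ j ∈ S.1, j.choose i, hval S.1 (Finset.mem_powerset.mp S.2) i i.2⟩
  have hcard : Fintype.card (Fin K → Fin (D ^ (K + 1) + 1)) <
      Fintype.card (range D).powerset := by
    rw [Fintype.card_fun, Fintype.card_fin, Fintype.card_fin, Fintype.card_coe, card_powerset,
      card_range]
    exact h
  obtain ⟨S, T, hne, hfe⟩ := Fintype.exists_ne_map_eq_of_card_lt f hcard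
  refine ⟨S.1, T.1, fun h => hne (Subtype.ext h), Finset.mem_powerset.mp S.2,
    Finset.mem_powerset.mp T.2, ?_⟩
  intro i hi
  rw [sp_coeff, sp_coeff]
  have := congrArg (fun z => (z ⟨i, hi⟩ : Fin _).1) hfe
  simp only [f] at this
  exact_mod_cast this

theorem params (s : ℕ) (hs : 0 < s) (η : ℝ) (hη : 0 < η) (hη1 : η ≤ 1 / 2) :
    ∃ d0 : ℕ, ∀ d : ℕ, d0 ≤ d → ∃ (K D : ℕ) (S T : Finset ℕ), 0 < D ∧ S ≠ T ∧ S ⊆ range D ∧
      T ⊆ range D ∧ (∀ i < K, (sp S).coeff i = (sp T).coeff i) ∧ D * s ≤ d ∧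
      (4 * (D : ℝ)) ^ d < Real.exp ((d : ℝ) ^ (1 / 2 + η)) ^ K := by
  have hs' : (1 : ℝ) ≤ s := by exact_mod_cast hs
  have hlog2 : 0 < Real.log 2 := Real.log_pos (by norm_num)
  set c : ℝ := Real.log 2 / (32 * s) with hc
  have hcpos : 0 < c := by positivity
  have hη2 : 0 < η / 2 := by linarith
  have e1 : ∀ᶠ x : ℝ in Filter.atTop, ‖Real.log x‖ ≤ c * ‖x ^ (η / 2)‖ :=
    (isLittleO_log_rpow_atTop hη2).bound hcpos
  have e2 : ∀ᶠ x : ℝ in Filter.atTop, 4 < x ^ (η / 2) :=
    (tendsto_rpow_atTop hη2).eventually_gt_atTop 4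
  have e3 : ∀ᶠ x : ℝ in Filter.atTop, (4 * s : ℝ) ≤ x := Filter.eventually_ge_atTop _
  have e := (e1.and (e2.and e3))
  have e' := (tendsto_natCast_atTop_atTop (R := ℝ)).eventually e
  obtain ⟨d0, hd0⟩ := Filter.eventually_atTop.mp e'
  refine ⟨d0, fun d hd => ?_⟩
  obtain ⟨h1, h2, h3⟩ := hd0 d hd
  set x : ℝ := (d : ℝ) with hx
  have hx4 : (4 : ℝ) ≤ x := by nlinarith
  have hx1 : (1 : ℝ) ≤ x := by linarith
  have hx0 : (0 : ℝ) < x := by linarith
  have hlogx : 0 ≤ Real.log x := Real.log_nonneg hx1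
  have hxp : 0 < x ^ (η / 2) := Real.rpow_pos_of_pos hx0 _
  rw [Real.norm_of_nonneg hlogx, Real.norm_of_nonneg hxp.le] at h1
  have hc2 : c ≤ 1 / 32 := by
    rw [hc, div_le_iff₀ (by positivity)]
    have := Real.log_two_lt_d9
    nlinarith
  set w : ℝ := x ^ ((1 - η) / 2) with hw
  have hw1 : 1 ≤ w := Real.one_le_rpow hx1 (by linarith)
  set K : ℕ := ⌈w⌉₊ with hK
  have hKw : w ≤ K := Nat.le_ceil w
  have hK2 : (K : ℝ) ≤ 2 * w := by
    have := (Nat.ceil_lt_add_one (by linarith : (0 : ℝ) ≤ w)).le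
    linarith
  set D : ℕ := d / s with hD
  have hDs : D * s ≤ d := Nat.div_mul_le_self d s
  have hDx : (D : ℝ) ≤ x := by
    have : D ≤ d := Nat.div_le_self d s
    rw [hx]
    exact Nat.cast_le.mpr this
  have hDlow : x / (2 * s) ≤ D := by
    have h4 : d < (D + 1) * s := by
      rw [mul_comm]
      exact Nat.lt_mul_div_succ d hs
    have h5 : x < ((D : ℝ) + 1) * s := by
      rw [hx]
      exact_mod_cast h4
    rw [div_le_iff₀ (by positivity)]
    nlinarith
  have hD2 : (2 : ℝ) ≤ D := by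
    refine le_trans ?_ hDlow
    rw [le_div_iff₀ (by positivity)]
    linarith
  have hD2' : 2 ≤ D := by exact_mod_cast hD2
  have hDpos : (0 : ℝ) < D := by linarith
  have hlogD : Real.log D ≤ c * x ^ (η / 2) := (Real.log_le_log hDpos hDx).trans h1
  have hlogD0 : 0 ≤ Real.log D := Real.log_nonneg (by linarith)
  -- the pigeonhole condition
  have hpig : (D ^ (K + 1) + 1) ^ K < 2 ^ D := by
    have a1 : D ^ (K + 1) + 1 ≤ D ^ (K + 2) := by
      have : D ^ (K + 2) = D * D ^ (K + 1) := by ring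
      have hpos : 1 ≤ D ^ (K + 1) := Nat.one_le_pow _ _ (by omega)
      rw [this]
      nlinarith
    have a2 : (D ^ (K + 1) + 1) ^ K ≤ D ^ ((K + 2) * K) := by
      rw [pow_mul]
      exact Nat.pow_le_pow_left a1 K
    refine lt_of_le_of_lt a2 ?_
    have a3 : ((D : ℝ)) ^ ((K + 2) * K) < 2 ^ D := by
      rw [← Real.log_lt_log_iff (by positivity) (by positivity), Real.log_pow, Real.log_pow]
      push_cast
      have b1 : ((K : ℝ) + 2) * K ≤ 8 * (w * w) := by nlinarith
      have b2 : w * w = x ^ (1 - η) := by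
        rw [hw, ← Real.rpow_add hx0]
        congr 1
        ring
      have b3 : ((K : ℝ) + 2) * K * Real.log D ≤ 8 * x ^ (1 - η) * (c * x ^ (η / 2)) := by
        rw [← b2]
        exact mul_le_mul b1 hlogD hlogD0 (by positivity)
      have b4 : x ^ (1 - η) * x ^ (η / 2) ≤ x := by
        rw [← Real.rpow_add hx0]
        calc x ^ (1 - η + η / 2) ≤ x ^ (1 : ℝ) :=
              Real.rpow_le_rpow_of_exponent_le hx1 (by linarith)
          _ = x := Real.rpow_one x
      have b5 : 8 * x ^ (1 - η) * (c * x ^ (η / 2)) ≤ 8 * c * x := by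
        have : 8 * x ^ (1 - η) * (c * x ^ (η / 2)) = 8 * c * (x ^ (1 - η) * x ^ (η / 2)) := by ring
        rw [this]
        exact mul_le_mul_of_nonneg_left b4 (by positivity)
      have b6 : 8 * c * x = (x / (2 * s)) * (Real.log 2 / 2) := by
        rw [hc]
        field_simp
        ring
      have b7 : (x / (2 * s)) * (Real.log 2 / 2) ≤ D * (Real.log 2 / 2) :=
        mul_le_mul_of_nonneg_right hDlow (by positivity)
      have b8 : (D : ℝ) * (Real.log 2 / 2) < D * Real.log 2 := by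
        refine mul_lt_mul_of_pos_left ?_ hDpos
        linarith
      linarith
    exact_mod_cast a3
  obtain ⟨S, T, hne, hS, hT, hco⟩ := pigeon' K D (by omega) hpig
  refine ⟨K, D, S, T, by omega, hne, hS, hT, hco, hDs, ?_⟩
  rw [← Real.exp_nat_mul, ← Real.log_lt_iff_lt_exp (by positivity), Real.log_pow]
  have c1 : Real.log (4 * D) ≤ Real.log 4 + Real.log x := by
    rw [Real.log_mul (by norm_num) hDpos.ne']
    linarith [Real.log_le_log hDpos hDx]
  have c2 : Real.log 4 < 2 := by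
    have : Real.log 4 = 2 * Real.log 2 := by
      rw [show (4 : ℝ) = 2 ^ 2 by norm_num, Real.log_pow]
      norm_num
    rw [this]
    have := Real.log_two_lt_d9
    linarith
  have c3 : Real.log (4 * D) < x ^ (η / 2) := by
    have : c * x ^ (η / 2) ≤ 1 / 32 * x ^ (η / 2) := mul_le_mul_of_nonneg_right hc2 hxp.le
    linarith
  have c4 : w * x ^ (1 / 2 + η) = x * x ^ (η / 2) := by
    rw [hw, ← Real.rpow_add hx0]
    nth_rewrite 2 [← Real.rpow_one x]
    rw [← Real.rpow_add hx0]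
    congr 1
    ring
  calc (d : ℝ) * Real.log (4 * D) < x * x ^ (η / 2) := mul_lt_mul_of_pos_left c3 hx0
    _ = w * x ^ (1 / 2 + η) := c4.symm
    _ ≤ K * x ^ (1 / 2 + η) := mul_le_mul_of_nonneg_right hKw (by positivity)

end Pool.Agent.H225R3.Marg
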