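import Pool.Agent.H225R3.Marg4
import Pool.Agent.H225R3.Marg7

/-!
# Subexponential levels
-/

set_option autoImplicit false

namespace Pool.Agent.H225R3.Marg

open Polynomial Finset NumberField

theorem eig_pow' {n : ℕ} (A : Matrix (Fin n) (Fin n) ℂ) (e : ℕ) (he : 0 < e) (β : ℂ)
    (h : (A ^ e).charpoly.IsRoot β) : ∃ l : ℂ, A.charpoly.IsRoot l ∧ β = l ^ e := by
  rw [← Matrix.mem_spectrum_iff_isRoot_charpoly, spectrum.map_pow_of_pos A he] at h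
  obtain ⟨l, hl, hl2⟩ := h
  exact ⟨l, Matrix.mem_spectrum_iff_isRoot_charpoly.mp hl, hl2.symm⟩

theorem gapS (η : ℝ) (hη : 0 < η) (hη1 : η ≤ 1 / 2) (s e : ℕ) (hs : 0 < s) (he : 0 < e) :
    ∃ ε : ℝ, 0 < ε ∧
    ∀ (k : Type) [Field k] [NumberField k] (n : ℕ) (S : Finset (k →+* ℂ)) (I : Ideal (𝓞 k))
      (A : Matrix (Fin n) (Fin n) (𝓞 k)), S.Nonempty → S.card ≤ s →
      Real.exp ((Module.finrank ℚ k : ℝ) ^ (1 / 2 + η)) ≤ (Ideal.absNorm I : ℝ) →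
      (∀ i j, (A ^ e - 1) i j ∈ I) → IsUnit A →
      (∀ σ : k →+* ℂ, σ ∉ S → ∀ l : ℂ, ((emb σ).mapMatrix A).charpoly.IsRoot l → ‖l‖ ≤ 1) →
      (∀ N : ℕ, 0 < N → ¬ IsNilpotent (A ^ N - 1)) →
      ∃ σ ∈ S, ∃ l : ℂ, ((emb σ).mapMatrix A).charpoly.IsRoot l ∧ ε ≤ ‖l - 1‖ := by
  obtain ⟨d0, hd0⟩ := params s hs η hη hη1
  set d1 : ℕ := max d0 1 with hd1
  have hd1pos : (1 : ℝ) ≤ d1 := by exact_mod_cast le_max_right d0 1
  set C : ℝ := Real.exp ((d1 : ℝ) ^ (η - 1 / 2)) with hC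
  have hC1 : 1 < C := Real.one_lt_exp_iff.mpr (Real.rpow_pos_of_pos (by linarith) _)
  obtain ⟨ε1, hε1, hgap⟩ := gapE C hC1 e he
  obtain ⟨δ, hδ, hnear⟩ := pow_near e 1 one_pos
  refine ⟨min ε1 δ, lt_min hε1 hδ, ?_⟩
  intro k _ _ n S I A hS hSs hI hA hunit hout hnil
  have hdpos : 0 < Module.finrank ℚ k := Module.finrank_pos
  by_cases hd : d0 ≤ Module.finrank ℚ k
  · by_contra hcon
    push Not at hcon
    obtain ⟨K, D, S1, T1, hD0, hne, hS1, hT1, hco, hDs, hlt⟩ := hd0 _ hd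
    have key := main_ineq S I (A ^ e) (hunit.pow e) hA
      (fun σ hσ l hl => by
        rw [map_pow] at hl
        obtain ⟨l', hl', rfl⟩ := eig_pow' _ e he l hl
        rw [norm_pow]
        exact pow_le_one₀ (norm_nonneg _) (hout σ hσ l' hl'))
      (fun σ hσ l hl => by
        rw [map_pow] at hl
        obtain ⟨l', hl', rfl⟩ := eig_pow' _ e he l hl
        have h1 := hnear l' ((hcon σ hσ l' hl').trans_le (min_le_right _ _))
        have h2 : ‖l' ^ e‖ ≤ ‖l' ^ e - 1‖ + ‖(1 : ℂ)‖ := by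
          have := norm_add_le (l' ^ e - 1) 1
          rwa [sub_add_cancel] at this
        rw [norm_one] at h2
        linarith)
      (fun N hN => by
        rw [← pow_mul]
        exact hnil (e * N) (Nat.mul_pos he hN))
      K D hD0 S1 T1 hne hS1 hT1 hco
      ((Nat.mul_le_mul_left D hSs).trans hDs)
    have h3 := pow_le_pow_left₀ (Real.exp_pos _).le hI K
    exact absurd (h3.trans key) (not_le.mpr hlt)
  · push Not at hd
    have hle : (Module.finrank ℚ k : ℝ) ≤ d1 := by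
      have : Module.finrank ℚ k ≤ d1 := hd.le.trans (le_max_left _ _)
      exact_mod_cast this
    have hdp : (0 : ℝ) < Module.finrank ℚ k := by exact_mod_cast hdpos
    have h1 : C ^ (Fintype.card (k →+* ℂ) - S.card) ≤ (Ideal.absNorm I : ℝ) := by
      refine le_trans ?_ hI
      calc C ^ (Fintype.card (k →+* ℂ) - S.card) ≤ C ^ (Fintype.card (k →+* ℂ)) :=
            pow_le_pow_right₀ hC1.le (Nat.sub_le _ _)
        _ = Real.exp ((Module.finrank ℚ k : ℝ) * (d1 : ℝ) ^ (η - 1 / 2)) := by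
            rw [NumberField.Embeddings.card, hC, ← Real.exp_nat_mul]
        _ ≤ _ := by
            rw [Real.exp_le_exp]
            have h2 : (d1 : ℝ) ^ (η - 1 / 2) ≤ (Module.finrank ℚ k : ℝ) ^ (η - 1 / 2) :=
              Real.rpow_le_rpow_of_nonpos hdp hle (by linarith)
            calc (Module.finrank ℚ k : ℝ) * (d1 : ℝ) ^ (η - 1 / 2)
                ≤ (Module.finrank ℚ k : ℝ) * (Module.finrank ℚ k : ℝ) ^ (η - 1 / 2) :=
                  mul_le_mul_of_nonneg_left h2 hdp.le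
              _ = (Module.finrank ℚ k : ℝ) ^ (1 / 2 + η) := by
                  nth_rewrite 1 [← Real.rpow_one (Module.finrank ℚ k : ℝ)]
                  rw [← Real.rpow_add hdp]
                  congr 1
                  ring
    obtain ⟨σ, hσ, l, hl, hle'⟩ := hgap k n S I A hS h1 hA hout (by
      have := hnil 1 one_pos
      rwa [pow_one] at this)
    exact ⟨σ, hσ, l, hl, (min_le_left _ _).trans hle'⟩

theorem gapT (η : ℝ) (hη : 0 < η) (hη1 : η ≤ 1 / 2) (s Q n : ℕ) (hs : 0 < s) :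
    ∃ ε : ℝ, 0 < ε ∧
    ∀ (k : Type) [Field k] [NumberField k] (S : Finset (k →+* ℂ)) (P : Finset (Ideal (𝓞 k)))
      (A : Matrix (Fin n) (Fin n) (𝓞 k)), S.Nonempty → S.card ≤ s →
      (∀ I ∈ P, I.IsPrime ∧ I ≠ ⊥ ∧ Ideal.absNorm I ≤ Q) →
      Real.exp ((Module.finrank ℚ k : ℝ) ^ (1 / 2 + η)) ≤ ∏ I ∈ P, (Ideal.absNorm I : ℝ) →
      IsUnit A →
      (∀ σ : k →+* ℂ, σ ∉ S → ∀ l : ℂ, ((emb σ).mapMatrix A).charpoly.IsRoot l → ‖l‖ ≤ 1) →
      (∀ N : ℕ, 0 < N → ¬ IsNilpotent (A ^ N - 1)) →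
      ∃ σ ∈ S, ∃ l : ℂ, ((emb σ).mapMatrix A).charpoly.IsRoot l ∧ ε ≤ ‖l - 1‖ := by
  obtain ⟨ε, hε, h⟩ := gapS η hη hη1 s (Q ^ (n * n)).factorial hs (Nat.factorial_pos _)
  refine ⟨ε, hε, ?_⟩
  intro k _ _ S P A hS hSs hP hprod hA hcomp hnil
  refine h k n S (∏ I ∈ P, I) A hS hSs ?_ ?_ hA hcomp hnil
  · rw [map_prod]
    exact_mod_cast hprod
  · intro i j
    rw [← Ideal.span_singleton_le_iff_mem, ← Ideal.dvd_iff_le]
    refine Finset.prod_dvd_of_coprime ?_ ?_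
    · intro I hI J hJ hne
      obtain ⟨hI1, hI2, _⟩ := hP I hI
      obtain ⟨hJ1, hJ2, _⟩ := hP J hJ
      have hIm : I.IsMaximal := hI1.isMaximal hI2
      have hJm : J.IsMaximal := hJ1.isMaximal hJ2
      exact Ideal.isCoprime_iff_sup_eq.mpr (hIm.coprime_of_ne hJm hne)
    · intro I hI
      obtain ⟨hI1, hI2, hI3⟩ := hP I hI
      rw [Ideal.dvd_iff_le, Ideal.span_singleton_le_iff_mem]
      have : Finite (𝓞 k ⧸ I) := Ideal.finiteQuotientOfFreeOfNeBot I hI2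
      refine pow_sub_one_mem I Q n ?_ A hA i j
      rw [Ideal.absNorm_apply, Submodule.cardQuot_apply] at hI3
      exact hI3

theorem final_step' {G : Type*} [Group G] {M : ℕ} {ρ : G →* Matrix (Fin M) (Fin M) ℂ}
    {Γ : Subgroup G} {k : Type} [Field k] [NumberField k] {n : ℕ} {S : Finset (k →+* ℂ)}
    (R : Realization ρ Γ k n S) (htf : ∀ γ ∈ Γ, ∀ N : ℕ, 0 < N → γ ^ N = 1 → γ = 1)
    (ε : ℝ) (hε : 0 < ε) (g u : G)
    (hu : ∀ i j, ‖(ρ u - 1) i j‖ < ε / (M + 1)) (hΓ : g * u * g⁻¹ ∈ Γ)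
    (hgap : (∀ N : ℕ, 0 < N → ¬ IsNilpotent (R.r ⟨g * u * g⁻¹, hΓ⟩ ^ N - 1)) →
      ∃ σ ∈ S, ∃ l : ℂ,
      ((emb σ).mapMatrix (R.r ⟨g * u * g⁻¹, hΓ⟩)).charpoly.IsRoot l ∧ ε ≤ ‖l - 1‖) :
    g * u * g⁻¹ = 1 := by
  by_contra hne
  have hnil : ∀ N : ℕ, 0 < N → ¬ IsNilpotent (R.r ⟨g * u * g⁻¹, hΓ⟩ ^ N - 1) := by
    intro N hN h
    rw [← map_pow] at h
    have h1 := R.unipotent _ h
    have h2 : (g * u * g⁻¹) ^ N = 1 := congrArg Subtype.val h1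
    exact hne (htf _ hΓ N hN h2)
  exact hne (final_step R ε hε g u hu hΓ fun _ => hgap hnil)

theorem uniform_level (η : ℝ) (hη : 0 < η) (hη1 : η ≤ 1 / 2) (s e : ℕ) (he : 0 < e)
    {G : Type*} [Group G]
    [TopologicalSpace G] {M : ℕ} (ρ : G →* Matrix (Fin M) (Fin M) ℂ) (hρ : Continuous ρ) :
    UniformlyDiscrete (LevelFamily η s e ρ) := by
  obtain ⟨ε, hε, h⟩ := gapS η hη hη1 (s + 1) e (Nat.succ_pos s) he
  refine ⟨_, nhd ρ hρ ε hε, ?_⟩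
  rintro Γ ⟨htf, k, _, _, n, S, R, I, hSs, hI, hcong⟩ g u hu hΓ
  refine final_step' R htf ε hε g u hu hΓ fun hnil => ?_
  have hunit : IsUnit (R.r ⟨g * u * g⁻¹, hΓ⟩) :=
    (Group.isUnit (⟨g * u * g⁻¹, hΓ⟩ : Γ)).map R.r
  exact h k n S I _ R.nonempty (hSs.trans (Nat.le_succ s)) hI (hcong _) hunit
    (fun σ hσ l hl => R.comp' _ σ hσ l hl) hnil

theorem uniform_primes' (η : ℝ) (hη : 0 < η) (hη1 : η ≤ 1 / 2) (s Q n : ℕ)
    {G : Type*} [Group G]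
    [TopologicalSpace G] {M : ℕ} (ρ : G →* Matrix (Fin M) (Fin M) ℂ) (hρ : Continuous ρ) :
    UniformlyDiscrete (PrimesFamily η s Q n ρ) := by
  obtain ⟨ε, hε, h⟩ := gapT η hη hη1 (s + 1) Q n (Nat.succ_pos s)
  refine ⟨_, nhd ρ hρ ε hε, ?_⟩
  rintro Γ ⟨htf, k, _, _, S, R, P, hSs, hP, hprod⟩ g u hu hΓ
  refine final_step' R htf ε hε g u hu hΓ fun hnil => ?_
  have hunit : IsUnit (R.r ⟨g * u * g⁻¹, hΓ⟩) :=
    (Group.isUnit (⟨g * u * g⁻¹, hΓ⟩ : Γ)).map R.r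
  exact h k S P _ R.nonempty (hSs.trans (Nat.le_succ s)) hP hprod hunit
    (fun σ hσ l hl => R.comp' _ σ hσ l hl) hnil

end Pool.Agent.H225R3.Marg
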