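import Pool.Agent.H225R3.Marg8

/-!
# Growing exponents
-/

set_option autoImplicit false

namespace Pool.Agent.H225R3.Marg

open Polynomial Finset NumberField

theorem main_ineq' {k : Type} [Field k] [NumberField k] {n : ℕ} (S : Finset (k →+* ℂ))
    (I : Ideal (𝓞 k)) (A : Matrix (Fin n) (Fin n) (𝓞 k)) (hA : IsUnit A)
    (hcong : ∀ i j, (A - 1) i j ∈ I)
    (hout : ∀ σ : k →+* ℂ, σ ∉ S → ∀ l : ℂ, ((emb σ).mapMatrix A).charpoly.IsRoot l → ‖l‖ ≤ 1)
    (R : ℝ) (hR : 1 ≤ R)
    (hin : ∀ σ ∈ S, ∀ l : ℂ, ((emb σ).mapMatrix A).charpoly.IsRoot l → ‖l‖ ≤ R)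
    (hnil : ∀ N : ℕ, 0 < N → ¬ IsNilpotent (A ^ N - 1))
    (K D : ℕ) (hD0 : 0 < D) (S1 T1 : Finset ℕ) (hne : S1 ≠ T1) (hS1 : S1 ⊆ range D)
    (hT1 : T1 ⊆ range D) (hco : ∀ i < K, (sp S1).coeff i = (sp T1).coeff i)
    (hD : D * S.card ≤ Module.finrank ℚ k) :
    (Ideal.absNorm I : ℝ) ^ K ≤ (2 * D * R) ^ (Module.finrank ℚ k) := by
  classical
  -- a root which is not a root of unity
  set f : 𝓞 k →+* AlgebraicClosure k :=
    (algebraMap k (AlgebraicClosure k)).comp (algebraMap (𝓞 k) k) with hf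
  have hfinj : Function.Injective f :=
    (algebraMap k (AlgebraicClosure k)).injective.comp
      (FaithfulSMul.algebraMap_injective (𝓞 k) k)
  obtain ⟨l, hl, hlN⟩ : ∃ l, (A.charpoly.map f).IsRoot l ∧ ∀ N : ℕ, 0 < N → l ^ N ≠ 1 := by
    by_contra hcon
    push Not at hcon
    obtain ⟨N, hN, h⟩ := nilp_of_roots f hfinj A hcon
    exact hnil N hN h
  have hspec : l ∈ spectrum (AlgebraicClosure k) (f.mapMatrix A) := by
    rw [Matrix.mem_spectrum_iff_isRoot_charpoly]
    have : (f.mapMatrix A).charpoly = A.charpoly.map f := by rw [← Matrix.charpoly_map]; rfl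
    rw [this]
    exact hl
  have hl0 : l ≠ 0 := by
    rintro rfl
    exact (spectrum.zero_notMem_iff _).mpr (hA.map f.mapMatrix) hspec
  have hl1 : ((A - 1).charpoly.map f).IsRoot (l - 1) := by
    have h1 : f.mapMatrix (A - 1) = aeval (f.mapMatrix A) (X - 1 : (AlgebraicClosure k)[X]) := by
      rw [map_sub, map_one]
      simp
    have h2 := spectrum.subset_polynomial_aeval (f.mapMatrix A)
      (X - 1 : (AlgebraicClosure k)[X]) ⟨l, hspec, rfl⟩
    rw [← h1, Matrix.mem_spectrum_iff_isRoot_charpoly] at h2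
    have h3 : (f.mapMatrix (A - 1)).charpoly = (A - 1).charpoly.map f := by
      rw [← Matrix.charpoly_map]; rfl
    rw [h3] at h2
    simpa using h2
  -- the field
  have hlint : IsIntegral k l := Algebra.IsIntegral.isIntegral l
  let L := IntermediateField.adjoin k {l}
  haveI : FiniteDimensional k L := IntermediateField.adjoin.finiteDimensional hlint
  haveI : CharZero L := charZero_of_injective_algebraMap (algebraMap k L).injective
  haveI : NumberField L := NumberField.of_module_finite k L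
  let x : L := ⟨l, IntermediateField.mem_adjoin_simple_self k l⟩
  have hxl : algebraMap L (AlgebraicClosure k) x = l := rfl
  set g : 𝓞 k →+* L := (algebraMap k L).comp (algebraMap (𝓞 k) k) with hg
  have hgf : (algebraMap L (AlgebraicClosure k)).comp g = f := by
    rw [hg, hf, ← RingHom.comp_assoc]
    rfl
  have hxroot : ∀ (p : (𝓞 k)[X]) (w : L), (p.map f).IsRoot (algebraMap L (AlgebraicClosure k) w) →
      eval₂ g w p = 0 := by
    intro p w hp
    apply (algebraMap L (AlgebraicClosure k)).injective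
    rw [map_zero, hom_eval₂, hgf]
    rw [IsRoot, eval_map] at hp
    exact hp
  have hx0 : eval₂ g x A.charpoly = 0 := hxroot _ x (by rw [hxl]; exact hl)
  have hy0 : eval₂ g (x - 1) (A - 1).charpoly = 0 :=
    hxroot _ (x - 1) (by rw [map_sub, hxl, map_one]; exact hl1)
  have hxint : IsIntegral ℤ x := by
    have h1 : IsIntegral (𝓞 k) x := by
      refine ⟨A.charpoly, A.charpoly_monic, ?_⟩
      have : algebraMap (𝓞 k) L = g := rfl
      rw [this]
      exact hx0
    haveI : IsScalarTower ℤ (𝓞 k) L := IsScalarTower.of_algebraMap_eq' (RingHom.ext_int _ _)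
    exact isIntegral_trans x h1
  have hxne : x ≠ 0 := by
    intro h
    apply hl0
    rw [← hxl, h, map_zero]
  -- norms of the conjugates
  have hτroot : ∀ τ : L →+* ℂ,
      ((emb (τ.comp (algebraMap k L))).mapMatrix A).charpoly.IsRoot (τ x) := by
    intro τ
    have h1 : ((emb (τ.comp (algebraMap k L))).mapMatrix A).charpoly =
        A.charpoly.map (emb (τ.comp (algebraMap k L))) := by rw [← Matrix.charpoly_map]; rfl
    rw [h1, IsRoot, eval_map]
    have h2 : emb (τ.comp (algebraMap k L)) = τ.comp g := rfl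
    rw [h2, ← hom_eval₂, hx0, map_zero]
  have hτout : ∀ τ : L →+* ℂ, τ.comp (algebraMap k L) ∉ S → ‖τ x‖ ≤ 1 :=
    fun τ hτ => hout _ hτ _ (hτroot τ)
  have hτin : ∀ τ : L →+* ℂ, ‖τ x‖ ≤ R := by
    intro τ
    by_cases h : τ.comp (algebraMap k L) ∈ S
    · exact hin _ h _ (hτroot τ)
    · exact (hτout τ h).trans hR
  obtain ⟨τ0, hτ0⟩ : ∃ τ0 : L →+* ℂ, 1 < ‖τ0 x‖ := by
    by_contra hcon
    push Not at hcon
    obtain ⟨N, hN, h⟩ := NumberField.Embeddings.pow_eq_one_of_norm_le_one L ℂ hxne hxint hcon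
    apply hlN N hN
    rw [← hxl, ← map_pow, h, map_one]
  have hdeg := deg_bound S x τ0 (fun τ hτ => by
    by_contra hS
    have := hτout τ hS
    rw [hτ] at this
    linarith)
  have hScard : 0 < S.card := by
    rcases Nat.eq_zero_or_pos S.card with h0 | h0
    · rw [h0, mul_zero] at hdeg
      have := Module.finrank_pos (R := ℚ) (M := k)
      omega
    · exact h0
  -- the value is not zero
  set F : ℤ[X] := sp S1 - sp T1 with hF
  have hFx : aeval (x - 1) F = ∑ j ∈ S1, x ^ j - ∑ j ∈ T1, x ^ j := by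
    rw [hF, map_sub, sp, sp]
    simp only [map_sum, map_pow, map_add, aeval_X, map_one, sub_add_cancel]
  have hFne : aeval (x - 1) F ≠ 0 := by
    intro h0
    rw [hFx] at h0
    have h1 : aeval x (gp S1 - gp T1) = 0 := by
      rw [map_sub, gp, gp]
      simp only [map_sum, map_pow, aeval_X]
      exact h0
    have h2 : (gp S1 - gp T1).map (algebraMap ℤ ℚ) ≠ 0 := by
      rw [Ne, Polynomial.map_eq_zero_iff (by exact Int.cast_injective)]
      exact gp_sub_ne hne
    have h3 : aeval x ((gp S1 - gp T1).map (algebraMap ℤ ℚ)) = 0 := by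
      rw [aeval_map_algebraMap]
      exact h1
    have h4 := minpoly.degree_le_of_ne_zero ℚ x h2 h3
    have h5 := natDegree_le_natDegree h4
    have h6 : ((gp S1 - gp T1).map (algebraMap ℤ ℚ)).natDegree < D := by
      refine lt_of_le_of_lt natDegree_map_le ?_
      refine lt_of_le_of_lt (natDegree_sub_le _ _) ?_
      exact max_lt (gp_deg hD0 hS1) (gp_deg hD0 hT1)
    have h7 : (minpoly ℚ x).natDegree * S.card < D * S.card :=
      Nat.mul_lt_mul_of_pos_right (lt_of_le_of_lt h5 h6) hScard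
    omega
  -- integral version
  let a : 𝓞 L := ⟨x, hxint⟩
  set y : 𝓞 L := a - 1 with hy
  have hyx : ((y : 𝓞 L) : L) = x - 1 := by
    rw [hy]
    rfl
  have hyI : y ∈ I.map (algebraMap (𝓞 k) (𝓞 L)) := by
    rcases Nat.eq_zero_or_pos n with h0 | h0
    · exfalso
      subst h0
      have : A.charpoly = 1 := by
        rw [Matrix.charpoly, Matrix.det_isEmpty]
      rw [this] at hl
      simp at hl
    refine mem_map_of_root I (A - 1).charpoly (A - 1).charpoly_monic n
      (by rw [Matrix.charpoly_natDegree_eq_dim, Fintype.card_fin]) h0 (fun i => ?_) y ?_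
    · have := Matrix.coeff_charpoly_mem_ideal_pow hcong i
      rwa [Fintype.card_fin] at this
    · apply FaithfulSMul.algebraMap_injective (𝓞 L) L
      rw [map_zero, ← hy0, aeval_def, hom_eval₂]
      rfl
  have hdvd : (X : ℤ[X]) ^ K ∣ F := by
    rw [X_pow_dvd_iff]
    intro d hd
    rw [hF, coeff_sub, hco d hd, sub_self]
  obtain ⟨H, hH⟩ := hdvd
  set z : 𝓞 L := aeval y F with hz
  have hzx : ((z : 𝓞 L) : L) = aeval (x - 1) F := by
    rw [hz, ← hyx]
    exact (aeval_algebraMap_apply L y F).symm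
  have hz0 : z ≠ 0 := by
    intro h
    apply hFne
    rw [← hzx, h]
    rfl
  have hzfac : z = y ^ K * aeval y H := by
    rw [hz, hH, map_mul, map_pow, aeval_X]
  have hHy0 : aeval y H ≠ 0 := by
    intro h
    rw [h, mul_zero] at hzfac
    exact hz0 hzfac
  have hyK0 : y ^ K ≠ 0 := by
    intro h
    rw [h, zero_mul] at hzfac
    exact hz0 hzfac
  set m := Module.finrank k L with hm
  have hmpos : 0 < m := Module.finrank_pos
  have hlow : (Ideal.absNorm I ^ K) ^ m ≤ (Algebra.norm ℤ z).natAbs := by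
    have h1 : 1 ≤ (Algebra.norm ℤ (aeval y H)).natAbs :=
      Int.natAbs_pos.mpr (Algebra.norm_ne_zero_iff.mpr hHy0)
    rw [hzfac, map_mul, map_pow, Int.natAbs_mul, Int.natAbs_pow]
    rcases Nat.eq_zero_or_pos K with h0 | h0
    · rw [h0, pow_zero, one_pow, pow_zero, one_mul]
      exact h1
    have hyne : y ≠ 0 := fun h => hyK0 (by rw [h, zero_pow h0.ne'])
    have h2 := norm_lower I y hyne hyI
    calc (Ideal.absNorm I ^ K) ^ m = (Ideal.absNorm I ^ m) ^ K := by
          rw [← pow_mul, ← pow_mul, mul_comm]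
      _ ≤ (Algebra.norm ℤ y).natAbs ^ K := Nat.pow_le_pow_left h2 _
      _ = (Algebra.norm ℤ y).natAbs ^ K * 1 := (mul_one _).symm
      _ ≤ _ := Nat.mul_le_mul_left _ h1
  set d := Module.finrank ℚ k with hd
  have hup : ((Algebra.norm ℤ z).natAbs : ℝ) ≤ ((2 * (D : ℝ) * R) ^ d) ^ m := by
    rw [norm_int_eq]
    have hb : ∀ τ : L →+* ℂ, ‖emb τ z‖ ≤
        (2 * D) * (if τ.comp (algebraMap k L) ∈ S then R ^ D else 1) := by
      intro τ
      have h1 : emb τ z = ∑ j ∈ S1, (τ x) ^ j - ∑ j ∈ T1, (τ x) ^ j := by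
        have h2 : emb τ z = τ ((z : 𝓞 L) : L) := rfl
        rw [h2, hzx, hFx, map_sub, map_sum, map_sum]
        simp only [map_pow]
      rw [h1]
      refine (norm_sub_le _ _).trans ?_
      split_ifs with hS
      · have e1 := sum_pow_bound S1 D hS1 (τ x) R hR (hτin τ)
        have e2 := sum_pow_bound T1 D hT1 (τ x) R hR (hτin τ)
        linarith
      · have e1 := sum_pow_bound S1 D hS1 (τ x) 1 le_rfl (hτout τ hS)
        have e2 := sum_pow_bound T1 D hT1 (τ x) 1 le_rfl (hτout τ hS)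
        rw [one_pow] at e1 e2
        linarith
    calc ∏ τ : L →+* ℂ, ‖emb τ z‖
        ≤ ∏ τ : L →+* ℂ, ((2 * (D : ℝ)) *
          (if τ.comp (algebraMap k L) ∈ S then R ^ D else 1)) :=
          Finset.prod_le_prod (fun _ _ => norm_nonneg _) fun τ _ => hb τ
      _ = (2 * (D : ℝ)) ^ (d * m) * (R ^ D) ^ (S.card * m) := by
          rw [Finset.prod_mul_distrib, Finset.prod_const, Finset.card_univ,
            NumberField.Embeddings.card, ← Module.finrank_mul_finrank ℚ k L,
            Finset.prod_ite, Finset.prod_const, Finset.prod_const_one, mul_one, card_over S]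
      _ ≤ (2 * (D : ℝ)) ^ (d * m) * R ^ (d * m) := by
          refine mul_le_mul_of_nonneg_left ?_ (by positivity)
          rw [← pow_mul, ← mul_assoc]
          exact pow_le_pow_right₀ hR (Nat.mul_le_mul_right _ hD)
      _ = ((2 * (D : ℝ) * R) ^ d) ^ m := by
          rw [← mul_pow, ← pow_mul]
  have hfin : ((Ideal.absNorm I : ℝ) ^ K) ^ m ≤ ((2 * (D : ℝ) * R) ^ d) ^ m := by
    refine le_trans ?_ hup
    exact_mod_cast hlow
  exact (pow_le_pow_iff_left₀ (by positivity) (by positivity) hmpos.ne').mp hfin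


theorem params' (s : ℕ) (hs : 0 < s) (b E : ℝ) (hb : 0 < b) (hE : 0 < E) (η : ℝ) (hη : 0 < η)
    (hη1 : η ≤ 1 / 2) :
    ∃ d0 : ℕ, ∀ d : ℕ, d0 ≤ d → ∃ (K D : ℕ) (S T : Finset ℕ), 0 < D ∧ S ≠ T ∧ S ⊆ range D ∧
      T ⊆ range D ∧ (∀ i < K, (sp S).coeff i = (sp T).coeff i) ∧ D * s ≤ d ∧
      ∀ e : ℕ, (e : ℝ) ≤ E * (d : ℝ) ^ (η / 4) →
      (2 * (D : ℝ) * 2 ^ e) ^ d < Real.exp (b * (d : ℝ) ^ (1 / 2 + η)) ^ K := by
  have hs' : (1 : ℝ) ≤ s := by exact_mod_cast hs
  have hlog2 : 0 < Real.log 2 := Real.log_pos (by norm_num)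
  have hlog21 : Real.log 2 < 1 := by have := Real.log_two_lt_d9; linarith
  set c : ℝ := min (Real.log 2 / (32 * s)) (b / 4) with hc
  have hcpos : 0 < c := lt_min (by positivity) (by positivity)
  have hc1 : c ≤ Real.log 2 / (32 * s) := min_le_left _ _
  have hcb : c ≤ b / 4 := min_le_right _ _
  have hη2 : 0 < η / 2 := by linarith
  have hη4 : 0 < η / 4 := by linarith
  have e1 : ∀ᶠ x : ℝ in Filter.atTop, ‖Real.log x‖ ≤ c * ‖x ^ (η / 2)‖ :=
    (isLittleO_log_rpow_atTop hη2).bound hcpos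
  have e2 : ∀ᶠ x : ℝ in Filter.atTop, 4 / b < x ^ (η / 2) :=
    (tendsto_rpow_atTop hη2).eventually_gt_atTop (4 / b)
  have e2' : ∀ᶠ x : ℝ in Filter.atTop, 4 * E / b < x ^ (η / 4) :=
    (tendsto_rpow_atTop hη4).eventually_gt_atTop (4 * E / b)
  have e3 : ∀ᶠ x : ℝ in Filter.atTop, (4 * s : ℝ) ≤ x := Filter.eventually_ge_atTop _
  have e := (e1.and (e2.and (e2'.and e3)))
  have e' := (tendsto_natCast_atTop_atTop (R := ℝ)).eventually e
  obtain ⟨d0, hd0⟩ := Filter.eventually_atTop.mp e'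
  refine ⟨d0, fun d hd => ?_⟩
  obtain ⟨h1, h2, h2', h3⟩ := hd0 d hd
  set x : ℝ := (d : ℝ) with hx
  have hx4 : (4 : ℝ) ≤ x := by nlinarith
  have hx1 : (1 : ℝ) ≤ x := by linarith
  have hx0 : (0 : ℝ) < x := by linarith
  have hlogx : 0 ≤ Real.log x := Real.log_nonneg hx1
  have hxp : 0 < x ^ (η / 2) := Real.rpow_pos_of_pos hx0 _
  have hxq : 0 < x ^ (η / 4) := Real.rpow_pos_of_pos hx0 _
  rw [Real.norm_of_nonneg hlogx, Real.norm_of_nonneg hxp.le] at h1
  set w : ℝ := x ^ ((1 - η) / 2) with hw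
  have hw1 : 1 ≤ w := Real.one_le_rpow hx1 (by linarith)
  set K : ℕ := ⌈w⌉₊ with hK
  have hKw : w ≤ K := Nat.le_ceil w
  have hK2 : (K : ℝ) ≤ 2 * w := by
    have := (Nat.ceil_lt_add_one (by linarith : (0 : ℝ) ≤ w)).le
    linarith
  set D : ℕ := d / s with hD
  have hDs : D * s ≤ d := Nat.div_mul_le_self d s
  have hDx : (D : ℝ) ≤ x := by
    have : D ≤ d := Nat.div_le_self d s
    rw [hx]
    exact Nat.cast_le.mpr this
  have hDlow : x / (2 * s) ≤ D := by
    have h4 : d < (D + 1) * s := by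
      rw [mul_comm]
      exact Nat.lt_mul_div_succ d hs
    have h5 : x < ((D : ℝ) + 1) * s := by
      rw [hx]
      exact_mod_cast h4
    rw [div_le_iff₀ (by positivity)]
    nlinarith
  have hD2 : (2 : ℝ) ≤ D := by
    refine le_trans ?_ hDlow
    rw [le_div_iff₀ (by positivity)]
    linarith
  have hD2' : 2 ≤ D := by exact_mod_cast hD2
  have hDpos : (0 : ℝ) < D := by linarith
  have hlogD : Real.log D ≤ c * x ^ (η / 2) := (Real.log_le_log hDpos hDx).trans h1
  have hlogD0 : 0 ≤ Real.log D := Real.log_nonneg (by linarith)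
  have hpig : (D ^ (K + 1) + 1) ^ K < 2 ^ D := by
    have a1 : D ^ (K + 1) + 1 ≤ D ^ (K + 2) := by
      have : D ^ (K + 2) = D * D ^ (K + 1) := by ring
      have hpos : 1 ≤ D ^ (K + 1) := Nat.one_le_pow _ _ (by omega)
      rw [this]
      nlinarith
    have a2 : (D ^ (K + 1) + 1) ^ K ≤ D ^ ((K + 2) * K) := by
      rw [pow_mul]
      exact Nat.pow_le_pow_left a1 K
    refine lt_of_le_of_lt a2 ?_
    have a3 : ((D : ℝ)) ^ ((K + 2) * K) < 2 ^ D := by
      rw [← Real.log_lt_log_iff (by positivity) (by positivity), Real.log_pow, Real.log_pow]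
      push_cast
      have b1 : ((K : ℝ) + 2) * K ≤ 8 * (w * w) := by nlinarith
      have b2 : w * w = x ^ (1 - η) := by
        rw [hw, ← Real.rpow_add hx0]
        congr 1
        ring
      have b3 : ((K : ℝ) + 2) * K * Real.log D ≤ 8 * x ^ (1 - η) * (c * x ^ (η / 2)) := by
        rw [← b2]
        exact mul_le_mul b1 hlogD hlogD0 (by positivity)
      have b4 : x ^ (1 - η) * x ^ (η / 2) ≤ x := by
        rw [← Real.rpow_add hx0]
        calc x ^ (1 - η + η / 2) ≤ x ^ (1 : ℝ) :=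
              Real.rpow_le_rpow_of_exponent_le hx1 (by linarith)
          _ = x := Real.rpow_one x
      have b5 : 8 * x ^ (1 - η) * (c * x ^ (η / 2)) ≤ 8 * (Real.log 2 / (32 * s)) * x := by
        have : 8 * x ^ (1 - η) * (c * x ^ (η / 2)) = 8 * c * (x ^ (1 - η) * x ^ (η / 2)) := by ring
        rw [this]
        exact mul_le_mul (by linarith) b4 (by positivity) (by positivity)
      have b6 : 8 * (Real.log 2 / (32 * s)) * x = (x / (2 * s)) * (Real.log 2 / 2) := by
        field_simp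
        ring
      have b7 : (x / (2 * s)) * (Real.log 2 / 2) ≤ D * (Real.log 2 / 2) :=
        mul_le_mul_of_nonneg_right hDlow (by positivity)
      have b8 : (D : ℝ) * (Real.log 2 / 2) < D * Real.log 2 := by
        refine mul_lt_mul_of_pos_left ?_ hDpos
        linarith
      linarith
    exact_mod_cast a3
  obtain ⟨S, T, hne, hS, hT, hco⟩ := pigeon' K D (by omega) hpig
  refine ⟨K, D, S, T, by omega, hne, hS, hT, hco, hDs, ?_⟩
  intro e he
  rw [← Real.exp_nat_mul, ← Real.log_lt_iff_lt_exp (by positivity), Real.log_pow]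
  have c1 : Real.log (2 * D * 2 ^ e) ≤ 1 + Real.log x + e := by
    rw [Real.log_mul (by positivity) (by positivity), Real.log_mul (by norm_num) hDpos.ne',
      Real.log_pow]
    have he0 : (0 : ℝ) ≤ e := by positivity
    nlinarith [Real.log_le_log hDpos hDx]
  have c5 : x ^ (η / 4) * x ^ (η / 4) = x ^ (η / 2) := by
    rw [← Real.rpow_add hx0]
    congr 1
    ring
  have c6 : 4 < b * x ^ (η / 2) := by
    rw [div_lt_iff₀ hb] at h2
    linarith
  have c7 : 4 * E * x ^ (η / 4) < b * x ^ (η / 2) := by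
    rw [div_lt_iff₀ hb] at h2'
    calc 4 * E * x ^ (η / 4) < (x ^ (η / 4) * b) * x ^ (η / 4) := mul_lt_mul_of_pos_right h2' hxq
      _ = b * (x ^ (η / 4) * x ^ (η / 4)) := by ring
      _ = b * x ^ (η / 2) := by rw [c5]
  have c3 : Real.log (2 * D * 2 ^ e) < b * x ^ (η / 2) := by
    have : c * x ^ (η / 2) ≤ b / 4 * x ^ (η / 2) := mul_le_mul_of_nonneg_right hcb hxp.le
    have h9 : 0 < b * x ^ (η / 2) := by positivity
    linarith
  have c4 : w * (b * x ^ (1 / 2 + η)) = x * (b * x ^ (η / 2)) := by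
    have : w * x ^ (1 / 2 + η) = x * x ^ (η / 2) := by
      rw [hw, ← Real.rpow_add hx0]
      nth_rewrite 2 [← Real.rpow_one x]
      rw [← Real.rpow_add hx0]
      congr 1
      ring
    linear_combination b * this
  calc (d : ℝ) * Real.log (2 * D * 2 ^ e) < x * (b * x ^ (η / 2)) :=
        mul_lt_mul_of_pos_left c3 hx0
    _ = w * (b * x ^ (1 / 2 + η)) := c4.symm
    _ ≤ K * (b * x ^ (1 / 2 + η)) := mul_le_mul_of_nonneg_right hKw (by positivity)

end Pool.Agent.H225R3.Marg
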