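import Pool.Agent.H225R3.QRot
import Pool.Agent.H225R3.Defs

/-! The group `PGL₁(ℍ)(ℝ) = ℍˣ/ℝˣ` (isomorphic to `SO(3)`) and its coordinate functions. -/

open Quaternion Topology

namespace Pool.Agent.H225R3.CV

lemma mem_scalars {h : HU} : h ∈ scalars ↔ ∃ r : ℝ, (h : ℍ[ℝ]) = (r : ℍ[ℝ]) := Iff.rfl

lemma mk_eq_mk {h h' : HU} : (QuotientGroup.mk h : PH) = QuotientGroup.mk h' ↔
    ∃ r : ℝ, r ≠ 0 ∧ (h' : ℍ[ℝ]) = r • (h : ℍ[ℝ]) := by
  rw [QuotientGroup.eq, mem_scalars]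
  have h0 : (h : ℍ[ℝ]) ≠ 0 := h.ne_zero
  constructor
  · rintro ⟨r, hr⟩
    have h1 : (h' : ℍ[ℝ]) = r • (h : ℍ[ℝ]) := by
      have : (h : ℍ[ℝ]) * ((h⁻¹ * h' : HU) : ℍ[ℝ]) = h * (r : ℍ[ℝ]) := by rw [hr]
      rw [← Units.val_mul, mul_inv_cancel_left] at this
      rw [this, ← Quaternion.coe_commutes, Quaternion.coe_mul_eq_smul]
    refine ⟨r, ?_, h1⟩
    rintro rfl
    exact h'.ne_zero (by rw [h1, zero_smul])
  · rintro ⟨r, hr, h1⟩
    refine ⟨r, ?_⟩
    rw [Units.val_mul, h1, mul_smul_comm, Units.inv_mul]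
    ext <;> simp

lemma coord_mk (i j : Fin 4) (h : HU) :
    coord i j (QuotientGroup.mk h) = comp h i * comp h j / normSq (h : ℍ[ℝ]) := rfl

lemma normSq_ne (h : HU) : normSq (h : ℍ[ℝ]) ≠ 0 := by
  rw [Ne, Quaternion.normSq_eq_zero]; exact h.ne_zero

lemma normSq_pos (h : HU) : 0 < normSq (h : ℍ[ℝ]) :=
  lt_of_le_of_ne (Quaternion.normSq_nonneg) (normSq_ne h).symm

lemma continuous_comp (i : Fin 4) : Continuous fun q : ℍ[ℝ] => comp q i := by
  fin_cases i
  · exact Quaternion.continuous_re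
  · exact Quaternion.continuous_imI
  · exact Quaternion.continuous_imJ
  · exact Quaternion.continuous_imK

lemma continuous_coord (i j : Fin 4) : Continuous (coord i j) := by
  refine Continuous.quotient_lift ?_ _
  refine Continuous.div ?_ ?_ fun h => normSq_ne h
  · exact ((continuous_comp i).comp Units.continuous_val).mul
      ((continuous_comp j).comp Units.continuous_val)
  · exact Quaternion.continuous_normSq.comp Units.continuous_val

/-- The Gibbs vector of a rotation, as a pure quaternion: `[h] ↦ Im h / Re h`. -/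
noncomputable def gib (y : PH) : ℍ[ℝ] :=
  mkQ 0 (coord 0 1 y / coord 0 0 y) (coord 0 2 y / coord 0 0 y) (coord 0 3 y / coord 0 0 y)

lemma gib_re (y : PH) : (gib y).re = 0 := rfl

lemma gib_mk (h : HU) : gib (QuotientGroup.mk h) = (h : ℍ[ℝ]).re⁻¹ • (h : ℍ[ℝ]).im := by
  have hn := normSq_ne h
  unfold gib
  simp only [coord_mk, comp]
  rcases eq_or_ne (h : ℍ[ℝ]).re 0 with h0 | h0
  · ext <;> simp [h0]
  · ext <;> simp <;> field_simp

/-- `1 + Im v` as a unit. -/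
noncomputable def onePlus (v : ℍ[ℝ]) : HU :=
  Units.mk0 (1 + v.im) (by
    intro h
    have := congrArg (fun q : ℍ[ℝ] => q.re) h
    simp at this)

lemma onePlus_val {v : ℍ[ℝ]} (hv : v.re = 0) : ((onePlus v : HU) : ℍ[ℝ]) = 1 + v := by
  have : v.im = v := by ext <;> simp [hv]
  simp [onePlus, this]

/-- The rotation with Gibbs vector `v`. -/
noncomputable def rot (v : ℍ[ℝ]) : PH := QuotientGroup.mk (onePlus v)

lemma gib_rot {v : ℍ[ℝ]} (hv : v.re = 0) : gib (rot v) = v := by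
  rw [rot, gib_mk, onePlus_val hv]
  ext <;> simp [hv]

lemma normSq_one_add {v : ℍ[ℝ]} (hv : v.re = 0) : normSq (1 + v) = 1 + dot v v := by
  rw [Quaternion.normSq_def', dot_self hv]; simp [hv]; ring

lemma coord_rot {v : ℍ[ℝ]} (hv : v.re = 0) : coord 0 0 (rot v) = (1 + dot v v)⁻¹ := by
  rw [rot, coord_mk, onePlus_val hv, normSq_one_add hv]
  simp [comp, hv]

lemma coord_rot_ne {v : ℍ[ℝ]} (hv : v.re = 0) : coord 0 0 (rot v) ≠ 0 := by
  rw [coord_rot hv]
  have := dot_self_nonneg hv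
  positivity

lemma rot_gib {y : PH} (hy : coord 0 0 y ≠ 0) : rot (gib y) = y := by
  obtain ⟨h, rfl⟩ := QuotientGroup.mk_surjective y
  rw [coord_mk] at hy
  have h0 : (h : ℍ[ℝ]).re ≠ 0 := by
    intro h0; apply hy; simp [comp, h0]
  rw [rot, mk_eq_mk, onePlus_val (gib_re _), gib_mk]
  refine ⟨(h : ℍ[ℝ]).re, h0, ?_⟩
  ext <;> simp <;> field_simp

lemma continuous_rot_of {X : Type*} [TopologicalSpace X] {f : X → ℍ[ℝ]} (hf : Continuous f) :
    Continuous fun x => rot (f x) := by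
  refine continuous_quot_mk.comp ?_
  rw [Units.isEmbedding_val₀.continuous_iff]
  have : (Units.val ∘ fun x => onePlus (f x)) = fun x => 1 + (f x).im := by
    ext x : 1; simp [onePlus]
  rw [this]
  have h2 : (fun x => 1 + (f x).im) = fun x => 1 + (f x - ((f x).re : ℍ[ℝ])) := by
    ext x : 1
    congr 1
    ext <;> simp
  rw [h2]
  exact continuous_const.add (hf.sub (Quaternion.continuous_coe.comp
    (Quaternion.continuous_re.comp hf)))

/-- The Gibbs vector of a conjugate. -/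
lemma gib_conj (h : HU) (y : PH) :
    gib ((QuotientGroup.mk h : PH) * y * (QuotientGroup.mk h : PH)⁻¹) = cj h (gib y) := by
  obtain ⟨q, rfl⟩ := QuotientGroup.mk_surjective y
  rw [← QuotientGroup.mk_mul, ← QuotientGroup.mk_inv, ← QuotientGroup.mk_mul, gib_mk, gib_mk]
  have h0 : (h : ℍ[ℝ]) ≠ 0 := h.ne_zero
  have h1 : ((h * q * h⁻¹ : HU) : ℍ[ℝ]) = cj h q := by simp [cj]
  rw [h1, cj_re h0, cj_im h0, cj_smul]

lemma coord_conj (h : HU) (y : PH) :
    coord 0 0 ((QuotientGroup.mk h : PH) * y * (QuotientGroup.mk h : PH)⁻¹) = coord 0 0 y := by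
  obtain ⟨q, rfl⟩ := QuotientGroup.mk_surjective y
  rw [← QuotientGroup.mk_mul, ← QuotientGroup.mk_inv, ← QuotientGroup.mk_mul, coord_mk, coord_mk]
  have h0 : (h : ℍ[ℝ]) ≠ 0 := h.ne_zero
  have h1 : ((h * q * h⁻¹ : HU) : ℍ[ℝ]) = cj h q := by simp [cj]
  have h2 : normSq (cj (h : ℍ[ℝ]) q) = normSq (q : ℍ[ℝ]) := by
    have hn := normSq_ne h
    rw [cj, map_mul, map_mul, map_inv₀]
    field_simp
  rw [h1, h2]
  simp only [comp, Matrix.cons_val_zero]
  rw [cj_re h0]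

lemma conj_rot (h : HU) {v : ℍ[ℝ]} (hv : v.re = 0) :
    (QuotientGroup.mk h : PH) * rot v * (QuotientGroup.mk h : PH)⁻¹ = rot (cj h v) := by
  have h1 : coord 0 0 ((QuotientGroup.mk h : PH) * rot v * (QuotientGroup.mk h : PH)⁻¹) ≠ 0 := by
    rw [coord_conj]; exact coord_rot_ne hv
  rw [← rot_gib h1, gib_conj, gib_rot hv]

end Pool.Agent.H225R3.CV
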