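import Mathlib

/-! Quaternion identities for the octagon relation. Pure quaternions play the part of vectors. -/

open Quaternion

namespace Pool.Agent.H225R3.CV

/-- the quaternion with given components -/
noncomputable def mkQ (a b c d : ℝ) : ℍ[ℝ] := ⟨a, b, c, d⟩
@[simp] lemma mkQ_re (a b c d : ℝ) : (mkQ a b c d).re = a := rfl
@[simp] lemma mkQ_imI (a b c d : ℝ) : (mkQ a b c d).imI = b := rfl
@[simp] lemma mkQ_imJ (a b c d : ℝ) : (mkQ a b c d).imJ = c := rfl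
@[simp] lemma mkQ_imK (a b c d : ℝ) : (mkQ a b c d).imK = d := rfl

/-- scalar product of pure quaternions -/
noncomputable def dot (x y : ℍ[ℝ]) : ℝ := -(x * y).re
/-- vector product of pure quaternions -/
noncomputable def cr (x y : ℍ[ℝ]) : ℍ[ℝ] := (x * y).im

/-- the vector `w₊` -/
noncomputable def wp (a b c : ℍ[ℝ]) : ℍ[ℝ] :=
  (1 - dot b c) • a + (1 + dot a c) • b + (1 - dot a b) • c
/-- the vector `w₋` -/
noncomputable def wm (a b c : ℍ[ℝ]) : ℍ[ℝ] := cr a b + cr b c + cr a c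

/-- the determinant -/
noncomputable def dt (a b c : ℍ[ℝ]) : ℝ := dot a (cr b c)
/-- the other scalar -/
noncomputable def ee (a b c : ℍ[ℝ]) : ℝ := 1 - dot a b - dot b c - dot c a

lemma dot_def (x y : ℍ[ℝ]) (hx : x.re = 0) : 
    dot x y = x.imI * y.imI + x.imJ * y.imJ + x.imK * y.imK := by
  simp [dot, hx]; ring

lemma cr_re (x y : ℍ[ℝ]) : (cr x y).re = 0 := by simp [cr]
lemma cr_imI (x y : ℍ[ℝ]) (hx : x.re = 0) (hy : y.re = 0) :
    (cr x y).imI = x.imJ * y.imK - x.imK * y.imJ := by simp [cr, hx, hy]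
lemma cr_imJ (x y : ℍ[ℝ]) (hx : x.re = 0) (hy : y.re = 0) :
    (cr x y).imJ = x.imK * y.imI - x.imI * y.imK := by simp [cr, hx, hy]; ring
lemma cr_imK (x y : ℍ[ℝ]) (hx : x.re = 0) (hy : y.re = 0) :
    (cr x y).imK = x.imI * y.imJ - x.imJ * y.imI := by simp [cr, hx, hy]

lemma wp_re {a b c : ℍ[ℝ]} (ha : a.re = 0) (hb : b.re = 0) (hc : c.re = 0) :
    (wp a b c).re = 0 := by simp [wp, ha, hb, hc]
lemma wm_re {a b c : ℍ[ℝ]} : (wm a b c).re = 0 := by simp [wm, cr_re]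

/-- The difference of the two octagon words. -/
lemma word_sub {a b c d : ℍ[ℝ]} (ha : a.re = 0) (hb : b.re = 0) (hc : c.re = 0) (hd : d.re = 0) :
    (1 + a) * (1 + b) * (1 + c) * (1 + d) - (1 + d) * (1 + c) * (1 + b) * (1 + a) =
      ((-2 * (dt a b c + dot d (wm a b c)) : ℝ) : ℍ[ℝ]) +
        (2 : ℝ) • (-(dt a b c) • d + wm a b c + cr (wp a b c) d) := by
  ext <;> simp [wp, wm, dt, dot, cr, ha, hb, hc, hd] <;> ring

/-- The sum of the two octagon words. -/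
lemma word_add {a b c d : ℍ[ℝ]} (ha : a.re = 0) (hb : b.re = 0) (hc : c.re = 0) (hd : d.re = 0) :
    (1 + a) * (1 + b) * (1 + c) * (1 + d) + (1 + d) * (1 + c) * (1 + b) * (1 + a) =
      ((2 * (ee a b c - dot d (wp a b c)) : ℝ) : ℍ[ℝ]) +
        (2 : ℝ) • ((ee a b c) • d + wp a b c + cr (wm a b c) d) := by
  ext <;> simp [wp, wm, ee, dot, cr, ha, hb, hc, hd] <;> ring

/-- `w₊ · w₋ = det · e`. -/
lemma dot_wp_wm {a b c : ℍ[ℝ]} (ha : a.re = 0) (hb : b.re = 0) (hc : c.re = 0) :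
    dot (wp a b c) (wm a b c) = dt a b c * ee a b c := by
  simp [wp, wm, dt, ee, dot, cr, ha, hb, hc]
  ring

end Pool.Agent.H225R3.CV
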