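import Pool.Agent.H225R3.QAlg

/-! Rotations by quaternions, and the octagon relation. -/

open Quaternion

namespace Pool.Agent.H225R3.CV

/-- interpolation between `w₋` (`r = -1`) and `w₊` (`r = 1`) -/
noncomputable def wr (r : ℝ) (a b c : ℍ[ℝ]) : ℍ[ℝ] :=
  ((1 + r) / 2) • wp a b c + ((1 - r) / 2) • wm a b c

lemma wr_one (a b c : ℍ[ℝ]) : wr 1 a b c = wp a b c := by simp [wr]
lemma wr_neg_one (a b c : ℍ[ℝ]) : wr (-1) a b c = wm a b c := by norm_num [wr]

lemma wr_re {r : ℝ} {a b c : ℍ[ℝ]} (ha : a.re = 0) (hb : b.re = 0) (hc : c.re = 0) :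
    (wr r a b c).re = 0 := by simp [wr, wp_re ha hb hc, wm_re]

section basic
variable {x y z : ℍ[ℝ]}

lemma dot_comm' (x y : ℍ[ℝ]) : dot x y = dot y x := by simp [dot]; ring
lemma dot_add_right (x y z : ℍ[ℝ]) : dot x (y + z) = dot x y + dot x z := by simp [dot]; ring
lemma dot_smul_right (s : ℝ) (x y : ℍ[ℝ]) : dot x (s • y) = s * dot x y := by simp [dot]; ring
lemma dot_neg_right (x y : ℍ[ℝ]) : dot x (-y) = - dot x y := by simp [dot]
lemma dot_zero_right (x : ℍ[ℝ]) : dot x 0 = 0 := by simp [dot]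
lemma dot_cr_self_right (hx : x.re = 0) (hy : y.re = 0) : dot x (cr y x) = 0 := by
  simp [dot, cr, hx, hy]; ring
lemma dot_cr_self_left (hx : x.re = 0) (hy : y.re = 0) : dot x (cr x y) = 0 := by
  simp [dot, cr, hx, hy]; ring
lemma cr_anticomm (hx : x.re = 0) (hy : y.re = 0) : cr x y = - cr y x := by
  ext <;> simp [cr, hx, hy] <;> ring
lemma cr_cr (hx : x.re = 0) (hy : y.re = 0) (hz : z.re = 0) :
    cr (cr x y) z = (dot x z) • y - (dot y z) • x := by
  ext <;> simp [cr, dot, hx, hy, hz] <;> ring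
lemma dot_self (hx : x.re = 0) : dot x x = x.imI ^ 2 + x.imJ ^ 2 + x.imK ^ 2 := by
  simp [dot, hx]; ring
lemma dot_self_nonneg (hx : x.re = 0) : 0 ≤ dot x x := by rw [dot_self hx]; positivity
lemma dot_self_eq_zero (hx : x.re = 0) : dot x x = 0 ↔ x = 0 := by
  rw [dot_self hx]
  constructor
  · intro h
    have h1 : x.imI = 0 := by nlinarith [sq_nonneg x.imI, sq_nonneg x.imJ, sq_nonneg x.imK]
    have h2 : x.imJ = 0 := by nlinarith [sq_nonneg x.imI, sq_nonneg x.imJ, sq_nonneg x.imK]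
    have h3 : x.imK = 0 := by nlinarith [sq_nonneg x.imI, sq_nonneg x.imJ, sq_nonneg x.imK]
    ext <;> simp [hx, h1, h2, h3]
  · rintro rfl; simp
lemma dot_self_pos (hx : x.re = 0) (h : x ≠ 0) : 0 < dot x x :=
  lt_of_le_of_ne (dot_self_nonneg hx) fun h0 => h ((dot_self_eq_zero hx).1 h0.symm)
lemma dot_cr_cr (hx : x.re = 0) (hy : y.re = 0) :
    dot (cr x y) (cr x y) = dot x x * dot y y - dot x y ^ 2 := by
  simp [cr, dot, hx, hy]; ring
lemma mul_self_pure (hx : x.re = 0) : x * x = ((-(dot x x) : ℝ) : ℍ[ℝ]) := by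
  ext <;> simp [dot, hx] <;> ring
lemma mul_pure (hx : x.re = 0) (hy : y.re = 0) : x * y = ((-(dot x y) : ℝ) : ℍ[ℝ]) + cr x y := by
  ext <;> simp [dot, cr, hx, hy]
lemma expand (hx : x.re = 0) (hy : y.re = 0) (hz : z.re = 0) :
    (dot x x * dot y y - dot x y ^ 2) • z =
      (dot z x * dot y y - dot z y * dot x y) • x + (dot z y * dot x x - dot z x * dot x y) • y
        + (dt z x y) • cr x y := by
  ext <;> simp [cr, dot, dt, hx, hy, hz] <;> ring
lemma dt_cyc {a b c : ℍ[ℝ]} (ha : a.re = 0) (hb : b.re = 0) (hc : c.re = 0) :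
    dt c a b = dt a b c := by
  simp [dt, dot, cr, ha, hb, hc]; ring
end basic

lemma coe_add_pure_eq_zero {s : ℝ} {v : ℍ[ℝ]} (hv : v.re = 0)
    (h : (s : ℍ[ℝ]) + (2 : ℝ) • v = 0) : s = 0 ∧ v = 0 := by
  have h0 := congrArg (fun q : ℍ[ℝ] => q.re) h
  have h1 := congrArg (fun q : ℍ[ℝ] => q.imI) h
  have h2 := congrArg (fun q : ℍ[ℝ] => q.imJ) h
  have h3 := congrArg (fun q : ℍ[ℝ] => q.imK) h
  simp [hv] at h0 h1 h2 h3
  refine ⟨h0, ?_⟩
  ext <;> simp [hv, h1, h2, h3]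

/-- The octagon relation in coordinates. -/
lemma octagon_iff {a b c d : ℍ[ℝ]} (ha : a.re = 0) (hb : b.re = 0) (hc : c.re = 0)
    (hd : d.re = 0) {r : ℝ} (hr : r = 1 ∨ r = -1) :
    (1 + a) * (1 + b) * (1 + c) * (1 + d) = r • ((1 + d) * (1 + c) * (1 + b) * (1 + a)) ↔
      (r = 1 → dt a b c = 0) ∧ (r = -1 → ee a b c = 0) ∧
        cr d (wr r a b c) = wr (-r) a b c ∧ dot d (wr (-r) a b c) = 0 := by
  have hp := wp_re ha hb hc
  have hm := @wm_re a b c
  rcases hr with rfl | rfl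
  · rw [one_smul, ← sub_eq_zero, word_sub ha hb hc hd, wr_one, wr_neg_one]
    have hpure : (-(dt a b c) • d + wm a b c + cr (wp a b c) d).re = 0 := by
      simp [hd, hm, cr_re]
    constructor
    · intro h
      obtain ⟨h1, h2⟩ := coe_add_pure_eq_zero hpure h
      have h3 : dot d (-(dt a b c) • d + wm a b c + cr (wp a b c) d) = 0 := by
        rw [h2, dot_zero_right]
      rw [dot_add_right, dot_add_right, dot_smul_right, dot_cr_self_right hd hp] at h3
      have h4 : dt a b c * (1 + dot d d) = 0 := by linarith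
      have h5 : 0 < 1 + dot d d := by linarith [dot_self_nonneg hd]
      have h6 : dt a b c = 0 := by
        rcases mul_eq_zero.1 h4 with h | h
        · exact h
        · linarith
      refine ⟨fun _ => h6, fun h => by norm_num at h, ?_, by rw [h6] at h1; linarith⟩
      rw [h6] at h2
      rw [cr_anticomm hd hp]
      simp only [neg_zero, zero_smul, zero_add] at h2
      exact (eq_neg_of_add_eq_zero_left h2).symm
    · rintro ⟨h1, -, h2, h3⟩
      rw [h1 rfl, h3, ← h2, cr_anticomm hd hp]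
      simp
  · rw [neg_smul, one_smul, ← sub_eq_zero, sub_neg_eq_add, word_add ha hb hc hd, neg_neg, wr_one,
      wr_neg_one]
    have hpure : (ee a b c • d + wp a b c + cr (wm a b c) d).re = 0 := by
      simp [hd, hp, cr_re]
    constructor
    · intro h
      obtain ⟨h1, h2⟩ := coe_add_pure_eq_zero hpure h
      have h3 : dot d (ee a b c • d + wp a b c + cr (wm a b c) d) = 0 := by
        rw [h2, dot_zero_right]
      rw [dot_add_right, dot_add_right, dot_smul_right, dot_cr_self_right hd hm] at h3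
      have h4 : ee a b c * (1 + dot d d) = 0 := by linarith
      have h5 : 0 < 1 + dot d d := by linarith [dot_self_nonneg hd]
      have h6 : ee a b c = 0 := by
        rcases mul_eq_zero.1 h4 with h | h
        · exact h
        · linarith
      refine ⟨fun h => by norm_num at h, fun _ => h6, ?_, by rw [h6] at h1; linarith⟩
      rw [h6] at h2
      rw [cr_anticomm hd hm]
      simp only [zero_smul, zero_add] at h2
      exact (eq_neg_of_add_eq_zero_left h2).symm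
    · rintro ⟨-, h1, h2, h3⟩
      rw [h1 rfl, h3, ← h2, cr_anticomm hd hm]
      simp

/-- the vector `d` in terms of `w_r`, `w_{-r}` and a parameter `t` -/
noncomputable def dvec (r t : ℝ) (a b c : ℍ[ℝ]) : ℍ[ℝ] :=
  (dot (wr r a b c) (wr r a b c))⁻¹ • cr (wr r a b c) (wr (-r) a b c) + t • wr r a b c

lemma dvec_re {r t : ℝ} {a b c : ℍ[ℝ]} (ha : a.re = 0) (hb : b.re = 0) (hc : c.re = 0) :
    (dvec r t a b c).re = 0 := by simp [dvec, cr_re, wr_re ha hb hc]

lemma dot_wr_wr {a b c : ℍ[ℝ]} (ha : a.re = 0) (hb : b.re = 0) (hc : c.re = 0)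
    {r : ℝ} (hr : r = 1 ∨ r = -1) (h1 : r = 1 → dt a b c = 0) (h2 : r = -1 → ee a b c = 0) :
    dot (wr r a b c) (wr (-r) a b c) = 0 := by
  rcases hr with rfl | rfl
  · rw [wr_one, wr_neg_one, dot_wp_wm ha hb hc, h1 rfl, zero_mul]
  · rw [neg_neg, wr_one, wr_neg_one, dot_comm', dot_wp_wm ha hb hc, h2 rfl, mul_zero]

/-- uniqueness of `d` -/
lemma eq_dvec {a b c d : ℍ[ℝ]} (ha : a.re = 0) (hb : b.re = 0) (hc : c.re = 0) (hd : d.re = 0)
    {r : ℝ} (hw : wr r a b c ≠ 0) (h : cr d (wr r a b c) = wr (-r) a b c) :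
    d = dvec r (dot d (wr r a b c) / dot (wr r a b c) (wr r a b c)) a b c := by
  have hwre := @wr_re r a b c ha hb hc
  have hpos := dot_self_pos hwre hw
  set w := wr r a b c with hwdef
  have h1 : cr w (cr d w) = (dot w w) • d - (dot d w) • w := by
    have h2 : (cr d w).re = 0 := cr_re _ _
    rw [cr_anticomm hwre h2, cr_cr hd hwre hwre, neg_sub]
  rw [dvec, ← hwdef, ← h, h1, smul_sub, smul_smul, smul_smul, inv_mul_cancel₀ hpos.ne', one_smul,
    div_eq_mul_inv, mul_comm (dot d w)]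
  simp

/-- `dvec` solves the octagon relation -/
lemma dvec_spec {a b c : ℍ[ℝ]} (ha : a.re = 0) (hb : b.re = 0) (hc : c.re = 0)
    {r : ℝ} (hr : r = 1 ∨ r = -1) (h1 : r = 1 → dt a b c = 0) (h2 : r = -1 → ee a b c = 0)
    (hw : wr r a b c ≠ 0) (t : ℝ) :
    cr (dvec r t a b c) (wr r a b c) = wr (-r) a b c ∧
      dot (dvec r t a b c) (wr (-r) a b c) = 0 ∧
      dot (dvec r t a b c) (wr r a b c) / dot (wr r a b c) (wr r a b c) = t := by
  have hwre := @wr_re r a b c ha hb hc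
  have hwre' := @wr_re (-r) a b c ha hb hc
  have hpos := dot_self_pos hwre hw
  have hdot := dot_wr_wr ha hb hc hr h1 h2
  unfold dvec
  set w := wr r a b c with hwdef
  set w' := wr (-r) a b c with hwdef'
  have e1 : cr ((dot w w)⁻¹ • cr w w' + t • w) w = (dot w w)⁻¹ • cr (cr w w') w + t • cr w w := by
    ext <;> simp [cr] <;> ring
  have e2 : cr w w = 0 := by ext <;> simp [cr, hwre] <;> ring
  refine ⟨?_, ?_, ?_⟩
  · rw [e1, e2, cr_cr hwre hwre' hwre, dot_comm' w' w, hdot, zero_smul, sub_zero, smul_smul,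
      inv_mul_cancel₀ hpos.ne', one_smul, smul_zero, add_zero]
  · rw [dot_comm', dot_add_right, dot_smul_right, dot_smul_right, dot_comm' w' w, hdot,
      dot_cr_self_right hwre' hwre]
    ring
  · rw [dot_comm' _ w, dot_add_right, dot_smul_right, dot_smul_right,
      dot_cr_self_left hwre hwre']
    field_simp
    ring

/-! ### conjugation -/

/-- conjugation by `h` -/
noncomputable def cj (h x : ℍ[ℝ]) : ℍ[ℝ] := h * x * h⁻¹

lemma cj_mul {h : ℍ[ℝ]} (hh : h ≠ 0) (x y : ℍ[ℝ]) : cj h (x * y) = cj h x * cj h y := by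
  simp only [cj, mul_assoc, inv_mul_cancel_left₀ hh]
lemma cj_add (h x y : ℍ[ℝ]) : cj h (x + y) = cj h x + cj h y := by
  simp [cj, mul_add, add_mul]
lemma cj_sub (h x y : ℍ[ℝ]) : cj h (x - y) = cj h x - cj h y := by
  simp [cj, mul_sub, sub_mul]
lemma cj_smul (s : ℝ) (h x : ℍ[ℝ]) : cj h (s • x) = s • cj h x := by
  simp [cj]
lemma cj_coe {h : ℍ[ℝ]} (hh : h ≠ 0) (s : ℝ) : cj h (s : ℍ[ℝ]) = s := by
  rw [cj, ← Quaternion.coe_commutes s h, mul_assoc, mul_inv_cancel₀ hh, mul_one]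
lemma cj_one {h : ℍ[ℝ]} (hh : h ≠ 0) : cj h 1 = 1 := by
  simp [cj, hh]
lemma re_mul_comm (x y : ℍ[ℝ]) : (x * y).re = (y * x).re := by simp; ring
lemma cj_re {h : ℍ[ℝ]} (hh : h ≠ 0) (x : ℍ[ℝ]) : (cj h x).re = x.re := by
  rw [cj, re_mul_comm, ← mul_assoc, inv_mul_cancel₀ hh, one_mul]
lemma cj_im {h : ℍ[ℝ]} (hh : h ≠ 0) (x : ℍ[ℝ]) : (cj h x).im = cj h x.im := by
  have h1 : x.im = x - (x.re : ℍ[ℝ]) := by ext <;> simp
  have h2 : (cj h x).im = cj h x - ((cj h x).re : ℍ[ℝ]) := by ext <;> simp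
  rw [h2, h1, cj_sub, cj_coe hh, cj_re hh]
lemma dot_cj {h : ℍ[ℝ]} (hh : h ≠ 0) (x y : ℍ[ℝ]) : dot (cj h x) (cj h y) = dot x y := by
  rw [dot, ← cj_mul hh, cj_re hh, dot]
lemma cr_cj {h : ℍ[ℝ]} (hh : h ≠ 0) (x y : ℍ[ℝ]) : cr (cj h x) (cj h y) = cj h (cr x y) := by
  rw [cr, ← cj_mul hh, cj_im hh, cr]
lemma dt_cj {h : ℍ[ℝ]} (hh : h ≠ 0) (x y z : ℍ[ℝ]) :
    dt (cj h x) (cj h y) (cj h z) = dt x y z := by
  rw [dt, cr_cj hh, dot_cj hh, dt]
lemma wp_cj {h : ℍ[ℝ]} (hh : h ≠ 0) (x y z : ℍ[ℝ]) :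
    wp (cj h x) (cj h y) (cj h z) = cj h (wp x y z) := by
  simp only [wp, dot_cj hh, cj_add, cj_smul]
lemma wm_cj {h : ℍ[ℝ]} (hh : h ≠ 0) (x y z : ℍ[ℝ]) :
    wm (cj h x) (cj h y) (cj h z) = cj h (wm x y z) := by
  simp only [wm, cr_cj hh, cj_add]
lemma wr_cj {h : ℍ[ℝ]} (hh : h ≠ 0) (r : ℝ) (x y z : ℍ[ℝ]) :
    wr r (cj h x) (cj h y) (cj h z) = cj h (wr r x y z) := by
  simp only [wr, wp_cj hh, wm_cj hh, cj_add, cj_smul]
lemma dvec_cj {h : ℍ[ℝ]} (hh : h ≠ 0) (r t : ℝ) (x y z : ℍ[ℝ]) :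
    dvec r t (cj h x) (cj h y) (cj h z) = cj h (dvec r t x y z) := by
  simp only [dvec, wr_cj hh, cr_cj hh, dot_cj hh, cj_add, cj_smul]
lemma cj_ne_zero {h : ℍ[ℝ]} (hh : h ≠ 0) {x : ℍ[ℝ]} (hx : x ≠ 0) : cj h x ≠ 0 := by
  simp [cj, hh, hx]

/-! ### existence of rotations -/

lemma exists_pure_ne {a : ℍ[ℝ]} (ha : a.re = 0) (h : a ≠ 0) :
    ∃ e : ℍ[ℝ], e.re = 0 ∧ cr a e ≠ 0 := by
  by_contra hcon
  push Not at hcon
  apply h
  have h1 := hcon (mkQ 0 1 0 0) rfl
  have h2 := hcon (mkQ 0 0 1 0) rfl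
  have h3 : (cr a (mkQ 0 1 0 0)).imJ = 0 := by rw [h1]; rfl
  have h4 : (cr a (mkQ 0 1 0 0)).imK = 0 := by rw [h1]; rfl
  have h5 : (cr a (mkQ 0 0 1 0)).imK = 0 := by rw [h2]; rfl
  rw [cr_imJ _ _ ha rfl] at h3
  rw [cr_imK _ _ ha rfl] at h4 h5
  simp at h3 h4 h5
  ext <;> simp [ha, h3, h4, h5]

lemma exists_rot1 {a a' : ℍ[ℝ]} (ha : a.re = 0) (ha' : a'.re = 0) (h : dot a a = dot a' a')
    (h0 : a ≠ 0) : ∃ h : ℍ[ℝ], h ≠ 0 ∧ h * a = a' * h := by
  by_cases hz : ((dot a a : ℝ) : ℍ[ℝ]) - a' * a = 0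
  · have h1 : a' * a = ((dot a a : ℝ) : ℍ[ℝ]) := (sub_eq_zero.1 hz).symm
    have h2 : a' * a * a = ((dot a a : ℝ) : ℍ[ℝ]) * a := by rw [h1]
    rw [mul_assoc, mul_self_pure ha] at h2
    have hpos := dot_self_pos ha h0
    have h3 : a' = -a := by
      have h4 : (dot a a) • a' = (dot a a) • (-a) := by
        rw [← Quaternion.coe_commutes] at h2
        simp only [Quaternion.coe_neg, neg_mul] at h2
        rw [Quaternion.coe_mul_eq_smul, Quaternion.coe_mul_eq_smul] at h2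
        rw [smul_neg, ← h2, neg_neg]
      exact smul_right_injective _ hpos.ne' h4
    obtain ⟨e, he, hne⟩ := exists_pure_ne ha h0
    refine ⟨cr a e, hne, ?_⟩
    rw [h3, mul_pure (cr_re _ _) ha, neg_mul, mul_pure ha (cr_re _ _), dot_comm' (cr a e) a,
      dot_cr_self_left ha he, cr_anticomm (cr_re _ _) ha]
    simp
  · refine ⟨_, hz, ?_⟩
    rw [sub_mul, mul_sub, mul_assoc, mul_self_pure ha, ← mul_assoc a' a' a, mul_self_pure ha',
      ← h, ← Quaternion.coe_commutes, ← Quaternion.coe_commutes]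
    simp only [Quaternion.coe_neg, neg_mul]
    abel

lemma anticomm_of_dot {x y : ℍ[ℝ]} (hx : x.re = 0) (hy : y.re = 0) (h : dot x y = 0) :
    x * y = - (y * x) := by
  rw [mul_pure hx hy, mul_pure hy hx, dot_comm' y x, h, cr_anticomm hx hy]; simp

lemma exists_rot2 {a b b' : ℍ[ℝ]} (ha : a.re = 0) (hb : b.re = 0) (hb' : b'.re = 0)
    (h1 : dot a b = dot a b') (h2 : dot b b = dot b' b') (h0 : cr a b ≠ 0) :
    ∃ h : ℍ[ℝ], h ≠ 0 ∧ h * a = a * h ∧ h * b = b' * h := by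
  have ha0 : a ≠ 0 := by rintro rfl; exact h0 (by simp [cr])
  have hpos := dot_self_pos ha ha0
  set u := cr a b with hu
  set u' := cr a b' with hu'
  have hure : u.re = 0 := cr_re _ _
  have hure' : u'.re = 0 := cr_re _ _
  have hau : dot a u = 0 := dot_cr_self_left ha hb
  have hau' : dot a u' = 0 := dot_cr_self_left ha hb'
  have huu : dot u u = dot u' u' := by rw [hu, hu', dot_cr_cr ha hb, dot_cr_cr ha hb', h1, h2]
  have c1 : a * u = - (u * a) := anticomm_of_dot ha hure hau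
  have c2 : a * u' = - (u' * a) := anticomm_of_dot ha hure' hau'
  -- b in terms of a and u
  have e1 : (dot a a) • b = (dot a b) • a + u * a := by
    have : u * a = cr u a := by rw [mul_pure hure ha, dot_comm' u a, hau]; simp
    rw [this, hu, cr_cr ha hb ha, dot_comm' b a]; abel
  have e2 : (dot a a) • b' = (dot a b) • a + u' * a := by
    have : u' * a = cr u' a := by rw [mul_pure hure' ha, dot_comm' u' a, hau']; simp
    rw [this, hu', cr_cr ha hb' ha, dot_comm' b' a, h1]; abel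
  have key : ∀ h : ℍ[ℝ], h * a = a * h → h * u = u' * h → h * b = b' * h := by
    intro h k1 k2
    have : (dot a a) • (h * b) = (dot a a) • (b' * h) := by
      rw [← mul_smul_comm, ← smul_mul_assoc, e1, e2, mul_add, add_mul, mul_smul_comm,
        smul_mul_assoc, k1, ← mul_assoc, k2, mul_assoc u' h a, k1, mul_assoc]
    exact smul_right_injective _ hpos.ne' this
  by_cases hz : ((dot u u : ℝ) : ℍ[ℝ]) - u' * u = 0
  · have hpu := dot_self_pos hure h0
    have h3 : u' = -u := by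
      have h1 : u' * u = ((dot u u : ℝ) : ℍ[ℝ]) := (sub_eq_zero.1 hz).symm
      have h2 : u' * u * u = ((dot u u : ℝ) : ℍ[ℝ]) * u := by rw [h1]
      rw [mul_assoc, mul_self_pure hure] at h2
      have h4 : (dot u u) • u' = (dot u u) • (-u) := by
        rw [← Quaternion.coe_commutes] at h2
        simp only [Quaternion.coe_neg, neg_mul] at h2
        rw [Quaternion.coe_mul_eq_smul, Quaternion.coe_mul_eq_smul] at h2
        rw [smul_neg, ← h2, neg_neg]
      exact smul_right_injective _ hpu.ne' h4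
    refine ⟨a, ha0, rfl, key a rfl ?_⟩
    rw [h3, c1, neg_mul]
  · refine ⟨_, hz, ?_, key _ ?_ ?_⟩
    · rw [sub_mul, mul_sub, Quaternion.coe_commutes, mul_assoc u' u a, ← mul_assoc a u' u, c2,
        neg_mul, mul_assoc u' a u, c1, mul_neg, neg_neg]
    · rw [sub_mul, mul_sub, Quaternion.coe_commutes, mul_assoc u' u a, ← mul_assoc a u' u, c2,
        neg_mul, mul_assoc u' a u, c1, mul_neg, neg_neg]
    · rw [sub_mul, mul_sub, mul_assoc, mul_self_pure hure, ← mul_assoc u' u' u,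
        mul_self_pure hure', ← huu, ← Quaternion.coe_commutes, ← Quaternion.coe_commutes]
      simp only [Quaternion.coe_neg, neg_mul]
      abel

/-- Pairs of independent vectors with the same Gram matrix are conjugate. -/
lemma exists_rot {a b a' b' : ℍ[ℝ]} (ha : a.re = 0) (hb : b.re = 0) (ha' : a'.re = 0)
    (hb' : b'.re = 0) (h1 : dot a a = dot a' a') (h2 : dot a b = dot a' b')
    (h3 : dot b b = dot b' b') (h0 : cr a b ≠ 0) :
    ∃ h : ℍ[ℝ], h ≠ 0 ∧ cj h a = a' ∧ cj h b = b' := by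
  have ha0 : a ≠ 0 := by rintro rfl; exact h0 (by simp [cr])
  obtain ⟨g, hg, hga⟩ := exists_rot1 ha ha' h1 ha0
  have hga' : cj g a = a' := by rw [cj, hga, mul_assoc, mul_inv_cancel₀ hg, mul_one]
  obtain ⟨k, hk, hka, hkb⟩ := exists_rot2 (a := a') (b := cj g b) (b' := b') ha'
    (by rw [cj_re hg, hb]) hb' (by rw [← hga', dot_cj hg, h2, hga']) (by rw [dot_cj hg, h3])
    (by rw [← hga', cr_cj hg]; exact cj_ne_zero hg h0)
  refine ⟨k * g, mul_ne_zero hk hg, ?_, ?_⟩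
  · have : cj (k * g) a = cj k (cj g a) := by simp [cj, mul_assoc]
    rw [this, hga', cj, hka, mul_assoc, mul_inv_cancel₀ hk, mul_one]
  · have : cj (k * g) b = cj k (cj g b) := by simp [cj, mul_assoc]
    rw [this, cj, hkb, mul_assoc, mul_inv_cancel₀ hk, mul_one]

/-- A vector is determined by its products with two independent vectors and the determinant. -/
lemma eq_of_dots {a b c c' : ℍ[ℝ]} (ha : a.re = 0) (hb : b.re = 0) (hc : c.re = 0)
    (hc' : c'.re = 0) (h0 : cr a b ≠ 0) (h1 : dot c a = dot c' a) (h2 : dot c b = dot c' b)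
    (h3 : dt a b c = dt a b c') : c = c' := by
  have hpos := dot_self_pos (cr_re a b) h0
  rw [dot_cr_cr ha hb] at hpos
  have e1 := expand ha hb hc
  have e2 := expand ha hb hc'
  rw [dt_cyc ha hb hc] at e1
  rw [dt_cyc ha hb hc', ← h1, ← h2, ← h3, ← e1] at e2
  exact smul_right_injective _ hpos.ne' e2.symm

end Pool.Agent.H225R3.CV
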