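import Pool.Agent.H225R3.Defs

/-!
The group is `G = Res_{K/ℚ}(PGL₁(ℍ_K))`, with `K = ℚ(√2)` and `ℍ_K` the Hamilton quaternions over
`K`; it is a connected semisimple group over `ℚ`, isomorphic to the Weil restriction of `SO(3)`.
Its real points are `PGL₁(ℍ)(ℝ) × PGL₁(ℍ)(ℝ)` (one factor for each real embedding of `K`), and its
rational points are the pairs `([h], [h'])` where `h` is an invertible quaternion over `K` and `h'`
is its conjugate under `√2 ↦ -√2`.
-/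

open Quaternion Topology

namespace Pool.Agent.H225R3.Rat

open Pool.Agent.H225R3.CV

/-- `G(ℝ)`. -/
abbrev GR : Type := PH × PH

/-- `x ∈ ℚ(√2)` and `y` is its conjugate under `√2 ↦ -√2`. -/
def ConjPair (x y : ℝ) : Prop := ∃ a b : ℚ, x = a + b * √2 ∧ y = a - b * √2

/-- `G(ℚ)`, the image of `ℍ_Kˣ` in `G(ℝ)`, for `K = ℚ(√2)`. -/
def GQ : Set GR :=
  {g | ∃ h h' : HU, (∀ i, ConjPair (comp h i) (comp h' i)) ∧
    g = (QuotientGroup.mk h, QuotientGroup.mk h')}

/-- The regular functions of `G(ℝ)`: the functions `h ↦ h_i h_j / N(h)` on the two factors. -/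
noncomputable def coordG : (Fin 4 × Fin 4) ⊕ (Fin 4 × Fin 4) → GR → ℝ :=
  Sum.elim (fun p g => coord p.1 p.2 g.1) (fun p g => coord p.1 p.2 g.2)

/-- `ρ(π₁(S))` is conjugate in `G(ℝ)` to a subgroup of `G(ℚ)`. -/
def ConjIntoGQ (ρ : Rep 2 GR) : Prop := ∃ k : GR, ∀ γ, k * ρ γ * k⁻¹ ∈ GQ

end Pool.Agent.H225R3.Rat
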