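import Pool.Agent.H225R3.Chart
import Pool.Agent.H225R3.RatDefs

set_option linter.unusedVariables false

open Quaternion Topology
open scoped ContDiff

namespace Pool.Agent.H225R3.Rat

open Pool.Agent.H225R3 Pool.Agent.H225R3.CV

/-! ### Galois conjugation -/

lemma ConjPair.add {x y x' y' : ℝ} (h : ConjPair x y) (h' : ConjPair x' y') :
    ConjPair (x + x') (y + y') := by
  obtain ⟨a, b, rfl, rfl⟩ := h
  obtain ⟨a', b', rfl, rfl⟩ := h'
  exact ⟨a + a', b + b', by push_cast; ring, by push_cast; ring⟩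
lemma ConjPair.neg {x y : ℝ} (h : ConjPair x y) : ConjPair (-x) (-y) := by
  obtain ⟨a, b, rfl, rfl⟩ := h
  exact ⟨-a, -b, by push_cast; ring, by push_cast; ring⟩
lemma ConjPair.sub {x y x' y' : ℝ} (h : ConjPair x y) (h' : ConjPair x' y') :
    ConjPair (x - x') (y - y') := by
  simpa [sub_eq_add_neg] using h.add h'.neg
lemma ConjPair.mul {x y x' y' : ℝ} (h : ConjPair x y) (h' : ConjPair x' y') :
    ConjPair (x * x') (y * y') := by
  obtain ⟨a, b, rfl, rfl⟩ := h
  obtain ⟨a', b', rfl, rfl⟩ := h'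
  have h2 : √2 * √2 = (2 : ℝ) := Real.mul_self_sqrt (by norm_num)
  refine ⟨a * a' + 2 * b * b', a * b' + b * a', ?_, ?_⟩
  · push_cast; linear_combination (b : ℝ) * b' * h2
  · push_cast; linear_combination (b : ℝ) * b' * h2
lemma ConjPair.eq_zero {y : ℝ} (h : ConjPair 0 y) : y = 0 := by
  obtain ⟨a, b, h1, rfl⟩ := h
  have hb : b = 0 := by
    by_contra hb
    have hb' : (b : ℝ) ≠ 0 := by exact_mod_cast hb
    have h3 : √2 = ((-(a / b) : ℚ) : ℝ) := by
      push_cast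
      rw [eq_neg_iff_add_eq_zero, ← mul_right_inj' hb', mul_add, mul_zero,
        mul_div_cancel₀ _ hb']
      linarith
    exact irrational_sqrt_two ⟨_, h3.symm⟩
  subst hb
  have h2 : (a : ℝ) = 0 := by simpa using h1.symm
  rw [h2]; simp

/-- componentwise conjugate quaternions -/
def QPair (h h' : ℍ[ℝ]) : Prop := ∀ i, ConjPair (comp h i) (comp h' i)

lemma QPair.sub {p p' q q' : ℍ[ℝ]} (hp : QPair p p') (hq : QPair q q') :
    QPair (p - q) (p' - q') := by
  intro i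
  have h1 := hp i
  have h2 := hq i
  fin_cases i <;> exact h1.sub h2

lemma QPair.mul {p p' q q' : ℍ[ℝ]} (hp : QPair p p') (hq : QPair q q') :
    QPair (p * q) (p' * q') := by
  have p0 := hp 0
  have p1 := hp 1
  have p2 := hp 2
  have p3 := hp 3
  have q0 := hq 0
  have q1 := hq 1
  have q2 := hq 2
  have q3 := hq 3
  simp only [comp, Matrix.cons_val] at p0 p1 p2 p3 q0 q1 q2 q3
  intro i
  fin_cases i
  · show ConjPair (p * q).re (p' * q').re
    rw [Quaternion.re_mul, Quaternion.re_mul]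
    exact (((p0.mul q0).sub (p1.mul q1)).sub (p2.mul q2)).sub (p3.mul q3)
  · show ConjPair (p * q).imI (p' * q').imI
    rw [Quaternion.imI_mul, Quaternion.imI_mul]
    exact (((p0.mul q1).add (p1.mul q0)).add (p2.mul q3)).sub (p3.mul q2)
  · show ConjPair (p * q).imJ (p' * q').imJ
    rw [Quaternion.imJ_mul, Quaternion.imJ_mul]
    exact (((p0.mul q2).sub (p1.mul q3)).add (p2.mul q0)).add (p3.mul q1)
  · show ConjPair (p * q).imK (p' * q').imK
    rw [Quaternion.imK_mul, Quaternion.imK_mul]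
    exact (((p0.mul q3).add (p1.mul q2)).sub (p2.mul q1)).add (p3.mul q0)

lemma QPair.eq_zero {p' : ℍ[ℝ]} (h : QPair 0 p') : p' = 0 := by
  have h0 := h 0
  have h1 := h 1
  have h2 := h 2
  have h3 := h 3
  simp only [comp, Matrix.cons_val, Quaternion.re_zero, Quaternion.imI_zero, Quaternion.imJ_zero,
    Quaternion.imK_zero] at h0 h1 h2 h3
  ext
  · exact h0.eq_zero
  · exact h1.eq_zero
  · exact h2.eq_zero
  · exact h3.eq_zero

/-- If four rotations are represented by `h i`, the sign `sgn` of their Gibbs vectors is the factor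
in the octagon relation between the `h i`. -/
lemma sgn_of_lifts {ρ : Rep 2 PH} (hρ : Good ρ) (h : Fin 4 → HU)
    (hh : ∀ i, ρ (Y i) = QuotientGroup.mk (h i)) :
    (h 0 : ℍ[ℝ]) * h 1 * h 2 * h 3 = sgn (vg ρ) • ((h 3 : ℍ[ℝ]) * h 2 * h 1 * h 0) := by
  obtain ⟨-, hrel⟩ := good_rel hρ
  have hre : ∀ i, (h i : ℍ[ℝ]).re ≠ 0 := by
    intro i h0
    apply hρ.1 i
    rw [hh i, coord_mk]; simp [comp, h0]
  have e : ∀ i, (h i : ℍ[ℝ]) = (h i : ℍ[ℝ]).re • (1 + vg ρ i) := by
    intro i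
    rw [vg, hh i, gib_mk, smul_add, smul_smul, mul_inv_cancel₀ (hre i), one_smul]
    ext <;> simp
  rw [wd, wd'] at hrel
  rw [e 0, e 1, e 2, e 3]
  simp only [smul_mul_assoc, mul_smul_comm]
  rw [hrel]
  simp only [smul_smul]
  congr 1
  ring

/-! ### the two projections -/

/-- first projection -/
noncomputable def p1 (ρ : Rep 2 GR) : Rep 2 PH := (MonoidHom.fst PH PH).comp ρ
/-- second projection -/
noncomputable def p2 (ρ : Rep 2 GR) : Rep 2 PH := (MonoidHom.snd PH PH).comp ρ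

lemma p1_conj (k : GR) (ρ : Rep 2 GR) : p1 (conjRep k ρ) = conjRep k.1 (p1 ρ) := by
  refine MonoidHom.ext fun γ => ?_
  simp [p1, conjRep]
lemma p2_conj (k : GR) (ρ : Rep 2 GR) : p2 (conjRep k ρ) = conjRep k.2 (p2 ρ) := by
  refine MonoidHom.ext fun γ => ?_
  simp [p2, conjRep]

lemma continuous_p1 : Continuous p1 :=
  continuous_induced_rng.2 (continuous_pi fun x => continuous_fst.comp (continuous_app_gen x))
lemma continuous_p2 : Continuous p2 :=
  continuous_induced_rng.2 (continuous_pi fun x => continuous_snd.comp (continuous_app_gen x))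

/-- the open set `Ω` -/
def Omega : Set (Rep 2 GR) := {ρ | Good (p1 ρ) ∧ Good (p2 ρ)}

lemma regular_p1 {f : Rep 2 PH → ℝ} (hf : f ∈ regularFunctions 2 coordPH) :
    (fun ρ => f (p1 ρ)) ∈ regularFunctions 2 coordG := by
  induction hf using Algebra.adjoin_induction with
  | mem f hf =>
    obtain ⟨x, ⟨i, j⟩, rfl⟩ := hf
    exact Algebra.subset_adjoin ⟨x, Sum.inl (i, j), rfl⟩
  | algebraMap r => exact Subalgebra.algebraMap_mem _ r
  | add f g _ _ hf hg => exact Subalgebra.add_mem _ hf hg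
  | mul f g _ _ hf hg => exact Subalgebra.mul_mem _ hf hg

lemma regular_p2 {f : Rep 2 PH → ℝ} (hf : f ∈ regularFunctions 2 coordPH) :
    (fun ρ => f (p2 ρ)) ∈ regularFunctions 2 coordG := by
  induction hf using Algebra.adjoin_induction with
  | mem f hf =>
    obtain ⟨x, ⟨i, j⟩, rfl⟩ := hf
    exact Algebra.subset_adjoin ⟨x, Sum.inr (i, j), rfl⟩
  | algebraMap r => exact Subalgebra.algebraMap_mem _ r
  | add f g _ _ hf hg => exact Subalgebra.add_mem _ hf hg
  | mul f g _ _ hf hg => exact Subalgebra.mul_mem _ hf hg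

lemma zariskiOpen_Omega : IsZariskiOpen coordG Omega := by
  refine ⟨{fun ρ => bigF (p1 ρ) * bigF (p2 ρ)}, ?_, ?_⟩
  · rintro f hf
    rw [Set.mem_singleton_iff] at hf
    subst hf
    exact Subalgebra.mul_mem _ (regular_p1 bigF_mem) (regular_p2 bigF_mem)
  · refine Set.ext fun ρ => ?_
    constructor
    · rintro ⟨h1, h2⟩
      exact ⟨_, rfl, mul_ne_zero ((bigF_ne_iff _).2 h1) ((bigF_ne_iff _).2 h2)⟩
    · rintro ⟨f, hf, h⟩
      rw [Set.mem_singleton_iff] at hf
      subst hf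
      exact ⟨(bigF_ne_iff _).1 (left_ne_zero_of_mul h), (bigF_ne_iff _).1 (right_ne_zero_of_mul h)⟩

lemma conjInvariant_Omega : ConjInvariant Omega := by
  rintro k ρ ⟨h1, h2⟩
  refine ⟨?_, ?_⟩
  · rw [p1_conj]; exact conjInvariant_Om _ _ h1
  · rw [p2_conj]; exact conjInvariant_Om _ _ h2

/-- first projection, on `Ω` -/
noncomputable def P1 (ρ : Omega) : Om := ⟨p1 ρ.1, ρ.2.1⟩
/-- second projection, on `Ω` -/
noncomputable def P2 (ρ : Omega) : Om := ⟨p2 ρ.1, ρ.2.2⟩

lemma continuous_P1 : Continuous P1 :=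
  Continuous.subtype_mk (continuous_p1.comp continuous_subtype_val) _
lemma continuous_P2 : Continuous P2 :=
  Continuous.subtype_mk (continuous_p2.comp continuous_subtype_val) _

/-- the coordinates -/
noncomputable def PhiG (ρ : Omega) : E6 × E6 := (Phi (P1 ρ).1, Phi (P2 ρ).1)

lemma continuous_PhiG : Continuous PhiG :=
  (continuous_Phi.comp continuous_P1).prodMk (continuous_Phi.comp continuous_P2)

lemma PhiG_eq (ρ : Omega) : PhiG ρ = (Phi (p1 ρ.1), Phi (p2 ρ.1)) := rfl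

lemma orbit_iff (ρ ρ' : Omega) : orbitSetoid Omega ρ ρ' ↔ PhiG ρ = PhiG ρ' := by
  constructor
  · rintro ⟨k, hk⟩
    simp only [PhiG_eq, hk, p1_conj, p2_conj, Phi_conj]
  · intro h
    have h1 : Phi (p1 ρ.1) = Phi (p1 ρ'.1) := congrArg Prod.fst h
    have h2 : Phi (p2 ρ.1) = Phi (p2 ρ'.1) := congrArg Prod.snd h
    obtain ⟨k1, hk1⟩ := conj_of_Phi_eq ρ.2.1 ρ'.2.1 h1
    obtain ⟨k2, hk2⟩ := conj_of_Phi_eq ρ.2.2 ρ'.2.2 h2
    refine ⟨(k1, k2), ?_⟩
    refine MonoidHom.ext fun γ => ?_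
    have e1 : (ρ'.1 γ).1 = (conjRep k1 (p1 ρ.1)) γ := by rw [← hk1]; rfl
    have e2 : (ρ'.1 γ).2 = (conjRep k2 (p2 ρ.1)) γ := by rw [← hk2]; rfl
    rw [conjRep_apply] at e1 e2
    rw [conjRep_apply]
    exact Prod.ext e1 e2

/-- the section -/
noncomputable def secG (u : (UU ×ˢ UU : Set (E6 × E6))) : Omega :=
  ⟨MonoidHom.prod (sec ⟨u.1.1, u.2.1⟩) (sec ⟨u.1.2, u.2.2⟩), good_sec _, good_sec _⟩

lemma continuous_secG : Continuous secG := by
  refine Continuous.subtype_mk ?_ _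
  refine continuous_induced_rng.2 (continuous_pi fun x => ?_)
  have h1 : Continuous fun u : (UU ×ˢ UU : Set (E6 × E6)) => (⟨u.1.1, u.2.1⟩ : UU) :=
    Continuous.subtype_mk (continuous_fst.comp continuous_subtype_val) _
  have h2 : Continuous fun u : (UU ×ˢ UU : Set (E6 × E6)) => (⟨u.1.2, u.2.2⟩ : UU) :=
    Continuous.subtype_mk (continuous_snd.comp continuous_subtype_val) _
  exact ((continuous_app_gen x).comp (continuous_sec.comp h1)).prodMk
    ((continuous_app_gen x).comp (continuous_sec.comp h2))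

lemma PhiG_secG (u : (UU ×ˢ UU : Set (E6 × E6))) : PhiG (secG u) = u := by
  refine Prod.ext ?_ ?_
  · exact Phi_sec ⟨u.1.1, u.2.1⟩
  · exact Phi_sec ⟨u.1.2, u.2.2⟩

lemma PhiG_mem (ρ : Omega) : PhiG ρ ∈ UU ×ˢ UU :=
  ⟨(normal_form ρ.2.1).1, (normal_form ρ.2.2).1⟩

/-- the chart -/
noncomputable def chart : Quo Omega → E6 × E6 :=
  Quotient.lift PhiG (fun x y h => (orbit_iff x y).1 h)

lemma isOpenEmbedding_chart : IsOpenEmbedding chart :=
  quotient_isOpenEmbedding _ PhiG continuous_PhiG orbit_iff (UU ×ˢ UU)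
    (isOpen_UU.prod isOpen_UU) PhiG_mem secG continuous_secG PhiG_secG

lemma isSmoothManifold_of_isOpenEmbedding {Y : Type} [TopologicalSpace Y] [Nonempty Y] {n : ℕ}
    {f : Y → EuclideanSpace ℝ (Fin n)} (hf : IsOpenEmbedding f) : IsSmoothManifold Y := by
  refine ⟨hf.isEmbedding.t2Space, hf.isEmbedding.secondCountableTopology, n,
    hf.singletonChartedSpace, ?_⟩
  exact hf.isManifold_singleton

/-- a point of the domain of coordinates, of either sign -/
noncomputable def pt (s : ℝ) : E6 := ![s, 0, 1, 0, 1 / 2, 0]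

lemma pt_mem {s : ℝ} (hs : s = 1 ∨ s = -1) : pt s ∈ UU := by
  have h0 : pt s 0 = s := rfl
  have h1 : pt s 1 = 0 := rfl
  have h2 : pt s 2 = 1 := rfl
  have h3 : pt s 3 = 0 := rfl
  have h4 : pt s 4 = 1 / 2 := rfl
  have habs : |pt s 0| = 1 := by rw [h0]; rcases hs with h | h <;> simp [h]
  have hrr : rr (pt s) = s := by rw [rr, habs, h0]; simp
  have hsq : CV.sq (pt s) = 1 := by rw [CV.sq, habs]; simp
  have hb1 : b1 (pt s) = 0 := by rw [b1, h1]; simp
  have hb2 : b2 (pt s) = 1 := by rw [b2, habs, h1, h2]; simp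
  have hkap : kap (pt s) = (1 + s) / 2 * (1 / 2) + (1 - s) / 2 := by
    rw [kap, hrr, h1, h3, h4]; ring
  have ha : va (pt s) = mkQ 0 1 0 0 := by rw [va, hsq]
  have hb : vb (pt s) = mkQ 0 0 1 0 := by rw [vb, hb1, hb2]
  have hc : vc (pt s) = mkQ 0 0 (kap (pt s)) ((1 - s) / 2 * (1 / 2)) := by
    rw [vc, hsq, hb1, hb2, hrr, h3, h4]; simp
  refine ⟨⟨?_, ?_⟩, ?_, ?_⟩
  · rw [h0]; rcases hs with h | h <;> rw [h] <;> norm_num
  · rw [habs, h1, h2]; norm_num
  · rw [ha, hb, hc]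
    intro h
    have := congrArg (fun q : ℍ[ℝ] => q.imJ) h
    simp [wp, dot] at this
    rw [hkap] at this
    rcases hs with h | h <;> rw [h] at this <;> norm_num at this
  · rw [ha, hb, hc]
    intro h
    have := congrArg (fun q : ℍ[ℝ] => q.imK) h
    simp [wm, cr] at this
    rw [hkap] at this
    rcases hs with h | h <;> rw [h] at this <;> norm_num at this

instance : Nonempty (Quo Omega) :=
  ⟨Quotient.mk _ (secG ⟨(pt 1, pt 1), pt_mem (Or.inl rfl), pt_mem (Or.inl rfl)⟩)⟩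

lemma isSmoothManifold_Quo : IsSmoothManifold (Quo Omega) := by
  have hfin : Module.finrank ℝ (E6 × E6) = Module.finrank ℝ (EuclideanSpace ℝ (Fin 12)) := by
    simp
  let e : (E6 × E6) ≃L[ℝ] EuclideanSpace ℝ (Fin 12) := ContinuousLinearEquiv.ofFinrankEq hfin
  exact isSmoothManifold_of_isOpenEmbedding
    (e.toHomeomorph.isOpenEmbedding.comp isOpenEmbedding_chart)

/-- On a preconnected set a continuous nonvanishing function has constant sign. -/
lemma sign_const {Y : Type} [TopologicalSpace Y] {f : Y → ℝ} (hf : Continuous f)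
    (h0 : ∀ y, f y ≠ 0) {x y : Y} (hy : y ∈ connectedComponent x) : 0 < f x ↔ 0 < f y := by
  have hpre : IsPreconnected (f '' connectedComponent x) :=
    isPreconnected_connectedComponent.image f hf.continuousOn
  have hx : f x ∈ f '' connectedComponent x := ⟨x, mem_connectedComponent, rfl⟩
  have hy' : f y ∈ f '' connectedComponent x := ⟨y, hy, rfl⟩
  by_contra hcon
  have key : ∀ a ∈ f '' connectedComponent x, ∀ b ∈ f '' connectedComponent x, 0 < a → ¬ 0 < b →
      False := by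
    intro a ha b hb h1 h2
    have h3 := hpre.ordConnected.out hb ha ⟨not_lt.1 h2, h1.le⟩
    obtain ⟨z, -, hz⟩ := h3
    exact h0 z hz
  by_cases h1 : 0 < f x
  · exact key _ hx _ hy' h1 fun h2 => hcon ⟨fun _ => h2, fun _ => h1⟩
  · have h2 : 0 < f y := by
      by_contra h2
      exact hcon ⟨fun h => absurd h h1, fun h => absurd h h2⟩
    exact key _ hy' _ hx h2 h1

/-- There are a Zariski open, conjugation invariant subset `Ω` of `Hom(π₁(S₂), G(ℝ))` whose
quotient `Ω/G(ℝ)` is a smooth manifold, and a connected component `X` of `Ω/G(ℝ)`, that contains no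
class of a representation conjugate into `G(ℚ)`. -/
theorem main : ∃ Ω : Set (Rep 2 GR), IsZariskiOpen coordG Ω ∧ ConjInvariant Ω ∧
    IsSmoothManifold (Quo Ω) ∧
    ∃ x : Quo Ω, ∀ ρ : Ω, (Quotient.mk _ ρ : Quo Ω) ∈ connectedComponent x →
      ¬ ConjIntoGQ ρ.1 := by
  refine ⟨Omega, zariskiOpen_Omega, conjInvariant_Omega, isSmoothManifold_Quo,
    Quotient.mk _ (secG ⟨(pt 1, pt (-1)), pt_mem (Or.inl rfl), pt_mem (Or.inr rfl)⟩), ?_⟩
  intro ρ hρ hrat
  set x : Quo Omega :=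
    Quotient.mk _ (secG ⟨(pt 1, pt (-1)), pt_mem (Or.inl rfl), pt_mem (Or.inr rfl)⟩) with hx
  have hcx : chart x = (pt 1, pt (-1)) := PhiG_secG _
  have hne : ∀ y : Quo Omega, (chart y).1 0 ≠ 0 ∧ (chart y).2 0 ≠ 0 := by
    intro y
    induction y using Quotient.inductionOn with | _ ρ => ?_
    exact ⟨(PhiG_mem ρ).1.1.1, (PhiG_mem ρ).2.1.1⟩
  have hc1 : Continuous fun y : Quo Omega => (chart y).1 0 :=
    (continuous_apply 0).comp (continuous_fst.comp isOpenEmbedding_chart.continuous)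
  have hc2 : Continuous fun y : Quo Omega => (chart y).2 0 :=
    (continuous_apply 0).comp (continuous_snd.comp isOpenEmbedding_chart.continuous)
  have s1 := (sign_const hc1 (fun y => (hne y).1) hρ).1 (by rw [hcx]; simp [pt])
  have s2 := (sign_const hc2 (fun y => (hne y).2) hρ).not.1 (by rw [hcx]; simp [pt])
  have s1' : 0 < sgn (vg (p1 ρ.1)) * dot (vg (p1 ρ.1) 0) (vg (p1 ρ.1) 0) := s1
  have s2' : ¬ 0 < sgn (vg (p2 ρ.1)) * dot (vg (p2 ρ.1) 0) (vg (p2 ρ.1) 0) := s2
  have g1 : sgn (vg (p1 ρ.1)) = 1 := by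
    rcases (good_rel ρ.2.1).1 with h | h
    · exact h
    · rw [h] at s1'
      have := dot_self_nonneg (vg_re (p1 ρ.1) 0)
      linarith
  have g2 : sgn (vg (p2 ρ.1)) = -1 := by
    rcases (good_rel ρ.2.2).1 with h | h
    · exfalso
      apply s2'
      rw [h, one_mul]
      exact lt_of_le_of_ne (dot_self_nonneg (vg_re _ 0)) (fun h0 => (hne (Quotient.mk _ ρ)).2 (by
        show sgn (vg (p2 ρ.1)) * dot (vg (p2 ρ.1) 0) (vg (p2 ρ.1) 0) = 0
        rw [← h0, mul_zero]))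
    · exact h
  -- pass to the rational conjugate
  obtain ⟨k, hk⟩ := hrat
  set ρ' : Rep 2 GR := conjRep k ρ.1 with hρ'
  have hΩ' := conjInvariant_Omega k ρ.1 ρ.2
  have hval : ∀ γ, ρ' γ ∈ GQ := fun γ => by rw [hρ', conjRep_apply]; exact hk γ
  have g1' : sgn (vg (p1 ρ')) = 1 := by
    rw [hρ', p1_conj]
    obtain ⟨h, hh⟩ := QuotientGroup.mk_surjective k.1
    rw [← hh]
    have : vg (conjRep (QuotientGroup.mk h) (p1 ρ.1)) = fun i => cj h (vg (p1 ρ.1) i) := by
      ext i : 1; exact vg_conj h _ i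
    rw [this, sgn_cj h.ne_zero, g1]
  have g2' : sgn (vg (p2 ρ')) = -1 := by
    rw [hρ', p2_conj]
    obtain ⟨h, hh⟩ := QuotientGroup.mk_surjective k.2
    rw [← hh]
    have : vg (conjRep (QuotientGroup.mk h) (p2 ρ.1)) = fun i => cj h (vg (p2 ρ.1) i) := by
      ext i : 1; exact vg_conj h _ i
    rw [this, sgn_cj h.ne_zero, g2]
  choose h h' hpair hmk using fun i : Fin 4 => hval (Y i)
  have l1 := sgn_of_lifts hΩ'.1 h (fun i => congrArg Prod.fst (hmk i))
  have l2 := sgn_of_lifts hΩ'.2 h' (fun i => congrArg Prod.snd (hmk i))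
  rw [g1', one_smul] at l1
  rw [g2', neg_smul, one_smul] at l2
  have hq : ∀ i, QPair (h i : ℍ[ℝ]) (h' i : ℍ[ℝ]) := hpair
  have q1 := (((hq 0).mul (hq 1)).mul (hq 2)).mul (hq 3)
  have q2 := (((hq 3).mul (hq 2)).mul (hq 1)).mul (hq 0)
  have q3 := q1.sub q2
  rw [sub_eq_zero.2 l1, l2] at q3
  have q4 := q3.eq_zero
  have hne' : (h' 3 : ℍ[ℝ]) * h' 2 * h' 1 * h' 0 ≠ 0 :=
    mul_ne_zero (mul_ne_zero (mul_ne_zero (h' 3).ne_zero (h' 2).ne_zero) (h' 1).ne_zero)
      (h' 0).ne_zero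
  apply hne'
  have q5 : (2 : ℝ) • ((h' 3 : ℍ[ℝ]) * h' 2 * h' 1 * h' 0) = 0 := by
    rw [two_smul]
    have := congrArg Neg.neg q4
    rw [neg_zero] at this
    rw [← this]; abel
  exact (smul_eq_zero.1 q5).resolve_left two_ne_zero

end Pool.Agent.H225R3.Rat
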