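import Pool.Agent.H225R3.RepDef

/-! Regularity of the coordinates of words. -/

open Quaternion Topology

namespace Pool.Agent.H225R3.CV

/-- The coordinate functions of `PGL₁(ℍ)`. -/
noncomputable def coordPH : Fin 4 × Fin 4 → PH → ℝ := fun p => coord p.1 p.2

/-- structure constants of the quaternions -/
def sc : Fin 4 → Fin 4 → Fin 4 → ℝ :=
  ![![![1, 0, 0, 0], ![0, -1, 0, 0], ![0, 0, -1, 0], ![0, 0, 0, -1]],
    ![![0, 1, 0, 0], ![1, 0, 0, 0], ![0, 0, 0, 1], ![0, 0, -1, 0]],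
    ![![0, 0, 1, 0], ![0, 0, 0, -1], ![1, 0, 0, 0], ![0, 1, 0, 0]],
    ![![0, 0, 0, 1], ![0, 0, 1, 0], ![0, -1, 0, 0], ![1, 0, 0, 0]]]

lemma comp_mul (p q : ℍ[ℝ]) (i : Fin 4) :
    comp (p * q) i = ∑ k, ∑ l, sc i k l * (comp p k * comp q l) := by
  fin_cases i <;> simp [comp, sc, Fin.sum_univ_four] <;> ring

/-- signs of the conjugation -/
def sg : Fin 4 → ℝ := ![1, -1, -1, -1]

lemma comp_inv (p : ℍ[ℝ]) (i : Fin 4) : comp (p⁻¹) i = sg i * comp p i / normSq p := by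
  rw [Quaternion.inv_def]
  fin_cases i <;> simp [comp, sg] <;> ring

lemma coord_mul (y z : PH) (i j : Fin 4) : coord i j (y * z) =
    ∑ k, ∑ l, ∑ k', ∑ l', sc i k l * sc j k' l' * (coord k k' y * coord l l' z) := by
  obtain ⟨p, rfl⟩ := QuotientGroup.mk_surjective y
  obtain ⟨q, rfl⟩ := QuotientGroup.mk_surjective z
  rw [← QuotientGroup.mk_mul, coord_mk, Units.val_mul, comp_mul, comp_mul, map_mul,
    Finset.sum_mul, Finset.sum_div]
  refine Finset.sum_congr rfl fun k _ => ?_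
  rw [Finset.sum_mul, Finset.sum_div]
  refine Finset.sum_congr rfl fun l _ => ?_
  rw [Finset.mul_sum, Finset.sum_div]
  refine Finset.sum_congr rfl fun k' _ => ?_
  rw [Finset.mul_sum, Finset.sum_div]
  refine Finset.sum_congr rfl fun l' _ => ?_
  rw [coord_mk, coord_mk]
  have := normSq_ne p
  have := normSq_ne q
  field_simp

lemma coord_inv (y : PH) (i j : Fin 4) : coord i j y⁻¹ = sg i * sg j * coord i j y := by
  obtain ⟨p, rfl⟩ := QuotientGroup.mk_surjective y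
  rw [← QuotientGroup.mk_inv, coord_mk, coord_mk, Units.val_inv_eq_inv_val, comp_inv, comp_inv,
    map_inv₀]
  have := normSq_ne p
  field_simp

lemma coord_one (i j : Fin 4) : coord i j (1 : PH) = sg i * sg j * (coord i j (1 : PH)) := by
  conv_lhs => rw [← inv_one, coord_inv]

variable {g : ℕ}

/-- Coordinates of the value at a group element are regular. -/
lemma coord_mem (γ : SurfaceGroup g) (i j : Fin 4) :
    (fun ρ : Rep g PH => coord i j (ρ γ)) ∈ regularFunctions g coordPH := by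
  obtain ⟨w, rfl⟩ := PresentedGroup.mk_surjective _ γ
  induction w using FreeGroup.induction_on generalizing i j with
  | C1 =>
    have : (fun ρ : Rep g PH => coord i j (ρ ((PresentedGroup.mk {surfaceRel g}) 1))) =
        algebraMap ℝ (Rep g PH → ℝ) (coord i j 1) := by
      ext ρ; simp
    rw [this]
    exact Subalgebra.algebraMap_mem _ _
  | of x => exact Algebra.subset_adjoin ⟨x, (i, j), rfl⟩
  | inv_of x h =>
    have : (fun ρ : Rep g PH => coord i j (ρ ((PresentedGroup.mk {surfaceRel g})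
        (FreeGroup.of x)⁻¹))) = (sg i * sg j) • fun ρ : Rep g PH => coord i j
          (ρ ((PresentedGroup.mk {surfaceRel g}) (FreeGroup.of x))) := by
      ext ρ; simp [coord_inv]
    rw [this]
    exact Subalgebra.smul_mem _ (h i j) _
  | mul x y hx hy =>
    have : (fun ρ : Rep g PH => coord i j (ρ ((PresentedGroup.mk {surfaceRel g}) (x * y)))) =
        ∑ k, ∑ l, ∑ k', ∑ l', (sc i k l * sc j k' l') •
          ((fun ρ : Rep g PH => coord k k' (ρ ((PresentedGroup.mk {surfaceRel g}) x))) *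
          (fun ρ : Rep g PH => coord l l' (ρ ((PresentedGroup.mk {surfaceRel g}) y)))) := by
      ext ρ
      simp only [map_mul, coord_mul, Finset.sum_apply, Pi.smul_apply, Pi.mul_apply, smul_eq_mul]
    rw [this]
    refine Subalgebra.sum_mem _ fun k _ => Subalgebra.sum_mem _ fun l _ =>
      Subalgebra.sum_mem _ fun k' _ => Subalgebra.sum_mem _ fun l' _ => Subalgebra.smul_mem _
        (Subalgebra.mul_mem _ (hx k k') (hy l l')) _

/-- A quaternion valued function with regular components. -/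
def RegQ (f : Rep g PH → ℍ[ℝ]) : Prop :=
  (fun ρ => (f ρ).re) ∈ regularFunctions g coordPH ∧
  (fun ρ => (f ρ).imI) ∈ regularFunctions g coordPH ∧
  (fun ρ => (f ρ).imJ) ∈ regularFunctions g coordPH ∧
  (fun ρ => (f ρ).imK) ∈ regularFunctions g coordPH

lemma RegQ.add {f h : Rep g PH → ℍ[ℝ]} (hf : RegQ f) (hh : RegQ h) : RegQ (fun ρ => f ρ + h ρ) :=
  ⟨Subalgebra.add_mem _ hf.1 hh.1, Subalgebra.add_mem _ hf.2.1 hh.2.1,
    Subalgebra.add_mem _ hf.2.2.1 hh.2.2.1, Subalgebra.add_mem _ hf.2.2.2 hh.2.2.2⟩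

lemma RegQ.smul {s : Rep g PH → ℝ} {f : Rep g PH → ℍ[ℝ]} (hs : s ∈ regularFunctions g coordPH)
    (hf : RegQ f) : RegQ (fun ρ => s ρ • f ρ) :=
  ⟨Subalgebra.mul_mem _ hs hf.1, Subalgebra.mul_mem _ hs hf.2.1,
    Subalgebra.mul_mem _ hs hf.2.2.1, Subalgebra.mul_mem _ hs hf.2.2.2⟩

lemma RegQ.mul {f h : Rep g PH → ℍ[ℝ]} (hf : RegQ f) (hh : RegQ h) :
    RegQ (fun ρ => f ρ * h ρ) := by
  obtain ⟨f0, f1, f2, f3⟩ := hf
  obtain ⟨h0, h1, h2, h3⟩ := hh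
  refine ⟨?_, ?_, ?_, ?_⟩
  · convert Subalgebra.sub_mem _ (Subalgebra.sub_mem _ (Subalgebra.sub_mem _
      (Subalgebra.mul_mem _ f0 h0) (Subalgebra.mul_mem _ f1 h1)) (Subalgebra.mul_mem _ f2 h2))
      (Subalgebra.mul_mem _ f3 h3) using 1
    ext ρ; simp
  · convert Subalgebra.sub_mem _ (Subalgebra.add_mem _ (Subalgebra.add_mem _
      (Subalgebra.mul_mem _ f0 h1) (Subalgebra.mul_mem _ f1 h0)) (Subalgebra.mul_mem _ f2 h3))
      (Subalgebra.mul_mem _ f3 h2) using 1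
    ext ρ; simp
  · convert Subalgebra.add_mem _ (Subalgebra.add_mem _ (Subalgebra.sub_mem _
      (Subalgebra.mul_mem _ f0 h2) (Subalgebra.mul_mem _ f1 h3)) (Subalgebra.mul_mem _ f2 h0))
      (Subalgebra.mul_mem _ f3 h1) using 1
    ext ρ; simp
  · convert Subalgebra.add_mem _ (Subalgebra.sub_mem _ (Subalgebra.add_mem _
      (Subalgebra.mul_mem _ f0 h3) (Subalgebra.mul_mem _ f1 h2)) (Subalgebra.mul_mem _ f2 h1))
      (Subalgebra.mul_mem _ f3 h0) using 1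
    ext ρ; simp

lemma RegQ.cr {f h : Rep g PH → ℍ[ℝ]} (hf : RegQ f) (hh : RegQ h) :
    RegQ (fun ρ => CV.cr (f ρ) (h ρ)) := by
  obtain ⟨-, h1, h2, h3⟩ := hf.mul hh
  refine ⟨?_, ?_, ?_, ?_⟩
  · have : (fun ρ => (CV.cr (f ρ) (h ρ)).re) = 0 := by ext ρ; simp [CV.cr]
    rw [this]; exact Subalgebra.zero_mem _
  · simpa [CV.cr] using h1
  · simpa [CV.cr] using h2
  · simpa [CV.cr] using h3

lemma RegQ.dot {f h : Rep g PH → ℍ[ℝ]} (hf : RegQ f) (hh : RegQ h) :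
    (fun ρ => CV.dot (f ρ) (h ρ)) ∈ regularFunctions g coordPH := by
  obtain ⟨h0, -⟩ := hf.mul hh
  exact Subalgebra.neg_mem _ h0

/-- The regular vector `s • gib` -/
noncomputable def pv (y : PH) : ℍ[ℝ] := mkQ 0 (coord 0 1 y) (coord 0 2 y) (coord 0 3 y)

lemma pv_eq (y : PH) : pv y = coord 0 0 y • gib y := by
  obtain ⟨h, rfl⟩ := QuotientGroup.mk_surjective y
  have hn := normSq_ne h
  rw [gib_mk, pv]
  simp only [coord_mk, comp]
  rcases eq_or_ne (h : ℍ[ℝ]).re 0 with h0 | h0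
  · ext <;> simp [h0]
  · ext <;> simp <;> field_simp

lemma regQ_pv (γ : SurfaceGroup g) : RegQ (fun ρ : Rep g PH => pv (ρ γ)) :=
  ⟨Subalgebra.zero_mem _, coord_mem γ 0 1, coord_mem γ 0 2, coord_mem γ 0 3⟩

/-! ### The open set -/

/-- The conditions defining `Ω`, for four rotations with Gibbs vectors `a, b, c, d`: no rotation by
`π`, `a` and `b` independent, `w₊ ≠ 0` and `w₋ ≠ 0`. -/
def Good (ρ : Rep 2 PH) : Prop :=
  (∀ i, coord 0 0 (ρ (Y i)) ≠ 0) ∧ CV.cr (gib (ρ (Y 0))) (gib (ρ (Y 1))) ≠ 0 ∧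
    wp (gib (ρ (Y 0))) (gib (ρ (Y 1))) (gib (ρ (Y 2))) ≠ 0 ∧
    wm (gib (ρ (Y 0))) (gib (ρ (Y 1))) (gib (ρ (Y 2))) ≠ 0

/-- one regular function whose nonvanishing defines `Good` -/
noncomputable def bigF (ρ : Rep 2 PH) : ℝ :=
  let s : Fin 4 → ℝ := fun i => coord 0 0 (ρ (Y i))
  let p : Fin 4 → ℍ[ℝ] := fun i => pv (ρ (Y i))
  let u := CV.cr (p 0) (p 1)
  let v := (s 1 * s 2 + (-1) * CV.dot (p 1) (p 2)) • p 0 + (s 0 * s 2 + CV.dot (p 0) (p 2)) • p 1 +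
    (s 0 * s 1 + (-1) * CV.dot (p 0) (p 1)) • p 2
  let w := (s 2) • CV.cr (p 0) (p 1) + (s 0) • CV.cr (p 1) (p 2) + (s 1) • CV.cr (p 0) (p 2)
  s 0 * s 1 * s 2 * s 3 * CV.dot u u * CV.dot v v * CV.dot w w

lemma bigF_mem : bigF ∈ regularFunctions 2 coordPH := by
  have hs : ∀ i : Fin 4, (fun ρ : Rep 2 PH => coord 0 0 (ρ (Y i))) ∈ regularFunctions 2 coordPH :=
    fun i => coord_mem (Y i) 0 0
  have hp : ∀ i : Fin 4, RegQ (fun ρ : Rep 2 PH => pv (ρ (Y i))) := fun i => regQ_pv (Y i)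
  have hss : ∀ i j : Fin 4, (fun ρ : Rep 2 PH => coord 0 0 (ρ (Y i)) * coord 0 0 (ρ (Y j))) ∈
      regularFunctions 2 coordPH := fun i j => Subalgebra.mul_mem _ (hs i) (hs j)
  have hneg : ∀ i j : Fin 4, (fun ρ : Rep 2 PH => (-1) * CV.dot (pv (ρ (Y i))) (pv (ρ (Y j)))) ∈
      regularFunctions 2 coordPH := fun i j => by
    have := Subalgebra.neg_mem _ ((hp i).dot (hp j))
    convert this using 1
    ext ρ; simp
  have hu := (hp 0).cr (hp 1)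
  have hv := ((RegQ.smul (Subalgebra.add_mem _ (hss 1 2) (hneg 1 2)) (hp 0)).add
    (RegQ.smul (Subalgebra.add_mem _ (hss 0 2) ((hp 0).dot (hp 2))) (hp 1))).add
    (RegQ.smul (Subalgebra.add_mem _ (hss 0 1) (hneg 0 1)) (hp 2))
  have hw := ((RegQ.smul (hs 2) ((hp 0).cr (hp 1))).add
    (RegQ.smul (hs 0) ((hp 1).cr (hp 2)))).add (RegQ.smul (hs 1) ((hp 0).cr (hp 2)))
  exact Subalgebra.mul_mem _ (Subalgebra.mul_mem _ (Subalgebra.mul_mem _ (Subalgebra.mul_mem _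
    (Subalgebra.mul_mem _ (Subalgebra.mul_mem _ (hs 0) (hs 1)) (hs 2)) (hs 3)) (hu.dot hu))
    (hv.dot hv)) (hw.dot hw)

lemma cr_smul_smul (s t : ℝ) (x y : ℍ[ℝ]) : CV.cr (s • x) (t • y) = (s * t) • CV.cr x y := by
  ext <;> simp [CV.cr] <;> ring
lemma dot_smul_smul (s t : ℝ) (x y : ℍ[ℝ]) : CV.dot (s • x) (t • y) = (s * t) * CV.dot x y := by
  simp [CV.dot]; ring

lemma bigF_ne_iff (ρ : Rep 2 PH) : bigF ρ ≠ 0 ↔ Good ρ := by
  unfold bigF Good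
  simp only [pv_eq]
  set s : Fin 4 → ℝ := fun i => coord 0 0 (ρ (Y i)) with hs
  set v : Fin 4 → ℍ[ℝ] := fun i => gib (ρ (Y i)) with hv
  have hv0 : ∀ i, (v i).re = 0 := fun i => gib_re _
  have e1 : CV.cr (s 0 • v 0) (s 1 • v 1) = (s 0 * s 1) • CV.cr (v 0) (v 1) := cr_smul_smul _ _ _ _
  have e2 : (s 1 * s 2 + (-1) * CV.dot (s 1 • v 1) (s 2 • v 2)) • (s 0 • v 0) +
      (s 0 * s 2 + CV.dot (s 0 • v 0) (s 2 • v 2)) • (s 1 • v 1) +
      (s 0 * s 1 + (-1) * CV.dot (s 0 • v 0) (s 1 • v 1)) • (s 2 • v 2) =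
      (s 0 * s 1 * s 2) • wp (v 0) (v 1) (v 2) := by
    simp only [dot_smul_smul, wp]
    ext <;> simp <;> ring
  have e3 : (s 2) • CV.cr (s 0 • v 0) (s 1 • v 1) + (s 0) • CV.cr (s 1 • v 1) (s 2 • v 2) +
      (s 1) • CV.cr (s 0 • v 0) (s 2 • v 2) = (s 0 * s 1 * s 2) • wm (v 0) (v 1) (v 2) := by
    simp only [cr_smul_smul, wm]
    ext <;> simp <;> ring
  have key : s 0 * s 1 * s 2 * s 3 *
      CV.dot (CV.cr (s 0 • v 0) (s 1 • v 1)) (CV.cr (s 0 • v 0) (s 1 • v 1)) *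
      CV.dot ((s 1 * s 2 + (-1) * CV.dot (s 1 • v 1) (s 2 • v 2)) • (s 0 • v 0) +
        (s 0 * s 2 + CV.dot (s 0 • v 0) (s 2 • v 2)) • (s 1 • v 1) +
        (s 0 * s 1 + (-1) * CV.dot (s 0 • v 0) (s 1 • v 1)) • (s 2 • v 2))
        ((s 1 * s 2 + (-1) * CV.dot (s 1 • v 1) (s 2 • v 2)) • (s 0 • v 0) +
        (s 0 * s 2 + CV.dot (s 0 • v 0) (s 2 • v 2)) • (s 1 • v 1) +
        (s 0 * s 1 + (-1) * CV.dot (s 0 • v 0) (s 1 • v 1)) • (s 2 • v 2)) *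
      CV.dot ((s 2) • CV.cr (s 0 • v 0) (s 1 • v 1) + (s 0) • CV.cr (s 1 • v 1) (s 2 • v 2) +
        (s 1) • CV.cr (s 0 • v 0) (s 2 • v 2)) ((s 2) • CV.cr (s 0 • v 0) (s 1 • v 1) +
        (s 0) • CV.cr (s 1 • v 1) (s 2 • v 2) + (s 1) • CV.cr (s 0 • v 0) (s 2 • v 2)) ≠ 0 ↔
      (∀ i, s i ≠ 0) ∧ CV.cr (v 0) (v 1) ≠ 0 ∧ wp (v 0) (v 1) (v 2) ≠ 0 ∧
        wm (v 0) (v 1) (v 2) ≠ 0 := by
    rw [e3, e2, e1]
    simp only [dot_smul_smul]
    have f1 : CV.dot (CV.cr (v 0) (v 1)) (CV.cr (v 0) (v 1)) ≠ 0 ↔ CV.cr (v 0) (v 1) ≠ 0 :=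
      (dot_self_eq_zero (cr_re _ _)).not
    have f2 : CV.dot (wp (v 0) (v 1) (v 2)) (wp (v 0) (v 1) (v 2)) ≠ 0 ↔
        wp (v 0) (v 1) (v 2) ≠ 0 :=
      (dot_self_eq_zero (wp_re (hv0 0) (hv0 1) (hv0 2))).not
    have f3 : CV.dot (wm (v 0) (v 1) (v 2)) (wm (v 0) (v 1) (v 2)) ≠ 0 ↔
        wm (v 0) (v 1) (v 2) ≠ 0 :=
      (dot_self_eq_zero wm_re).not
    rw [← f1, ← f2, ← f3, Fin.forall_fin_succ, Fin.forall_fin_succ, Fin.forall_fin_succ,
      Fin.forall_fin_one]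
    simp only [ne_eq, mul_eq_zero, not_or]
    constructor
    · rintro ⟨⟨⟨⟨⟨⟨h0, h1⟩, h2⟩, h3⟩, -, h4⟩, -, h5⟩, -, h6⟩
      exact ⟨⟨h0, h1, h2, h3⟩, h4, h5, h6⟩
    · rintro ⟨⟨h0, h1, h2, h3⟩, h4, h5, h6⟩
      have h1' : ¬ s 1 = 0 := h1
      have h2' : ¬ s 2 = 0 := h2
      have h3' : ¬ s 3 = 0 := h3
      simp_all
  exact key

end Pool.Agent.H225R3.CV
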