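import Pool.Agent.H225R3.PH

/-! Lemmas on representation spaces; the octagon generators in genus two. -/

open Quaternion Topology

namespace Pool.Agent.H225R3.CV

section lemmas
variable {g : ℕ} {G : Type} [Group G]

@[simp] lemma conjRep_apply (k : G) (ρ : Rep g G) (γ : SurfaceGroup g) :
    conjRep k ρ γ = k * ρ γ * k⁻¹ := by
  simp [conjRep]

lemma Rep.ext' {ρ ρ' : Rep g G} (h : ∀ x, ρ (gen x) = ρ' (gen x)) : ρ = ρ' :=
  PresentedGroup.ext h

lemma continuous_app_gen [TopologicalSpace G] (x : Fin g ⊕ Fin g) :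
    Continuous fun ρ : Rep g G => ρ (gen x) :=
  (continuous_apply x).comp (continuous_induced_dom
    (f := fun (ρ : SurfaceGroup g →* G) (x : Fin g ⊕ Fin g) => ρ (gen x)))

lemma continuous_app [TopologicalSpace G] [IsTopologicalGroup G] (γ : SurfaceGroup g) :
    Continuous fun ρ : Rep g G => ρ γ := by
  obtain ⟨w, rfl⟩ := PresentedGroup.mk_surjective _ γ
  induction w using FreeGroup.induction_on with
  | C1 => simpa using continuous_const
  | of x => exact continuous_app_gen x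
  | inv_of x h =>
    simp only [map_inv]
    exact h.inv
  | mul x y hx hy =>
    simp only [map_mul]
    exact hx.mul hy
end lemmas

/-! ### genus two and the octagon generators -/

section genus2
variable {G : Type} [Group G]

/-- The octagon generators: `Y 0 = a₁a₂`, `Y 1 = a₂⁻¹b₁`, `Y 2 = a₂b₂⁻¹`, `Y 3 = b₂`. -/
def Y : Fin 4 → SurfaceGroup 2 :=
  ![gen (Sum.inl 0) * gen (Sum.inl 1), (gen (Sum.inl 1))⁻¹ * gen (Sum.inr 0),
    gen (Sum.inl 1) * (gen (Sum.inr 1))⁻¹, gen (Sum.inr 1)]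

lemma surfaceRel_two : surfaceRel 2 =
    (FreeGroup.of (Sum.inl 0) * FreeGroup.of (Sum.inr 0) *
      (FreeGroup.of (Sum.inl 0))⁻¹ * (FreeGroup.of (Sum.inr 0))⁻¹) *
    (FreeGroup.of (Sum.inl 1) * FreeGroup.of (Sum.inr 1) *
      (FreeGroup.of (Sum.inl 1))⁻¹ * (FreeGroup.of (Sum.inr 1))⁻¹) := by
  simp [surfaceRel, List.ofFn_succ]

lemma gen_rel : ((gen (Sum.inl 0) : SurfaceGroup 2) * gen (Sum.inr 0) *
      (gen (Sum.inl 0))⁻¹ * (gen (Sum.inr 0))⁻¹) *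
    (gen (Sum.inl 1) * gen (Sum.inr 1) * (gen (Sum.inl 1))⁻¹ * (gen (Sum.inr 1))⁻¹) = 1 := by
  have h : (PresentedGroup.mk ({surfaceRel 2} : Set _)) (surfaceRel 2) = 1 :=
    PresentedGroup.one_of_mem rfl
  have h2 := congrArg (PresentedGroup.mk ({surfaceRel 2} : Set (FreeGroup (Fin 2 ⊕ Fin 2))))
    surfaceRel_two
  rw [h] at h2
  simp only [map_mul, map_inv] at h2
  exact h2.symm

lemma Y_rel : Y 0 * Y 1 * Y 2 * Y 3 = Y 3 * Y 2 * Y 1 * Y 0 := by
  have h := gen_rel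
  simp only [Y, Matrix.cons_val]
  have h1 : gen (Sum.inl 0) * (gen (Sum.inr 0) : SurfaceGroup 2) =
      gen (Sum.inr 1) * gen (Sum.inl 1) * (gen (Sum.inr 1))⁻¹ * (gen (Sum.inl 1))⁻¹ *
        gen (Sum.inr 0) * gen (Sum.inl 0) := by
    have h2 := eq_inv_of_mul_eq_one_left h
    calc gen (Sum.inl 0) * (gen (Sum.inr 0) : SurfaceGroup 2)
        = (gen (Sum.inl 0) * gen (Sum.inr 0) * (gen (Sum.inl 0))⁻¹ * (gen (Sum.inr 0))⁻¹) *
          (gen (Sum.inr 0) * gen (Sum.inl 0)) := by group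
      _ = _ := by rw [h2]; group
  calc _ = gen (Sum.inl 0) * (gen (Sum.inr 0) : SurfaceGroup 2) * gen (Sum.inl 1) := by group
    _ = _ := by rw [h1]; group

/-- The representation with prescribed values on the octagon generators. -/
def mkRep (y : Fin 4 → G) (h : y 0 * y 1 * y 2 * y 3 = y 3 * y 2 * y 1 * y 0) : Rep 2 G :=
  (PresentedGroup.toGroup (f := Sum.elim ![y 0 * (y 2 * y 3)⁻¹, y 2 * y 3]
    ![y 2 * y 3 * y 1, y 3]) (by
      intro r hr
      rw [Set.mem_singleton_iff] at hr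
      subst hr
      rw [surfaceRel_two]
      simp only [map_mul, map_inv, FreeGroup.lift_apply_of, Sum.elim_inl,
        Sum.elim_inr, Matrix.cons_val]
      have h1 : y 0 * y 1 * y 2 * y 3 * (y 3 * y 2 * y 1 * y 0)⁻¹ = 1 := by rw [h, mul_inv_cancel]
      calc _ = y 0 * y 1 * y 2 * y 3 * (y 3 * y 2 * y 1 * y 0)⁻¹ := by group
        _ = 1 := h1) : SurfaceGroup 2 →* G)

lemma mkRep_gen (y : Fin 4 → G) (h : y 0 * y 1 * y 2 * y 3 = y 3 * y 2 * y 1 * y 0)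
    (x : Fin 2 ⊕ Fin 2) : mkRep y h (gen x) = Sum.elim ![y 0 * (y 2 * y 3)⁻¹, y 2 * y 3]
    ![y 2 * y 3 * y 1, y 3] x := PresentedGroup.toGroup.of _

lemma mkRep_Y (y : Fin 4 → G) (h : y 0 * y 1 * y 2 * y 3 = y 3 * y 2 * y 1 * y 0)
    (i : Fin 4) : mkRep y h (Y i) = y i := by
  fin_cases i <;> simp [Y, mkRep_gen, mul_assoc]

lemma app_gen_eq (ρ : Rep 2 G) (x : Fin 2 ⊕ Fin 2) : ρ (gen x) =
    Sum.elim ![ρ (Y 0) * (ρ (Y 2) * ρ (Y 3))⁻¹, ρ (Y 2) * ρ (Y 3)]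
    ![ρ (Y 2) * ρ (Y 3) * ρ (Y 1), ρ (Y 3)] x := by
  rcases x with x | x <;> fin_cases x <;> simp [Y, mul_assoc]

lemma Rep.ext_Y {ρ ρ' : Rep 2 G} (h : ∀ i, ρ (Y i) = ρ' (Y i)) : ρ = ρ' := by
  refine Rep.ext' fun x => ?_
  rw [app_gen_eq, app_gen_eq]
  simp only [h]
end genus2

end Pool.Agent.H225R3.CV
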