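import Pool.Agent.H225R3.Defs

/-!
`G = PGL₁(ℍ_ℚ)` (`ℍ_ℚ` the Hamilton quaternions over `ℚ`), a connected semisimple group over `ℚ`
with `G(ℝ) = PGL₁(ℍ)(ℝ) = ℍˣ/ℝˣ ≅ SO(3)`; `S` is the closed orientable surface of genus two.
-/

open Quaternion Topology
open scoped ContDiff Classical

namespace Pool.Agent.H225R3.Scc

open Pool.Agent.H225R3.CV

/-- The generators `h ↦ h_i h_j / N(h)` of the coordinate ring of `G`. -/
noncomputable def coordP : Fin 4 × Fin 4 → PH → ℝ := fun p => coord p.1 p.2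

/-- The standard generator `a₁`. -/
def A₁ : SurfaceGroup 2 := gen (Sum.inl 0)
/-- The standard generator `b₁`. -/
def B₁ : SurfaceGroup 2 := gen (Sum.inr 0)
/-- The standard generator `a₂`. -/
def A₂ : SurfaceGroup 2 := gen (Sum.inl 1)
/-- The standard generator `b₂`. -/
def B₂ : SurfaceGroup 2 := gen (Sum.inr 1)
/-- The curve `c = b₁⁻¹a₂b₂a₂⁻¹`; it meets `a₁` and `a₂` once and is disjoint from `b₁`, `b₂`. -/
def C : SurfaceGroup 2 := B₁⁻¹ * A₂ * B₂ * A₂⁻¹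
/-- The separating curve `[a₁,b₁]`. -/
def Sep : SurfaceGroup 2 := A₁ * B₁ * A₁⁻¹ * B₁⁻¹

/-- `φ` maps `a₁, b₁, a₂, b₂` to `x, y, z, w`. -/
def Maps (φ : MulAut (SurfaceGroup 2)) (x y z w : SurfaceGroup 2) : Prop :=
  φ A₁ = x ∧ φ B₁ = y ∧ φ A₂ = z ∧ φ B₂ = w

/-- `φ` is the automorphism of `π₁(S)` induced by the Dehn twist about one of the five curves
`a₁, b₁, c, a₂, b₂`. These are Humphries' generators of the mapping class group in genus two. -/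
def IsTwist (φ : MulAut (SurfaceGroup 2)) : Prop :=
  Maps φ A₁ (B₁ * A₁) A₂ B₂ ∨ Maps φ (A₁ * B₁) B₁ A₂ B₂ ∨
    Maps φ (C * A₁) B₁ (A₂ * C⁻¹) (C * B₂ * C⁻¹) ∨
    Maps φ A₁ B₁ A₂ (B₂ * A₂) ∨ Maps φ A₁ B₁ (A₂ * B₂) B₂

/-- The group of automorphisms of `π₁(S)` induced by orientation preserving homeomorphisms,
generated by Humphries' Dehn twists and the inner automorphisms. -/
def ModGroup : Subgroup (MulAut (SurfaceGroup 2)) :=
  Subgroup.closure ({φ | IsTwist φ} ∪ Set.range MulAut.conj)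

/-- `γ ∈ π₁(S)` is represented by a simple closed curve: it is trivial, or up to inversion the
image of the nonseparating curve `a₁` or of the separating curve `[a₁,b₁]` under an orientation
preserving homeomorphism (change of coordinates principle). -/
def IsSimple (γ : SurfaceGroup 2) : Prop :=
  γ = 1 ∨ ∃ φ ∈ ModGroup, γ = φ A₁ ∨ γ = (φ A₁)⁻¹ ∨ γ = φ Sep ∨ γ = (φ Sep)⁻¹

/-- `f : G(ℝ) → ℝ` is differentiable and invariant under conjugation. -/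
def IsDiffClass (f : PH → ℝ) : Prop :=
  (∀ k g : PH, f (k * g * k⁻¹) = f g) ∧ ∀ q : HU, DifferentiableAt ℝ
    (fun p : ℍ[ℝ] => if h : p = 0 then 0 else f (QuotientGroup.mk (Units.mk0 p h))) (q : ℍ[ℝ])

/-- `q` lifts `ρ`: the quaternion `q x` represents the image of the generator `x`. -/
def IsLift (q : Fin 2 ⊕ Fin 2 → ℍ[ℝ]) (ρ : Rep 2 PH) : Prop :=
  ∀ x, ∃ h : HU, (h : ℍ[ℝ]) = q x ∧ ρ (gen x) = QuotientGroup.mk h

/-- The homeomorphism `e` of `Ω/G(ℝ)` onto the open set `U` of `ℝ⁶` is a diffeomorphism for the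
natural smooth structure: the coordinates of `[ρ]` are smooth functions of the images of the
generators, and `e⁻¹` has a smooth lift `U → Ω`. -/
structure IsNaturalChart {Ω : Set (Rep 2 PH)} {U : Set (Fin 6 → ℝ)} (e : Quo Ω ≃ₜ U) : Prop where
  isOpen : IsOpen U
  smooth_coord : ∃ Ψ : (Fin 2 ⊕ Fin 2 → ℍ[ℝ]) → (Fin 6 → ℝ), ∀ (ρ : Ω) (q), IsLift q ρ.1 →
    ContDiffAt ℝ ∞ Ψ q ∧ Ψ q = e (Quotient.mk _ ρ)
  smooth_lift : ∃ σ : (Fin 6 → ℝ) → (Fin 2 ⊕ Fin 2 → ℍ[ℝ]), ContDiffOn ℝ ∞ σ U ∧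
    ∀ u : U, ∃ ρ : Ω, IsLift (σ u) ρ.1 ∧ (Quotient.mk _ ρ : Quo Ω) = e.symm u

/-- The function `f_γ : [ρ] ↦ f(ρ(γ))` on `Ω/G(ℝ)` in the coordinates `e`. -/
noncomputable def fCoord {Ω : Set (Rep 2 PH)} {U : Set (Fin 6 → ℝ)} (e : Quo Ω ≃ₜ U)
    (f : PH → ℝ) (γ : SurfaceGroup 2) : (Fin 6 → ℝ) → ℝ :=
  fun u => if h : u ∈ U then f ((Quotient.out (e.symm ⟨u, h⟩)).1 γ) else 0

/-- The collection `F` is spanning on `X`: at every point of `X` the differentials of the functions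
`f_γ`, for `f ∈ F` and `γ` simple, span the cotangent space. -/
def IsSpanning {Ω : Set (Rep 2 PH)} {U : Set (Fin 6 → ℝ)} (e : Quo Ω ≃ₜ U) (X : Set (Quo Ω))
    (F : Set (PH → ℝ)) : Prop :=
  ∀ y ∈ X, Submodule.span ℝ {ℓ : (Fin 6 → ℝ) →L[ℝ] ℝ | ∃ f ∈ F, ∃ γ, IsSimple γ ∧
    HasFDerivAt (fCoord e f γ) ℓ (e y)} = ⊤

end Pool.Agent.H225R3.Scc
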