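import Pool.Agent.H225R3.SccDefs
import Pool.Agent.H225R3.RepDef

/-! The hyperelliptic involution preserves simple curves up to conjugation and inversion. -/

open Quaternion Topology

namespace Pool.Agent.H225R3.Scc

open Pool.Agent.H225R3.CV

lemma A₁_eq : A₁ = Y 0 * (Y 2 * Y 3)⁻¹ := by simp [A₁, Y, mul_assoc]
lemma A₂_eq : A₂ = Y 2 * Y 3 := by simp [A₂, Y]
lemma B₁_eq : B₁ = Y 2 * Y 3 * Y 1 := by simp [B₁, Y, mul_assoc]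
lemma B₂_eq : B₂ = Y 3 := by simp [B₂, Y]
lemma Y0_eq : Y 0 = A₁ * A₂ := rfl
lemma Y1_eq : Y 1 = A₂⁻¹ * B₁ := rfl
lemma Y2_eq : Y 2 = A₂ * B₂⁻¹ := rfl
lemma Y3_eq : Y 3 = B₂ := rfl
lemma C_eq : C = (Y 1)⁻¹ * (Y 2)⁻¹ := by
  rw [C, B₁_eq, A₂_eq, B₂_eq]; group

lemma rel_inv : (Y 0)⁻¹ * (Y 1)⁻¹ * (Y 2)⁻¹ * (Y 3)⁻¹ = (Y 3)⁻¹ * (Y 2)⁻¹ * (Y 1)⁻¹ * (Y 0)⁻¹ := by
  have h := congrArg (fun x => x⁻¹) Y_rel
  simp only [mul_inv_rev] at h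
  simpa [mul_assoc] using h.symm

/-- the hyperelliptic involution -/
def iota : SurfaceGroup 2 →* SurfaceGroup 2 := mkRep (fun i => (Y i)⁻¹) rel_inv

@[simp] lemma iota_Y (i : Fin 4) : iota (Y i) = (Y i)⁻¹ := mkRep_Y _ _ i

/-- `φ` commutes with `iota` up to the inner automorphism of `δ`. -/
def Comm (φ : MulAut (SurfaceGroup 2)) : Prop := ∃ δ, ∀ x, iota (φ x) = δ * φ (iota x) * δ⁻¹

lemma comm_of_Y {φ : MulAut (SurfaceGroup 2)} (δ : SurfaceGroup 2)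
    (h : ∀ i, iota (φ (Y i)) = δ * φ ((Y i)⁻¹) * δ⁻¹) : Comm φ := by
  refine ⟨δ, fun x => ?_⟩
  have : (iota.comp φ.toMonoidHom : Rep 2 (SurfaceGroup 2)) =
      (MulAut.conj δ).toMonoidHom.comp (φ.toMonoidHom.comp iota) := by
    refine Rep.ext_Y fun i => ?_
    simpa using h i
  have h2 := DFunLike.congr_fun this x
  simpa using h2

lemma comm_mul {φ ψ : MulAut (SurfaceGroup 2)} (h1 : Comm φ) (h2 : Comm ψ) : Comm (φ * ψ) := by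
  obtain ⟨δ, hδ⟩ := h1
  obtain ⟨ε, hε⟩ := h2
  refine ⟨δ * φ ε, fun x => ?_⟩
  rw [MulAut.mul_apply, hδ, hε, MulAut.mul_apply]
  simp only [map_mul, map_inv, mul_inv_rev, mul_assoc]

lemma comm_inv {φ : MulAut (SurfaceGroup 2)} (h1 : Comm φ) : Comm φ⁻¹ := by
  obtain ⟨δ, hδ⟩ := h1
  refine ⟨φ⁻¹ δ⁻¹, fun x => ?_⟩
  have h := hδ (φ⁻¹ x)
  rw [MulAut.apply_inv_self] at h
  have h3 : φ (iota (φ⁻¹ x)) = δ⁻¹ * iota x * δ := by rw [h]; group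
  have h4 := congrArg (φ⁻¹ ·) h3
  simp only [MulAut.inv_apply_self] at h4
  rw [h4]
  simp only [map_mul, map_inv, inv_inv]

lemma comm_conj (g : SurfaceGroup 2) : Comm (MulAut.conj g) := by
  refine ⟨iota g * g⁻¹, fun x => ?_⟩
  simp only [MulAut.conj_apply, map_mul, map_inv]
  group

lemma rel_a : (Y 0)⁻¹ * Y 3 * Y 2 = Y 1 * Y 2 * Y 3 * (Y 0)⁻¹ * (Y 1)⁻¹ := by
  have h := Y_rel
  calc (Y 0)⁻¹ * Y 3 * Y 2 = (Y 0)⁻¹ * (Y 3 * Y 2 * Y 1 * Y 0) * (Y 0)⁻¹ * (Y 1)⁻¹ := by group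
    _ = _ := by rw [← h]; group

lemma comm_twist {φ : MulAut (SurfaceGroup 2)} (h : IsTwist φ) : Comm φ := by
  rcases h with ⟨h1, h2, h3, h4⟩ | ⟨h1, h2, h3, h4⟩ | ⟨h1, h2, h3, h4⟩ | ⟨h1, h2, h3, h4⟩ |
    ⟨h1, h2, h3, h4⟩
  · have e0 : φ (Y 0) = Y 0 := by rw [Y0_eq, map_mul, h1, h3]
    have e1 : φ (Y 1) = Y 1 * Y 0 * (Y 3)⁻¹ * (Y 2)⁻¹ := by
      rw [Y1_eq, map_mul, map_inv, h2, h3, A₁_eq, B₁_eq, A₂_eq]; group
    have e2 : φ (Y 2) = Y 2 := by rw [Y2_eq, map_mul, map_inv, h3, h4]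
    have e3 : φ (Y 3) = Y 3 := by rw [Y3_eq, h4]
    refine comm_of_Y 1 fun i => ?_
    rw [map_inv]
    fin_cases i
    · simp [e0]
    · simp only [Fin.mk_one, e1, map_mul, map_inv, iota_Y]
      have h := rel_a
      calc (Y 1)⁻¹ * (Y 0)⁻¹ * ((Y 3)⁻¹)⁻¹ * ((Y 2)⁻¹)⁻¹ = (Y 1)⁻¹ * ((Y 0)⁻¹ * Y 3 * Y 2) := by group
        _ = _ := by rw [h]; group
    · simp [e2]
    · simp [e3]
  · have e0 : φ (Y 0) = Y 0 * Y 1 * Y 2 * Y 3 := by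
      rw [Y0_eq, map_mul, h1, h3, A₁_eq, B₁_eq, A₂_eq]; group
    have e1 : φ (Y 1) = Y 1 := by rw [Y1_eq, map_mul, map_inv, h2, h3]
    have e2 : φ (Y 2) = Y 2 := by rw [Y2_eq, map_mul, map_inv, h3, h4]
    have e3 : φ (Y 3) = Y 3 := by rw [Y3_eq, h4]
    refine comm_of_Y 1 fun i => ?_
    rw [map_inv]
    fin_cases i
    · simp only [Fin.zero_eta, e0, map_mul, iota_Y]
      rw [rel_inv]; group
    · simp [e1]
    · simp [e2]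
    · simp [e3]
  · have e0 : φ (Y 0) = C * Y 0 * C⁻¹ := by
      rw [Y0_eq, map_mul, h1, h3]; group
    have e1 : φ (Y 1) = C * Y 1 := by
      rw [Y1_eq, map_mul, map_inv, h2, h3]; group
    have e2 : φ (Y 2) = Y 2 * C⁻¹ := by rw [Y2_eq, map_mul, map_inv, h3, h4]; group
    have e3 : φ (Y 3) = C * Y 3 * C⁻¹ := by rw [Y3_eq, h4]
    refine comm_of_Y (Y 1 * Y 2 * Y 2 * Y 1) fun i => ?_
    rw [map_inv]
    fin_cases i
    · simp only [Fin.zero_eta, e0, C_eq, map_mul, map_inv, iota_Y]; group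
    · simp only [Fin.mk_one, e1, C_eq, map_mul, map_inv, iota_Y]; group
    · simp only [Fin.reduceFinMk, e2, C_eq, map_mul, map_inv, iota_Y]; group
    · simp only [Fin.reduceFinMk, e3, C_eq, map_mul, map_inv, iota_Y]; group
  · have e0 : φ (Y 0) = Y 0 := by rw [Y0_eq, map_mul, h1, h3]
    have e1 : φ (Y 1) = Y 1 := by rw [Y1_eq, map_mul, map_inv, h2, h3]
    have e2 : φ (Y 2) = (Y 3)⁻¹ := by rw [Y2_eq, map_mul, map_inv, h3, h4, B₂_eq]; group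
    have e3 : φ (Y 3) = Y 3 * Y 2 * Y 3 := by rw [Y3_eq, h4, B₂_eq, A₂_eq]; group
    refine comm_of_Y 1 fun i => ?_
    rw [map_inv]
    fin_cases i
    · simp [e0]
    · simp [e1]
    · simp [e2]
    · simp [e3, mul_assoc]
  · have e0 : φ (Y 0) = Y 0 * Y 3 := by rw [Y0_eq, map_mul, h1, h3, Y3_eq]; group
    have e1 : φ (Y 1) = (Y 3)⁻¹ * Y 1 := by rw [Y1_eq, map_mul, map_inv, h2, h3, Y3_eq]; group
    have e2 : φ (Y 2) = Y 2 * Y 3 := by rw [Y2_eq, map_mul, map_inv, h3, h4, Y3_eq]; group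
    have e3 : φ (Y 3) = Y 3 := by rw [Y3_eq, h4]
    refine comm_of_Y (Y 3) fun i => ?_
    rw [map_inv]
    fin_cases i
    · simp [e0, mul_assoc]
    · simp [e1, mul_assoc]
    · simp [e2, mul_assoc]
    · simp [e3, mul_assoc]

lemma comm_of_mem {φ : MulAut (SurfaceGroup 2)} (h : φ ∈ ModGroup) : Comm φ := by
  refine Subgroup.closure_induction (p := fun φ _ => Comm φ) ?_ ?_ ?_ ?_ h
  · rintro φ (h | ⟨g, rfl⟩)
    · exact comm_twist h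
    · exact comm_conj g
  · exact ⟨1, fun x => by simp⟩
  · intro φ ψ _ _ h1 h2; exact comm_mul h1 h2
  · intro φ _ h1; exact comm_inv h1

/-- `iota γ` is conjugate to `γ` or to `γ⁻¹`. -/
def Rev (γ : SurfaceGroup 2) : Prop := ∃ δ, iota γ = δ * γ * δ⁻¹ ∨ iota γ = δ * γ⁻¹ * δ⁻¹

lemma rev_map {φ : MulAut (SurfaceGroup 2)} (h : Comm φ) {γ : SurfaceGroup 2} (h2 : Rev γ) :
    Rev (φ γ) := by
  obtain ⟨δ, hδ⟩ := h
  obtain ⟨ε, hε⟩ := h2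
  refine ⟨δ * φ ε, ?_⟩
  rcases hε with hε | hε
  · left; rw [hδ, hε]; simp only [map_mul, map_inv, mul_inv_rev, mul_assoc]
  · right; rw [hδ, hε]; simp only [map_mul, map_inv, mul_inv_rev, mul_assoc]

lemma rev_inv {γ : SurfaceGroup 2} (h2 : Rev γ) : Rev γ⁻¹ := by
  obtain ⟨ε, hε⟩ := h2
  refine ⟨ε, ?_⟩
  rcases hε with hε | hε
  · left; rw [map_inv, hε]; group
  · right; rw [map_inv, hε]; group

lemma rev_A : Rev A₁ := by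
  refine ⟨Y 1, Or.inr ?_⟩
  rw [A₁_eq]
  simp only [map_mul, map_inv, iota_Y]
  calc (Y 0)⁻¹ * ((Y 2)⁻¹ * (Y 3)⁻¹)⁻¹ = (Y 0)⁻¹ * Y 3 * Y 2 := by group
    _ = _ := by rw [rel_a]; group

lemma Sep_eq : Sep = Y 3 * Y 2 * (Y 3)⁻¹ * (Y 2)⁻¹ := by
  rw [Sep, A₁_eq, B₁_eq]
  calc _ = (Y 0 * Y 1 * Y 2 * Y 3) * (Y 0)⁻¹ * (Y 1)⁻¹ * (Y 3)⁻¹ * (Y 2)⁻¹ := by group
    _ = _ := by rw [Y_rel]; group

lemma rev_Sep : Rev Sep := by
  refine ⟨(Y 2 * Y 3)⁻¹, Or.inl ?_⟩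
  rw [Sep_eq]
  simp only [map_mul, map_inv, iota_Y]
  group

lemma rev_of_simple {γ : SurfaceGroup 2} (h : IsSimple γ) : Rev γ := by
  rcases h with rfl | ⟨φ, hφ, h | h | h | h⟩
  · exact ⟨1, Or.inl (by simp)⟩
  · rw [h]; exact rev_map (comm_of_mem hφ) rev_A
  · rw [h]; exact rev_inv (rev_map (comm_of_mem hφ) rev_A)
  · rw [h]; exact rev_map (comm_of_mem hφ) rev_Sep
  · rw [h]; exact rev_inv (rev_map (comm_of_mem hφ) rev_Sep)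

end Pool.Agent.H225R3.Scc
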