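import Pool.Agent.H225R3.SccSym

/-! Proof that no collection of class functions is spanning. -/

set_option linter.unusedVariables false

open Quaternion Topology
open scoped ContDiff Classical

namespace Pool.Agent.H225R3.Scc

open Pool.Agent.H225R3.CV

/-- The homeomorphism of the quotient onto `UU`. -/
noncomputable def eH : Quo Om ≃ₜ UU where
  toFun := Quotient.lift (fun ρ : Om => (⟨Phi ρ.1, (normal_form ρ.2).1⟩ : UU)) (by
    rintro ρ ρ' ⟨k, hk⟩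
    refine Subtype.ext ?_
    show Phi ρ.1 = Phi ρ'.1
    rw [hk, Phi_conj])
  invFun := fun u => Quotient.mk _ ⟨sec u, good_sec u⟩
  left_inv := by
    intro y
    induction y using Quotient.inductionOn with | _ ρ => ?_
    exact Quotient.sound (conj_of_Phi_eq (good_sec _) ρ.2 (Phi_sec _))
  right_inv := fun u => Subtype.ext (Phi_sec u)
  continuous_toFun := (continuous_Phi.subtype_mk _).quotient_lift _
  continuous_invFun := continuous_quot_mk.comp (continuous_sec.subtype_mk _)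

lemma eH_mk (ρ : Om) : ((eH (Quotient.mk _ ρ) : UU) : E6) = Phi ρ.1 := rfl
lemma eH_symm (u : UU) : eH.symm u = Quotient.mk _ (⟨sec u, good_sec u⟩ : Om) := rfl

/-- conjugation as a continuous linear map -/
noncomputable def starL : ℍ[ℝ] →L[ℝ] ℍ[ℝ] :=
  ⟨{ toFun := fun q => star q, map_add' := fun _ _ => star_add _ _,
     map_smul' := fun _ _ => Quaternion.star_smul _ _ }, continuous_star⟩

section
variable {E : Type*} [NormedAddCommGroup E] [NormedSpace ℝ E] {s : Set E} {f : E → ℍ[ℝ]}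
lemma cd_star (hf : ContDiffOn ℝ ∞ f s) : ContDiffOn ℝ ∞ (fun x => star (f x)) s :=
  starL.contDiff.comp_contDiffOn hf
end

/-- the conjugate of a unit -/
noncomputable def starU (h : HU) : HU := Units.mk0 (star (h : ℍ[ℝ])) (by
  rw [Ne, star_eq_zero]; exact h.ne_zero)

lemma mk_starU (h : HU) : (QuotientGroup.mk (starU h) : PH) = (QuotientGroup.mk h)⁻¹ := by
  rw [← QuotientGroup.mk_inv]
  refine (mk_eq_mk.2 ⟨normSq (h : ℍ[ℝ]), normSq_ne h, ?_⟩).symm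
  rw [starU, Units.val_mk0, Units.val_inv_eq_inv_val, Quaternion.inv_def, smul_smul,
    mul_inv_cancel₀ (normSq_ne h), one_smul]

/-- `p` represents `y`. -/
def Rp (p : ℍ[ℝ]) (y : PH) : Prop := ∃ h : HU, (h : ℍ[ℝ]) = p ∧ y = QuotientGroup.mk h

lemma Rp.mul {p q : ℍ[ℝ]} {y z : PH} (h1 : Rp p y) (h2 : Rp q z) : Rp (p * q) (y * z) := by
  obtain ⟨h, rfl, rfl⟩ := h1
  obtain ⟨k, rfl, rfl⟩ := h2
  exact ⟨h * k, Units.val_mul _ _, QuotientGroup.mk_mul _ _ _⟩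
lemma Rp.inv {p : ℍ[ℝ]} {y : PH} (h1 : Rp p y) : Rp (star p) y⁻¹ := by
  obtain ⟨h, rfl, rfl⟩ := h1
  exact ⟨starU h, rfl, (mk_starU h).symm⟩
lemma Rp.one : Rp 1 1 := ⟨1, rfl, rfl⟩
lemma Rp_rot {v : ℍ[ℝ]} (hv : v.re = 0) : Rp (1 + v) (rot v) := ⟨onePlus v, onePlus_val hv, rfl⟩
lemma Rp.ne {p : ℍ[ℝ]} {y : PH} (h1 : Rp p y) : p ≠ 0 := by
  obtain ⟨h, rfl, -⟩ := h1
  exact h.ne_zero

/-- lift of a representation from the octagon generators -/
noncomputable def liftq (v : Fin 4 → ℍ[ℝ]) (x : Fin 2 ⊕ Fin 2) : ℍ[ℝ] :=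
  Sum.elim ![(1 + v 0) * star ((1 + v 2) * (1 + v 3)), (1 + v 2) * (1 + v 3)]
    ![(1 + v 2) * (1 + v 3) * (1 + v 1), 1 + v 3] x

lemma Rp_liftq (u : UU) (x : Fin 2 ⊕ Fin 2) : Rp (liftq (vv u) x) (sec u (gen x)) := by
  have h : ∀ i, Rp (1 + vv u i) (sec u (Y i)) := fun i => by
    rw [sec_Y]; exact Rp_rot (vv_re u i)
  rw [app_gen_eq]
  rcases x with x | x <;> fin_cases x
  · exact (h 0).mul ((h 2).mul (h 3)).inv
  · exact (h 2).mul (h 3)
  · exact ((h 2).mul (h 3)).mul (h 1)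
  · exact h 3

lemma cd_liftq (x : Fin 2 ⊕ Fin 2) : ContDiffOn ℝ ∞ (fun u => liftq (vv u) x) UU := by
  have h : ∀ i, ContDiffOn ℝ ∞ (fun u => 1 + vv u i) UU := fun i =>
    contDiffOn_const.add (cd_vv i)
  rcases x with x | x <;> fin_cases x
  · exact (h 0).mul (cd_star ((h 2).mul (h 3)))
  · exact (h 2).mul (h 3)
  · exact ((h 2).mul (h 3)).mul (h 1)
  · exact h 3

/-- Smooth lifts of the values of the section at all group elements. -/
lemma exists_lift (γ : SurfaceGroup 2) : ∃ L : E6 → ℍ[ℝ], ContDiffOn ℝ ∞ L UU ∧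
    ∀ u : UU, Rp (L u) (sec u γ) := by
  obtain ⟨w, rfl⟩ := PresentedGroup.mk_surjective _ γ
  induction w using FreeGroup.induction_on with
  | C1 => exact ⟨fun _ => 1, contDiffOn_const, fun u => by simpa using Rp.one⟩
  | of x => exact ⟨fun u => liftq (vv u) x, cd_liftq x, fun u => Rp_liftq u x⟩
  | inv_of x h =>
    obtain ⟨L, h1, h2⟩ := h
    refine ⟨fun u => star (L u), cd_star h1, fun u => ?_⟩
    simp only [map_inv]
    exact (h2 u).inv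
  | mul x y hx hy =>
    obtain ⟨L, h1, h2⟩ := hx
    obtain ⟨M, h3, h4⟩ := hy
    refine ⟨fun u => L u * M u, h1.mul h3, fun u => ?_⟩
    simp only [map_mul]
    exact (h2 u).mul (h4 u)

/-! ### the functions in coordinates -/

lemma fCoord_eq {f : PH → ℝ} (hf : ∀ k g : PH, f (k * g * k⁻¹) = f g) (γ : SurfaceGroup 2)
    (u : UU) : fCoord eH f γ u = f (sec u γ) := by
  rw [fCoord, dif_pos u.2]
  have h : (Quotient.mk _ (Quotient.out (eH.symm u)) : Quo Om) = Quotient.mk _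
    (⟨sec u, good_sec u⟩ : Om) := by rw [Quotient.out_eq, eH_symm]
  obtain ⟨k, hk⟩ := Quotient.exact h
  have h2 := DFunLike.congr_fun hk γ
  rw [conjRep_apply] at h2
  show f ((Quotient.out (eH.symm u)).1 γ) = f (sec u γ)
  have h3 : sec u γ = k * (Quotient.out (eH.symm u)).1 γ * k⁻¹ := h2
  rw [h3, hf]

lemma differentiableAt_fCoord {f : PH → ℝ} (hf : IsDiffClass f) (γ : SurfaceGroup 2)
    (u : UU) : DifferentiableAt ℝ (fCoord eH f γ) u := by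
  obtain ⟨L, h1, h2⟩ := exists_lift γ
  have hL : DifferentiableAt ℝ L u :=
    (h1.contDiffAt (isOpen_UU.mem_nhds u.2)).differentiableAt (by simp)
  set F : ℍ[ℝ] → ℝ := fun p => if h : p = 0 then 0 else f (QuotientGroup.mk (Units.mk0 p h))
    with hF
  have e : ∀ p y, Rp p y → F p = f y := by
    rintro p y ⟨h, rfl, rfl⟩
    rw [hF]
    simp only [h.ne_zero, dite_false, Units.mk0_val]
  have hFd : DifferentiableAt ℝ F (L u) := by
    obtain ⟨h, h3, -⟩ := h2 u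
    rw [← h3]
    exact hf.2 h
  refine (hFd.comp (u : E6) hL).congr_of_eventuallyEq ?_
  filter_upwards [isOpen_UU.mem_nhds u.2] with w hw
  rw [fCoord_eq hf.1 γ ⟨w, hw⟩, Function.comp_apply]
  exact (e _ _ (h2 ⟨w, hw⟩)).symm

lemma sgn_sec (u : UU) : sgn (vg (sec u)) = rr u := by
  rw [vg_sec]; exact sgn_eq (vv_re u) (vv_rel u.2)

lemma rr_neg {u : E6} (h : u 0 < 0) : rr u = -1 := by
  rw [rr, abs_of_neg h, div_neg, div_self h.ne]

lemma JL_mem {u : E6} (hu : u ∈ UU) (h : u 0 < 0) : JL u ∈ UU := by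
  have h1 := (normal_form (good_iota (good_sec ⟨u, hu⟩))).1
  rwa [Phi_iota (good_sec _) (by rw [sgn_sec]; exact rr_neg h), Phi_sec] at h1

lemma fCoord_JL {f : PH → ℝ} (hf : ∀ k g : PH, f (k * g * k⁻¹) = f g) {γ : SurfaceGroup 2}
    (hγ : IsSimple γ) {u : E6} (hu : u ∈ UU) (h : u 0 < 0) :
    fCoord eH f γ (JL u) = fCoord eH f γ u := by
  rw [fCoord_eq hf γ ⟨JL u, JL_mem hu h⟩, fCoord_eq hf γ ⟨u, hu⟩]
  have h1 : Phi ((sec ⟨u, hu⟩).comp iota) = Phi (sec ⟨JL u, JL_mem hu h⟩) := by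
    rw [Phi_iota (good_sec _) (by rw [sgn_sec]; exact rr_neg h), Phi_sec, Phi_sec]
  obtain ⟨k, hk⟩ := conj_of_Phi_eq (good_iota (good_sec ⟨u, hu⟩)) (good_sec _) h1
  rw [hk, conjRep_apply, hf, MonoidHom.comp_apply, class_iota hf hγ]

/-! ### the point -/

/-- the coordinates of the point -/
def uS : E6 := ![-1, 0, 1, 0, 0, 0]

lemma uS_mem : uS ∈ UU := by
  have h0 : uS 0 = -1 := rfl
  have hU : uS ∈ U0 := by
    refine ⟨by rw [h0]; norm_num, ?_⟩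
    have h1 : uS 1 = 0 := rfl
    have h2 : uS 2 = 1 := rfl
    rw [h0, h1, h2]; norm_num
  have hr : rr uS = -1 := rr_neg (by rw [h0]; norm_num)
  have hsq : CV.sq uS = 1 := by rw [CV.sq, h0]; norm_num
  have hb1 : b1 uS = 0 := by
    have h1 : uS 1 = 0 := rfl
    rw [b1, h1]; simp
  have hb2 : b2 uS = 1 := by
    have h1 : uS 1 = 0 := rfl
    have h2 : uS 2 = 1 := rfl
    rw [b2, h0, h1, h2]; norm_num
  have hva : va uS = mkQ 0 1 0 0 := by rw [va, hsq]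
  have hvb : vb uS = mkQ 0 0 1 0 := by rw [vb, hb1, hb2]
  have hk : kap uS = 1 := by
    have h1 : uS 1 = 0 := rfl
    have h3 : uS 3 = 0 := rfl
    have h4 : uS 4 = 0 := rfl
    rw [kap, hr, h1, h3, h4]; norm_num
  have hvc : vc uS = mkQ 0 0 1 0 := by
    have h3 : uS 3 = 0 := rfl
    have h4 : uS 4 = 0 := rfl
    rw [vc, hr, hsq, hb1, hb2, hk, h3, h4]; norm_num
  refine ⟨hU, ?_, ?_⟩
  · rw [hva, hvb, hvc]
    intro h
    have := congrArg (fun q : ℍ[ℝ] => q.imJ) h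
    simp [wp, dot] at this
  · rw [hva, hvb, hvc]
    intro h
    have := congrArg (fun q : ℍ[ℝ] => q.imK) h
    simp [wm, cr] at this

lemma JL_uS : JL uS = uS := by
  ext i
  rw [JL_apply]
  fin_cases i <;> simp [uS]

/-- a tangent vector killed by all differentials -/
def e4 : E6 := Pi.single 4 1

lemma JL_e4 : JL e4 = - e4 := by
  ext i
  rw [JL_apply]
  fin_cases i <;> simp [e4]

lemma deriv_zero {f : PH → ℝ} (hf : IsDiffClass f) {γ : SurfaceGroup 2}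
    (hγ : IsSimple γ) {ℓ : E6 →L[ℝ] ℝ} (h : HasFDerivAt (fCoord eH f γ) ℓ uS) : ℓ e4 = 0 := by
  have h1 : HasFDerivAt (fCoord eH f γ ∘ JL) (ℓ.comp JL) uS := by
    refine HasFDerivAt.comp uS ?_ JL.hasFDerivAt
    rw [JL_uS]; exact h
  have h2 : fCoord eH f γ ∘ JL =ᶠ[𝓝 uS] fCoord eH f γ := by
    have ho : IsOpen {u : E6 | u 0 < 0} := isOpen_lt (continuous_apply 0) continuous_const
    filter_upwards [isOpen_UU.mem_nhds uS_mem, ho.mem_nhds (show uS 0 < 0 by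
      show (-1 : ℝ) < 0; norm_num)] with w hw hw2
    exact fCoord_JL hf.1 hγ hw hw2
  have h3 := (h1.congr_of_eventuallyEq h2.symm).unique h
  have h4 := DFunLike.congr_fun h3 e4
  rw [ContinuousLinearMap.comp_apply, JL_e4, map_neg] at h4
  linarith

/-! ### the natural chart -/

/-- lifts of the octagon generators -/
noncomputable def yq (q : Fin 2 ⊕ Fin 2 → ℍ[ℝ]) : Fin 4 → ℍ[ℝ] :=
  ![q (Sum.inl 0) * q (Sum.inl 1), star (q (Sum.inl 1)) * q (Sum.inr 0),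
    q (Sum.inl 1) * star (q (Sum.inr 1)), q (Sum.inr 1)]

lemma Rp_yq {q : Fin 2 ⊕ Fin 2 → ℍ[ℝ]} {ρ : Rep 2 PH} (h : IsLift q ρ) (i : Fin 4) :
    Rp (yq q i) (ρ (Y i)) := by
  have h' : ∀ x, Rp (q x) (ρ (gen x)) := h
  fin_cases i
  · simpa [Y, yq] using (h' (Sum.inl 0)).mul (h' (Sum.inl 1))
  · simpa [Y, yq] using (h' (Sum.inl 1)).inv.mul (h' (Sum.inr 0))
  · simpa [Y, yq] using (h' (Sum.inl 1)).mul (h' (Sum.inr 1)).inv
  · simpa [Y, yq] using (h' (Sum.inr 1))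

/-- the Gibbs vectors -/
noncomputable def gq (q : Fin 2 ⊕ Fin 2 → ℍ[ℝ]) (i : Fin 4) : ℍ[ℝ] :=
  mkQ 0 ((yq q i).imI / (yq q i).re) ((yq q i).imJ / (yq q i).re) ((yq q i).imK / (yq q i).re)

lemma gq_eq {q : Fin 2 ⊕ Fin 2 → ℍ[ℝ]} {ρ : Rep 2 PH} (h : IsLift q ρ) : gq q = vg ρ := by
  ext i : 1
  obtain ⟨k, hk, hk2⟩ := Rp_yq h i
  rw [vg, hk2, gib_mk, hk, gq]
  ext <;> simp [div_eq_inv_mul]

lemma re_ne {q : Fin 2 ⊕ Fin 2 → ℍ[ℝ]} {ρ : Rep 2 PH} (h : IsLift q ρ) (hρ : Good ρ) (i : Fin 4) :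
    (yq q i).re ≠ 0 := by
  obtain ⟨k, hk, hk2⟩ := Rp_yq h i
  have h1 := hρ.1 i
  rw [hk2, coord_mk] at h1
  intro h0
  apply h1
  rw [← hk] at h0
  simp [comp, h0]

/-- first open set -/
def O1 : Set (Fin 2 ⊕ Fin 2 → ℍ[ℝ]) := {q | ∀ i, (yq q i).re ≠ 0}

lemma cd_proj (x : Fin 2 ⊕ Fin 2) : ContDiff ℝ ∞ (fun q : Fin 2 ⊕ Fin 2 → ℍ[ℝ] => q x) :=
  contDiff_apply ℝ ℍ[ℝ] x

lemma cd_yq (i : Fin 4) : ContDiff ℝ ∞ (fun q => yq q i) := by
  fin_cases i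
  · exact (cd_proj _).mul (cd_proj _)
  · exact (starL.contDiff.comp (cd_proj _)).mul (cd_proj _)
  · exact (cd_proj _).mul (starL.contDiff.comp (cd_proj _))
  · exact cd_proj _

lemma isOpen_O1 : IsOpen O1 := by
  have : O1 = ⋂ i, {q | (yq q i).re ≠ 0} := by ext q; simp [O1]
  rw [this]
  refine isOpen_iInter_of_finite fun i => isOpen_ne_fun ?_ continuous_const
  exact Quaternion.continuous_re.comp (cd_yq i).continuous

lemma cd_gq (i : Fin 4) : ContDiffOn ℝ ∞ (fun q => gq q i) O1 := by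
  have h := (cd_yq i).contDiffOn (s := O1)
  have hr : ContDiffOn ℝ ∞ (fun q => (yq q i).re) O1 := reL.contDiff.comp_contDiffOn h
  have h1 : ContDiffOn ℝ ∞ (fun q => (yq q i).imI) O1 := iL.contDiff.comp_contDiffOn h
  have h2 : ContDiffOn ℝ ∞ (fun q => (yq q i).imJ) O1 := jL.contDiff.comp_contDiffOn h
  have h3 : ContDiffOn ℝ ∞ (fun q => (yq q i).imK) O1 := kL.contDiff.comp_contDiffOn h
  exact cd_mkQ contDiffOn_const (h1.div hr fun q hq => hq i) (h2.div hr fun q hq => hq i)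
    (h3.div hr fun q hq => hq i)

lemma sgn_alt (v : Fin 4 → ℍ[ℝ]) : sgn v = (wd v * star (wd' v)).re / (wd' v * star (wd' v)).re := by
  rw [sgn, Quaternion.inv_def, Quaternion.self_mul_star, mul_smul_comm, Quaternion.re_smul]
  simp only [Quaternion.re_coe, smul_eq_mul]
  rw [div_eq_inv_mul]

lemma gq_re (q : Fin 2 ⊕ Fin 2 → ℍ[ℝ]) (i : Fin 4) : (gq q i).re = 0 := rfl

lemma cd_sgn : ContDiffOn ℝ ∞ (fun q => sgn (gq q)) O1 := by
  have h : ∀ i, ContDiffOn ℝ ∞ (fun q => 1 + gq q i) O1 := fun i =>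
    contDiffOn_const.add (cd_gq i)
  have h1 : ContDiffOn ℝ ∞ (fun q => wd (gq q)) O1 := (((h 0).mul (h 1)).mul (h 2)).mul (h 3)
  have h2 : ContDiffOn ℝ ∞ (fun q => wd' (gq q)) O1 := (((h 3).mul (h 2)).mul (h 1)).mul (h 0)
  have e : (fun q => sgn (gq q)) = fun q => (wd (gq q) * star (wd' (gq q))).re /
      (wd' (gq q) * star (wd' (gq q))).re := by
    ext q; exact sgn_alt _
  rw [e]
  refine ContDiffOn.div (reL.contDiff.comp_contDiffOn (h1.mul (cd_star h2)))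
    (reL.contDiff.comp_contDiffOn (h2.mul (cd_star h2))) fun q hq => ?_
  show (wd' (gq q) * star (wd' (gq q))).re ≠ 0
  rw [Quaternion.self_mul_star, Quaternion.re_coe, Ne, Quaternion.normSq_eq_zero]
  exact wd'_ne (gq_re q)

lemma cd_wrq : ContDiffOn ℝ ∞ (fun q => wr (sgn (gq q)) (gq q 0) (gq q 1) (gq q 2)) O1 :=
  cd_wr cd_sgn (cd_gq 0) (cd_gq 1) (cd_gq 2)

/-- second open set -/
def O2 : Set (Fin 2 ⊕ Fin 2 → ℍ[ℝ]) :=
  O1 ∩ (fun q => wr (sgn (gq q)) (gq q 0) (gq q 1) (gq q 2)) ⁻¹' {0}ᶜ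

lemma isOpen_O2 : IsOpen O2 :=
  cd_wrq.continuousOn.isOpen_inter_preimage isOpen_O1 isOpen_compl_singleton

lemma cd_dt' {E : Type*} [NormedAddCommGroup E] [NormedSpace ℝ E] {s : Set E}
    {f g h : E → ℍ[ℝ]} (hf : ContDiffOn ℝ ∞ f s) (hg : ContDiffOn ℝ ∞ g s)
    (hh : ContDiffOn ℝ ∞ h s) : ContDiffOn ℝ ∞ (fun x => dt (f x) (g x) (h x)) s :=
  cd_dot hf (cd_cr hg hh)

lemma cd_Psi : ContDiffOn ℝ ∞ (fun q => six (gq q)) O2 := by
  have hsub : O2 ⊆ O1 := fun q hq => hq.1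
  have h : ∀ i, ContDiffOn ℝ ∞ (fun q => gq q i) O2 := fun i => (cd_gq i).mono hsub
  have hs := cd_sgn.mono hsub
  have hw := cd_wrq.mono hsub
  refine contDiffOn_pi.2 fun i => ?_
  fin_cases i
  · exact hs.mul (cd_dot (h 0) (h 0))
  · exact cd_dot (h 0) (h 1)
  · exact cd_dot (h 1) (h 1)
  · exact cd_dot (h 2) (h 0)
  · exact (((contDiffOn_const.add hs).div_const 2).mul (cd_dot (h 2) (h 1))).add
      (((contDiffOn_const.sub hs).div_const 2).mul (cd_dt' (h 0) (h 1) (h 2)))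
  · refine (cd_dot (h 3) hw).div (cd_dot hw hw) fun q hq => ?_
    exact ((dot_self_eq_zero (wr_re (gq_re q 0) (gq_re q 1) (gq_re q 2))).not).2 hq.2

lemma mem_O2 {q : Fin 2 ⊕ Fin 2 → ℍ[ℝ]} {ρ : Rep 2 PH} (h : IsLift q ρ) (hρ : Good ρ) :
    q ∈ O2 := by
  refine ⟨fun i => re_ne h hρ i, ?_⟩
  show wr (sgn (gq q)) (gq q 0) (gq q 1) (gq q 2) ≠ 0
  rw [gq_eq h]
  rcases (good_rel hρ).1 with h | h <;> rw [h]
  · rw [wr_one]; exact hρ.2.2.1
  · rw [wr_neg_one]; exact hρ.2.2.2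

lemma isNaturalChart : IsNaturalChart eH where
  isOpen := isOpen_UU
  smooth_coord := by
    refine ⟨fun q => six (gq q), fun ρ q hq => ⟨?_, ?_⟩⟩
    · exact cd_Psi.contDiffAt (isOpen_O2.mem_nhds (mem_O2 hq ρ.2))
    · show six (gq q) = _
      rw [gq_eq hq, eH_mk, Phi]
  smooth_lift := by
    refine ⟨fun u => liftq (vv u), contDiffOn_pi.2 fun x => cd_liftq x, fun u => ?_⟩
    exact ⟨⟨sec u, good_sec u⟩, fun x => Rp_liftq u x, (eH_symm u).symm⟩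

theorem main : ∃ (Ω : Set (Rep 2 PH)) (U : Set (Fin 6 → ℝ)) (e : Quo Ω ≃ₜ U),
    IsZariskiOpen coordP Ω ∧ ConjInvariant Ω ∧ IsNaturalChart e ∧
    (∀ (f : PH → ℝ) (γ : SurfaceGroup 2) (y : Quo Ω), IsDiffClass f →
      DifferentiableAt ℝ (fCoord e f γ) (e y)) ∧
    ∃ x : Quo Ω, ∀ F : Set (PH → ℝ), (∀ f ∈ F, IsDiffClass f) →
      ¬ IsSpanning e (connectedComponent x) F := by
  refine ⟨Om, UU, eH, zariskiOpen_Om, conjInvariant_Om, isNaturalChart, ?_, ?_⟩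
  · intro f γ y hf
    exact differentiableAt_fCoord hf γ (eH y)
  · refine ⟨eH.symm ⟨uS, uS_mem⟩, fun F hF hsp => ?_⟩
    have h := hsp _ mem_connectedComponent
    have h1 : Submodule.span ℝ {ℓ : (Fin 6 → ℝ) →L[ℝ] ℝ | ∃ f ∈ F, ∃ γ, IsSimple γ ∧
        HasFDerivAt (fCoord eH f γ) ℓ (eH (eH.symm ⟨uS, uS_mem⟩))} ≤
        LinearMap.ker ((ContinuousLinearMap.apply ℝ ℝ e4 :
          (E6 →L[ℝ] ℝ) →L[ℝ] ℝ) : (E6 →L[ℝ] ℝ) →ₗ[ℝ] ℝ) := by
      rw [Submodule.span_le]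
      rintro ℓ ⟨f, hf, γ, hγ, hℓ⟩
      rw [eH.apply_symm_apply] at hℓ
      exact deriv_zero (hF f hf) hγ hℓ
    rw [h, top_le_iff] at h1
    have h2 : (ContinuousLinearMap.proj (R := ℝ) (φ := fun _ : Fin 6 => ℝ) 4 : E6 →L[ℝ] ℝ) ∈
        LinearMap.ker ((ContinuousLinearMap.apply ℝ ℝ e4 :
          (E6 →L[ℝ] ℝ) →L[ℝ] ℝ) : (E6 →L[ℝ] ℝ) →ₗ[ℝ] ℝ) := by
      rw [h1]; trivial
    have h3 : (1 : ℝ) = 0 := by
      have := LinearMap.mem_ker.1 h2
      simp [e4] at this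
    norm_num at h3

end Pool.Agent.H225R3.Scc
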