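import Pool.Agent.H225R3.SccGroup
import Pool.Agent.H225R3.Chart

/-! The action of the hyperelliptic involution in the coordinates. -/

open Quaternion Topology
open scoped ContDiff

namespace Pool.Agent.H225R3.Scc

open Pool.Agent.H225R3.CV

lemma gib_inv (y : PH) : gib y⁻¹ = - gib y := by
  obtain ⟨h, rfl⟩ := QuotientGroup.mk_surjective y
  have hn := normSq_ne h
  rw [← QuotientGroup.mk_inv, gib_mk, gib_mk, Units.val_inv_eq_inv_val, Quaternion.inv_def]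
  rcases eq_or_ne (h : ℍ[ℝ]).re 0 with h0 | h0
  · ext <;> simp [h0]
  · ext <;> simp <;> field_simp

lemma conj_inv (g : PH) : ∃ k : PH, g⁻¹ = k * g * k⁻¹ := by
  obtain ⟨h, rfl⟩ := QuotientGroup.mk_surjective g
  have key : ∃ k : ℍ[ℝ], k ≠ 0 ∧ k * (h : ℍ[ℝ]) = star (h : ℍ[ℝ]) * k := by
    by_cases h0 : (h : ℍ[ℝ]).im = 0
    · refine ⟨1, one_ne_zero, ?_⟩
      have e1 := congrArg (fun q : ℍ[ℝ] => q.imI) h0
      have e2 := congrArg (fun q : ℍ[ℝ] => q.imJ) h0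
      have e3 := congrArg (fun q : ℍ[ℝ] => q.imK) h0
      simp at e1 e2 e3
      ext <;> simp [e1, e2, e3]
    · obtain ⟨e, he, hne⟩ := exists_pure_ne (a := (h : ℍ[ℝ]).im) rfl h0
      refine ⟨cr (h : ℍ[ℝ]).im e, hne, ?_⟩
      set k := cr (h : ℍ[ℝ]).im e with hk
      have h1 : (h : ℍ[ℝ]).im * k = - (k * (h : ℍ[ℝ]).im) :=
        anticomm_of_dot rfl (cr_re _ _) (dot_cr_self_left rfl he)
      have h2 : (h : ℍ[ℝ]) = ((h : ℍ[ℝ]).re : ℍ[ℝ]) + (h : ℍ[ℝ]).im := by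
        ext <;> simp
      have h3 : star (h : ℍ[ℝ]) = ((h : ℍ[ℝ]).re : ℍ[ℝ]) - (h : ℍ[ℝ]).im := by
        ext <;> simp
      rw [h3, sub_mul, h1, sub_neg_eq_add, Quaternion.coe_commutes, ← mul_add, ← h2]
  obtain ⟨k, hk, hk2⟩ := key
  refine ⟨QuotientGroup.mk (Units.mk0 k hk), ?_⟩
  rw [← QuotientGroup.mk_inv, ← QuotientGroup.mk_inv, ← QuotientGroup.mk_mul,
    ← QuotientGroup.mk_mul]
  refine mk_eq_mk.2 ⟨normSq (h : ℍ[ℝ]), normSq_ne h, ?_⟩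
  rw [Units.val_mul, Units.val_mul, Units.val_inv_eq_inv_val, Units.val_inv_eq_inv_val,
    Units.val_mk0, hk2, mul_assoc, mul_inv_cancel₀ hk, mul_one, Quaternion.inv_def, smul_smul,
    mul_inv_cancel₀ (normSq_ne h), one_smul]

lemma vg_iota (ρ : Rep 2 PH) (i : Fin 4) : vg (ρ.comp iota) i = - vg ρ i := by
  rw [vg, MonoidHom.comp_apply, iota_Y, map_inv, gib_inv, vg]

lemma wp_neg (a b c : ℍ[ℝ]) : wp (-a) (-b) (-c) = - wp a b c := by
  simp only [wp, dot, neg_mul_neg, smul_neg]; abel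
lemma wm_neg (a b c : ℍ[ℝ]) : wm (-a) (-b) (-c) = wm a b c := by
  simp only [wm, cr, neg_mul_neg]
lemma dt_neg (a b c : ℍ[ℝ]) : dt (-a) (-b) (-c) = - dt a b c := by
  simp only [dt, dot, cr, neg_mul_neg, neg_mul]; simp
lemma dot_neg_neg (a b : ℍ[ℝ]) : dot (-a) (-b) = dot a b := by
  simp only [dot, neg_mul_neg]

lemma coord00_inv (y : PH) (h : coord 0 0 y ≠ 0) : coord 0 0 y⁻¹ ≠ 0 := by
  rw [coord_inv]; simpa [sg] using h

lemma good_iota {ρ : Rep 2 PH} (hρ : Good ρ) : Good (ρ.comp iota) := by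
  obtain ⟨h1, h2, h3, h4⟩ := hρ
  have e : ∀ i, gib ((ρ.comp iota) (Y i)) = - gib (ρ (Y i)) := fun i => vg_iota ρ i
  refine ⟨fun i => ?_, ?_, ?_, ?_⟩
  · rw [MonoidHom.comp_apply, iota_Y, map_inv]; exact coord00_inv _ (h1 i)
  · rw [e, e, cr, neg_mul_neg]; exact h2
  · rw [e, e, e, wp_neg]; exact neg_ne_zero.2 h3
  · rw [e, e, e, wm_neg]; exact h4

lemma star_one_add {v : ℍ[ℝ]} (hv : v.re = 0) : star (1 + v) = 1 + -v := by
  ext <;> simp [hv]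

lemma wd_neg {v : Fin 4 → ℍ[ℝ]} (hv : ∀ i, (v i).re = 0) : wd (fun i => - v i) = star (wd' v) := by
  simp only [wd, wd', star_mul, star_one_add (hv _), mul_assoc]
lemma wd'_neg {v : Fin 4 → ℍ[ℝ]} (hv : ∀ i, (v i).re = 0) :
    wd' (fun i => - v i) = star (wd v) := by
  simp only [wd, wd', star_mul, star_one_add (hv _), mul_assoc]

/-- The linear map `(u₀,…,u₅) ↦ (u₀,u₁,u₂,u₃,-u₄,-u₅)`. -/
noncomputable def JL : E6 →L[ℝ] E6 :=
  ContinuousLinearMap.pi fun i => ((![1, 1, 1, 1, -1, -1] : Fin 6 → ℝ) i) •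
    ContinuousLinearMap.proj (R := ℝ) (φ := fun _ : Fin 6 => ℝ) i

lemma JL_apply (u : E6) (i : Fin 6) : JL u i = ((![1, 1, 1, 1, -1, -1] : Fin 6 → ℝ) i) * u i := rfl

lemma Phi_iota {ρ : Rep 2 PH} (hρ : Good ρ) (hs : sgn (vg ρ) = -1) :
    Phi (ρ.comp iota) = JL (Phi ρ) := by
  obtain ⟨-, hrel⟩ := good_rel hρ
  have e : vg (ρ.comp iota) = fun i => - vg ρ i := by ext i : 1; exact vg_iota ρ i
  rw [Phi, Phi, e]
  set v := vg ρ with hv
  have hre : ∀ i, (v i).re = 0 := vg_re ρ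
  have hs' : sgn (fun i => - v i) = -1 := by
    refine sgn_eq (fun i => by simp [hre i]) ?_
    rw [wd_neg hre, wd'_neg hre, hrel, hs, Quaternion.star_smul, smul_smul]
    norm_num
  ext i
  rw [JL_apply]
  fin_cases i
  · show sgn (fun i => - v i) * dot (-(v 0)) (-(v 0)) = 1 * (sgn v * dot (v 0) (v 0))
    rw [hs', hs, dot_neg_neg]; ring
  · show dot (-(v 0)) (-(v 1)) = 1 * dot (v 0) (v 1)
    rw [dot_neg_neg, one_mul]
  · show dot (-(v 1)) (-(v 1)) = 1 * dot (v 1) (v 1)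
    rw [dot_neg_neg, one_mul]
  · show dot (-(v 2)) (-(v 0)) = 1 * dot (v 2) (v 0)
    rw [dot_neg_neg, one_mul]
  · show (1 + sgn (fun i => - v i)) / 2 * dot (-(v 2)) (-(v 1)) + (1 - sgn (fun i => - v i)) / 2 *
        dt (-(v 0)) (-(v 1)) (-(v 2)) =
      (-1) * ((1 + sgn v) / 2 * dot (v 2) (v 1) + (1 - sgn v) / 2 * dt (v 0) (v 1) (v 2))
    rw [hs', hs, dt_neg]; ring
  · show dot (-(v 3)) (wr (sgn (fun i => - v i)) (-(v 0)) (-(v 1)) (-(v 2))) /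
      dot (wr (sgn (fun i => - v i)) (-(v 0)) (-(v 1)) (-(v 2)))
        (wr (sgn (fun i => - v i)) (-(v 0)) (-(v 1)) (-(v 2))) =
      (-1) * (dot (v 3) (wr (sgn v) (v 0) (v 1) (v 2)) /
      dot (wr (sgn v) (v 0) (v 1) (v 2)) (wr (sgn v) (v 0) (v 1) (v 2)))
    rw [hs', hs, wr_neg_one, wr_neg_one, wm_neg]
    have : dot (-(v 3)) (wm (v 0) (v 1) (v 2)) = - dot (v 3) (wm (v 0) (v 1) (v 2)) := by
      simp only [dot, neg_mul]; simp
    rw [this]; ring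

/-- For a class function `f` and a simple curve `γ`, `f(ρ(ι γ)) = f(ρ(γ))`. -/
lemma class_iota {f : PH → ℝ} (hf : ∀ k g : PH, f (k * g * k⁻¹) = f g) {γ : SurfaceGroup 2}
    (hγ : IsSimple γ) (ρ : Rep 2 PH) : f (ρ (iota γ)) = f (ρ γ) := by
  obtain ⟨δ, h | h⟩ := rev_of_simple hγ
  · rw [h]; simp only [map_mul, map_inv]; exact hf _ _
  · rw [h]; simp only [map_mul, map_inv]
    rw [hf]
    obtain ⟨k, hk⟩ := conj_inv (ρ γ)
    rw [hk, hf]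

end Pool.Agent.H225R3.Scc
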