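import Pool.Agent.H225R3.Regular

/-! Smoothness of the vector operations, and the explicit normal form. -/

set_option linter.unusedVariables false

open Quaternion Topology
open scoped ContDiff

namespace Pool.Agent.H225R3.CV

/-- real part as a continuous linear map -/
noncomputable def reL : ℍ[ℝ] →L[ℝ] ℝ :=
  ⟨{ toFun := fun q => q.re, map_add' := fun _ _ => rfl, map_smul' := fun _ _ => rfl },
    Quaternion.continuous_re⟩
/-- the `i` part as a continuous linear map -/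
noncomputable def iL : ℍ[ℝ] →L[ℝ] ℝ :=
  ⟨{ toFun := fun q => q.imI, map_add' := fun _ _ => rfl, map_smul' := fun _ _ => rfl },
    Quaternion.continuous_imI⟩
/-- the `j` part as a continuous linear map -/
noncomputable def jL : ℍ[ℝ] →L[ℝ] ℝ :=
  ⟨{ toFun := fun q => q.imJ, map_add' := fun _ _ => rfl, map_smul' := fun _ _ => rfl },
    Quaternion.continuous_imJ⟩
/-- the `k` part as a continuous linear map -/
noncomputable def kL : ℍ[ℝ] →L[ℝ] ℝ :=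
  ⟨{ toFun := fun q => q.imK, map_add' := fun _ _ => rfl, map_smul' := fun _ _ => rfl },
    Quaternion.continuous_imK⟩

section
variable {E : Type*} [NormedAddCommGroup E] [NormedSpace ℝ E] {s : Set E}
  {f g h : E → ℍ[ℝ]} {f0 f1 f2 f3 r : E → ℝ}

lemma cd_mkQ (h0 : ContDiffOn ℝ ∞ f0 s) (h1 : ContDiffOn ℝ ∞ f1 s) (h2 : ContDiffOn ℝ ∞ f2 s)
    (h3 : ContDiffOn ℝ ∞ f3 s) : ContDiffOn ℝ ∞ (fun x => mkQ (f0 x) (f1 x) (f2 x) (f3 x)) s := by
  have : (fun x => mkQ (f0 x) (f1 x) (f2 x) (f3 x)) = fun x => f0 x • mkQ 1 0 0 0 +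
      f1 x • mkQ 0 1 0 0 + f2 x • mkQ 0 0 1 0 + f3 x • mkQ 0 0 0 1 := by
    ext x <;> simp
  rw [this]
  exact (((h0.smul contDiffOn_const).add (h1.smul contDiffOn_const)).add
    (h2.smul contDiffOn_const)).add (h3.smul contDiffOn_const)

lemma cd_dot (hf : ContDiffOn ℝ ∞ f s) (hg : ContDiffOn ℝ ∞ g s) :
    ContDiffOn ℝ ∞ (fun x => dot (f x) (g x)) s :=
  (reL.contDiff.comp_contDiffOn (hf.mul hg)).neg

lemma cd_cr (hf : ContDiffOn ℝ ∞ f s) (hg : ContDiffOn ℝ ∞ g s) :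
    ContDiffOn ℝ ∞ (fun x => cr (f x) (g x)) s := by
  have : (fun x => cr (f x) (g x)) = fun x => mkQ 0 (iL (f x * g x)) (jL (f x * g x))
      (kL (f x * g x)) := by
    ext x <;> rfl
  rw [this]
  have hm := hf.mul hg
  exact cd_mkQ contDiffOn_const (iL.contDiff.comp_contDiffOn hm) (jL.contDiff.comp_contDiffOn hm)
    (kL.contDiff.comp_contDiffOn hm)

lemma cd_wp (hf : ContDiffOn ℝ ∞ f s) (hg : ContDiffOn ℝ ∞ g s) (hh : ContDiffOn ℝ ∞ h s) :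
    ContDiffOn ℝ ∞ (fun x => wp (f x) (g x) (h x)) s := by
  unfold wp
  exact (((contDiffOn_const.sub (cd_dot hg hh)).smul hf).add
    ((contDiffOn_const.add (cd_dot hf hh)).smul hg)).add
    ((contDiffOn_const.sub (cd_dot hf hg)).smul hh)

lemma cd_wm (hf : ContDiffOn ℝ ∞ f s) (hg : ContDiffOn ℝ ∞ g s) (hh : ContDiffOn ℝ ∞ h s) :
    ContDiffOn ℝ ∞ (fun x => wm (f x) (g x) (h x)) s := by
  unfold wm
  exact ((cd_cr hf hg).add (cd_cr hg hh)).add (cd_cr hf hh)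

lemma cd_wr (hr : ContDiffOn ℝ ∞ r s) (hf : ContDiffOn ℝ ∞ f s) (hg : ContDiffOn ℝ ∞ g s)
    (hh : ContDiffOn ℝ ∞ h s) : ContDiffOn ℝ ∞ (fun x => wr (r x) (f x) (g x) (h x)) s := by
  unfold wr
  exact (((contDiffOn_const.add hr).div_const 2).smul (cd_wp hf hg hh)).add
    (((contDiffOn_const.sub hr).div_const 2).smul (cd_wm hf hg hh))

lemma cd_dvec {t : E → ℝ} (hr : ContDiffOn ℝ ∞ r s) (ht : ContDiffOn ℝ ∞ t s)
    (hf : ContDiffOn ℝ ∞ f s) (hg : ContDiffOn ℝ ∞ g s)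
    (hh : ContDiffOn ℝ ∞ h s)
    (hne : ∀ x ∈ s, dot (wr (r x) (f x) (g x) (h x)) (wr (r x) (f x) (g x) (h x)) ≠ 0) :
    ContDiffOn ℝ ∞ (fun x => dvec (r x) (t x) (f x) (g x) (h x)) s := by
  unfold dvec
  exact (((cd_dot (cd_wr hr hf hg hh) (cd_wr hr hf hg hh)).inv hne).smul
    (cd_cr (cd_wr hr hf hg hh) (cd_wr hr.neg hf hg hh))).add (ht.smul (cd_wr hr hf hg hh))
end

/-! ### the normal form -/

/-- parameters -/
abbrev E6 : Type := Fin 6 → ℝ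

noncomputable def rr (u : E6) : ℝ := u 0 / |u 0|
noncomputable def sq (u : E6) : ℝ := √|u 0|
noncomputable def b1 (u : E6) : ℝ := u 1 / sq u
noncomputable def b2 (u : E6) : ℝ := √(u 2 - u 1 ^ 2 / |u 0|)
noncomputable def va (u : E6) : ℍ[ℝ] := mkQ 0 (sq u) 0 0
noncomputable def vb (u : E6) : ℍ[ℝ] := mkQ 0 (b1 u) (b2 u) 0
noncomputable def kap (u : E6) : ℝ :=
  (1 + rr u) / 2 * u 4 + (1 - rr u) / 2 * (1 - u 1 - u 3)
noncomputable def vc (u : E6) : ℍ[ℝ] :=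
  mkQ 0 (u 3 / sq u) ((kap u - b1 u * (u 3 / sq u)) / b2 u)
    ((1 - rr u) / 2 * u 4 / (sq u * b2 u))
noncomputable def vd (u : E6) : ℍ[ℝ] := dvec (rr u) (u 5) (va u) (vb u) (vc u)

/-- first domain -/
def U0 : Set E6 := {u | u 0 ≠ 0 ∧ u 1 ^ 2 < |u 0| * u 2}
/-- the domain of the coordinates -/
def UU : Set E6 := {u | u ∈ U0 ∧ wp (va u) (vb u) (vc u) ≠ 0 ∧ wm (va u) (vb u) (vc u) ≠ 0}

lemma rr_cases {u : E6} (h : u 0 ≠ 0) : rr u = 1 ∨ rr u = -1 := by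
  unfold rr
  rcases lt_or_gt_of_ne h with h | h
  · right; rw [abs_of_neg h]; field_simp
  · left; rw [abs_of_pos h]; field_simp

lemma sq_pos {u : E6} (h : u 0 ≠ 0) : 0 < sq u := Real.sqrt_pos.2 (abs_pos.2 h)
lemma sq_sq {u : E6} : sq u ^ 2 = |u 0| := Real.sq_sqrt (abs_nonneg _)

lemma b2_arg {u : E6} (h : u ∈ U0) : 0 < u 2 - u 1 ^ 2 / |u 0| := by
  have h1 : 0 < |u 0| := abs_pos.2 h.1
  rw [sub_pos, div_lt_iff₀ h1, mul_comm]
  exact h.2
lemma b2_pos {u : E6} (h : u ∈ U0) : 0 < b2 u := Real.sqrt_pos.2 (b2_arg h)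
lemma b2_sq {u : E6} (h : u ∈ U0) : b2 u ^ 2 = u 2 - u 1 ^ 2 / |u 0| :=
  Real.sq_sqrt (b2_arg h).le

lemma va_re (u : E6) : (va u).re = 0 := rfl
lemma vb_re (u : E6) : (vb u).re = 0 := rfl
lemma vc_re (u : E6) : (vc u).re = 0 := rfl
lemma vd_re (u : E6) : (vd u).re = 0 := dvec_re (va_re u) (vb_re u) (vc_re u)

lemma gram_aa {u : E6} : dot (va u) (va u) = |u 0| := by
  rw [dot_def _ _ (va_re u)]; simp only [va, mkQ_imI, mkQ_imJ, mkQ_imK]
  rw [← @sq_sq u]; ring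
lemma gram_ab {u : E6} (h : u 0 ≠ 0) : dot (va u) (vb u) = u 1 := by
  have := sq_pos h
  rw [dot_def _ _ (va_re u)]; simp only [va, vb, b1, mkQ_imI, mkQ_imJ, mkQ_imK]
  field_simp; ring
lemma gram_bb {u : E6} (h : u ∈ U0) : dot (vb u) (vb u) = u 2 := by
  have h1 := sq_pos h.1
  rw [dot_def _ _ (vb_re u)]; simp only [vb, mkQ_imI, mkQ_imJ, mkQ_imK]
  have h2 : b1 u * b1 u = u 1 ^ 2 / |u 0| := by rw [← @sq_sq u, b1]; field_simp
  have h3 := b2_sq h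
  rw [h2]; nlinarith
lemma gram_ca {u : E6} (h : u 0 ≠ 0) : dot (vc u) (va u) = u 3 := by
  have := sq_pos h
  rw [dot_def _ _ (vc_re u)]; simp only [va, vc, mkQ_imI, mkQ_imJ, mkQ_imK]
  field_simp; ring
lemma gram_cb {u : E6} (h : u ∈ U0) : dot (vc u) (vb u) = kap u := by
  have h1 := sq_pos h.1
  have h2 := b2_pos h
  rw [dot_def _ _ (vc_re u)]; simp only [vb, vc, mkQ_imI, mkQ_imJ, mkQ_imK]
  field_simp; ring
lemma gram_dt {u : E6} (h : u ∈ U0) : dt (va u) (vb u) (vc u) = (1 - rr u) / 2 * u 4 := by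
  have h1 := sq_pos h.1
  have h2 := b2_pos h
  rw [dt, dot_def _ _ (va_re u), cr_imI _ _ (vb_re u) (vc_re u), cr_imJ _ _ (vb_re u) (vc_re u),
    cr_imK _ _ (vb_re u) (vc_re u)]
  simp only [va, vb, vc, mkQ_imI, mkQ_imJ, mkQ_imK]
  field_simp; ring
lemma gram_cr {u : E6} (h : u ∈ U0) : cr (va u) (vb u) ≠ 0 := by
  intro h0
  have h1 := dot_cr_cr (va_re u) (vb_re u)
  rw [h0, gram_aa, gram_ab h.1, gram_bb h, dot_zero_right] at h1
  have := h.2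
  linarith

lemma sign_dt {u : E6} (h : u ∈ U0) : rr u = 1 → dt (va u) (vb u) (vc u) = 0 := by
  intro h1; rw [gram_dt h, h1]; ring
lemma sign_ee {u : E6} (h : u ∈ U0) : rr u = -1 → ee (va u) (vb u) (vc u) = 0 := by
  intro h1
  rw [ee, gram_ab h.1, dot_comm' (vb u), gram_cb h, gram_ca h.1, kap, h1]; ring

lemma cd_abs0 : ContDiffOn ℝ ∞ (fun u : E6 => |u 0|) U0 := by
  intro u hu
  have h1 : ContDiffAt ℝ ∞ (fun u : E6 => u 0) u := (contDiff_apply ℝ ℝ 0).contDiffAt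
  exact ((contDiffAt_abs hu.1).comp u h1).contDiffWithinAt

lemma cd_coord (i : Fin 6) {s : Set E6} : ContDiffOn ℝ ∞ (fun u : E6 => u i) s :=
  (contDiff_apply ℝ ℝ i).contDiffOn

lemma cd_rr : ContDiffOn ℝ ∞ rr U0 :=
  (cd_coord 0).div cd_abs0 fun u hu => (abs_pos.2 hu.1).ne'
lemma cd_sq : ContDiffOn ℝ ∞ sq U0 :=
  ContDiffOn.sqrt cd_abs0 fun u hu => (abs_pos.2 hu.1).ne'
lemma cd_b1 : ContDiffOn ℝ ∞ b1 U0 :=
  (cd_coord 1).div cd_sq fun u hu => (sq_pos hu.1).ne'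
lemma cd_b2 : ContDiffOn ℝ ∞ b2 U0 :=
  ContDiffOn.sqrt ((cd_coord 2).sub (((cd_coord 1).pow 2).div cd_abs0
    fun u hu => (abs_pos.2 hu.1).ne')) fun u hu => (b2_arg hu).ne'
lemma cd_va : ContDiffOn ℝ ∞ va U0 :=
  cd_mkQ contDiffOn_const cd_sq contDiffOn_const contDiffOn_const
lemma cd_vb : ContDiffOn ℝ ∞ vb U0 :=
  cd_mkQ contDiffOn_const cd_b1 cd_b2 contDiffOn_const
lemma cd_kap : ContDiffOn ℝ ∞ kap U0 :=
  (((contDiffOn_const.add cd_rr).div_const 2).mul (cd_coord 4)).add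
    (((contDiffOn_const.sub cd_rr).div_const 2).mul
      ((contDiffOn_const.sub (cd_coord 1)).sub (cd_coord 3)))
lemma cd_vc : ContDiffOn ℝ ∞ vc U0 :=
  cd_mkQ contDiffOn_const ((cd_coord 3).div cd_sq fun u hu => (sq_pos hu.1).ne')
    ((cd_kap.sub (cd_b1.mul ((cd_coord 3).div cd_sq fun u hu => (sq_pos hu.1).ne'))).div cd_b2
      fun u hu => (b2_pos hu).ne')
    ((((contDiffOn_const.sub cd_rr).div_const 2).mul (cd_coord 4)).div (cd_sq.mul cd_b2)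
      fun u hu => (mul_pos (sq_pos hu.1) (b2_pos hu)).ne')

lemma isOpen_U0 : IsOpen U0 := by
  have h1 : IsOpen {u : E6 | u 0 ≠ 0} :=
    isOpen_ne_fun (continuous_apply 0) continuous_const
  have h2 : IsOpen {u : E6 | u 1 ^ 2 < |u 0| * u 2} :=
    isOpen_lt ((continuous_apply 1).pow 2) ((continuous_apply 0).abs.mul (continuous_apply 2))
  exact h1.inter h2

lemma isOpen_UU : IsOpen UU := by
  have h1 := (cd_wp cd_va cd_vb cd_vc).continuousOn.isOpen_inter_preimage isOpen_U0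
    (isOpen_compl_singleton (x := (0 : ℍ[ℝ])))
  have h2 := (cd_wm cd_va cd_vb cd_vc).continuousOn.isOpen_inter_preimage isOpen_U0
    (isOpen_compl_singleton (x := (0 : ℍ[ℝ])))
  have h3 : UU = (U0 ∩ (fun x => wp (va x) (vb x) (vc x)) ⁻¹' {0}ᶜ) ∩
      (U0 ∩ (fun x => wm (va x) (vb x) (vc x)) ⁻¹' {0}ᶜ) := by
    refine Set.ext fun u => ⟨fun h => ⟨⟨h.1, h.2.1⟩, ⟨h.1, h.2.2⟩⟩, fun h => ⟨h.1.1, h.1.2, h.2.2⟩⟩
  rw [h3]
  exact h1.inter h2

lemma wr_ne_zero {u : E6} (h : u ∈ UU) : wr (rr u) (va u) (vb u) (vc u) ≠ 0 := by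
  rcases rr_cases h.1.1 with h1 | h1 <;> rw [h1]
  · rw [wr_one]; exact h.2.1
  · rw [wr_neg_one]; exact h.2.2

lemma cd_vd : ContDiffOn ℝ ∞ vd UU := by
  have hsub : UU ⊆ U0 := fun u hu => hu.1
  refine cd_dvec (cd_rr.mono hsub) (cd_coord 5) (cd_va.mono hsub) (cd_vb.mono hsub)
    (cd_vc.mono hsub) fun u hu => ?_
  exact ((dot_self_eq_zero (wr_re (va_re u) (vb_re u) (vc_re u))).not).2 (wr_ne_zero hu)

/-- the four Gibbs vectors of the normal form -/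
noncomputable def vv (u : E6) : Fin 4 → ℍ[ℝ] := ![va u, vb u, vc u, vd u]

lemma vv_re (u : E6) (i : Fin 4) : (vv u i).re = 0 := by
  fin_cases i
  · exact va_re u
  · exact vb_re u
  · exact vc_re u
  · exact vd_re u

lemma cd_vv (i : Fin 4) : ContDiffOn ℝ ∞ (fun u => vv u i) UU := by
  have hsub : UU ⊆ U0 := fun u hu => hu.1
  fin_cases i
  · exact cd_va.mono hsub
  · exact cd_vb.mono hsub
  · exact cd_vc.mono hsub
  · exact cd_vd

/-- the octagon relation for the normal form -/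
lemma vv_rel {u : E6} (h : u ∈ UU) :
    (1 + va u) * (1 + vb u) * (1 + vc u) * (1 + vd u) =
      rr u • ((1 + vd u) * (1 + vc u) * (1 + vb u) * (1 + va u)) := by
  rw [octagon_iff (va_re u) (vb_re u) (vc_re u) (vd_re u) (rr_cases h.1.1)]
  have hs := dvec_spec (va_re u) (vb_re u) (vc_re u) (rr_cases h.1.1) (sign_dt h.1) (sign_ee h.1)
    (wr_ne_zero h) (u 5)
  exact ⟨sign_dt h.1, sign_ee h.1, hs.1, hs.2.1⟩

end Pool.Agent.H225R3.CV
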